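import Pool.Agent.Run7.h339.AE5

/-!
# A valuation which is bounded at all finite levels
-/

set_option autoImplicit false
set_option linter.unusedSectionVars false

namespace Run7.h339.AE

open NNReal NumberField IsDedekindDomain WithZero Pool.Agent.R614.GE

theorem liesOver_of_mem {Ω : Type} [Field Ω] [CharZero Ω] (v : Valuation Ω ℝ≥0) (p : ℕ)
    (hp : p.Prime) (hv : v p < 1) {M : Type} [Field M] [NumberField M] (q : Ideal (𝓞 M))
    (hq : q.IsPrime) (hpq : (p : 𝓞 M) ∈ q) : q.LiesOver (center v ℚ) := by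
  constructor
  ext b
  obtain ⟨n, rfl⟩ : ∃ n : ℤ, (n : 𝓞 ℚ) = b := ⟨Rat.ringOfIntegersEquiv b, by
    apply Rat.ringOfIntegersEquiv.injective
    rw [map_intCast]
    simp⟩
  have h2 : io (κ := Ω) ℚ (n : 𝓞 ℚ) = (n : Ω) := map_intCast _ _
  rw [mem_center, h2, center_rat v p hp hv, Ideal.mem_comap, map_intCast]
  constructor
  · rintro ⟨k, rfl⟩
    rw [Int.cast_mul, Int.cast_natCast]
    exact q.mul_mem_right _ hpq
  · intro h
    by_contra hcon
    have h1 : IsCoprime (p : ℤ) n :=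
      (Prime.coprime_iff_not_dvd (Nat.prime_iff_prime_int.1 hp)).2 hcon
    obtain ⟨a, b, hab⟩ := h1
    apply hq.ne_top
    rw [Ideal.eq_top_iff_one]
    have h3 : ((a : 𝓞 M) * (p : 𝓞 M) + (b : 𝓞 M) * (n : 𝓞 M)) = 1 := by
      exact_mod_cast congrArg (Int.cast : ℤ → 𝓞 M) hab
    rw [← h3]
    exact q.add_mem (q.mul_mem_left _ hpq) (q.mul_mem_left _ h)

theorem exists_g_of_primes {F Ω : Type} [Field F] [CharZero F] [Algebra.IsAlgebraic ℚ F]
    [Field Ω] [CharZero Ω] [IsGalois ℚ Ω] [Algebra F Ω] (v : Valuation Ω ℝ≥0) (p : ℕ)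
    (hp : p.Prime) (hv : v p < 1) (ℓ m : ℕ) (h : ∀ L : FS F, ∃ q : Ideal (𝓞 L.1), q.IsPrime ∧
      (p : 𝓞 L.1) ∈ q ∧ ¬ ℓ ^ m ∣ ld q) :
    ∃ g : Gal(Ω/ℚ), ∀ L : FS F, ¬ ℓ ^ m ∣ ld (center ((conj v g).comap (algebraMap F Ω)) L.1) := by
  have hne : ∀ L : FS F, {g : Gal(Ω/ℚ) |
      ¬ ℓ ^ m ∣ ld (center ((conj v g).comap (algebraMap F Ω)) L.1)}.Nonempty := by
    intro L
    obtain ⟨q, hq1, hq2, hq3⟩ := h L
    have hq4 := liesOver_of_mem v p hp hv q hq1 hq2
    obtain ⟨g, hg⟩ := exists_conj_center v L.1 q ⟨hq1, hq4⟩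
    refine ⟨g, ?_⟩
    show ¬ ℓ ^ m ∣ ld (center ((conj v g).comap (algebraMap F Ω)) L.1)
    rw [center_comap, hg]
    exact hq3
  have hcl : ∀ L : FS F, IsClosed {g : Gal(Ω/ℚ) |
      ¬ ℓ ^ m ∣ ld (center ((conj v g).comap (algebraMap F Ω)) L.1)} :=
    fun L => isClosed_of_locConst (isLocallyConstant_center' (κ := F) v L.1)
      (fun q => ¬ ℓ ^ m ∣ ld q)
  have hdir : Directed (· ⊇ ·) fun L : FS F => {g : Gal(Ω/ℚ) |
      ¬ ℓ ^ m ∣ ld (center ((conj v g).comap (algebraMap F Ω)) L.1)} := by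
    intro L L'
    exact ⟨fsSup L L', fun g hg h => hg (h.trans (ld_mono le_sup_left _)),
      fun g hg h => hg (h.trans (ld_mono le_sup_right _))⟩
  have : Nonempty (FS F) := ⟨fsAdj 0⟩
  obtain ⟨g, hg⟩ := IsCompact.nonempty_iInter_of_directed_nonempty_isCompact_isClosed _ hdir hne
    (fun L => (hcl L).isCompact) hcl
  rw [Set.mem_iInter] at hg
  exact ⟨g, hg⟩

/-- If every number field in `F` has a prime ideal over `p` whose local degree is not divisible by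
`ℓ ^ m`, the same holds for the centres of a suitable `p`-adic valuation of `F`. -/
theorem exists_val_of_primes {F : Type} [Field F] [CharZero F] [Algebra.IsAlgebraic ℚ F] (p : ℕ)
    (hp : p.Prime) (ℓ m : ℕ) (h : ∀ L : FS F, ∃ q : Ideal (𝓞 L.1), q.IsPrime ∧ (p : 𝓞 L.1) ∈ q ∧
      ¬ ℓ ^ m ∣ ld q) :
    ∃ w : Valuation F ℝ≥0, w p < 1 ∧ (∀ r : ℕ, r.Prime → r ≠ p → w r = 1) ∧
      ∀ L : FS F, ¬ ℓ ^ m ∣ ld (center w L.1) := by
  have hchar : CharZero (AlgebraicClosure F) :=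
    charZero_of_injective_algebraMap (algebraMap F (AlgebraicClosure F)).injective
  have halg : Algebra.IsAlgebraic ℚ (AlgebraicClosure F) := Algebra.IsAlgebraic.trans ℚ F _
  have hcl : IsAlgClosure ℚ (AlgebraicClosure F) := ⟨inferInstance, halg⟩
  have hgal : IsGalois ℚ (AlgebraicClosure F) := inferInstance
  obtain ⟨v, hv, hv2⟩ := exists_padic ℚ (κ := AlgebraicClosure F) p hp
  obtain ⟨g, hg⟩ := exists_g_of_primes v p hp hv ℓ m h
  have hw : ∀ n : ℕ, (conj v g).comap (algebraMap F (AlgebraicClosure F)) (n : F) = v n := by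
    intro n
    rw [Valuation.comap_apply, conj_apply, map_natCast, map_natCast]
  refine ⟨(conj v g).comap (algebraMap F (AlgebraicClosure F)), ?_, fun r hr hrp => ?_, hg⟩
  · rw [hw]
    exact hv
  · rw [hw]
    exact hv2 r hr hrp

end Run7.h339.AE
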