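import Mathlib

/-!
# Real embeddings extend to algebraic extensions with elements of odd degree
-/

set_option autoImplicit false

namespace Run7.h339.AE

open Polynomial

theorem odd_root (n : ℕ) : ∀ f : ℝ[X], f.natDegree = n → Odd n → ∃ x, f.IsRoot x := by
  induction n using Nat.strong_induction_on with
  | _ n ih =>
    intro f hf hn
    have hn0 : 0 < n := hn.pos
    have hf0 : f ≠ 0 := by
      rintro rfl
      rw [natDegree_zero] at hf
      omega
    have hfu : ¬ IsUnit f := by
      intro h
      have := natDegree_eq_zero_of_isUnit h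
      omega
    obtain ⟨g, hg, k, rfl⟩ := WfDvdMonoid.exists_irreducible_factor hfu hf0
    have h2 := hg.natDegree_le_two
    have h1 := hg.natDegree_pos
    rcases Nat.lt_or_ge 1 g.natDegree with h | h
    · have hk0 : k ≠ 0 := right_ne_zero_of_mul hf0
      have h3 : g.natDegree = 2 := by omega
      rw [natDegree_mul hg.ne_zero hk0, h3] at hf
      obtain ⟨x, hx⟩ := ih k.natDegree (by omega) k rfl (by
        rw [← hf] at hn
        rcases hn with ⟨m, hm⟩
        exact ⟨m - 1, by omega⟩)
      exact ⟨x, by
        rw [IsRoot.def] at hx ⊢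
        rw [eval_mul, hx, mul_zero]⟩
    · have h3 : g.degree = 1 := by
        rw [degree_eq_natDegree hg.ne_zero]
        have : g.natDegree = 1 := by omega
        rw [this]
        rfl
      obtain ⟨x, hx⟩ := exists_root_of_degree_eq_one h3
      exact ⟨x, by
        rw [IsRoot.def] at hx ⊢
        rw [eval_mul, hx, zero_mul]⟩

/-- Real embeddings extend to algebraic extensions whose elements have odd degrees. -/
theorem exists_real {F κ : Type} [Field F] [CharZero F] [Field κ] [Algebra F κ]
    [Algebra.IsAlgebraic F κ] (h : ∀ a : κ, Odd (minpoly F a).natDegree) (σ : F →+* ℝ) :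
    ∃ τ : κ →+* ℝ, τ.comp (algebraMap F κ) = σ := by
  let alg : Algebra F ℝ := σ.toAlgebra
  have h1 : Nonempty (κ →ₐ[F] ℝ) := by
    apply IntermediateField.Lifts.nonempty_algHom_of_exist_lifts_finset
    intro S
    have hfd : FiniteDimensional F (IntermediateField.adjoin F (S : Set κ)) :=
      IntermediateField.finiteDimensional_adjoin fun x _ => Algebra.IsIntegral.isIntegral x
    obtain ⟨α, hα⟩ := Field.exists_primitive_element F (IntermediateField.adjoin F (S : Set κ))
    have hle : IntermediateField.adjoin F (S : Set κ) ≤ IntermediateField.adjoin F {(α : κ)} := by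
      intro x hx
      have h3 : (⟨x, hx⟩ : IntermediateField.adjoin F (S : Set κ)) ∈
          IntermediateField.adjoin F {α} := by
        rw [hα]
        trivial
      have h4 : (IntermediateField.adjoin F (S : Set κ)).val ⟨x, hx⟩ ∈
        (IntermediateField.adjoin F {α}).map (IntermediateField.adjoin F (S : Set κ)).val :=
        ⟨_, h3, rfl⟩
      rw [IntermediateField.adjoin_map, Set.image_singleton] at h4
      exact h4
    have hint : IsIntegral F (α : κ) := Algebra.IsIntegral.isIntegral _
    obtain ⟨r, hr⟩ := odd_root _ ((minpoly F (α : κ)).map (algebraMap F ℝ)) rfl (by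
      rw [natDegree_map]
      exact h _)
    have hr2 : aeval r (minpoly F (α : κ)) = 0 := by
      rw [IsRoot.def, eval_map_algebraMap] at hr
      exact hr
    have hr3 : r ∈ (minpoly F (α : κ)).aroots ℝ := by
      rw [mem_aroots]
      exact ⟨minpoly.ne_zero hint, hr2⟩
    exact ⟨⟨IntermediateField.adjoin F {(α : κ)},
      (IntermediateField.algHomAdjoinIntegralEquiv F hint).symm ⟨r, hr3⟩⟩,
      fun x hx => hle (IntermediateField.subset_adjoin F _ hx)⟩
  obtain ⟨τ⟩ := h1
  refine ⟨τ, ?_⟩
  ext x
  exact τ.commutes x

end Run7.h339.AE
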