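import Mathlib

/-! Razmyslov's central values (adapted from `Pool.Agent.Helper58.EN.JX` of the starting tree, universe
polymorphic, and with the remark that the values lie in the two-sided ideal of the argument). -/

set_option autoImplicit false
set_option linter.all false

namespace Run7.h339.Raz

open Matrix Polynomial

theorem rz_split {A : Type*} [Monoid A] : ∀ {n : ℕ} (G : Fin n → A) (p : Fin n) (a : A),
    (List.ofFn (Function.update G p a)).prod =
      (List.ofFn (fun i => if i < p then G i else 1)).prod * a *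
        (List.ofFn (fun i => if p < i then G i else 1)).prod := by
  intro n
  induction n with
  | zero => intro G p; exact p.elim0
  | succ n ih =>
    intro G p a
    induction p using Fin.cases with
    | zero =>
      simp only [List.ofFn_succ, List.prod_cons]
      simp [Fin.succ_pos]
    | succ q =>
      have h1 : (fun i : Fin n => Function.update G q.succ a i.succ) =
          Function.update (fun i => G i.succ) q a := by
        funext i
        by_cases h : i = q
        · subst h; simp
        · rw [Function.update_of_ne h, Function.update_of_ne (by simpa using h)]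
      simp only [List.ofFn_succ, List.prod_cons]
      rw [h1, ih]
      simp [Fin.succ_pos, Function.update_of_ne (Fin.succ_ne_zero q).symm, mul_assoc]

/-- product before the slot -/
def rzL {A : Type*} [Ring A] {m : ℕ} (X y : Fin (m+1) → A) (σ : Equiv.Perm (Fin (m+1))) : A :=
  (List.ofFn (fun i => if i < σ.symm 0 then X (σ i) * y i else 1)).prod

/-- product after the slot -/
def rzR {A : Type*} [Ring A] {m : ℕ} (X y : Fin (m+1) → A) (σ : Equiv.Perm (Fin (m+1))) : A :=
  y (σ.symm 0) * (List.ofFn (fun i => if σ.symm 0 < i then X (σ i) * y i else 1)).prod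

/-- the reversed polynomial -/
def rzT {A : Type*} [Ring A] {m : ℕ} (X y : Fin (m+1) → A) (w : A) : A :=
  ∑ σ : Equiv.Perm (Fin (m+1)), (Equiv.Perm.sign σ : ℤ) • (rzR X y σ * w * rzL X y σ)

theorem rz_map {A B : Type*} [Ring A] [Ring B] (ψ : A →+* B) {m : ℕ} (X y : Fin (m+1) → A) (w : A) :
    ψ (rzT X y w) = rzT (fun i => ψ (X i)) (fun i => ψ (y i)) (ψ w) := by
  unfold rzT rzL rzR
  rw [map_sum]
  refine Finset.sum_congr rfl fun σ _ => ?_
  rw [map_zsmul, map_mul, map_mul, map_mul, map_list_prod, map_list_prod, List.map_ofFn, List.map_ofFn]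
  simp only [Function.comp_def, apply_ite ψ, map_mul, map_one]

theorem rz_prod {A : Type*} [Ring A] {m : ℕ} (X y : Fin (m+1) → A) (x : A)
    (σ : Equiv.Perm (Fin (m+1))) :
    (List.ofFn (fun i => (Function.update X 0 x) (σ i) * y i)).prod = rzL X y σ * x * rzR X y σ := by
  have h : (fun i => (Function.update X 0 x) (σ i) * y i) =
      Function.update (fun i => X (σ i) * y i) (σ.symm 0) (x * y (σ.symm 0)) := by
    funext i
    by_cases h : i = σ.symm 0
    · subst h; simp
    · rw [Function.update_of_ne h, Function.update_of_ne]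
      intro h2; apply h; rw [← h2]; simp
  rw [h, rz_split]
  unfold rzL rzR
  simp only [mul_assoc]

/-- the Capelli alternating map -/
noncomputable def rzCap {K : Type*} [Field K] {j n : ℕ} (y : Fin n → Matrix (Fin j) (Fin j) K) :
    (Matrix (Fin j) (Fin j) K) [⋀^Fin n]→ₗ[K] (Matrix (Fin j) (Fin j) K) :=
  MultilinearMap.alternatization
    ((MultilinearMap.mkPiAlgebraFin K n (Matrix (Fin j) (Fin j) K)).compLinearMap
      (fun i => LinearMap.mulRight K (y i)))

theorem rzCap_apply {K : Type*} [Field K] {j n : ℕ} (y x : Fin n → Matrix (Fin j) (Fin j) K) :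
    rzCap y x = ∑ σ : Equiv.Perm (Fin n), (Equiv.Perm.sign σ : ℤ) •
      (List.ofFn (fun i => x (σ i) * y i)).prod := by
  unfold rzCap
  rw [MultilinearMap.alternatization_apply]
  refine Finset.sum_congr rfl fun σ _ => ?_
  rw [Units.smul_def]
  simp [MultilinearMap.domDomCongr_apply]

theorem rz_trace {K : Type*} [Field K] {j m : ℕ} (X y : Fin (m+1) → Matrix (Fin j) (Fin j) K)
    (x w : Matrix (Fin j) (Fin j) K) :
    (rzCap y (Function.update X 0 x) * w).trace = (x * rzT X y w).trace := by
  rw [rzCap_apply, rzT, Finset.sum_mul, Finset.mul_sum, Matrix.trace_sum, Matrix.trace_sum]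
  refine Finset.sum_congr rfl fun σ _ => ?_
  rw [rz_prod, smul_mul_assoc, mul_smul_comm, Matrix.trace_smul, Matrix.trace_smul]
  congr 1
  rw [show rzL X y σ * x * rzR X y σ * w = rzL X y σ * (x * (rzR X y σ * w)) by simp only [mul_assoc],
    Matrix.trace_mul_comm]
  simp only [mul_assoc]

/-- linearity of the reversed polynomial -/
noncomputable def rzTl {K : Type*} [Field K] {j m : ℕ} (X y : Fin (m+1) → Matrix (Fin j) (Fin j) K) :
    Matrix (Fin j) (Fin j) K →ₗ[K] Matrix (Fin j) (Fin j) K where
  toFun w := rzT X y w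
  map_add' a b := by
    simp only [rzT, mul_add, add_mul, smul_add, Finset.sum_add_distrib]
  map_smul' c a := by
    simp only [rzT, RingHom.id_apply, Finset.smul_sum]
    refine Finset.sum_congr rfl fun σ _ => ?_
    rw [mul_smul_comm, smul_mul_assoc, smul_comm]

theorem rz_scalar {K : Type*} [Field K] {j : ℕ} (T : Matrix (Fin j) (Fin j) K) (i0 : Fin j)
    (h : ∀ x : Matrix (Fin j) (Fin j) K, x.trace = 0 → (x * T).trace = 0) :
    T = algebraMap K _ (T i0 i0) := by
  have h1 : ∀ a b (c : K) , (Matrix.single a b c * T).trace = c * T b a := by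
    intro a b c
    rw [Matrix.trace_single_mul, smul_eq_mul]
  ext a b
  rw [Matrix.algebraMap_matrix_apply]
  split_ifs with hab
  · subst hab
    have := h (Matrix.single a a 1 - Matrix.single i0 i0 1) (by simp)
    rw [sub_mul, Matrix.trace_sub, h1, h1] at this
    simp only [one_mul] at this
    simpa using sub_eq_zero.mp this
  · have := h (Matrix.single b a 1) (by
      rw [Matrix.trace_single_eq_of_ne]; exact fun h => hab h.symm)
    rw [h1] at this
    simpa using this

theorem rz_finrank_ker {K : Type*} [Field K] {j : ℕ} (i0 : Fin j) :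
    Module.finrank K (LinearMap.ker (Matrix.traceLinearMap (Fin j) K K)) + 1 = j * j := by
  have h := LinearMap.finrank_range_add_finrank_ker (Matrix.traceLinearMap (Fin j) K K)
  have hs : LinearMap.range (Matrix.traceLinearMap (Fin j) K K) = ⊤ := by
    rw [LinearMap.range_eq_top]
    intro c
    exact ⟨Matrix.single i0 i0 c, by simp⟩
  rw [hs, finrank_top, Module.finrank_self, Module.finrank_matrix] at h
  simp at h
  omega

theorem rz_small {K : Type*} [Field K] {j m : ℕ} (i0 : Fin j)
    (X y : Fin (m+1) → Matrix (Fin j) (Fin j) K)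
    (h : (j * j ≤ m) ∨ (j * j ≤ m + 1 ∧ ∀ i, (X i).trace = 0)) : rzCap y X = 0 := by
  apply AlternatingMap.map_linearDependent
  intro hl
  rcases h with h | ⟨h, h2⟩
  · have := hl.fintype_card_le_finrank
    rw [Module.finrank_matrix] at this
    simp at this
    omega
  · have h3 : LinearIndependent K (fun i => (⟨X i, by simpa using h2 i⟩ :
        LinearMap.ker (Matrix.traceLinearMap (Fin j) K K))) := by
      apply LinearIndependent.of_comp (Submodule.subtype _)
      exact hl
    have := h3.fintype_card_le_finrank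
    have h4 := rz_finrank_ker (K := K) i0
    simp at this
    omega

theorem rz_chain {A : Type*} [MonoidWithZero A] {n : ℕ} (F : Fin n → A) (p q : Fin n)
    (hq : q.val = p.val + 1) (h : F p * F q = 0) : (List.ofFn F).prod = 0 := by
  rw [← List.prod_take_mul_prod_drop (List.ofFn F) p.val]
  have hq2 := q.2
  rw [List.drop_eq_getElem_cons (by simp), List.drop_eq_getElem_cons (by simp; omega)]
  simp only [List.prod_cons, List.getElem_ofFn]
  have h1 : (⟨p.val + 1, by omega⟩ : Fin n) = q := Fin.ext hq.symm
  rw [h1, Fin.eta]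
  rw [← mul_assoc (F p), h, zero_mul, mul_zero]

theorem rz_path {K : Type*} [Field K] {k : ℕ} : ∀ (n : ℕ) (a : ℕ → Fin k),
    (List.ofFn (fun p : Fin (n+1) => (Matrix.single (a p) (a (p+1)) 1 : Matrix (Fin k) (Fin k) K))).prod
      = Matrix.single (a 0) (a (n+1)) 1 := by
  intro n
  induction n with
  | zero => intro a; simp
  | succ n ih =>
    intro a
    rw [List.ofFn_succ, List.prod_cons]
    have := ih (fun t => a (t+1))
    simp only [Fin.val_succ, Fin.val_zero]
    rw [this]
    simp

theorem rz_unit {K : Type*} [Field K] {k m : ℕ} (ε : Fin (m+1) ≃ Fin k × Fin k) :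
    ∃ y : Fin (m+1) → Matrix (Fin k) (Fin k) K,
      (rzCap y (fun p => Matrix.single (ε p).1 (ε p).2 1)).trace ≠ 0 := by
  refine ⟨fun p => Matrix.single (ε p).2 (ε (p+1)).1 1, ?_⟩
  rw [rzCap_apply, Finset.sum_eq_single (1 : Equiv.Perm (Fin (m+1)))]
  · have h := rz_path (K := K) m (fun t => (ε (Fin.ofNat (m+1) t)).1)
    have e1 : ∀ p : Fin (m+1), Fin.ofNat (m+1) p.val = p := by
      intro p; ext; simp [Fin.ofNat, Nat.mod_eq_of_lt p.2]
    have e2 : ∀ p : Fin (m+1), Fin.ofNat (m+1) (p.val+1) = p + 1 := by
      intro p; ext; simp [Fin.ofNat, Fin.val_add]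
    have e3 : Fin.ofNat (m+1) (m+1) = 0 := by
      ext; simp [Fin.ofNat]
    have e4 : Fin.ofNat (m+1) 0 = 0 := by
      ext; simp [Fin.ofNat]
    simp only [e1, e2, e3, e4] at h
    simp only [Equiv.Perm.coe_one, id_eq, Matrix.single_mul_single_same, mul_one]
    rw [h]
    simp
  · intro σ _ hσ
    by_contra hne
    apply hσ
    have hp : (List.ofFn (fun i => (Matrix.single (ε (σ i)).1 (ε (σ i)).2 1 *
        Matrix.single (ε i).2 (ε (i+1)).1 1 : Matrix (Fin k) (Fin k) K))).prod ≠ 0 := by
      intro h0
      apply hne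
      rw [h0, smul_zero]
    have h2 : ∀ i, (ε (σ i)).2 = (ε i).2 := by
      intro i
      by_contra h3
      apply hp
      apply List.prod_eq_zero
      rw [List.mem_ofFn]
      exact ⟨i, Matrix.single_mul_single_of_ne _ _ _ _ h3 _⟩
    have h1 : ∀ i q : Fin (m+1), q.val = i.val + 1 → (ε (σ q)).1 = (ε q).1 := by
      intro i q hq
      by_contra h3
      apply hp
      apply rz_chain _ i q hq
      have h4 : i + 1 = q := by
        ext
        rw [Fin.val_add_one_of_lt', hq]
        omega
      rw [h4, mul_assoc, ← mul_assoc (Matrix.single (ε i).2 (ε q).1 1),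
        Matrix.single_mul_single_of_ne _ _ _ _ (Ne.symm h3), zero_mul, mul_zero]
    have h5 : ∀ q : Fin (m+1), q ≠ 0 → σ q = q := by
      intro q hq
      apply ε.injective
      have hq' : q.val ≠ 0 := fun h => hq (Fin.ext h)
      exact Prod.ext (h1 ⟨q.val - 1, by omega⟩ q (by simp; omega)) (h2 q)
    ext1 q
    by_cases hq : q = 0
    · subst hq
      by_contra h6
      have h7 := h5 (σ 0) (by simpa using h6)
      exact h6 (σ.injective h7)
    · simpa using h5 q hq
  · simp

/-- commutators of elements of the range together with one matrix unit span everything -/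
theorem rz_span {R : Type*} [Ring R] {k : ℕ} {K : Type*} [Field K]
    (φ : R →+* Matrix (Fin k) (Fin k) K) (hφ : Submodule.span K (Set.range φ) = ⊤) (i0 : Fin k) :
    Submodule.span K (insert (Matrix.single i0 i0 (1:K))
      {x | ∃ u v : R, x = φ u * φ v - φ v * φ u}) = ⊤ := by
  set W := Submodule.span K (insert (Matrix.single i0 i0 (1:K))
      {x | ∃ u v : R, x = φ u * φ v - φ v * φ u}) with hW
  have h1 : ∀ (v : R) (a : Matrix (Fin k) (Fin k) K), a * φ v - φ v * a ∈ W := by
    intro v a
    have ha : a ∈ Submodule.span K (Set.range φ) := by rw [hφ]; trivial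
    induction ha using Submodule.span_induction with
    | mem x hx =>
      obtain ⟨u, rfl⟩ := hx
      exact Submodule.subset_span (Set.mem_insert_of_mem _ ⟨u, v, rfl⟩)
    | zero => simp
    | add x y _ _ hx hy =>
      have : (x + y) * φ v - φ v * (x + y) = (x * φ v - φ v * x) + (y * φ v - φ v * y) := by
        rw [add_mul, mul_add]; abel
      rw [this]; exact W.add_mem hx hy
    | smul c x _ hx =>
      have : (c • x) * φ v - φ v * (c • x) = c • (x * φ v - φ v * x) := by
        rw [smul_mul_assoc, mul_smul_comm, smul_sub]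
      rw [this]; exact W.smul_mem c hx
  have h2 : ∀ (a b : Matrix (Fin k) (Fin k) K), a * b - b * a ∈ W := by
    intro a b
    have hb : b ∈ Submodule.span K (Set.range φ) := by rw [hφ]; trivial
    induction hb using Submodule.span_induction with
    | mem x hx =>
      obtain ⟨u, rfl⟩ := hx
      exact h1 u a
    | zero => simp
    | add x y _ _ hx hy =>
      have : a * (x + y) - (x + y) * a = (a * x - x * a) + (a * y - y * a) := by
        rw [add_mul, mul_add]; abel
      rw [this]; exact W.add_mem hx hy
    | smul c x _ hx =>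
      have : a * (c • x) - (c • x) * a = c • (a * x - x * a) := by
        rw [smul_mul_assoc, mul_smul_comm, smul_sub]
      rw [this]; exact W.smul_mem c hx
  have h0 : Matrix.single i0 i0 (1:K) ∈ W := Submodule.subset_span (Set.mem_insert _ _)
  have h3 : ∀ i j (c : K), Matrix.single i j c ∈ W := by
    intro i j c
    by_cases hij : i = j
    · subst hij
      by_cases hi : i = i0
      · subst hi
        have := W.smul_mem c h0
        simpa using this
      · have h4 := h2 (Matrix.single i i0 c) (Matrix.single i0 i 1)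
        rw [Matrix.single_mul_single_same, Matrix.single_mul_single_same] at h4
        have h5 := W.add_mem h4 (W.smul_mem c h0)
        simpa using h5
    · have h4 := h2 (Matrix.single i i 1) (Matrix.single i j c)
      rw [Matrix.single_mul_single_same, Matrix.single_mul_single_of_ne _ _ _ _ (Ne.symm hij)] at h4
      simpa using h4
  rw [eq_top_iff]
  intro x _
  rw [Matrix.matrix_eq_sum_single x]
  exact W.sum_mem fun i _ => W.sum_mem fun j _ => h3 i j _

theorem rz_basis {R : Type*} [Ring R] {k m : ℕ} (hm : k * k = m + 1) {K : Type*} [Field K]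
    (φ : R →+* Matrix (Fin k) (Fin k) K) (hφ : Submodule.span K (Set.range φ) = ⊤) (i0 : Fin k) :
    ∃ (b : Module.Basis (Fin (m+1)) K (Matrix (Fin k) (Fin k) K)),
      b 0 = Matrix.single i0 i0 (1:K) ∧ ∀ i, i ≠ 0 → ∃ u v : R, b i = φ (u * v - v * u) := by
  have hs : LinearIndepOn K id ({Matrix.single i0 i0 (1:K)} : Set (Matrix (Fin k) (Fin k) K)) := by
    apply LinearIndepOn.singleton
    intro h
    have := congrFun (congrFun h i0) i0
    simp at this
  have hst : ({Matrix.single i0 i0 (1:K)} : Set (Matrix (Fin k) (Fin k) K)) ⊆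
      insert (Matrix.single i0 i0 (1:K)) {x | ∃ u v : R, x = φ u * φ v - φ v * φ u} := by
    intro x hx
    rw [Set.mem_singleton_iff] at hx
    subst hx
    exact Set.mem_insert _ _
  have ht := rz_span φ hφ i0
  let B := Module.Basis.extendLe hs hst ht.ge
  have hB1 := Module.Basis.extendLe_subset hs hst ht.ge
  have hB2 := Module.Basis.subset_extendLe hs hst ht.ge
  have : Fintype (hs.extend hst) := FiniteDimensional.fintypeBasisIndex B
  have hc : Fintype.card (hs.extend hst) = m + 1 := by
    rw [← Module.finrank_eq_card_basis B, Module.finrank_matrix]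
    simp [← hm]
  obtain ⟨z, hz⟩ := hB2 (Set.mem_singleton _)
  let e0 : hs.extend hst ≃ Fin (m+1) := Fintype.equivFinOfCardEq hc
  let e : hs.extend hst ≃ Fin (m+1) := e0.trans (Equiv.swap (e0 z) 0)
  have hez : e z = 0 := by simp [e]
  refine ⟨B.reindex e, ?_, ?_⟩
  · rw [Module.Basis.reindex_apply, ← hez, Equiv.symm_apply_apply]
    exact hz
  · intro i hi
    rw [Module.Basis.reindex_apply]
    have h1 := hB1 (Set.mem_range_self (e.symm i))
    rcases h1 with h1 | ⟨u, v, h1⟩
    · exfalso
      apply hi
      have h2 : e.symm i = z := by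
        apply B.injective
        rw [hz]; exact h1
      rw [← hez, ← h2, Equiv.apply_symm_apply]
    · exact ⟨u, v, by rw [map_sub, map_mul, map_mul]; exact h1⟩

theorem rz_ne {R : Type*} [Ring R] {k m : ℕ} (hm : k * k = m + 1) {K : Type*} [Field K]
    (φ : R →+* Matrix (Fin k) (Fin k) K) (hφ : Submodule.span K (Set.range φ) = ⊤)
    (b : Module.Basis (Fin (m+1)) K (Matrix (Fin k) (Fin k) K)) :
    ∃ y : Fin (m+1) → R, (rzCap (fun i => φ (y i)) b).trace ≠ 0 := by
  -- first some y in the matrix ring
  have hcard : Fintype.card (Fin k × Fin k) = Fintype.card (Fin (m+1)) := by simp [hm]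
  let ε : Fin (m+1) ≃ Fin k × Fin k := (Fintype.equivOfCardEq hcard).symm
  obtain ⟨y0, hy0⟩ := rz_unit (K := K) ε
  let g : (Matrix (Fin k) (Fin k) K) [⋀^Fin (m+1)]→ₗ[K] K :=
    (Matrix.traceLinearMap (Fin k) K K).compAlternatingMap (rzCap y0)
  let st : Module.Basis (Fin (m+1)) K (Matrix (Fin k) (Fin k) K) :=
    (Matrix.stdBasis K (Fin k) (Fin k)).reindex ε.symm
  have hst : ⇑st = fun p => Matrix.single (ε p).1 (ε p).2 (1:K) := by
    funext p
    simp only [st, Module.Basis.reindex_apply, Equiv.symm_symm]
    rw [show ε p = ((ε p).1, (ε p).2) from rfl, Matrix.stdBasis_eq_single]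
  have hg : g st ≠ 0 := by
    rw [hst]
    exact hy0
  have hgb : g b ≠ 0 := by
    rw [AlternatingMap.map_basis_ne_zero_iff]
    rwa [AlternatingMap.map_basis_ne_zero_iff] at hg
  -- multilinearity in y
  let H : MultilinearMap K (fun _ : Fin (m+1) => Matrix (Fin k) (Fin k) K) K :=
    ∑ σ : Equiv.Perm (Fin (m+1)), (Equiv.Perm.sign σ : ℤ) •
      (Matrix.traceLinearMap (Fin k) K K).compMultilinearMap
        ((MultilinearMap.mkPiAlgebraFin K (m+1) (Matrix (Fin k) (Fin k) K)).compLinearMap
          (fun i => LinearMap.mulLeft K (b (σ i))))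
  have hH : ∀ y, H y = (rzCap y b).trace := by
    intro y
    rw [rzCap_apply, Matrix.trace_sum]
    simp only [H, _root_.sum_apply]
    refine Finset.sum_congr rfl fun σ _ => ?_
    rw [Matrix.trace_smul]
    simp
  have hH0 : H ≠ 0 := by
    intro h
    apply hgb
    have := hH y0
    rw [h] at this
    exact this.symm
  by_contra hcon
  push Not at hcon
  apply hH0
  have hspan : ⊤ ≤ Submodule.span K (Set.range φ) := hφ.ge
  apply Module.Basis.ext_multilinear (fun _ => Module.Basis.ofSpan hspan)
  intro v
  have hv : ∀ i, ∃ r, φ r = Module.Basis.ofSpan hspan (v i) := fun i =>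
    Module.Basis.ofSpan_subset hspan (Set.mem_range_self (v i))
  choose r hr using hv
  have h2 : (fun i => Module.Basis.ofSpan hspan (v i)) = fun i => φ (r i) := by
    funext i; rw [hr i]
  rw [h2, hH, hcon r]
  rfl

theorem rz_alt {K : Type*} [Field K] {j m : ℕ} (hj : j * j ≤ m + 1)
    (X y : Fin (m+1) → Matrix (Fin j) (Fin j) K) (hX : ∀ i, i ≠ 0 → (X i).trace = 0) :
    ∃ l : Matrix (Fin j) (Fin j) K →ₗ[K] K,
        (∀ w, rzT X y w = algebraMap K (Matrix (Fin j) (Fin j) K) (l w)) ∧ (j * j ≤ m → l = 0) := by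
  rcases Nat.eq_zero_or_pos j with hj0 | hj0
  · subst hj0
    refine ⟨0, fun w => ?_, fun _ => rfl⟩
    exact Subsingleton.elim _ _
  · let i0 : Fin j := ⟨0, hj0⟩
    have key : ∀ (x w : Matrix (Fin j) (Fin j) K), x.trace = 0 → (x * rzT X y w).trace = 0 := by
      intro x w hx
      rw [← rz_trace, rz_small i0, zero_mul, Matrix.trace_zero]
      right
      refine ⟨hj, fun i => ?_⟩
      by_cases hi : i = 0
      · subst hi; simpa using hx
      · rw [Function.update_of_ne hi]; exact hX i hi
    refine ⟨(Matrix.entryLinearMap K K i0 i0) ∘ₗ (rzTl X y), fun w => ?_, fun hjm => ?_⟩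
    · exact rz_scalar _ i0 (fun x hx => key x w hx)
    · ext1 w
      have h1 : ∀ x, (x * rzT X y w).trace = 0 := by
        intro x
        rw [← rz_trace, rz_small i0 _ _ (Or.inl hjm), zero_mul, Matrix.trace_zero]
      have h2 := h1 (Matrix.single i0 i0 1)
      rw [Matrix.trace_single_mul, one_smul] at h2
      exact h2


theorem razmyslov {R : Type*} [Ring R] {k : ℕ} (hk : 0 < k) {K : Type*} [Field K]
    (φ : R →+* Matrix (Fin k) (Fin k) K) (hφ : Submodule.span K (Set.range φ) = ⊤) :
    ∃ T : R → R, (∃ l : Matrix (Fin k) (Fin k) K →ₗ[K] K,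
        ∀ r, φ (T r) = algebraMap K (Matrix (Fin k) (Fin k) K) (l (φ r))) ∧
      ∃ r, φ (T r) ≠ 0 := by
  obtain ⟨m, hm⟩ : ∃ m, k * k = m + 1 :=
    ⟨k * k - 1, by have := Nat.mul_pos hk hk; omega⟩
  let i0 : Fin k := ⟨0, hk⟩
  obtain ⟨b, hb0, hb⟩ := rz_basis hm φ hφ i0
  choose! u v huv using hb
  obtain ⟨y, hy⟩ := rz_ne hm φ hφ b
  let X : Fin (m+1) → R := fun i => if i = 0 then 0 else u i * v i - v i * u i
  refine ⟨rzT X y, ?_, 1, ?_⟩
  · obtain ⟨l, hl, hl2⟩ := rz_alt (K := K) hm.le (fun i => φ (X i)) (fun i => φ (y i)) (by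
      intro i hi
      simp only [X, if_neg hi, map_sub, map_mul, Matrix.trace_sub]
      rw [Matrix.trace_mul_comm, sub_self])
    refine ⟨l, fun r => ?_⟩
    rw [rz_map, hl]
  · rw [rz_map]
    intro h0
    apply hy
    have h1 : (b : Fin (m+1) → Matrix (Fin k) (Fin k) K) =
        Function.update (fun i => φ (X i)) 0 (Matrix.single i0 i0 1) := by
      funext i
      by_cases hi : i = 0
      · subst hi; simp [hb0]
      · rw [Function.update_of_ne hi]
        simp only [X, if_neg hi]
        exact huv i hi
    rw [h1, ← mul_one (rzCap _ _), rz_trace]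
    rw [map_one] at h0
    rw [h0, mul_zero, Matrix.trace_zero]

end Run7.h339.Raz
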