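import Mathlib
import Pool.Agent.Run7.h339.Raz

/-! The central localisation of a ring of matrices over a field `L` which spans the matrix algebra. -/

set_option autoImplicit false
set_option linter.all false

namespace Run7.h339

open Module Matrix

universe u

section

variable {A : Type*} [Ring A] {L : Type u} [Field L] {n : ℕ}
  (φ : A →+* Matrix (Fin n) (Fin n) L)

/-- the scalars which are values -/
def scal : Subring L := φ.range.comap (algebraMap L (Matrix (Fin n) (Fin n) L))

theorem mem_scal {s : L} : s ∈ scal φ ↔ ∃ a, φ a = algebraMap L _ s := by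
  unfold scal
  rw [Subring.mem_comap, RingHom.mem_range]

/-- the field of quotients of these scalars -/
def cen : Subfield L := Subfield.closure (scal φ : Set L)

theorem scal_le {s : L} (hs : s ∈ scal φ) : s ∈ cen φ := Subfield.subset_closure hs

theorem mem_cen {c : L} (hc : c ∈ cen φ) : ∃ y ∈ scal φ, ∃ z ∈ scal φ, z ≠ 0 ∧ z * c = y := by
  unfold cen at hc
  rw [Subfield.mem_closure_iff] at hc
  obtain ⟨y, hy, z, hz, rfl⟩ := hc
  rw [Subring.closure_eq] at hy hz
  by_cases h : z = 0
  · refine ⟨0, Subring.zero_mem _, 1, Subring.one_mem _, one_ne_zero, ?_⟩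
    rw [h, div_zero, mul_zero]
  · exact ⟨y, hy, z, hz, h, mul_div_cancel₀ y h⟩

/-- The central localisation. -/
def loc : Subalgebra (cen φ) (Matrix (Fin n) (Fin n) L) where
  carrier := {x | ∃ s ∈ scal φ, s ≠ 0 ∧ ∃ a, φ a = s • x}
  mul_mem' := by
    rintro x y ⟨s, hs, hs0, a, ha⟩ ⟨t, ht, ht0, b, hb⟩
    refine ⟨s * t, Subring.mul_mem _ hs ht, mul_ne_zero hs0 ht0, a * b, ?_⟩
    rw [map_mul, ha, hb, smul_mul_assoc, mul_smul_comm, smul_smul]
  add_mem' := by
    rintro x y ⟨s, hs, hs0, a, ha⟩ ⟨t, ht, ht0, b, hb⟩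
    obtain ⟨s', hs'⟩ := (mem_scal φ).1 hs
    obtain ⟨t', ht'⟩ := (mem_scal φ).1 ht
    refine ⟨s * t, Subring.mul_mem _ hs ht, mul_ne_zero hs0 ht0, t' * a + s' * b, ?_⟩
    rw [map_add, map_mul, map_mul, ha, hb, hs', ht', Algebra.algebraMap_eq_smul_one,
      Algebra.algebraMap_eq_smul_one, smul_mul_assoc, one_mul, smul_mul_assoc, one_mul, smul_smul,
      smul_smul, smul_add, mul_comm t s]
  algebraMap_mem' := by
    rintro ⟨c, hc⟩
    obtain ⟨y, hy, z, hz, hz0, hzc⟩ := mem_cen φ hc
    obtain ⟨a, ha⟩ := (mem_scal φ).1 hy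
    refine ⟨z, hz, hz0, a, ?_⟩
    rw [ha, ← hzc, map_mul, ← Algebra.smul_def]
    congr 1

theorem mem_loc {x : Matrix (Fin n) (Fin n) L} :
    x ∈ loc φ ↔ ∃ s ∈ scal φ, s ≠ 0 ∧ ∃ a, φ a = s • x := Iff.rfl

theorem map_mem_loc (a : A) : φ a ∈ loc φ :=
  ⟨1, Subring.one_mem _, one_ne_zero, a, (one_smul _ _).symm⟩

/-- a scalar matrix of the localisation comes from the centre -/
theorem scalar_mem {c : L} (h : algebraMap L (Matrix (Fin n) (Fin n) L) c ∈ loc φ) : c ∈ cen φ := by
  obtain ⟨s, hs, hs0, a, ha⟩ := h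
  have h1 : s * c ∈ scal φ := by
    rw [mem_scal]
    exact ⟨a, by rw [ha, map_mul, ← Algebra.smul_def]⟩
  have h2 := (cen φ).mul_mem ((cen φ).inv_mem (scal_le φ hs)) (scal_le φ h1)
  rwa [inv_mul_cancel_left₀ hs0] at h2

variable {φ} (hφ : Submodule.span L (Set.range φ) = ⊤)

include hφ in
theorem span_mul_mul {x : Matrix (Fin n) (Fin n) L} (hx : x ≠ 0) :
    Submodule.span L {y | ∃ a b : A, φ a * x * φ b = y} = ⊤ := by
  set W := Submodule.span L {y | ∃ a b : A, φ a * x * φ b = y} with hW
  have h1 : ∀ (a : A) (z : Matrix (Fin n) (Fin n) L), φ a * x * z ∈ W := by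
    intro a z
    have hz : z ∈ Submodule.span L (Set.range φ) := by rw [hφ]; trivial
    induction hz using Submodule.span_induction with
    | mem y hy =>
      obtain ⟨b, rfl⟩ := hy
      exact Submodule.subset_span ⟨a, b, rfl⟩
    | zero => rw [mul_zero]; exact W.zero_mem
    | add y z _ _ hy hz => rw [mul_add]; exact W.add_mem hy hz
    | smul c y _ hy => rw [mul_smul_comm]; exact W.smul_mem c hy
  have h2 : ∀ (w z : Matrix (Fin n) (Fin n) L), w * x * z ∈ W := by
    intro w z
    have hw : w ∈ Submodule.span L (Set.range φ) := by rw [hφ]; trivial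
    induction hw using Submodule.span_induction with
    | mem y hy =>
      obtain ⟨b, rfl⟩ := hy
      exact h1 b z
    | zero => rw [zero_mul, zero_mul]; exact W.zero_mem
    | add y z' _ _ hy hz => rw [add_mul, add_mul]; exact W.add_mem hy hz
    | smul c y _ hy => rw [smul_mul_assoc, smul_mul_assoc]; exact W.smul_mem c hy
  obtain ⟨i, j, hij⟩ : ∃ i j, x i j ≠ 0 := by
    by_contra hno
    push Not at hno
    exact hx (by ext i j; exact hno i j)
  rw [eq_top_iff]
  intro y _
  rw [Matrix.matrix_eq_sum_single y]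
  refine W.sum_mem fun a _ => W.sum_mem fun b _ => ?_
  have h3 := W.smul_mem (y a b * (x i j)⁻¹) (h2 (Matrix.single a i 1) (Matrix.single j b 1))
  have h4 : Matrix.single a i (1 : L) * x * Matrix.single j b 1 = Matrix.single a b (x i j) := by
    rw [Matrix.single_mul_mul_single, one_mul, mul_one]
  rw [h4, Matrix.smul_single, smul_eq_mul, inv_mul_cancel_right₀ hij] at h3
  exact h3

/-- a subspace over the centre which spans has dimension at least `n ^ 2` -/
theorem finrank_ge (W : Submodule (cen φ) (Matrix (Fin n) (Fin n) L)) [FiniteDimensional (cen φ) W]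
    (hW : Submodule.span L (W : Set (Matrix (Fin n) (Fin n) L)) = ⊤) :
    n * n ≤ finrank (cen φ) W := by
  let B := Module.Basis.ofSpan hW.ge
  have hB : ∀ i, B i ∈ W := fun i => Module.Basis.ofSpan_subset hW.ge (Set.mem_range_self i)
  haveI := FiniteDimensional.fintypeBasisIndex B
  have h1 : LinearIndependent (cen φ) (fun i => (⟨B i, hB i⟩ : W)) := by
    apply LinearIndependent.of_comp W.subtype
    have h2 : LinearIndependent L B := B.linearIndependent
    exact h2.restrict_scalars' (cen φ)
  have h3 := h1.fintype_card_le_finrank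
  rw [← Module.finrank_eq_card_basis B, Module.finrank_matrix] at h3
  simpa using h3

end

end Run7.h339
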