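import Mathlib
import Pool.Agent.Run7.h339.CL

/-! The central localisation is central simple of dimension `n ^ 2`. -/

set_option autoImplicit false
set_option linter.all false

namespace Run7.h339

open Module Matrix

universe u

section

variable {A : Type*} [Ring A] {L : Type u} [Field L] {n : ℕ}
  {φ : A →+* Matrix (Fin n) (Fin n) L} (hφ : Submodule.span L (Set.range φ) = ⊤) (hn : 0 < n)

include hφ hn in
theorem loc_inj : ∃ (ι : Type u) (_ : Fintype ι) (Ψ : loc φ →ₗ[cen φ] (ι → cen φ)),
    Function.Injective Ψ ∧ Fintype.card ι = n * n := by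
  obtain ⟨T, ⟨l, hl⟩, r₀, hr₀⟩ := Raz.razmyslov hn φ hφ
  have hl0 : l ≠ 0 := by
    intro h
    apply hr₀
    rw [hl, h, LinearMap.zero_apply, map_zero]
  let F : A → A → Module.Dual L (Matrix (Fin n) (Fin n) L) := fun a b =>
    l ∘ₗ (LinearMap.mulLeft L (φ a)) ∘ₗ (LinearMap.mulRight L (φ b))
  have hF : ∀ a b x, F a b x = l (φ a * x * φ b) := by
    intro a b x
    show l (φ a * (x * φ b)) = _
    rw [mul_assoc]
  set W : Submodule L (Module.Dual L (Matrix (Fin n) (Fin n) L)) :=
    Submodule.span L {f | ∃ a b, F a b = f} with hW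
  have hWc : W.dualCoannihilator = ⊥ := by
    rw [eq_bot_iff]
    intro x hx
    rw [Submodule.mem_dualCoannihilator] at hx
    rw [Submodule.mem_bot]
    by_contra hx0
    apply hl0
    ext1 y
    have hy : y ∈ Submodule.span L {y | ∃ a b : A, φ a * x * φ b = y} := by
      rw [span_mul_mul hφ hx0]; trivial
    induction hy using Submodule.span_induction with
    | mem y hy =>
      obtain ⟨a, b, rfl⟩ := hy
      rw [← hF, LinearMap.zero_apply]
      exact hx _ (Submodule.subset_span ⟨a, b, rfl⟩)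
    | zero => rw [map_zero, map_zero]
    | add y z _ _ hy hz => rw [map_add, hy, hz, map_add]
    | smul c y _ hy => rw [map_smul, hy, map_smul]
  have hWt : W = ⊤ := by
    apply Submodule.eq_top_of_finrank_eq
    have h1 := Subspace.finrank_add_finrank_dualCoannihilator_eq W
    rw [hWc, finrank_bot, add_zero] at h1
    rw [h1, Subspace.dual_finrank_eq]
  let B := Module.Basis.ofSpan hWt.ge
  have hB : ∀ i, ∃ a b, F a b = B i := fun i =>
    Module.Basis.ofSpan_subset hWt.ge (Set.mem_range_self i)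
  haveI := FiniteDimensional.fintypeBasisIndex B
  have hmem : ∀ i, ∀ x ∈ loc φ, B i x ∈ cen φ := by
    intro i x hx
    obtain ⟨s, hs, hs0, r, hr⟩ := hx
    obtain ⟨a, b, hab⟩ := hB i
    have h1 : s * B i x ∈ scal φ := by
      rw [mem_scal]
      refine ⟨T (a * r * b), ?_⟩
      rw [hl, map_mul φ, map_mul φ, hr, ← hab, hF, mul_smul_comm, smul_mul_assoc, map_smul, smul_eq_mul]
    have h2 := (cen φ).mul_mem ((cen φ).inv_mem (scal_le φ hs)) (scal_le φ h1)
    rwa [inv_mul_cancel_left₀ hs0] at h2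
  refine ⟨_, inferInstance,
    { toFun := fun x i => ⟨B i (x : Matrix (Fin n) (Fin n) L), hmem i x x.2⟩
      map_add' := ?_
      map_smul' := ?_ }, ?_, ?_⟩
  · intro x y
    funext i
    apply Subtype.ext
    show B i ((x : Matrix (Fin n) (Fin n) L) + y) = B i x + B i y
    rw [map_add]
  · intro c x
    funext i
    apply Subtype.ext
    show B i ((c : L) • (x : Matrix (Fin n) (Fin n) L)) = (c : L) * B i x
    rw [map_smul, smul_eq_mul]
  · intro x y hxy
    apply Subtype.ext
    rw [← sub_eq_zero, ← Module.forall_dual_apply_eq_zero_iff L]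
    intro f
    have hf : f ∈ Submodule.span L (Set.range B) := by rw [B.span_eq]; trivial
    have h0 : ∀ i, B i ((x : Matrix (Fin n) (Fin n) L) - y) = 0 := by
      intro i
      have h1 := congrArg Subtype.val (congrFun hxy i)
      rw [map_sub, sub_eq_zero]
      exact h1
    induction hf using Submodule.span_induction with
    | mem f hf => obtain ⟨i, rfl⟩ := hf; exact h0 i
    | zero => rfl
    | add f g _ _ hf hg => rw [LinearMap.add_apply, hf, hg, add_zero]
    | smul c f _ hf => rw [LinearMap.smul_apply, hf, smul_zero]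
  · rw [← Module.finrank_eq_card_basis B, Subspace.dual_finrank_eq, Module.finrank_matrix]
    simp

include hφ hn in
theorem loc_finite : FiniteDimensional (cen φ) (loc φ) := by
  obtain ⟨ι, _, Ψ, hΨ, _⟩ := loc_inj hφ hn
  exact Module.Finite.of_injective Ψ hΨ

include hφ in
theorem span_loc : Submodule.span L ((loc φ : Set (Matrix (Fin n) (Fin n) L))) = ⊤ := by
  rw [eq_top_iff, ← hφ]
  apply Submodule.span_mono
  rintro _ ⟨a, rfl⟩
  exact map_mem_loc φ a

include hφ hn in
theorem finrank_loc : finrank (cen φ) (loc φ) = n * n := by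
  haveI := loc_finite hφ hn
  apply le_antisymm
  · obtain ⟨ι, _, Ψ, hΨ, hc⟩ := loc_inj hφ hn
    have h1 := LinearMap.finrank_le_finrank_of_injective hΨ
    rwa [Module.finrank_fintype_fun_eq_card, hc] at h1
  · haveI : FiniteDimensional (cen φ) (Subalgebra.toSubmodule (loc φ)) := loc_finite hφ hn
    exact finrank_ge (Subalgebra.toSubmodule (loc φ)) (span_loc hφ)

include hφ in
theorem loc_central (hn : 0 < n) : Algebra.IsCentral (cen φ) (loc φ) := by
  constructor
  intro z hz
  rw [Subalgebra.mem_center_iff] at hz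
  have h1 : ∀ y : Matrix (Fin n) (Fin n) L, y * z = z * y := by
    intro y
    have hy : y ∈ Submodule.span L (Set.range φ) := by rw [hφ]; trivial
    induction hy using Submodule.span_induction with
    | mem y hy =>
      obtain ⟨a, rfl⟩ := hy
      exact congrArg Subtype.val (hz ⟨φ a, map_mem_loc φ a⟩)
    | zero => rw [mul_zero, zero_mul]
    | add y w _ _ hy hw => rw [mul_add, add_mul, hy, hw]
    | smul c y _ hy => rw [mul_smul_comm, smul_mul_assoc, hy]
  have h2 : (z : Matrix (Fin n) (Fin n) L) ∈ Set.center (Matrix (Fin n) (Fin n) L) := by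
    rw [Semigroup.mem_center_iff]
    exact h1
  haveI : Nonempty (Fin n) := ⟨⟨0, hn⟩⟩
  obtain ⟨c, hc⟩ : ∃ c : L, algebraMap L (Matrix (Fin n) (Fin n) L) c = z := by
    have h3 := Algebra.IsCentral.out (K := L) (D := Matrix (Fin n) (Fin n) L)
    have h4 : (z : Matrix (Fin n) (Fin n) L) ∈ Subalgebra.center L (Matrix (Fin n) (Fin n) L) := by
      rw [Subalgebra.mem_center_iff]
      exact h1
    have h5 := h3 h4
    rw [Algebra.mem_bot] at h5
    exact h5
  rw [Algebra.mem_bot]
  refine ⟨⟨c, scalar_mem φ (by rw [hc]; exact z.2)⟩, ?_⟩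
  apply Subtype.ext
  exact hc

include hφ hn in
theorem loc_simple : IsSimpleRing (loc φ) := by
  haveI := loc_finite hφ hn
  haveI : Nonempty (Fin n) := ⟨⟨0, hn⟩⟩
  haveI : Nontrivial (loc φ) := by
    refine ⟨⟨0, 1, fun h => ?_⟩⟩
    have h1 := congrArg Subtype.val h
    exact zero_ne_one h1
  refine ⟨⟨fun I => ?_⟩⟩
  by_cases hI : I = ⊥
  · exact Or.inl hI
  right
  obtain ⟨x, hxI, hx0⟩ : ∃ x ∈ I, x ≠ 0 := by
    by_contra hno
    push Not at hno
    apply hI
    rw [eq_bot_iff]
    intro x hx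
    rw [TwoSidedIdeal.mem_bot]
    exact hno x hx
  -- the ideal as a subspace of the matrices
  let W : Submodule (cen φ) (Matrix (Fin n) (Fin n) L) :=
    { carrier := {y | ∃ w ∈ I, (w : Matrix (Fin n) (Fin n) L) = y}
      add_mem' := by
        rintro _ _ ⟨w, hw, rfl⟩ ⟨w', hw', rfl⟩
        exact ⟨w + w', I.add_mem hw hw', rfl⟩
      zero_mem' := ⟨0, I.zero_mem, rfl⟩
      smul_mem' := by
        rintro c _ ⟨w, hw, rfl⟩
        refine ⟨c • w, ?_, rfl⟩
        rw [Algebra.smul_def]
        exact I.mul_mem_left _ _ hw }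
  have hWle : W ≤ Subalgebra.toSubmodule (loc φ) := by
    rintro _ ⟨w, _, rfl⟩
    exact w.2
  haveI : FiniteDimensional (cen φ) (Subalgebra.toSubmodule (loc φ)) := loc_finite hφ hn
  haveI : FiniteDimensional (cen φ) W := Submodule.finiteDimensional_of_le hWle
  have hx0' : (x : Matrix (Fin n) (Fin n) L) ≠ 0 := fun h => hx0 (Subtype.ext h)
  have h1 : n * n ≤ finrank (cen φ) W := by
    apply finrank_ge W
    rw [eq_top_iff, ← span_mul_mul hφ hx0']
    apply Submodule.span_mono
    rintro _ ⟨a, b, rfl⟩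
    refine ⟨⟨φ a, map_mem_loc φ a⟩ * x * ⟨φ b, map_mem_loc φ b⟩, ?_, rfl⟩
    exact I.mul_mem_right _ _ (I.mul_mem_left _ _ hxI)
  have h2 : W = Subalgebra.toSubmodule (loc φ) := by
    apply Submodule.eq_of_le_of_finrank_le hWle
    refine le_trans (le_of_eq ?_) h1
    exact finrank_loc hφ hn
  have h3 : (1 : Matrix (Fin n) (Fin n) L) ∈ W := by
    rw [h2]
    exact (loc φ).one_mem
  obtain ⟨w, hw, hw1⟩ := h3
  have h4 : w = 1 := Subtype.ext hw1
  rw [h4] at hw
  rw [eq_top_iff]
  intro y _
  have h5 := I.mul_mem_left y _ hw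
  rwa [mul_one] at h5

end

end Run7.h339
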