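import Mathlib
import Pool.Agent.Run7.h339.CL2

/-! Two generic matrices. -/

set_option autoImplicit false
set_option linter.all false

namespace Run7.h339

open Module Matrix

universe u v

section generic

variable (K : Type u) [Field K] (n : ℕ)

/-- the coordinate ring of pairs of matrices -/
abbrev GR : Type u := MvPolynomial (Fin 2 × Fin n × Fin n) K

/-- the generic matrices -/
noncomputable def gmat (k : Fin 2) : Matrix (Fin n) (Fin n) (GR K n) :=
  Matrix.of fun i j => MvPolynomial.X (k, i, j)

/-- evaluation at the generic matrices -/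
noncomputable def gev : FreeAlgebra K (Fin 2) →ₐ[K] Matrix (Fin n) (Fin n) (GR K n) :=
  FreeAlgebra.lift K (gmat K n)

/-- specialisation at a pair of matrices over an extension field -/
noncomputable def spe {E : Type v} [Field E] [Algebra K E] (X : Fin 2 → Matrix (Fin n) (Fin n) E) :
    GR K n →ₐ[K] E :=
  MvPolynomial.aeval fun q => X q.1 q.2.1 q.2.2

theorem spe_gev {E : Type v} [Field E] [Algebra K E] (X : Fin 2 → Matrix (Fin n) (Fin n) E)
    (f : FreeAlgebra K (Fin 2)) :
    FreeAlgebra.lift K X f = (gev K n f).map (spe K n X) := by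
  have h : FreeAlgebra.lift K X = ((spe K n X).mapMatrix).comp (gev K n) := by
    apply FreeAlgebra.hom_ext
    funext k
    simp only [Function.comp_apply, FreeAlgebra.lift_ι_apply, AlgHom.comp_apply, gev]
    ext i j
    simp [gmat, spe]
  rw [h]
  rfl

/-- evaluation over the field of fractions -/
noncomputable def gev' : FreeAlgebra K (Fin 2) →+* Matrix (Fin n) (Fin n) (FractionRing (GR K n)) :=
  ((algebraMap (GR K n) (FractionRing (GR K n))).mapMatrix).comp (gev K n).toRingHom

theorem gev'_apply (f : FreeAlgebra K (Fin 2)) :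
    gev' K n f = (gev K n f).map (algebraMap (GR K n) (FractionRing (GR K n))) := rfl

/-- the words used as a basis -/
noncomputable def wd (q : Fin n × Fin n) : FreeAlgebra K (Fin 2) :=
  FreeAlgebra.ι K 0 ^ (q.1 : ℕ) * FreeAlgebra.ι K 1 * FreeAlgebra.ι K 0 ^ (q.2 : ℕ)

/-- the matrix of coordinates of the words -/
noncomputable def cmat : Matrix (Fin n × Fin n) (Fin n × Fin n) (GR K n) :=
  Matrix.of fun q r => gev K n (wd K n q) r.1 r.2

theorem cmat_det : (cmat K n).det ≠ 0 := by
  let E := AlgebraicClosure K
  obtain ⟨t, ht⟩ : ∃ t : Fin n → E, Function.Injective t :=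
    ⟨fun i => Infinite.natEmbedding E i, fun i j h => Fin.ext ((Infinite.natEmbedding E).injective h)⟩
  let X : Fin 2 → Matrix (Fin n) (Fin n) E := ![Matrix.diagonal t, Matrix.of fun _ _ => 1]
  intro h0
  have h1 : ((cmat K n).map (spe K n X)).det = 0 := by
    have := (spe K n X).toRingHom.map_det (cmat K n)
    have h2 : (spe K n X).toRingHom (cmat K n).det = 0 := by rw [h0, map_zero]
    rw [this] at h2
    exact h2
  have h2 : (cmat K n).map (spe K n X) =
      Matrix.kroneckerMap (· * ·) (Matrix.vandermonde t)ᵀ (Matrix.vandermonde t)ᵀ := by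
    ext ⟨a, b⟩ ⟨i, j⟩
    have h3 : FreeAlgebra.lift K X (wd K n (a, b)) i j = t i ^ (a : ℕ) * t j ^ (b : ℕ) := by
      simp only [wd, map_mul, map_pow, FreeAlgebra.lift_ι_apply]
      have e0 : X 0 = Matrix.diagonal t := rfl
      have e1 : X 1 = Matrix.of fun _ _ => 1 := rfl
      rw [e0, e1, Matrix.diagonal_pow, Matrix.diagonal_pow, Matrix.mul_diagonal, Matrix.diagonal_mul]
      simp
    rw [spe_gev] at h3
    simp only [Matrix.map_apply, cmat, Matrix.of_apply, Matrix.kroneckerMap_apply,
      Matrix.transpose_apply, Matrix.vandermonde_apply] at h3 ⊢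
    exact h3
  rw [h2] at h1
  have h3 := Matrix.det_kronecker (Matrix.vandermonde t)ᵀ (Matrix.vandermonde t)ᵀ
  have h4 : (Matrix.vandermonde t)ᵀ.det ≠ 0 := by
    rw [Matrix.det_transpose]
    exact Matrix.det_vandermonde_ne_zero_iff.2 ht
  rw [h1] at h3
  exact mul_ne_zero (pow_ne_zero _ h4) (pow_ne_zero _ h4) h3.symm

theorem gev'_span :
    Submodule.span (FractionRing (GR K n)) (Set.range (gev' K n)) = ⊤ := by
  rw [eq_top_iff]
  intro y _
  set M := (cmat K n).map (algebraMap (GR K n) (FractionRing (GR K n))) with hM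
  have hdet : IsUnit M.det := by
    rw [isUnit_iff_ne_zero]
    have h1 : M.det = algebraMap (GR K n) (FractionRing (GR K n)) (cmat K n).det := by
      rw [hM]
      exact ((algebraMap (GR K n) (FractionRing (GR K n))).map_det (cmat K n)).symm
    rw [h1]
    intro h2
    apply cmat_det K n
    exact (FaithfulSMul.algebraMap_injective (GR K n) (FractionRing (GR K n))) (by rw [h2, map_zero])
  let c := Matrix.vecMul (fun q : Fin n × Fin n => y q.1 q.2) M⁻¹
  have hc : Matrix.vecMul c M = fun q : Fin n × Fin n => y q.1 q.2 := by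
    show Matrix.vecMul (Matrix.vecMul _ M⁻¹) M = _
    rw [Matrix.vecMul_vecMul, Matrix.nonsing_inv_mul M hdet, Matrix.vecMul_one]
  have hy : y = ∑ q : Fin n × Fin n, c q • gev' K n (wd K n q) := by
    ext i j
    have h1 := congrFun hc (i, j)
    rw [Matrix.sum_apply]
    rw [← h1]
    simp only [Matrix.vecMul, dotProduct]
    rfl
  rw [hy]
  exact Submodule.sum_mem _ fun q _ => Submodule.smul_mem _ _ (Submodule.subset_span ⟨_, rfl⟩)

/-- a polynomial vanishing at all points over an infinite extension field is zero -/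
theorem eq_of_points {E : Type v} [Field E] [Infinite E] [Algebra K E] {P Q : GR K n}
    (h : ∀ X : Fin 2 → Matrix (Fin n) (Fin n) E, spe K n X P = spe K n X Q) : P = Q := by
  apply MvPolynomial.map_injective (algebraMap K E) (algebraMap K E).injective
  apply MvPolynomial.funext
  intro x
  have h1 := h (fun k => Matrix.of fun i j => x (k, i, j))
  unfold spe at h1
  rw [MvPolynomial.eval_map, MvPolynomial.eval_map]
  exact h1

end generic

end Run7.h339
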