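import Mathlib
import Pool.Agent.Run7.h339.GenMat

/-! `n`-central polynomials from `n`-central elements. -/

set_option autoImplicit false
set_option linter.all false

namespace Run7.h339

open Module Matrix

universe u

/-- Every division algebra of degree `n` over `C` has a noncentral element with central `n`-th
power. -/
def PCent (n : ℕ) (C : Type u) [Field C] : Prop :=
  ∀ (E : Type u) [DivisionRing E] [Algebra C E] [Algebra.IsCentral C E] [FiniteDimensional C E],
    finrank C E = n ^ 2 → ∃ v : E, v ∉ Set.range (algebraMap C E) ∧ v ^ n ∈ Set.range (algebraMap C E)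

theorem perm_pow {E : Type*} [Ring E] [Nontrivial E] {n : ℕ} (hn : 2 ≤ n) :
    ∃ M : Matrix (Fin n) (Fin n) E, M ^ n = 1 ∧ ∃ i j, i ≠ j ∧ M i j ≠ 0 := by
  have h1 : (finRotate n) ^ n = 1 := by
    have h2 := (isCycle_finRotate_of_le hn).orderOf
    rw [support_finRotate_of_le hn, Finset.card_univ, Fintype.card_fin] at h2
    have h3 := pow_orderOf_eq_one (finRotate n)
    rwa [h2] at h3
  haveI : NeZero n := ⟨by omega⟩
  have h0 : finRotate n 0 ≠ 0 := by
    have h2 : (0 : Fin n) ∈ (finRotate n).support := by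
      rw [support_finRotate_of_le hn]; exact Finset.mem_univ _
    rwa [Equiv.Perm.mem_support] at h2
  refine ⟨(finRotate n).permMatrix E, ?_, 0, finRotate n 0, fun h => h0 h.symm, ?_⟩
  · have h4 : ∀ k : ℕ, (finRotate n).permMatrix E ^ k = ((finRotate n) ^ k).permMatrix E := by
      intro k
      induction k with
      | zero => rw [pow_zero, pow_zero, Matrix.permMatrix_one]
      | succ k ih => rw [pow_succ, ih, pow_succ', Matrix.permMatrix_mul]
    rw [h4, h1, Matrix.permMatrix_one]
  · simp [Equiv.Perm.permMatrix, PEquiv.toMatrix_apply, Equiv.toPEquiv_apply]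

/-- one by one matrices -/
def m1 (C E : Type*) [CommSemiring C] [Semiring E] [Algebra C E] :
    Matrix (Fin 1) (Fin 1) E ≃ₐ[C] E :=
  AlgEquiv.ofLinearEquiv
    { toFun := fun M => M 0 0
      invFun := fun a => Matrix.of fun _ _ => a
      left_inv := fun M => by ext i j; rw [Subsingleton.elim i 0, Subsingleton.elim j 0]; rfl
      right_inv := fun a => rfl
      map_add' := fun _ _ => rfl
      map_smul' := fun _ _ => rfl }
    (by simp) (by intro x y; simp [Matrix.mul_apply])

theorem exists_pc_csa {C D : Type u} [Field C] [Ring D] [Algebra C D] [FiniteDimensional C D]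
    [Algebra.IsCentral C D] [IsSimpleRing D] {n : ℕ} (hn : n.Prime) (hD : finrank C D = n * n)
    (H : PCent n C) :
    ∃ x : D, x ∉ Set.range (algebraMap C D) ∧ ∃ c : C, c ≠ 0 ∧ x ^ n = algebraMap C D c := by
  haveI : IsArtinianRing D := IsArtinianRing.of_finite C D
  obtain ⟨m, hm, E, _, _, _, ⟨e⟩⟩ := IsSimpleRing.exists_algEquiv_matrix_divisionRing_finite C D
  have hr := e.toLinearEquiv.finrank_eq
  rw [hD, Module.finrank_matrix, Fintype.card_fin] at hr
  have hmn : m ∣ n := by
    have h1 : m ^ 2 ∣ n ^ 2 := ⟨finrank C E, by rw [pow_two, pow_two, hr]⟩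
    exact (Nat.pow_dvd_pow_iff two_ne_zero).1 h1
  rcases (Nat.dvd_prime hn).1 hmn with rfl | rfl
  · let e1 : D ≃ₐ[C] E := e.trans (m1 C E)
    haveI : Algebra.IsCentral C E := Algebra.IsCentral.of_algEquiv C D E e1
    obtain ⟨v, hv, c, hc⟩ := H E (by rw [pow_two, hr]; omega)
    have hv0 : v ≠ 0 := by
      rintro rfl
      exact hv ⟨0, map_zero _⟩
    refine ⟨e1.symm v, ?_, c, ?_, ?_⟩
    · rintro ⟨b, hb⟩
      exact hv ⟨b, by rw [← e1.commutes, hb, AlgEquiv.apply_symm_apply]⟩
    · rintro rfl
      rw [map_zero] at hc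
      exact pow_ne_zero n hv0 hc.symm
    · rw [← map_pow, ← hc, AlgEquiv.commutes]
  · obtain ⟨M, hM, i, j, hij, hMij⟩ := perm_pow (E := E) hn.two_le
    refine ⟨e.symm M, ?_, 1, one_ne_zero, ?_⟩
    · rintro ⟨b, hb⟩
      have h1 : M = algebraMap C _ b := by rw [← e.commutes, hb, AlgEquiv.apply_symm_apply]
      apply hMij
      rw [h1, Matrix.algebraMap_matrix_apply, if_neg hij]
    · rw [← map_pow, hM, map_one, map_one]

end Run7.h339
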