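import Mathlib
import Pool.Agent.Run7.h339.GenPoly

/-! `n`-central polynomials from `n`-central elements. -/

set_option autoImplicit false
set_option linter.all false

namespace Run7.h339

open Module Matrix

universe u v

theorem exists_ncentral {K : Type u} [Field K] {n : ℕ} (hn : n.Prime)
    (H : PCent n (cen (gev' K n))) :
    ∃ f : FreeAlgebra K (Fin 2),
      (∃ t : FractionRing (GR K n), t ≠ 0 ∧ gev' K n f ^ n = algebraMap _ _ t) ∧
      (∀ t : FractionRing (GR K n), gev' K n f ≠ algebraMap _ _ t) := by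
  have hsp := gev'_span K n
  haveI := loc_finite hsp hn.pos
  haveI := loc_central hsp hn.pos
  haveI := loc_simple hsp hn.pos
  obtain ⟨x, hx, c, hc, hxc⟩ := exists_pc_csa hn (finrank_loc hsp hn.pos) H
  obtain ⟨s, hs, hs0, f, hf⟩ := x.2
  have hxc' : (x : Matrix (Fin n) (Fin n) (FractionRing (GR K n))) ^ n =
      algebraMap _ _ (c : FractionRing (GR K n)) := by
    have h1 := congrArg Subtype.val hxc
    exact h1
  refine ⟨f, ⟨s ^ n * c, mul_ne_zero (pow_ne_zero _ hs0) (fun h => hc (Subtype.ext h)), ?_⟩, ?_⟩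
  · rw [hf, smul_pow, hxc', map_mul, ← Algebra.smul_def]
  · intro t ht
    rw [hf] at ht
    have h1 : (x : Matrix (Fin n) (Fin n) (FractionRing (GR K n))) = algebraMap _ _ (s⁻¹ * t) := by
      rw [map_mul, ← ht, ← Algebra.smul_def, inv_smul_smul₀ hs0]
    have h2 : s⁻¹ * t ∈ cen (gev' K n) := scalar_mem _ (by rw [← h1]; exact x.2)
    exact hx ⟨⟨_, h2⟩, Subtype.ext h1.symm⟩

/-- scalar matrices over the polynomial ring -/
theorem gev_scalar {K : Type u} [Field K] {n : ℕ} (hn : 0 < n) {f : FreeAlgebra K (Fin 2)}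
    {t : FractionRing (GR K n)} (h : gev' K n f = algebraMap _ _ t) :
    ∃ c : GR K n, gev K n f = algebraMap _ _ c ∧ algebraMap _ _ c = t := by
  have hinj := FaithfulSMul.algebraMap_injective (GR K n) (FractionRing (GR K n))
  let i0 : Fin n := ⟨0, hn⟩
  have h1 : ∀ i j, algebraMap (GR K n) (FractionRing (GR K n)) (gev K n f i j) =
      if i = j then t else 0 := by
    intro i j
    have h2 := congrFun (congrFun h i) j
    rw [gev'_apply, Matrix.map_apply, Matrix.algebraMap_matrix_apply] at h2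
    rw [h2]
    rfl
  have h2 : algebraMap _ _ (gev K n f i0 i0) = t := by rw [h1, if_pos rfl]
  refine ⟨gev K n f i0 i0, ?_, h2⟩
  refine Matrix.ext fun i j => ?_
  rw [Matrix.algebraMap_matrix_apply]
  apply hinj
  rw [h1]
  split_ifs with hij
  · exact h2.symm
  · rw [map_zero]

/-- scalar values imply scalar generic value -/
theorem scalar_of_values {K : Type u} [Field K] {E : Type v} [Field E] [Infinite E] [Algebra K E]
    {n : ℕ} (hn : 0 < n) {f : FreeAlgebra K (Fin 2)}
    (h : ∀ X : Fin 2 → Matrix (Fin n) (Fin n) E, ∃ c : E, FreeAlgebra.lift K X f = Matrix.scalar (Fin n) c) :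
    ∃ t : FractionRing (GR K n), gev' K n f = algebraMap _ _ t := by
  let i0 : Fin n := ⟨0, hn⟩
  have key : ∀ X : Fin 2 → Matrix (Fin n) (Fin n) E, ∀ i j, spe K n X (gev K n f i j) =
      if i = j then spe K n X (gev K n f i0 i0) else 0 := by
    intro X i j
    obtain ⟨c, hc⟩ := h X
    rw [spe_gev] at hc
    have h1 : ∀ i j, spe K n X (gev K n f i j) = if i = j then c else 0 := by
      intro i j
      have h2 := congrFun (congrFun hc i) j
      rw [Matrix.map_apply, Matrix.scalar_apply, Matrix.diagonal_apply] at h2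
      exact h2
    rw [h1, h1, if_pos rfl]
  refine ⟨algebraMap _ _ (gev K n f i0 i0), ?_⟩
  have h2 : gev K n f = algebraMap _ _ (gev K n f i0 i0) := by
    refine Matrix.ext fun i j => ?_
    apply eq_of_points K n (E := E)
    intro X
    rw [key, Matrix.algebraMap_matrix_apply]
    split_ifs with hij
    · rfl
    · rw [map_zero]
  rw [gev'_apply, h2]
  refine Matrix.ext fun i j => ?_
  rw [Matrix.map_apply, Matrix.algebraMap_matrix_apply, Matrix.algebraMap_matrix_apply]
  split_ifs with hij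
  · rfl
  · rw [map_zero]

/-- **Main statement**, values form. -/
theorem exists_ncentral' {K : Type u} [Field K] {n : ℕ} (hn : n.Prime)
    (H : PCent n (cen (gev' K n))) :
    ∃ f : FreeAlgebra K (Fin 2), ∀ (E : Type v) [Field E] [Infinite E] [Algebra K E],
      (∀ X : Fin 2 → Matrix (Fin n) (Fin n) E, ∃ c : E, FreeAlgebra.lift K X (f ^ n) = Matrix.scalar (Fin n) c) ∧
      (∃ X : Fin 2 → Matrix (Fin n) (Fin n) E, FreeAlgebra.lift K X (f ^ n) ≠ 0) ∧
      (∀ μ : ℕ, 0 < μ → (∀ X : Fin 2 → Matrix (Fin n) (Fin n) E, ∃ c : E,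
        FreeAlgebra.lift K X (f ^ μ) = Matrix.scalar (Fin n) c) → n ≤ μ) := by
  obtain ⟨f, ⟨t, ht0, ht⟩, hns⟩ := exists_ncentral hn H
  obtain ⟨c, hc, hct⟩ := gev_scalar (f := f ^ n) hn.pos (by rw [map_pow]; exact ht)
  have hc0 : c ≠ 0 := by
    rintro rfl
    rw [map_zero] at hct
    exact ht0 hct.symm
  refine ⟨f, fun E _ _ _ => ?_⟩
  have hval : ∀ X : Fin 2 → Matrix (Fin n) (Fin n) E,
      FreeAlgebra.lift K X (f ^ n) = Matrix.scalar (Fin n) (spe K n X c) := by
    intro X
    rw [spe_gev, hc]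
    ext i j
    rw [Matrix.map_apply, Matrix.algebraMap_matrix_apply, Matrix.scalar_apply, Matrix.diagonal_apply]
    split_ifs with hij
    · rfl
    · rw [map_zero]
  refine ⟨fun X => ⟨_, hval X⟩, ?_, ?_⟩
  · by_contra hno
    push Not at hno
    apply hc0
    apply eq_of_points K n (E := E)
    intro X
    rw [map_zero]
    have h1 := hno X
    rw [hval] at h1
    have h2 := congrFun (congrFun h1 ⟨0, hn.pos⟩) ⟨0, hn.pos⟩
    rw [Matrix.scalar_apply, Matrix.diagonal_apply_eq, Matrix.zero_apply] at h2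
    exact h2
  · intro μ hμ hsc
    by_contra hlt
    push Not at hlt
    obtain ⟨r, hr⟩ := scalar_of_values hn.pos hsc
    rw [map_pow] at hr
    have hcop : Nat.Coprime μ n := by
      rw [Nat.coprime_comm, Nat.Prime.coprime_iff_not_dvd hn]
      intro hd
      exact absurd (Nat.le_of_dvd hμ hd) (by omega)
    obtain ⟨a, ha⟩ := Nat.exists_mul_mod_eq_one_of_coprime hcop hn.one_lt
    obtain ⟨q, h1⟩ : ∃ q, μ * a = n * q + 1 := ⟨μ * a / n, by
      have := Nat.div_add_mod (μ * a) n
      omega⟩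
    have h2 : algebraMap (FractionRing (GR K n)) (Matrix (Fin n) (Fin n) _) (r ^ a) =
        algebraMap (FractionRing (GR K n)) (Matrix (Fin n) (Fin n) _) (t ^ q) * gev' K n f := by
      rw [map_pow, ← hr, ← pow_mul, h1, pow_succ, pow_mul, ht, map_pow]
    apply hns ((t ^ q)⁻¹ * r ^ a)
    rw [map_mul, h2, ← mul_assoc, ← map_mul, inv_mul_cancel₀ (pow_ne_zero _ ht0), map_one, one_mul]

end Run7.h339
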