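import Mathlib

/-! Simple commutative subfields of a finite-dimensional division algebra. -/

set_option autoImplicit false
set_option linter.all false

namespace Run7.h339

open Module Polynomial

section simple

variable {F D : Type*} [Field F] [DivisionRing D] [Algebra F D] [FiniteDimensional F D]

/-- the simple extension generated by `x`, as an abstract field. -/
abbrev Ad (F : Type*) {D : Type*} [Field F] [DivisionRing D] [Algebra F D] (x : D) : Type _ :=
  AdjoinRoot (minpoly F x)

theorem minpoly_irred (x : D) : Irreducible (minpoly F x) :=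
  minpoly.irreducible (Algebra.IsIntegral.isIntegral x)

noncomputable instance (x : D) : Fact (Irreducible (minpoly F x)) := ⟨minpoly_irred x⟩

/-- the embedding of the abstract simple extension. -/
noncomputable def adHom (F : Type*) {D : Type*} [Field F] [DivisionRing D] [Algebra F D] (x : D) :
    Ad F x →ₐ[F] D :=
  Ideal.Quotient.liftₐ _ (aeval x) (fun a ha => by
    rw [Ideal.mem_span_singleton] at ha
    obtain ⟨b, rfl⟩ := ha
    rw [map_mul, minpoly.aeval, zero_mul])

theorem adHom_mk (x : D) (g : F[X]) : adHom F x (AdjoinRoot.mk _ g) = aeval x g := rfl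

theorem adHom_root (x : D) : adHom F x (AdjoinRoot.root (minpoly F x)) = x := by
  rw [AdjoinRoot.root, adHom_mk, aeval_X]

theorem adHom_injective (x : D) : Function.Injective (adHom F x) := by
  exact (adHom F x).toRingHom.injective

instance adFin (x : D) : FiniteDimensional F (Ad F x) :=
  Module.Finite.of_injective (adHom F x).toLinearMap (adHom_injective x)

theorem finrank_ad (x : D) : finrank F (Ad F x) = (minpoly F x).natDegree := by
  rw [(AdjoinRoot.powerBasis (minpoly_irred x).ne_zero).finrank, AdjoinRoot.powerBasis_dim]

theorem minpoly_root_ad (x : D) : minpoly F (AdjoinRoot.root (minpoly F x)) = minpoly F x := by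
  rw [← minpoly.algHom_eq (adHom F x) (adHom_injective x), adHom_root]

theorem norm_root_ad (x : D) : Algebra.norm F (AdjoinRoot.root (minpoly F x)) =
    (-1) ^ (minpoly F x).natDegree * (minpoly F x).coeff 0 := by
  have h := Algebra.PowerBasis.norm_gen_eq_coeff_zero_minpoly
    (AdjoinRoot.powerBasis (minpoly_irred (F := F) x).ne_zero)
  rw [AdjoinRoot.powerBasis_gen, AdjoinRoot.powerBasis_dim, minpoly_root_ad] at h
  exact h

/-- `D` as a vector space over the abstract subfield, by left multiplication. -/
noncomputable abbrev modL {L : Type*} [Field L] [Algebra F L] (φ : L →ₐ[F] D) : Module L D :=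
  Module.compHom D φ.toRingHom

theorem towerL {L : Type*} [Field L] [Algebra F L] (φ : L →ₐ[F] D) :
    letI := modL φ; IsScalarTower F L D := by
  letI := modL φ
  refine ⟨fun a l d => ?_⟩
  change φ (a • l) * d = a • (φ l * d)
  rw [map_smul, smul_mul_assoc]

/-- the dimension over a subfield. -/
noncomputable def dimL {L : Type*} [Field L] [Algebra F L] (φ : L →ₐ[F] D) : ℕ :=
  @Module.finrank L D _ _ (modL φ)

theorem dimL_mul {L : Type*} [Field L] [Algebra F L] (φ : L →ₐ[F] D) :
    finrank F L * dimL φ = finrank F D := by
  letI := modL φ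
  haveI := towerL φ
  exact Module.finrank_mul_finrank F L D

theorem norm_eq_pow {L : Type*} [Field L] [Algebra F L] [FiniteDimensional F L] (φ : L →ₐ[F] D) (y : L) :
    Algebra.norm F (φ y) = Algebra.norm F y ^ dimL φ := by
  letI := modL φ
  haveI := towerL φ
  have h := LinearMap.det_restrictScalars (R := F) (S := L) (A := D)
    (f := y • (LinearMap.id : D →ₗ[L] D))
  rw [LinearMap.det_smul, LinearMap.det_id, mul_one, map_pow] at h
  rw [Algebra.norm_apply]
  have h1 : (Algebra.lmul F D) (φ y) = (y • (LinearMap.id : D →ₗ[L] D)).restrictScalars F :=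
    LinearMap.ext fun d => rfl
  rw [h1, h]
  rfl

theorem natDegree_dvd (x : D) : (minpoly F x).natDegree ∣ finrank F D := by
  rw [← finrank_ad x]
  exact ⟨_, (dimL_mul (adHom F x)).symm⟩

end simple

end Run7.h339
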