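import Mathlib
import Pool.Agent.Run7.h339.Sub

/-! Trace identities for simple separable extensions. -/

set_option autoImplicit false
set_option linter.all false

namespace Run7.h339

open Module Finset Polynomial

/-- the coefficients of `f / (X - x)`. -/
theorem coeff_minpolyDiv_eq {K L : Type*} [Field K] [Field L] [Algebra K L] [FiniteDimensional K L] (x : L) (i : ℕ) :
    (minpolyDiv K x).coeff i =
      ∑ m ∈ range ((minpoly K x).natDegree - i), algebraMap K L ((minpoly K x).coeff (i + 1 + m)) * x ^ m := by
  -- downward induction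
  have h : ∀ d i, (minpoly K x).natDegree - i = d → (minpolyDiv K x).coeff i =
      ∑ m ∈ range d, algebraMap K L ((minpoly K x).coeff (i + 1 + m)) * x ^ m := by
    intro d
    induction d with
    | zero =>
      intro i hi
      rw [range_zero, sum_empty]
      apply coeff_eq_zero_of_natDegree_lt
      have h1 := natDegree_minpolyDiv_lt (R := K) (x := x) (Algebra.IsIntegral.isIntegral x)
      omega
    | succ d ih =>
      intro i hi
      rw [coeff_minpolyDiv, ih (i + 1) (by omega), sum_range_succ', sum_mul, add_comm]
      congr 1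
      · refine sum_congr rfl fun m _ => ?_
        rw [pow_succ, mul_assoc]
        congr 3
        omega
      · simp
  exact h _ i rfl

/-- **Newton type identity**: the derivative of the minimal polynomial through traces. -/
theorem trace_coeff_minpolyDiv {K L : Type*} [Field K] [Field L] [Algebra K L] [FiniteDimensional K L]
    [Algebra.IsSeparable K L] (pb : PowerBasis K L) (i : ℕ) (hi : i < pb.dim) :
    Algebra.trace K L ((minpolyDiv K pb.gen).coeff i) = (derivative (minpoly K pb.gen)).coeff i := by
  classical
  set f := minpoly K pb.gen with hf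
  have hfm : f.Monic := minpoly.monic (Algebra.IsIntegral.isIntegral _)
  have hdeg : f.natDegree = pb.dim := pb.natDegree_minpoly
  have hder : aeval pb.gen (derivative f) ≠ 0 :=
    (Algebra.IsSeparable.isSeparable K pb.gen).aeval_derivative_ne_zero (minpoly.aeval _ _)
  have h1 := Module.Basis.traceDual_powerBasis_eq pb ⟨i, hi⟩
  have h2 : (minpolyDiv K pb.gen).coeff i = aeval pb.gen (derivative f) * pb.basis.traceDual ⟨i, hi⟩ := by
    rw [h1, mul_div_cancel₀]
    exact hder
  have h3 : aeval pb.gen (derivative f) = ∑ k : Fin pb.dim, (derivative f).coeff k • pb.basis k := by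
    rw [aeval_eq_sum_range' (n := pb.dim), ← Fin.sum_univ_eq_sum_range (fun k => (derivative f).coeff k • pb.gen ^ k)]
    · refine sum_congr rfl fun k _ => ?_
      rw [pb.basis_eq_pow]
    · have h4 : 0 < pb.dim := by omega
      have h5 := natDegree_derivative_le f
      rw [hdeg] at h5
      omega
  have h4 := (Module.Basis.traceDual_eq_iff (b := pb.basis) (v := pb.basis.traceDual)).1 rfl ⟨i, hi⟩
  rw [h2, h3, sum_mul, map_sum]
  rw [sum_eq_single (⟨i, hi⟩ : Fin pb.dim)]
  · have h5 := h4 ⟨i, hi⟩
    rw [if_pos rfl, Algebra.traceForm_apply, mul_comm] at h5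
    rw [smul_mul_assoc, LinearMap.map_smul, h5, smul_eq_mul, mul_one]
  · intro k _ hk
    have h5 := h4 k
    rw [if_neg hk, Algebra.traceForm_apply, mul_comm] at h5
    rw [smul_mul_assoc, LinearMap.map_smul, h5, smul_zero]
  · intro h; exact absurd (mem_univ _) h


/-- the regular trace of `D` restricted to a subfield. -/
theorem trace_regular {F D L : Type*} [Field F] [DivisionRing D] [Algebra F D] [FiniteDimensional F D]
    [Field L] [Algebra F L] [FiniteDimensional F L] (φ : L →ₐ[F] D) (y : L) :
    LinearMap.trace F D (LinearMap.mulLeft F (φ y)) = (dimL φ : F) * Algebra.trace F L y := by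
  classical
  letI := modL φ
  haveI := towerL φ
  haveI : Module.Finite L D := Module.Finite.of_restrictScalars_finite F L D
  let b := Module.finBasis F L
  let c := Module.finBasis L D
  have hsm : ∀ (l : L) (d : D), l • d = φ l * d := fun _ _ => rfl
  rw [LinearMap.trace_eq_matrix_trace F (b.smulTower c), Matrix.trace, Algebra.trace_apply,
    LinearMap.trace_eq_matrix_trace F b, Matrix.trace, Fintype.sum_prod_type_right]
  have h1 : ∀ (j : Fin (finrank L D)) (i : Fin (finrank F L)),
      (LinearMap.toMatrix (b.smulTower c) (b.smulTower c) (LinearMap.mulLeft F (φ y))).diag (i, j) =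
        (LinearMap.toMatrix b b ((Algebra.lmul F L) y)).diag i := by
    intro j i
    rw [Matrix.diag_apply, Matrix.diag_apply, LinearMap.toMatrix_apply, LinearMap.toMatrix_apply,
      Module.Basis.smulTower_repr, Module.Basis.smulTower_apply, LinearMap.mulLeft_apply]
    have h2 : φ y * (b i • c j) = (y * b i) • c j := by
      rw [hsm, hsm, map_mul, mul_assoc]
    simp only []
    rw [h2, map_smul, Finsupp.smul_apply, Module.Basis.repr_self, Finsupp.single_eq_same, smul_eq_mul, mul_one]
    rfl
  simp only [h1]
  rw [sum_const, card_univ, Fintype.card_fin, nsmul_eq_mul]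
  rfl

/-- in characteristic not `p`: vanishing traces of the powers force `z ^ p` central. -/
theorem pow_mem_of_trace {F D : Type*} [Field F] [DivisionRing D] [Algebra F D] [FiniteDimensional F D]
    {p : ℕ} (hp : p.Prime) (hpF : (p : F) ≠ 0) (hj : ∀ j, 1 ≤ j → j < p → (j : F) ≠ 0)
    (hdim : finrank F D = p ^ 2) {z : D} (hz : (minpoly F z).natDegree = p)
    (h : ∀ j, 1 ≤ j → j < p → LinearMap.trace F D (LinearMap.mulLeft F (z ^ j)) = 0) :
    z ^ p ∈ Set.range (algebraMap F D) := by
  classical
  set f := minpoly F z with hf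
  have hfm : f.Monic := minpoly.monic (Algebra.IsIntegral.isIntegral _)
  -- separability
  have hder : derivative f ≠ 0 := by
    intro h0
    have h1 := congrArg (fun q => coeff q (p - 1)) h0
    simp only [coeff_derivative, coeff_zero] at h1
    have h2 : p - 1 + 1 = p := by have := hp.pos; omega
    rw [h2, ← hz, hfm.coeff_natDegree, one_mul, hz] at h1
    apply hpF
    have h3 : ((p - 1 : ℕ) : F) + 1 = (p : F) := by
      rw [← Nat.cast_succ, Nat.succ_eq_add_one, h2]
    rw [← h3]
    exact h1
  have hsep : f.Separable := (separable_iff_derivative_ne_zero (minpoly_irred z)).2 hder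
  let pb := AdjoinRoot.powerBasis (minpoly_irred (F := F) z).ne_zero
  have hgen : pb.gen = AdjoinRoot.root (minpoly F z) := AdjoinRoot.powerBasis_gen _
  have hpbdim : pb.dim = p := by rw [AdjoinRoot.powerBasis_dim]; exact hz
  have hmin : minpoly F pb.gen = f := by rw [hgen]; exact minpoly_root_ad z
  haveI : Algebra.IsSeparable F (Ad F z) := by
    have h1 : IsSeparable F pb.gen := by rw [IsSeparable, hmin]; exact hsep
    have h2 : IntermediateField.adjoin F {pb.gen} = ⊤ := by
      apply IntermediateField.toSubalgebra_injective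
      rw [IntermediateField.adjoin_simple_toSubalgebra_of_isAlgebraic (Algebra.IsAlgebraic.isAlgebraic _),
        pb.adjoin_gen_eq_top]
      rfl
    haveI := (IntermediateField.isSeparable_adjoin_simple_iff_isSeparable F (Ad F z)).2 h1
    rw [h2] at this
    exact Algebra.IsSeparable.of_algHom F (⊤ : IntermediateField F (Ad F z)) (IntermediateField.topEquiv.symm.toAlgHom)
  have hd : dimL (adHom F z) = p := by
    have h1 := dimL_mul (adHom F z)
    rw [finrank_ad, hz, hdim, pow_two] at h1
    exact Nat.eq_of_mul_eq_mul_left hp.pos h1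
  have htr : ∀ j, 1 ≤ j → j < p → Algebra.trace F (Ad F z) (pb.gen ^ j) = 0 := by
    intro j hj1 hj2
    have h1 := trace_regular (adHom F z) (pb.gen ^ j)
    rw [map_pow, hgen, adHom_root, h j hj1 hj2, hd] at h1
    rw [hgen]
    exact (mul_eq_zero.1 h1.symm).resolve_left hpF
  have htr1 : Algebra.trace F (Ad F z) 1 = (p : F) := by
    rw [← map_one (algebraMap F (Ad F z)), Algebra.trace_algebraMap, finrank_ad, hz]
    simp
  -- the coefficients vanish
  have hcoef : ∀ k, 1 ≤ k → k < p → f.coeff k = 0 := by
    intro k hk1 hk2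
    have h1 := trace_coeff_minpolyDiv pb (k - 1) (by omega)
    rw [hmin] at h1
    have h2 : Algebra.trace F (Ad F z) ((minpolyDiv F pb.gen).coeff (k - 1)) = f.coeff k * p := by
      rw [coeff_minpolyDiv_eq, map_sum, hmin, hz]
      obtain ⟨q, hq⟩ : ∃ q, p - (k - 1) = q + 1 := ⟨p - k, by omega⟩
      rw [hq, sum_range_succ', sum_eq_zero, zero_add, pow_zero, mul_one, add_zero]
      · have h3 : k - 1 + 1 = k := by omega
        rw [h3, Algebra.algebraMap_eq_smul_one, LinearMap.map_smul, htr1, smul_eq_mul]
      · intro m hm
        rw [mem_range] at hm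
        rw [← Algebra.smul_def, LinearMap.map_smul, htr (m + 1) (by omega) (by omega), smul_zero]
    rw [h2, coeff_derivative] at h1
    have h3 : k - 1 + 1 = k := by omega
    have h4 : ((k - 1 : ℕ) : F) + 1 = (k : F) := by
      rw [← Nat.cast_succ, Nat.succ_eq_add_one, h3]
    rw [h3, h4] at h1
    have h5 : f.coeff k * ((p - k : ℕ) : F) = 0 := by
      rw [Nat.cast_sub hk2.le, mul_sub, h1, sub_self]
    exact (mul_eq_zero.1 h5).resolve_right (hj (p - k) (by omega) (by omega))
  have h1 := minpoly.aeval F z
  rw [← hf, aeval_eq_sum_range, hz, sum_range_succ, sum_eq_single 0] at h1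
  · rw [← hz, hfm.coeff_natDegree, one_smul, pow_zero, hz] at h1
    refine ⟨-f.coeff 0, ?_⟩
    rw [map_neg, neg_eq_iff_add_eq_zero, Algebra.algebraMap_eq_smul_one]
    exact h1
  · intro b hb hb0
    rw [hcoef b (Nat.pos_of_ne_zero hb0) (mem_range.1 hb), zero_smul]
  · intro hh
    exact absurd (mem_range.2 hp.pos) hh

end Run7.h339
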