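import Mathlib
import Pool.Agent.Run7.h339.Sub

/-! Conics through a point of degree five. -/

set_option autoImplicit false
set_option linter.all false

namespace Run7.h339

open Module Finset Polynomial

section tri

variable {K : Type*} [Field K]

/-- the linear space of matrices: upper triangular with diagonal an arithmetic progression. -/
def IsLam (M : Matrix (Fin 5) (Fin 5) K) : Prop :=
  (∀ i j : Fin 5, j < i → M i j = 0) ∧ ∀ i : Fin 5, M i i = M 0 0 + ((i : ℕ) : K) * (M 1 1 - M 0 0)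

theorem tri_mul {M N : Matrix (Fin 5) (Fin 5) K} (hM : ∀ i j : Fin 5, j < i → M i j = 0)
    (hN : ∀ i j : Fin 5, j < i → N i j = 0) :
    (∀ i j : Fin 5, j < i → (M * N) i j = 0) ∧ ∀ i, (M * N) i i = M i i * N i i := by
  constructor
  · intro i j hij
    rw [Matrix.mul_apply]
    refine sum_eq_zero fun k _ => ?_
    rcases lt_or_ge k i with h | h
    · rw [hM i k h, zero_mul]
    · rw [hN k j (lt_of_lt_of_le hij h), mul_zero]
  · intro i
    rw [Matrix.mul_apply]
    refine sum_eq_single i (fun k _ hk => ?_) (fun h => absurd (mem_univ i) h)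
    rcases lt_or_gt_of_ne hk with h | h
    · rw [hM i k h, zero_mul]
    · rw [hN k i h, mul_zero]

theorem tri_pow {M : Matrix (Fin 5) (Fin 5) K} (hM : ∀ i j : Fin 5, j < i → M i j = 0) (n : ℕ) :
    (∀ i j : Fin 5, j < i → (M ^ n) i j = 0) ∧ ∀ i, (M ^ n) i i = M i i ^ n := by
  induction n with
  | zero =>
    refine ⟨fun i j hij => ?_, fun i => ?_⟩
    · rw [pow_zero, Matrix.one_apply_ne hij.ne']
    · rw [pow_zero, pow_zero, Matrix.one_apply_eq]
  | succ n ih =>
    rw [pow_succ]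
    obtain ⟨h1, h2⟩ := tri_mul ih.1 hM
    refine ⟨h1, fun i => ?_⟩
    rw [h2, ih.2, pow_succ]

theorem trace_lam [CharP K 5] {M : Matrix (Fin 5) (Fin 5) K} (h : IsLam M) {n : ℕ} (hn : 1 ≤ n) (hn3 : n ≤ 3) :
    (M ^ n).trace = 0 := by
  have h5 : (5 : K) = 0 := by
    have := CharP.cast_eq_zero K 5
    exact_mod_cast this
  have h1 : (M ^ n).trace = ∑ i : Fin 5, (M 0 0 + ((i : ℕ) : K) * (M 1 1 - M 0 0)) ^ n := by
    rw [Matrix.trace]
    refine sum_congr rfl fun i _ => ?_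
    rw [Matrix.diag_apply, (tri_pow h.1 n).2, h.2 i]
  rw [h1, Fin.sum_univ_five]
  generalize M 0 0 = μ
  generalize M 1 1 - μ = l
  interval_cases n
  · simp only [Fin.val_zero, Fin.val_one, Fin.val_two]
    have : μ + ((0 : ℕ) : K) * l + (μ + ((1 : ℕ) : K) * l) + (μ + ((2 : ℕ) : K) * l) + (μ + (((3 : Fin 5) : ℕ) : K) * l) +
      (μ + (((4 : Fin 5) : ℕ) : K) * l) = 5 * (μ + 2 * l) := by
      have e3 : ((3 : Fin 5) : ℕ) = 3 := rfl
      have e4 : ((4 : Fin 5) : ℕ) = 4 := rfl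
      rw [e3, e4]; push_cast; ring
    simp only [pow_one]
    rw [this, h5, zero_mul]
  · have e3 : ((3 : Fin 5) : ℕ) = 3 := rfl
    have e4 : ((4 : Fin 5) : ℕ) = 4 := rfl
    rw [e3, e4]
    simp only [Fin.val_zero, Fin.val_one, Fin.val_two]
    have : (μ + ((0 : ℕ) : K) * l) ^ 2 + (μ + ((1 : ℕ) : K) * l) ^ 2 + (μ + ((2 : ℕ) : K) * l) ^ 2 +
      (μ + ((3 : ℕ) : K) * l) ^ 2 + (μ + ((4 : ℕ) : K) * l) ^ 2 = 5 * (μ ^ 2 + 4 * μ * l + 6 * l ^ 2) := by
      push_cast; ring
    rw [this, h5, zero_mul]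
  · have e3 : ((3 : Fin 5) : ℕ) = 3 := rfl
    have e4 : ((4 : Fin 5) : ℕ) = 4 := rfl
    rw [e3, e4]
    simp only [Fin.val_zero, Fin.val_one, Fin.val_two]
    have : (μ + ((0 : ℕ) : K) * l) ^ 3 + (μ + ((1 : ℕ) : K) * l) ^ 3 + (μ + ((2 : ℕ) : K) * l) ^ 3 +
      (μ + ((3 : ℕ) : K) * l) ^ 3 + (μ + ((4 : ℕ) : K) * l) ^ 3 =
      5 * (μ ^ 3 + 6 * μ ^ 2 * l + 18 * μ * l ^ 2 + 20 * l ^ 3) := by
      push_cast; ring
    rw [this, h5, zero_mul]

end tri

section core

variable {F K D : Type*} [Field F] [Field K] [Algebra F K] [DivisionRing D] [Algebra F D]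

/-- apply a functional to the coefficients of a polynomial over `D`. -/
noncomputable def PhiD (τ : D →ₗ[F] F) (V : D[X]) : F[X] := V.sum fun n b => monomial n (τ b)

theorem PhiD_coeff (τ : D →ₗ[F] F) (V : D[X]) (n : ℕ) : (PhiD τ V).coeff n = τ (V.coeff n) := by
  classical
  unfold PhiD
  rw [Polynomial.sum_def, finset_sum_coeff]
  simp only [coeff_monomial]
  rw [Finset.sum_ite_eq']
  split_ifs with h
  · rfl
  · rw [notMem_support_iff.1 h, map_zero]

theorem PhiD_natDegree (τ : D →ₗ[F] F) (V : D[X]) {n : ℕ} (h : V.natDegree ≤ n) : (PhiD τ V).natDegree ≤ n := by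
  rw [natDegree_le_iff_coeff_eq_zero]
  intro m hm
  rw [PhiD_coeff, coeff_eq_zero_of_natDegree_lt (by omega), map_zero]

/-- specialization of the parameter. -/
theorem PhiD_eval (τ : D →ₗ[F] F) (V : D[X]) (t : F) :
    (PhiD τ V).eval t = τ (V.eval (algebraMap F D t)) := by
  rw [eval_eq_sum_range' (n := V.natDegree + 1) (Nat.lt_succ_of_le (PhiD_natDegree τ V le_rfl)),
    eval_eq_sum_range, map_sum]
  refine sum_congr rfl fun i _ => ?_
  rw [PhiD_coeff, ← map_pow, ← Algebra.commutes, ← Algebra.smul_def, LinearMap.map_smul, smul_eq_mul, mul_comm]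

/-- evaluation at a central element. -/
noncomputable def evD (D : Type*) {F : Type*} [Field F] [DivisionRing D] [Algebra F D] (t : F) : D[X] →+* D :=
  eval₂RingHom' (RingHom.id D) (algebraMap F D t) (fun a => (Algebra.commute_algebraMap_right t a))

theorem evD_apply (t : F) (W : D[X]) : evD D t W = W.eval (algebraMap F D t) := rfl

/-- evaluation through a matrix representation. -/
noncomputable def evK (R : D →+* Matrix (Fin 5) (Fin 5) K) (θ : K) : D[X] →+* Matrix (Fin 5) (Fin 5) K :=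
  eval₂RingHom' R (algebraMap K (Matrix (Fin 5) (Fin 5) K) θ) (fun a => (Algebra.commute_algebraMap_right θ (R a)))

theorem evK_apply (R : D →+* Matrix (Fin 5) (Fin 5) K) (θ : K) (W : D[X]) :
    evK R θ W = W.eval₂ R (algebraMap K (Matrix (Fin 5) (Fin 5) K) θ) := rfl

theorem evK_C (R : D →+* Matrix (Fin 5) (Fin 5) K) (θ : K) (d : D) : evK R θ (C d) = R d := by
  rw [evK_apply, eval₂_C]

theorem evK_X (R : D →+* Matrix (Fin 5) (Fin 5) K) (θ : K) :
    evK R θ X = algebraMap K (Matrix (Fin 5) (Fin 5) K) θ := by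
  rw [evK_apply, eval₂_X]

theorem trace_evK (R : D →+* Matrix (Fin 5) (Fin 5) K) (θ : K) (τ : D →ₗ[F] F) (κ : K)
    (htr : ∀ d, (R d).trace = κ * algebraMap F K (τ d)) (W : D[X]) :
    (evK R θ W).trace = κ * aeval θ (PhiD τ W) := by
  rw [evK_apply, eval₂_eq_sum_range, Matrix.trace_sum,
    aeval_eq_sum_range' (n := W.natDegree + 1) (Nat.lt_succ_of_le (PhiD_natDegree τ W le_rfl)), mul_sum]
  refine sum_congr rfl fun i _ => ?_
  rw [PhiD_coeff, ← map_pow, ← Algebra.commutes, ← Algebra.smul_def, Matrix.trace_smul, htr, smul_eq_mul,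
    Algebra.smul_def]
  ring

theorem IsLam.smul {M : Matrix (Fin 5) (Fin 5) K} (h : IsLam M) (k : K) : IsLam (k • M) := by
  refine ⟨fun i j hij => ?_, fun i => ?_⟩
  · rw [Matrix.smul_apply, h.1 i j hij, smul_zero]
  · rw [Matrix.smul_apply, Matrix.smul_apply, Matrix.smul_apply, h.2 i, smul_eq_mul, smul_eq_mul, smul_eq_mul]
    ring

theorem IsLam.sub_scalar {M : Matrix (Fin 5) (Fin 5) K} (h : IsLam M) (k : K) :
    IsLam (M - algebraMap K (Matrix (Fin 5) (Fin 5) K) k) := by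
  refine ⟨fun i j hij => ?_, fun i => ?_⟩
  · rw [Matrix.sub_apply, h.1 i j hij, Matrix.algebraMap_matrix_apply, if_neg hij.ne', sub_zero]
  · rw [Matrix.sub_apply, Matrix.sub_apply, Matrix.sub_apply, h.2 i, Matrix.algebraMap_matrix_apply,
      Matrix.algebraMap_matrix_apply, Matrix.algebraMap_matrix_apply, if_pos rfl, if_pos rfl, if_pos rfl]
    ring

/-- the traces of powers of a good polynomial. -/
theorem dvd_phi [CharP K 5] (R : D →+* Matrix (Fin 5) (Fin 5) K) (θ : K) {f : F[X]}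
    (hf : ∀ q : F[X], aeval θ q = 0 → f ∣ q) (τ : D →ₗ[F] F) {κ : K} (hκ : κ ≠ 0)
    (htr : ∀ d, (R d).trace = κ * algebraMap F K (τ d)) {W : D[X]} (hW : IsLam (evK R θ W)) {n : ℕ}
    (hn : 1 ≤ n) (hn3 : n ≤ 3) : f ∣ PhiD τ (W ^ n) := by
  apply hf
  have h1 := trace_evK R θ τ κ htr (W ^ n)
  rw [map_pow, trace_lam hW hn hn3] at h1
  exact (mul_eq_zero.1 h1.symm).resolve_left hκ

theorem phi_zero [CharP K 5] (R : D →+* Matrix (Fin 5) (Fin 5) K) (θ : K) {f : F[X]} (hfd : f.natDegree = 5)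
    (hf : ∀ q : F[X], aeval θ q = 0 → f ∣ q) (τ : D →ₗ[F] F) {κ : K} (hκ : κ ≠ 0)
    (htr : ∀ d, (R d).trace = κ * algebraMap F K (τ d)) {W : D[X]} (hW : IsLam (evK R θ W)) {n d : ℕ}
    (hd : W.natDegree ≤ d) (hn : 1 ≤ n) (hn3 : n ≤ 3) (hnd : n * d < 5) : PhiD τ (W ^ n) = 0 := by
  refine Polynomial.eq_zero_of_dvd_of_natDegree_lt (dvd_phi R θ hf τ hκ htr hW hn hn3) ?_
  rw [hfd]
  refine (PhiD_natDegree τ (W ^ n) (natDegree_pow_le_of_le n hd)).trans_lt hnd

/-- degree one. -/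
theorem line_case [CharP K 5] (R : D →+* Matrix (Fin 5) (Fin 5) K) (θ : K) {f : F[X]} (hfd : f.natDegree = 5)
    (hf : ∀ q : F[X], aeval θ q = 0 → f ∣ q) (τ : D →ₗ[F] F) {κ : K} (hκ : κ ≠ 0)
    (htr : ∀ d, (R d).trace = κ * algebraMap F K (τ d)) {W : D[X]} (hW : IsLam (evK R θ W))
    (hd : W.natDegree ≤ 1) (hc : ∃ i, W.coeff i ∉ Set.range (algebraMap F D)) :
    ∃ z : D, z ∉ Set.range (algebraMap F D) ∧ ∀ n, 1 ≤ n → n ≤ 3 → τ (z ^ n) = 0 := by
  have h0 : ∀ n, 1 ≤ n → n ≤ 3 → PhiD τ (W ^ n) = 0 := fun n hn hn3 =>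
    phi_zero R θ hfd hf τ hκ htr hW hd hn hn3 (by omega)
  have hz : ∀ t : F, ∀ n, 1 ≤ n → n ≤ 3 → τ ((evD D t W) ^ n) = 0 := by
    intro t n hn hn3
    rw [← map_pow, evD_apply, ← PhiD_eval, h0 n hn hn3, eval_zero]
  have hev : ∀ t : F, evD D t W = W.coeff 0 + t • W.coeff 1 := by
    intro t
    rw [evD_apply, eval_eq_sum_range' (n := 2) (by omega), sum_range_succ, sum_range_succ, range_zero, sum_empty,
      zero_add, pow_zero, mul_one, pow_one, ← Algebra.commutes, Algebra.smul_def]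
  by_cases h : W.coeff 0 ∈ Set.range (algebraMap F D)
  · refine ⟨evD D (1 : F) W, ?_, hz 1⟩
    intro h1
    obtain ⟨i, hi⟩ := hc
    apply hi
    obtain ⟨c, hcc⟩ := h
    obtain ⟨e, he⟩ := h1
    rw [hev, one_smul, ← hcc] at he
    have h2 : W.coeff 1 = algebraMap F D (e - c) := by rw [map_sub, he]; abel
    rcases i with _ | _ | i
    · exact ⟨c, hcc⟩
    · exact ⟨e - c, h2.symm⟩
    · exact ⟨0, by rw [coeff_eq_zero_of_natDegree_lt (by omega), map_zero]⟩
  · refine ⟨evD D (0 : F) W, ?_, hz 0⟩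
    rw [hev, zero_smul, add_zero]
    exact h

/-- degree two. -/
theorem conic_case [CharP K 5] (R : D →+* Matrix (Fin 5) (Fin 5) K)
    (hR : ∀ c : F, R (algebraMap F D c) = algebraMap K (Matrix (Fin 5) (Fin 5) K) (algebraMap F K c))
    (θ : K) {f : F[X]} (hfd : f.natDegree = 5)
    (hf : ∀ q : F[X], aeval θ q = 0 → f ∣ q) (τ : D →ₗ[F] F) {κ : K} (hκ : κ ≠ 0)
    (htr : ∀ d, (R d).trace = κ * algebraMap F K (τ d)) {W : D[X]} (hW : IsLam (evK R θ W))
    (hd : W.natDegree ≤ 2) (hc : ∃ i, W.coeff i ∉ Set.range (algebraMap F D)) :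
    ∃ z : D, z ∉ Set.range (algebraMap F D) ∧ ∀ n, 1 ≤ n → n ≤ 3 → τ (z ^ n) = 0 := by
  by_cases hlow : ∃ W' : D[X], W'.natDegree ≤ 1 ∧ IsLam (evK R θ W') ∧ ∃ i, W'.coeff i ∉ Set.range (algebraMap F D)
  · obtain ⟨W', h1, h2, h3⟩ := hlow
    exact line_case R θ hfd hf τ hκ htr h2 h1 h3
  have hWe : W = C (W.coeff 0) + C (W.coeff 1) * X + C (W.coeff 2) * X ^ 2 := by
    conv_lhs => rw [W.as_sum_range_C_mul_X_pow' (n := 3) (by omega)]
    rw [sum_range_succ, sum_range_succ, sum_range_succ, range_zero, sum_empty, zero_add, pow_zero, mul_one, pow_one]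
  have hevW : evK R θ W = R (W.coeff 0) + θ • R (W.coeff 1) + (θ ^ 2) • R (W.coeff 2) := by
    conv_lhs => rw [hWe]
    rw [map_add, map_add, map_mul, map_mul, map_pow, evK_C, evK_C, evK_C, evK_X, ← map_pow, ← Algebra.commutes,
      ← Algebra.commutes, Algebra.smul_def, Algebra.smul_def]
  have hlin : ∀ a b : D, evK R θ (C a + C b * X) = R a + θ • R b := by
    intro a b
    rw [map_add, map_mul, evK_C, evK_C, evK_X, ← Algebra.commutes, Algebra.smul_def]
  have hlindeg : ∀ a b : D, (C a + C b * X : D[X]).natDegree ≤ 1 := by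
    intro a b
    rw [add_comm]
    exact natDegree_linear_le
  have hcoef0 : ∀ a b : D, (C a + C b * X : D[X]).coeff 0 = a := by intro a b; simp
  have hcoef1 : ∀ a b : D, (C a + C b * X : D[X]).coeff 1 = b := by intro a b; simp
  -- the leading coefficient
  have hc2 : W.coeff 2 ∉ Set.range (algebraMap F D) := by
    rintro ⟨c, hcc⟩
    apply hlow
    refine ⟨C (W.coeff 0) + C (W.coeff 1) * X, hlindeg _ _, ?_, ?_⟩
    · rw [hlin]
      have h1 : R (W.coeff 0) + θ • R (W.coeff 1) =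
          evK R θ W - algebraMap K (Matrix (Fin 5) (Fin 5) K) (θ ^ 2 * algebraMap F K c) := by
        rw [hevW, ← hcc, hR, map_mul, ← Algebra.smul_def]
        abel
      rw [h1]
      exact hW.sub_scalar _
    · obtain ⟨i, hi⟩ := hc
      rcases i with _ | _ | _ | i
      · exact ⟨0, by rw [hcoef0]; exact hi⟩
      · exact ⟨1, by rw [hcoef1]; exact hi⟩
      · exact absurd ⟨c, hcc⟩ hi
      · exact absurd ⟨0, by rw [coeff_eq_zero_of_natDegree_lt (by omega), map_zero]⟩ hi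
  have hT1 : PhiD τ (W ^ 1) = 0 := phi_zero R θ hfd hf τ hκ htr hW hd le_rfl (by norm_num) (by norm_num)
  have hT2 : PhiD τ (W ^ 2) = 0 := phi_zero R θ hfd hf τ hκ htr hW hd (by norm_num) (by norm_num) (by norm_num)
  obtain ⟨g, hg⟩ := dvd_phi R θ hf τ hκ htr hW (n := 3) (by norm_num) le_rfl
  have hT3 : (PhiD τ (W ^ 3)).natDegree ≤ 6 := PhiD_natDegree τ (W ^ 3) (natDegree_pow_le_of_le 3 hd)
  have hf0 : f ≠ 0 := by
    rintro rfl
    rw [natDegree_zero] at hfd
    omega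
  have hgd : g.natDegree ≤ 1 := by
    by_cases hg0 : g = 0
    · rw [hg0, natDegree_zero]; omega
    · rw [hg, natDegree_mul hf0 hg0, hfd] at hT3
      omega
  by_cases hα : g.coeff 1 = 0
  · -- the point at infinity
    refine ⟨W.coeff 2, hc2, ?_⟩
    have hg0 : g.natDegree ≤ 0 := by
      rw [natDegree_le_iff_coeff_eq_zero]
      intro m hm
      rcases Nat.lt_or_ge 1 m with h | h
      · exact coeff_eq_zero_of_natDegree_lt (by omega)
      · have : m = 1 := by omega
        rw [this, hα]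
    have hT3' : (PhiD τ (W ^ 3)).coeff 6 = 0 := by
      apply coeff_eq_zero_of_natDegree_lt
      rw [hg]
      have := natDegree_mul_le (p := f) (q := g)
      omega
    intro n hn hn3
    have hco : ∀ n, (W ^ n).coeff (2 * n) = W.coeff 2 ^ n := fun n => by
      rw [mul_comm]
      exact coeff_pow_of_natDegree_le hd
    interval_cases n
    · rw [← hco, ← PhiD_coeff, hT1, coeff_zero]
    · rw [← hco, ← PhiD_coeff, hT2, coeff_zero]
    · rw [← hco, ← PhiD_coeff]
      exact hT3'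
  · -- a finite point
    obtain ⟨t, ht⟩ : ∃ t : F, g.eval t = 0 := by
      refine ⟨-(g.coeff 0 / g.coeff 1), ?_⟩
      rw [eval_eq_sum_range' (n := 2) (by omega), sum_range_succ, sum_range_succ, range_zero, sum_empty]
      field_simp
      ring
    have hz : ∀ n, 1 ≤ n → n ≤ 3 → τ ((evD D t W) ^ n) = 0 := by
      intro n hn hn3
      rw [← map_pow, evD_apply, ← PhiD_eval]
      interval_cases n
      · rw [hT1, eval_zero]
      · rw [hT2, eval_zero]
      · rw [hg, eval_mul, ht, mul_zero]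
    refine ⟨evD D t W, ?_, hz⟩
    rintro ⟨c, hcc⟩
    apply hlow
    have hθt : θ - algebraMap F K t ≠ 0 := by
      intro h0
      have h1 := hf (X - C t) (by rw [map_sub, aeval_X, aeval_C, h0])
      have h2 := natDegree_le_of_dvd h1 (X_sub_C_ne_zero t)
      rw [hfd, natDegree_X_sub_C] at h2
      omega
    refine ⟨C (W.coeff 1 + t • W.coeff 2) + C (W.coeff 2) * X, hlindeg _ _, ?_, 1, by rw [hcoef1]; exact hc2⟩
    rw [hlin]
    have hRs : ∀ (c : F) (d : D), R (c • d) = (algebraMap F K c) • R d := by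
      intro c d
      rw [Algebra.smul_def, map_mul, hR, Algebra.smul_def]
    have hcc' : W.coeff 0 = algebraMap F D c - t • W.coeff 1 - (t ^ 2) • W.coeff 2 := by
      rw [hcc, evD_apply, eval_eq_sum_range' (n := 3) (by omega), sum_range_succ, sum_range_succ, sum_range_succ,
        range_zero, sum_empty, zero_add, pow_zero, mul_one, pow_one, ← map_pow, ← Algebra.commutes, ← Algebra.commutes,
        ← Algebra.smul_def, ← Algebra.smul_def]
      abel
    have h1 : R (W.coeff 1 + t • W.coeff 2) + θ • R (W.coeff 2) =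
        (θ - algebraMap F K t)⁻¹ • (evK R θ W - algebraMap K (Matrix (Fin 5) (Fin 5) K) (algebraMap F K c)) := by
      have h2 : evK R θ W - algebraMap K (Matrix (Fin 5) (Fin 5) K) (algebraMap F K c) =
          (θ - algebraMap F K t) • (R (W.coeff 1 + t • W.coeff 2) + θ • R (W.coeff 2)) := by
        rw [hevW, hcc', map_sub, map_sub, hR, hRs, hRs, map_add, hRs, map_pow]
        module
      rw [h2, smul_smul, inv_mul_cancel₀ hθt, one_smul]
    rw [h1]
    exact (hW.sub_scalar _).smul _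

end core

end Run7.h339
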