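import Mathlib
import Pool.Agent.Run7.h339.Sub

/-! The absolute value of a finite-dimensional division algebra over a complete
nonarchimedean field. -/

set_option autoImplicit false
set_option linter.all false

namespace Run7.h339

open Module Polynomial

section nrm

variable {F D : Type*} [NontriviallyNormedField F] [IsUltrametricDist F] [CompleteSpace F]
  [DivisionRing D] [Algebra F D] [FiniteDimensional F D]

/-- the absolute value. -/
noncomputable def nrm (F : Type*) {D : Type*} [NontriviallyNormedField F] [DivisionRing D]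
    [Algebra F D] (x : D) : ℝ := spectralValue (minpoly F x)

theorem nrm_hom {L : Type*} [Field L] [Algebra F L] (φ : L →ₐ[F] D) (y : L) :
    nrm F (φ y) = spectralNorm F L y := by
  rw [nrm, spectralNorm, minpoly.algHom_eq φ φ.toRingHom.injective]

theorem nrm_ad (x : D) : nrm F x = spectralNorm F (Ad F x) (AdjoinRoot.root _) := by
  rw [← nrm_hom (adHom F x), adHom_root]

theorem nrm_nonneg (x : D) : 0 ≤ nrm F x := spectralValue_nonneg _

theorem nrm_pow_natDegree (x : D) :
    nrm F x ^ (minpoly F x).natDegree = ‖(minpoly F x).coeff 0‖ := by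
  rw [nrm_ad, spectralNorm.spectralNorm_eq_norm_coeff_zero_rpow, minpoly_root_ad, ← Real.rpow_natCast,
    ← Real.rpow_mul (norm_nonneg _), one_div, inv_mul_cancel₀, Real.rpow_one]
  have := (minpoly_irred (F := F) x).natDegree_pos
  exact_mod_cast this.ne'

theorem nrm_pow (x : D) : nrm F x ^ finrank F D = ‖Algebra.norm F x‖ := by
  have h1 := norm_eq_pow (adHom F x) (AdjoinRoot.root (minpoly F x))
  rw [adHom_root, norm_root_ad] at h1
  rw [h1, norm_pow, norm_mul, norm_pow, norm_neg, norm_one, one_pow, one_mul,
    ← nrm_pow_natDegree, ← pow_mul, ← finrank_ad, dimL_mul]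

theorem finrank_pos' : 0 < finrank F D := Module.finrank_pos

theorem nrm_mul (x y : D) : nrm F (x * y) = nrm F x * nrm F y := by
  have h : nrm F (x * y) ^ finrank F D = (nrm F x * nrm F y) ^ finrank F D := by
    rw [mul_pow, nrm_pow, nrm_pow, nrm_pow, map_mul, norm_mul]
  exact (pow_left_inj₀ (nrm_nonneg _) (mul_nonneg (nrm_nonneg _) (nrm_nonneg _))
    (finrank_pos' (F := F) (D := D)).ne').1 h

theorem nrm_algebraMap (c : F) : nrm F (algebraMap F D c) = ‖c‖ := by
  have := nrm_hom (Algebra.ofId F D) c
  rw [Algebra.ofId_apply] at this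
  rw [this]
  exact spectralNorm_extends c

theorem nrm_one : nrm F (1 : D) = 1 := by
  rw [← map_one (algebraMap F D), nrm_algebraMap, norm_one]

theorem nrm_zero : nrm F (0 : D) = 0 := by
  rw [← map_zero (algebraMap F D), nrm_algebraMap, norm_zero]

theorem nrm_eq_zero {x : D} (h : nrm F x = 0) : x = 0 := by
  by_contra hx
  have h1 : nrm F (x * x⁻¹) = 1 := by rw [mul_inv_cancel₀ hx, nrm_one]
  rw [nrm_mul, h, zero_mul] at h1
  exact zero_ne_one h1

theorem nrm_neg (x : D) : nrm F (-x) = nrm F x := by
  have h : nrm F (-1 : D) = 1 := by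
    rw [← map_one (algebraMap F D), ← map_neg, nrm_algebraMap, norm_neg, norm_one]
  rw [← neg_one_mul, nrm_mul, h, one_mul]

theorem nrm_one_add (x : D) (hx : nrm F x ≤ 1) : nrm F (1 + x) ≤ 1 := by
  have h1 : nrm F (1 + x) = spectralNorm F (Ad F x) (1 + AdjoinRoot.root _) := by
    rw [← nrm_hom (adHom F x), map_add, map_one, adHom_root]
  rw [h1]
  refine (isNonarchimedean_spectralNorm (K := F) (L := Ad F x) 1 (AdjoinRoot.root _)).trans ?_
  rw [spectralNorm_one, ← nrm_ad]
  exact max_le le_rfl hx

theorem nrm_add (x y : D) : nrm F (x + y) ≤ max (nrm F x) (nrm F y) := by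
  wlog h : nrm F x ≤ nrm F y with H
  · rw [add_comm, max_comm]
    exact H y x (le_of_lt (not_le.1 h))
  rw [max_eq_right h]
  by_cases hy : y = 0
  · rw [hy, add_zero, ← hy]
    exact h
  have hy' : 0 < nrm F y := lt_of_le_of_ne (nrm_nonneg _) fun h0 => hy (nrm_eq_zero h0.symm)
  have h1 : x + y = (1 + x * y⁻¹) * y := by
    rw [add_mul, one_mul, mul_assoc, inv_mul_cancel₀ hy, mul_one, add_comm]
  have h2 : nrm F (x * y⁻¹) ≤ 1 := by
    have h3 : nrm F (x * y⁻¹) * nrm F y = nrm F x := by
      rw [← nrm_mul, mul_assoc, inv_mul_cancel₀ hy, mul_one]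
    by_contra hc
    push Not at hc
    nlinarith
  rw [h1, nrm_mul]
  have := nrm_one_add _ h2
  nlinarith

theorem nrm_smul (c : F) (x : D) : nrm F (c • x) = ‖c‖ * nrm F x := by
  rw [Algebra.smul_def, nrm_mul, nrm_algebraMap]

/-- the normed division ring structure. -/
noncomputable abbrev nDR (F D : Type*) [NontriviallyNormedField F] [IsUltrametricDist F] [CompleteSpace F]
    [i : DivisionRing D] [Algebra F D] [FiniteDimensional F D] : NormedDivisionRing D where
  toDivisionRing := i
  norm := nrm F
  dist x y := nrm F (-x + y)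
  dist_self x := by simp [nrm_zero]
  dist_comm x y := by
    rw [← nrm_neg, neg_add, neg_neg, add_comm]
  dist_triangle x y z := by
    have h : -x + z = (-x + y) + (-y + z) := by abel
    rw [h]
    refine (nrm_add _ _).trans (max_le ?_ ?_)
    · have := nrm_nonneg (F := F) (-y + z)
      linarith
    · have := nrm_nonneg (F := F) (-x + y)
      linarith
  eq_of_dist_eq_zero {x y} h := by
    have := nrm_eq_zero h
    rw [neg_add_eq_zero] at this
    exact this
  dist_eq x y := rfl
  norm_mul := nrm_mul

/-- the normed algebra structure. -/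
noncomputable abbrev nAlg (F D : Type*) [NontriviallyNormedField F] [IsUltrametricDist F] [CompleteSpace F]
    [i : DivisionRing D] [j : Algebra F D] [FiniteDimensional F D] :
    letI := nDR F D
    NormedAlgebra F D :=
  letI := nDR F D
  { toAlgebra := j
    norm_smul_le := fun c x => (nrm_smul c x).le }

theorem nUltra : letI := nDR F D; IsUltrametricDist D := by
  letI := nDR F D
  exact IsUltrametricDist.isUltrametricDist_of_forall_norm_add_le_max_norm fun x y => nrm_add x y

end nrm

end Run7.h339
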