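import Mathlib

/-! Solving `τ (z ^ j) = 0` for all `1 ≤ j < p` by successive approximation. -/

set_option autoImplicit false
set_option linter.all false

namespace Run7.h339

open Module Finset

section newton

variable {F D : Type*} [NontriviallyNormedField F] [CompleteSpace F]
  [NormedDivisionRing D] [NormedAlgebra F D] [IsUltrametricDist D]

theorem add_le' {x y : D} {r : ℝ} (hx : ‖x‖ ≤ r) (hy : ‖y‖ ≤ r) : ‖x + y‖ ≤ r :=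
  (IsUltrametricDist.norm_add_le_max x y).trans (max_le hx hy)

theorem sub_le' {x y : D} {r : ℝ} (hx : ‖x‖ ≤ r) (hy : ‖y‖ ≤ r) : ‖x - y‖ ≤ r := by
  rw [sub_eq_add_neg]
  exact add_le' hx (by rwa [norm_neg])

theorem nsub_le_max (x y : D) : ‖x - y‖ ≤ max ‖x‖ ‖y‖ :=
  sub_le' (le_max_left _ _) (le_max_right _ _)

theorem norm_eq_of_near {z z0 : D} (h : ‖z - z0‖ < ‖z0‖) : ‖z‖ = ‖z0‖ := by
  have h1 : z = (z - z0) + z0 := by abel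
  rw [h1]
  rw [IsUltrametricDist.norm_add_eq_max_of_norm_ne_norm h.ne, max_eq_right h.le]

theorem pow_near {z z0 : D} {θ : ℝ} (hθ : 0 < θ) (hθ1 : θ < 1) (hz0 : z0 ≠ 0)
    (h : ‖z - z0‖ ≤ θ * ‖z0‖) (i : ℕ) : ‖z ^ i - z0 ^ i‖ ≤ θ * ‖z0‖ ^ i := by
  have hp : 0 < ‖z0‖ := norm_pos_iff.2 hz0
  have hz : ‖z‖ = ‖z0‖ := norm_eq_of_near (by nlinarith)
  induction i with
  | zero => simp [hθ.le]
  | succ i ih =>
    have h1 : z ^ (i + 1) - z0 ^ (i + 1) = (z ^ i - z0 ^ i) * z + z0 ^ i * (z - z0) := by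
      rw [pow_succ, pow_succ]; noncomm_ring
    rw [h1]
    apply add_le'
    · rw [norm_mul, hz, pow_succ]
      nlinarith [norm_nonneg (z ^ i - z0 ^ i)]
    · rw [norm_mul, norm_pow, pow_succ]
      have : 0 < ‖z0‖ ^ i := pow_pos hp i
      nlinarith

/-- the first-order term. -/
noncomputable def S (z w : D) (j : ℕ) : D := ∑ i ∈ range j, z ^ i * w * z ^ (j - 1 - i)

theorem S_succ (z w : D) (j : ℕ) : S z w (j + 1) = z * S z w j + w * z ^ j := by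
  rw [S, sum_range_succ', S, mul_sum]
  congr 1
  · apply sum_congr rfl
    intro i hi
    have : j + 1 - 1 - (i + 1) = j - 1 - i := by omega
    rw [this, pow_succ', mul_assoc, mul_assoc, mul_assoc]
  · simp

theorem R_bound1 (z w : D) (hw : ‖w‖ ≤ ‖z‖) (j : ℕ) :
    ‖(z - w) ^ j - z ^ j‖ * ‖z‖ ≤ ‖z‖ ^ j * ‖w‖ := by
  induction j with
  | zero => simp
  | succ j ih =>
    have h1 : (z - w) ^ (j + 1) - z ^ (j + 1) = (z - w) * ((z - w) ^ j - z ^ j) - w * z ^ j := by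
      rw [pow_succ', pow_succ']; noncomm_ring
    rw [h1]
    have h2 : ‖z - w‖ ≤ ‖z‖ := sub_le' le_rfl hw
    have h3 : ‖(z - w) * ((z - w) ^ j - z ^ j)‖ * ‖z‖ ≤ ‖z‖ ^ (j + 1) * ‖w‖ := by
      rw [norm_mul]
      calc ‖z - w‖ * ‖(z - w) ^ j - z ^ j‖ * ‖z‖ = ‖z - w‖ * (‖(z - w) ^ j - z ^ j‖ * ‖z‖) := by ring
        _ ≤ ‖z‖ * (‖z‖ ^ j * ‖w‖) := by
          apply mul_le_mul h2 ih (by positivity) (by positivity)
        _ = _ := by ring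
    have h4 : ‖w * z ^ j‖ * ‖z‖ ≤ ‖z‖ ^ (j + 1) * ‖w‖ := by
      rw [norm_mul, norm_pow]
      apply le_of_eq; ring
    have h5 := nsub_le_max ((z - w) * ((z - w) ^ j - z ^ j)) (w * z ^ j)
    rcases le_total ‖(z - w) * ((z - w) ^ j - z ^ j)‖ ‖w * z ^ j‖ with h | h
    · rw [max_eq_right h] at h5
      exact (mul_le_mul_of_nonneg_right h5 (norm_nonneg _)).trans h4
    · rw [max_eq_left h] at h5
      exact (mul_le_mul_of_nonneg_right h5 (norm_nonneg _)).trans h3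

theorem R_bound2 (z w : D) (hw : ‖w‖ ≤ ‖z‖) (j : ℕ) :
    ‖(z - w) ^ j - z ^ j + S z w j‖ * ‖z‖ ^ 2 ≤ ‖z‖ ^ j * ‖w‖ ^ 2 := by
  induction j with
  | zero => simp [S]
  | succ j ih =>
    have h1 : (z - w) ^ (j + 1) - z ^ (j + 1) + S z w (j + 1) =
        z * ((z - w) ^ j - z ^ j + S z w j) - w * ((z - w) ^ j - z ^ j) := by
      rw [S_succ, pow_succ', pow_succ']; noncomm_ring
    rw [h1]
    have h3 : ‖z * ((z - w) ^ j - z ^ j + S z w j)‖ * ‖z‖ ^ 2 ≤ ‖z‖ ^ (j + 1) * ‖w‖ ^ 2 := by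
      rw [norm_mul]
      calc ‖z‖ * ‖(z - w) ^ j - z ^ j + S z w j‖ * ‖z‖ ^ 2 =
          ‖z‖ * (‖(z - w) ^ j - z ^ j + S z w j‖ * ‖z‖ ^ 2) := by ring
        _ ≤ ‖z‖ * (‖z‖ ^ j * ‖w‖ ^ 2) := mul_le_mul_of_nonneg_left ih (norm_nonneg _)
        _ = _ := by ring
    have h4 : ‖w * ((z - w) ^ j - z ^ j)‖ * ‖z‖ ^ 2 ≤ ‖z‖ ^ (j + 1) * ‖w‖ ^ 2 := by
      rw [norm_mul]
      have := R_bound1 z w hw j
      calc ‖w‖ * ‖(z - w) ^ j - z ^ j‖ * ‖z‖ ^ 2 =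
          ‖w‖ * (‖(z - w) ^ j - z ^ j‖ * ‖z‖) * ‖z‖ := by ring
        _ ≤ ‖w‖ * (‖z‖ ^ j * ‖w‖) * ‖z‖ := by gcongr
        _ = _ := by ring
    have h5 := nsub_le_max (z * ((z - w) ^ j - z ^ j + S z w j))
      (w * ((z - w) ^ j - z ^ j))
    rcases le_total ‖z * ((z - w) ^ j - z ^ j + S z w j)‖ ‖w * ((z - w) ^ j - z ^ j)‖ with h | h
    · rw [max_eq_right h] at h5
      exact (mul_le_mul_of_nonneg_right h5 (by positivity)).trans h4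
    · rw [max_eq_left h] at h5
      exact (mul_le_mul_of_nonneg_right h5 (by positivity)).trans h3

variable (τ : D →ₗ[F] F) (htr : ∀ x y, τ (x * y) = τ (y * x))
include htr

theorem tau_S (z w : D) (j : ℕ) : τ (S z w j) = (j : F) * τ (z ^ (j - 1) * w) := by
  rw [S, map_sum]
  have : ∀ i ∈ range j, τ (z ^ i * w * z ^ (j - 1 - i)) = τ (z ^ (j - 1) * w) := by
    intro i hi
    rw [mem_range] at hi
    have : j - 1 - i + i = j - 1 := by omega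
    rw [htr, ← mul_assoc, ← pow_add, this]
  rw [sum_congr rfl this, sum_const, card_range, nsmul_eq_mul]

variable [IsUltrametricDist F]

theorem step {M : ℝ} (hM : 0 < M) (hτ : ∀ x, ‖τ x‖ ≤ M * ‖x‖) {z0 : D} (hz0 : z0 ≠ 0) {p : ℕ}
    {θ : ℝ} (hθ : 0 < θ) (hθ1 : θ < 1)
    (hs : ∀ n, 1 ≤ n → ∀ c : ℕ → F, (∀ j, 1 ≤ j → j < p → ‖c j‖ ≤ θ ^ n * (M * ‖z0‖ ^ j)) →
      ∃ w : D, ‖w‖ ≤ θ ^ n * ‖z0‖ ∧ ∀ j, 1 ≤ j → j < p →
        ‖(j : F) * τ (z0 ^ (j - 1) * w) - c j‖ ≤ θ ^ (n + 1) * (M * ‖z0‖ ^ j))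
    {n : ℕ} (hn : 1 ≤ n) {z : D} (hz : ‖z - z0‖ ≤ θ * ‖z0‖)
    (hzn : ∀ j, 1 ≤ j → j < p → ‖τ (z ^ j)‖ ≤ θ ^ n * (M * ‖z0‖ ^ j)) :
    ∃ z' : D, ‖z' - z‖ ≤ θ ^ n * ‖z0‖ ∧ ‖z' - z0‖ ≤ θ * ‖z0‖ ∧
      ∀ j, 1 ≤ j → j < p → ‖τ (z' ^ j)‖ ≤ θ ^ (n + 1) * (M * ‖z0‖ ^ j) := by
  obtain ⟨w, hw, hw2⟩ := hs n hn (fun j => τ (z ^ j)) hzn
  have hp : 0 < ‖z0‖ := norm_pos_iff.2 hz0
  have hzz : ‖z‖ = ‖z0‖ := norm_eq_of_near (by nlinarith)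
  have hθn : θ ^ n ≤ θ := by
    calc θ ^ n ≤ θ ^ 1 := pow_le_pow_of_le_one hθ.le hθ1.le hn
      _ = θ := pow_one θ
  have hθn0 : 0 < θ ^ n := pow_pos hθ n
  have hwz : ‖w‖ ≤ ‖z‖ := by
    rw [hzz]
    exact hw.trans (by nlinarith)
  refine ⟨z - w, ?_, ?_, ?_⟩
  · rw [show z - w - z = -w by abel, norm_neg]
    exact hw
  · rw [show z - w - z0 = (z - z0) - w by abel]
    exact sub_le' hz (hw.trans (by nlinarith))
  · intro j hj hjp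
    have e1 : (z - w) ^ j = (z ^ j - S z w j) + ((z - w) ^ j - z ^ j + S z w j) := by abel
    have e2 : τ ((z - w) ^ j) = -((j : F) * τ (z0 ^ (j - 1) * w) - τ (z ^ j)) -
        (j : F) * τ ((z ^ (j - 1) - z0 ^ (j - 1)) * w) + τ ((z - w) ^ j - z ^ j + S z w j) := by
      conv_lhs => rw [e1, map_add, map_sub, tau_S τ htr]
      rw [sub_mul, map_sub]
      ring
    rw [e2]
    have hj1 : ‖(j : F)‖ ≤ 1 := IsUltrametricDist.norm_natCast_le_one F j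
    have hpj : 0 < ‖z0‖ ^ j := pow_pos hp j
    have b1 : ‖-((j : F) * τ (z0 ^ (j - 1) * w) - τ (z ^ j))‖ ≤ θ ^ (n + 1) * (M * ‖z0‖ ^ j) := by
      rw [norm_neg]
      exact hw2 j hj hjp
    have e3 : ‖z0‖ ^ j = ‖z0‖ ^ (j - 1) * ‖z0‖ := by
      rw [← pow_succ]
      congr 1
      omega
    have b2 : ‖(j : F) * τ ((z ^ (j - 1) - z0 ^ (j - 1)) * w)‖ ≤ θ ^ (n + 1) * (M * ‖z0‖ ^ j) := by
      rw [norm_mul]
      have h1 : ‖τ ((z ^ (j - 1) - z0 ^ (j - 1)) * w)‖ ≤ θ ^ (n + 1) * (M * ‖z0‖ ^ j) := by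
        refine (hτ _).trans ?_
        rw [norm_mul]
        have h2 := pow_near hθ hθ1 hz0 hz (j - 1)
        calc M * (‖z ^ (j - 1) - z0 ^ (j - 1)‖ * ‖w‖) ≤ M * ((θ * ‖z0‖ ^ (j - 1)) * (θ ^ n * ‖z0‖)) := by
              gcongr
          _ = _ := by rw [e3]; ring
      have := norm_nonneg (τ ((z ^ (j - 1) - z0 ^ (j - 1)) * w))
      nlinarith
    have b3 : ‖τ ((z - w) ^ j - z ^ j + S z w j)‖ ≤ θ ^ (n + 1) * (M * ‖z0‖ ^ j) := by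
      refine (hτ _).trans ?_
      have h1 := R_bound2 z w hwz j
      rw [hzz] at h1
      have h2 : ‖w‖ ^ 2 ≤ θ ^ (n + 1) * ‖z0‖ ^ 2 := by
        calc ‖w‖ ^ 2 ≤ (θ ^ n * ‖z0‖) ^ 2 := by gcongr
          _ = θ ^ n * θ ^ n * ‖z0‖ ^ 2 := by ring
          _ ≤ θ ^ n * θ * ‖z0‖ ^ 2 := by gcongr
          _ = _ := by ring
      have h3 : ‖(z - w) ^ j - z ^ j + S z w j‖ * ‖z0‖ ^ 2 ≤ (θ ^ (n + 1) * ‖z0‖ ^ j) * ‖z0‖ ^ 2 := by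
        refine h1.trans ?_
        calc ‖z0‖ ^ j * ‖w‖ ^ 2 ≤ ‖z0‖ ^ j * (θ ^ (n + 1) * ‖z0‖ ^ 2) := by gcongr
          _ = _ := by ring
      have h4 : ‖(z - w) ^ j - z ^ j + S z w j‖ ≤ θ ^ (n + 1) * ‖z0‖ ^ j :=
        le_of_mul_le_mul_right h3 (by positivity)
      calc M * ‖(z - w) ^ j - z ^ j + S z w j‖ ≤ M * (θ ^ (n + 1) * ‖z0‖ ^ j) := by gcongr
        _ = _ := by ring
    exact add_le' (sub_le' b1 b2) b3

theorem newton [FiniteDimensional F D] {M : ℝ} (hM : 0 < M) (hτ : ∀ x, ‖τ x‖ ≤ M * ‖x‖) {z0 : D}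
    (hz0 : z0 ≠ 0) {p : ℕ} {θ : ℝ} (hθ : 0 < θ) (hθ1 : θ < 1)
    (h0 : ∀ j, 1 ≤ j → j < p → ‖τ (z0 ^ j)‖ ≤ θ * (M * ‖z0‖ ^ j))
    (hs : ∀ n, 1 ≤ n → ∀ c : ℕ → F, (∀ j, 1 ≤ j → j < p → ‖c j‖ ≤ θ ^ n * (M * ‖z0‖ ^ j)) →
      ∃ w : D, ‖w‖ ≤ θ ^ n * ‖z0‖ ∧ ∀ j, 1 ≤ j → j < p →
        ‖(j : F) * τ (z0 ^ (j - 1) * w) - c j‖ ≤ θ ^ (n + 1) * (M * ‖z0‖ ^ j)) :
    ∃ z : D, ‖z - z0‖ ≤ θ * ‖z0‖ ∧ ∀ j, 1 ≤ j → j < p → τ (z ^ j) = 0 := by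
  classical
  let P : ℕ → D → Prop := fun n z => ‖z - z0‖ ≤ θ * ‖z0‖ ∧
    ∀ j, 1 ≤ j → j < p → ‖τ (z ^ j)‖ ≤ θ ^ (n + 1) * (M * ‖z0‖ ^ j)
  have hstep : ∀ n (z : {z // P n z}), ∃ z' : {z // P (n + 1) z}, ‖z'.1 - z.1‖ ≤ θ ^ (n + 1) * ‖z0‖ := by
    rintro n ⟨z, hz1, hz2⟩
    obtain ⟨z', h1, h2, h3⟩ := step τ htr hM hτ hz0 hθ hθ1 hs (n := n + 1) (by omega) hz1 hz2
    exact ⟨⟨z', h2, h3⟩, h1⟩
  choose f hf using hstep
  have hP0 : P 0 z0 := by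
    refine ⟨?_, ?_⟩
    · rw [sub_self, norm_zero]
      positivity
    · simpa using h0
  let u : (n : ℕ) → {z // P n z} := fun n => Nat.rec ⟨z0, hP0⟩ (fun n z => f n z) n
  have hu : ∀ n, ‖(u (n + 1)).1 - (u n).1‖ ≤ θ ^ (n + 1) * ‖z0‖ := fun n => hf n (u n)
  haveI : CompleteSpace D := FiniteDimensional.complete F D
  have hc : CauchySeq fun n => (u n).1 := by
    apply cauchySeq_of_le_geometric θ (θ * ‖z0‖) hθ1
    intro n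
    rw [dist_comm, dist_eq_norm]
    refine (hu n).trans (le_of_eq ?_)
    ring
  obtain ⟨z, hz⟩ := cauchySeq_tendsto_of_complete hc
  refine ⟨z, ?_, ?_⟩
  · have h1 : Filter.Tendsto (fun n => ‖(u n).1 - z0‖) Filter.atTop (nhds ‖z - z0‖) :=
      (hz.sub_const z0).norm
    exact le_of_tendsto' h1 fun n => (u n).2.1
  · intro j hj hjp
    have hcont : Continuous τ := LinearMap.continuous_of_finiteDimensional τ
    have h1 : Filter.Tendsto (fun n => ‖τ ((u n).1 ^ j)‖) Filter.atTop (nhds ‖τ (z ^ j)‖) :=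
      ((hcont.tendsto _).comp (hz.pow j)).norm
    have h2 : Filter.Tendsto (fun n => θ ^ (n + 1) * (M * ‖z0‖ ^ j)) Filter.atTop (nhds 0) := by
      have h3 : Filter.Tendsto (fun n : ℕ => θ ^ (n + 1)) Filter.atTop (nhds 0) :=
        (tendsto_pow_atTop_nhds_zero_of_lt_one hθ.le hθ1).comp (Filter.tendsto_add_atTop_nat 1)
      have := h3.mul_const (M * ‖z0‖ ^ j)
      rwa [zero_mul] at this
    have h3 : ‖τ (z ^ j)‖ ≤ 0 := le_of_tendsto_of_tendsto' h1 h2 fun n => (u n).2.2 j hj hjp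
    exact norm_le_zero_iff.1 h3

end newton

end Run7.h339
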