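import Mathlib
import Pool.Agent.Run7.h339.Newton

/-! The ramified case. -/

set_option autoImplicit false
set_option linter.all false

namespace Run7.h339

open Module Finset

section disc

/-- `r` is a value: `r ^ p` is an integral power of `q`. -/
def IsV (q : ℝ) (p : ℕ) (r : ℝ) : Prop := 0 < r ∧ ∃ m : ℤ, r ^ p = q ^ m

theorem IsV.mul {q : ℝ} {p : ℕ} (hq : 0 < q) {r s : ℝ} (hr : IsV q p r) (hs : IsV q p s) : IsV q p (r * s) := by
  obtain ⟨a, ha⟩ := hr.2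
  obtain ⟨b, hb⟩ := hs.2
  exact ⟨mul_pos hr.1 hs.1, a + b, by rw [mul_pow, ha, hb, zpow_add₀ hq.ne']⟩

theorem IsV.inv {q : ℝ} {p : ℕ} (hq : 0 < q) {r : ℝ} (hr : IsV q p r) : IsV q p r⁻¹ := by
  obtain ⟨a, ha⟩ := hr.2
  exact ⟨inv_pos.2 hr.1, -a, by rw [inv_pow, ha, zpow_neg]⟩

theorem IsV.div {q : ℝ} {p : ℕ} (hq : 0 < q) {r s : ℝ} (hr : IsV q p r) (hs : IsV q p s) : IsV q p (r / s) := by
  rw [div_eq_mul_inv]
  exact hr.mul hq (hs.inv hq)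

theorem IsV.pow {q : ℝ} {p : ℕ} (hq : 0 < q) {r : ℝ} (hr : IsV q p r) (n : ℕ) : IsV q p (r ^ n) := by
  obtain ⟨a, ha⟩ := hr.2
  exact ⟨pow_pos hr.1 n, a * n, by rw [← pow_mul, mul_comm, pow_mul, ha, zpow_mul, zpow_natCast]⟩

theorem IsV.le_of_lt {q : ℝ} {p : ℕ} (hp : p ≠ 0) (hq : 0 < q) (hq1 : q < 1) {θ : ℝ} (hθ : 0 < θ) (hθp : θ ^ p = q)
    {r s : ℝ} (hr : IsV q p r) (hs : IsV q p s) (h : r < s) : r ≤ θ * s := by
  obtain ⟨a, ha⟩ := hr.2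
  obtain ⟨b, hb⟩ := hs.2
  have h1 : r ^ p < s ^ p := pow_lt_pow_left₀ h hr.1.le hp
  rw [ha, hb, zpow_lt_zpow_iff_right_of_lt_one₀ hq hq1] at h1
  have h2 : q ^ a ≤ q ^ (b + 1) := (zpow_le_zpow_iff_right_of_lt_one₀ hq hq1).2 (by omega)
  have h3 : r ^ p ≤ (θ * s) ^ p := by
    rw [mul_pow, hθp, ha, hb]
    refine h2.trans (le_of_eq ?_)
    rw [zpow_add₀ hq.ne', zpow_one, mul_comm]
  exact (pow_le_pow_iff_left₀ hr.1.le (mul_pos hθ hs.1).le hp).1 h3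

end disc

section ram

variable {F D : Type*} [NontriviallyNormedField F] [CompleteSpace F] [IsUltrametricDist F]
  [NormedDivisionRing D] [NormedAlgebra F D] [IsUltrametricDist D]

/-- the discreteness assumptions. -/
structure Disc (F D : Type*) [NontriviallyNormedField F] [NormedDivisionRing D] [NormedAlgebra F D]
    (p : ℕ) (ϖ : F) : Prop where
  ne : ϖ ≠ 0
  lt : ‖ϖ‖ < 1
  base : ∀ c : F, c ≠ 0 → ∃ n : ℤ, ‖c‖ = ‖ϖ‖ ^ n
  top : ∀ x : D, x ≠ 0 → ∃ c : F, c ≠ 0 ∧ ‖x‖ ^ p = ‖c‖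

theorem Disc.pos {p : ℕ} {ϖ : F} (h : Disc F D p ϖ) : 0 < ‖ϖ‖ := norm_pos_iff.2 h.ne

theorem Disc.isV_base {p : ℕ} {ϖ : F} (h : Disc F D p ϖ) {c : F} (hc : c ≠ 0) : IsV ‖ϖ‖ p ‖c‖ := by
  obtain ⟨n, hn⟩ := h.base c hc
  refine ⟨norm_pos_iff.2 hc, n * p, ?_⟩
  rw [hn, zpow_mul, zpow_natCast]

theorem Disc.isV_top {p : ℕ} {ϖ : F} (h : Disc F D p ϖ) {x : D} (hx : x ≠ 0) : IsV ‖ϖ‖ p ‖x‖ := by
  obtain ⟨c, hc, hc2⟩ := h.top x hx
  obtain ⟨n, hn⟩ := h.base c hc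
  exact ⟨norm_pos_iff.2 hx, n, by rw [hc2, hn]⟩

theorem exists_theta {p : ℕ} (hp : p ≠ 0) {q : ℝ} (hq : 0 < q) (hq1 : q < 1) :
    ∃ θ : ℝ, 0 < θ ∧ θ < 1 ∧ θ ^ p = q := by
  refine ⟨q ^ ((p : ℝ)⁻¹), Real.rpow_pos_of_pos hq _, ?_, ?_⟩
  · apply Real.rpow_lt_one hq.le hq1
    have : 0 < p := Nat.pos_of_ne_zero hp
    positivity
  · exact Real.rpow_inv_natCast_pow hq.le hp

variable {p : ℕ} {ϖ : F}

/-- maximum of a functional. -/
theorem exists_max [FiniteDimensional F D] (hp : p ≠ 0) (hd : Disc F D p ϖ) (τ : D →ₗ[F] F) (hτ : τ ≠ 0) :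
    ∃ g : D, τ g ≠ 0 ∧ ∀ x, ‖τ x‖ * ‖g‖ ≤ ‖τ g‖ * ‖x‖ := by
  have hcont : Continuous τ := LinearMap.continuous_of_finiteDimensional τ
  let T : D →L[F] F := ⟨τ, hcont⟩
  have hT : ∀ x, ‖τ x‖ ≤ ‖T‖ * ‖x‖ := fun x => T.le_opNorm x
  obtain ⟨x0, hx0⟩ : ∃ x, τ x ≠ 0 := by
    by_contra hc
    push Not at hc
    exact hτ (LinearMap.ext hc)
  have hne : ∀ x, τ x ≠ 0 → x ≠ 0 := fun x hx h => hx (by rw [h, map_zero])
  have hex : ∀ x, τ x ≠ 0 → ∃ m : ℤ, (‖τ x‖ / ‖x‖) ^ p = ‖ϖ‖ ^ m := fun x hx =>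
    ((hd.isV_base hx).div hd.pos (hd.isV_top (hne x hx))).2
  let Pm : ℤ → Prop := fun m => ∃ x, τ x ≠ 0 ∧ (‖τ x‖ / ‖x‖) ^ p = ‖ϖ‖ ^ m
  have hinh : ∃ m, Pm m := by
    obtain ⟨m, hm⟩ := hex x0 hx0
    exact ⟨m, x0, hx0, hm⟩
  have hbdd : ∃ b : ℤ, ∀ m, Pm m → b ≤ m := by
    have h1 : ∃ N : ℕ, (‖T‖ ^ p) < ‖ϖ‖⁻¹ ^ N :=
      pow_unbounded_of_one_lt _ ((one_lt_inv₀ hd.pos).2 hd.lt)
    obtain ⟨N, hN⟩ := h1
    refine ⟨-N, ?_⟩
    rintro m ⟨x, hx, hm⟩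
    by_contra hc
    push Not at hc
    have h2 : ‖τ x‖ / ‖x‖ ≤ ‖T‖ := by
      rw [div_le_iff₀ (norm_pos_iff.2 (hne x hx))]
      exact hT x
    have h3 : (‖τ x‖ / ‖x‖) ^ p ≤ ‖T‖ ^ p := by gcongr
    rw [hm] at h3
    have h4 : ‖ϖ‖⁻¹ ^ N = ‖ϖ‖ ^ (-(N : ℤ)) := by rw [zpow_neg, zpow_natCast, inv_pow]
    have h5 : ‖ϖ‖ ^ (-(N : ℤ)) ≤ ‖ϖ‖ ^ m := (zpow_le_zpow_iff_right_of_lt_one₀ hd.pos hd.lt).2 hc.le
    rw [h4] at hN
    linarith
  obtain ⟨m, ⟨g, hg, hm⟩, hmin⟩ := Int.exists_least_of_bdd hbdd hinh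
  refine ⟨g, hg, ?_⟩
  intro x
  by_cases hx : τ x = 0
  · rw [hx, norm_zero, zero_mul]; positivity
  · obtain ⟨m', hm'⟩ := hex x hx
    have h1 := hmin m' ⟨x, hx, hm'⟩
    have h2 : (‖τ x‖ / ‖x‖) ^ p ≤ (‖τ g‖ / ‖g‖) ^ p := by
      rw [hm, hm']
      exact (zpow_le_zpow_iff_right_of_lt_one₀ hd.pos hd.lt).2 h1
    have h3 := (pow_le_pow_iff_left₀ (by positivity) (by positivity) hp).1 h2
    rwa [div_le_div_iff₀ (norm_pos_iff.2 (hne x hx)) (norm_pos_iff.2 (hne g hg))] at h3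

/-- an approximating subspace is everything. -/
theorem approx_top [FiniteDimensional F D] {θ : ℝ} (hθ : 0 < θ) (hθ1 : θ < 1) (V : Submodule F D)
    (h : ∀ x : D, x ≠ 0 → ∃ v ∈ V, ‖x - v‖ ≤ θ * ‖x‖) : V = ⊤ := by
  by_contra hV
  obtain ⟨x, hx⟩ : ∃ x, x ∉ V := by
    by_contra hc
    push Not at hc
    exact hV (eq_top_iff.2 fun x _ => hc x)
  have hcl : IsClosed (V : Set D) := Submodule.closed_of_finiteDimensional V
  have hne : (V : Set D).Nonempty := ⟨0, V.zero_mem⟩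
  have hpos : 0 < Metric.infDist x (V : Set D) := (hcl.notMem_iff_infDist_pos hne).1 hx
  have h1 : Metric.infDist x (V : Set D) < Metric.infDist x (V : Set D) / θ := by
    rw [lt_div_iff₀ hθ]
    nlinarith
  obtain ⟨v, hv, hxv⟩ := (Metric.infDist_lt_iff hne).1 h1
  have hxv0 : x - v ≠ 0 := by
    intro h0
    apply hx
    rw [sub_eq_zero.1 h0]
    exact hv
  obtain ⟨v', hv', hxv'⟩ := h (x - v) hxv0
  have h2 : Metric.infDist x (V : Set D) ≤ dist x (v + v') := Metric.infDist_le_dist_of_mem (V.add_mem hv hv')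
  rw [dist_eq_norm, ← sub_sub] at h2
  rw [dist_eq_norm, lt_div_iff₀ hθ] at hxv
  linarith

/-- no integral power prime to `p` of a ramified value is a value of the base. -/
theorem ramj (hp : p.Prime) (hd : Disc F D p ϖ) {x : D} (hx : x ≠ 0) (hram : ∀ c : F, ‖x‖ ≠ ‖c‖) {j : ℤ}
    (hj : ¬ (p : ℤ) ∣ j) (c : F) : ‖x‖ ^ j ≠ ‖c‖ := by
  intro h
  obtain ⟨c', hc'0, hc'⟩ := hd.top x hx
  have hcop : IsCoprime j (p : ℤ) := by
    rw [Int.isCoprime_iff_gcd_eq_one]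
    have h1 := (Nat.coprime_primes hp hp)
    have : Nat.Coprime p j.natAbs := (Nat.Prime.coprime_iff_not_dvd hp).2 (by
      rwa [← Int.natCast_dvd])
    rw [Int.gcd_comm]
    simpa [Int.gcd] using this
  obtain ⟨a, b, hab⟩ := hcop
  apply hram (c ^ a * c' ^ b)
  have hx' : ‖x‖ ≠ 0 := (norm_pos_iff.2 hx).ne'
  rw [norm_mul, norm_zpow, norm_zpow, ← h, ← hc', ← zpow_natCast, ← zpow_mul, ← zpow_mul, ← zpow_add₀ hx',
    mul_comm j a, mul_comm (p : ℤ) b, hab, zpow_one]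

theorem not_dvd_sub (hp : p.Prime) {a b : ℕ} (ha : a < p) (hb : b < p) (hab : a ≠ b) :
    ¬ (p : ℤ) ∣ (a : ℤ) - b := by
  rintro ⟨k, hk⟩
  have hp0 : (0 : ℤ) < p := by exact_mod_cast hp.pos
  have h1 : (a : ℤ) < p := by exact_mod_cast ha
  have h2 : (b : ℤ) < p := by exact_mod_cast hb
  have h3 : k < 1 := by
    by_contra h; push Not at h; nlinarith
  have h4 : -1 < k := by
    by_contra h; push Not at h; nlinarith
  have h5 : k = 0 := by omega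
  rw [h5, mul_zero] at hk
  omega

/-- every value is a base value times a power of a ramified value. -/
theorem value_decomp (hp : p.Prime) (hd : Disc F D p ϖ) {g : D} (hg : g ≠ 0) (hram : ∀ c : F, ‖g‖ ≠ ‖c‖)
    {x : D} (hx : x ≠ 0) : ∃ j : ℕ, j < p ∧ ∃ c : F, c ≠ 0 ∧ ‖x‖ = ‖c‖ * ‖g‖ ^ j := by
  obtain ⟨-, m, hm⟩ := hd.isV_top hx
  obtain ⟨-, a, ha⟩ := hd.isV_top hg
  have hpa : ¬ (p : ℤ) ∣ a := by
    rintro ⟨l, rfl⟩
    apply hram (ϖ ^ l)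
    have h1 : ‖g‖ ^ p = ‖ϖ ^ l‖ ^ p := by
      rw [ha, norm_zpow, ← zpow_natCast, ← zpow_mul, mul_comm]
    exact (pow_left_inj₀ (norm_nonneg _) (norm_nonneg _) hp.ne_zero).1 h1
  haveI : Fact p.Prime := ⟨hp⟩
  have haz : (a : ZMod p) ≠ 0 := by
    intro h
    exact hpa ((ZMod.intCast_zmod_eq_zero_iff_dvd a p).1 h)
  let j : ℕ := ((m : ZMod p) * (a : ZMod p)⁻¹).val
  have hj : ((j : ℤ) * a : ZMod p) = m := by
    have : ((j : ℕ) : ZMod p) = (m : ZMod p) * (a : ZMod p)⁻¹ := ZMod.natCast_zmod_val _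
    push_cast
    rw [this, mul_assoc, inv_mul_cancel₀ haz, mul_one]
  have hdvd : (p : ℤ) ∣ m - (j : ℤ) * a := by
    rw [← ZMod.intCast_zmod_eq_zero_iff_dvd]
    push_cast
    push_cast at hj
    rw [hj, sub_self]
  obtain ⟨l, hl⟩ := hdvd
  refine ⟨j, ZMod.val_lt _, ϖ ^ l, zpow_ne_zero _ hd.ne, ?_⟩
  have h1 : ‖x‖ ^ p = (‖ϖ ^ l‖ * ‖g‖ ^ j) ^ p := by
    rw [hm, mul_pow, norm_zpow, ← zpow_natCast, ← zpow_mul, ← pow_mul, mul_comm j p, pow_mul, ha, ← zpow_natCast,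
      ← zpow_mul, ← zpow_add₀ hd.pos.ne']
    congr 1
    linarith
  exact (pow_left_inj₀ (norm_nonneg _) (by positivity) hp.ne_zero).1 h1

/-- a good starting point in the ramified case. -/
theorem ram_start [FiniteDimensional F D] (hp : p.Prime) (hd : Disc F D p ϖ) (hdim : p < finrank F D)
    (τ : D →ₗ[F] F) {g : D} (hg : τ g ≠ 0) (hmax : ∀ x, ‖τ x‖ * ‖g‖ ≤ ‖τ g‖ * ‖x‖)
    (hram : ∃ x : D, x ≠ 0 ∧ ∀ c : F, ‖x‖ ≠ ‖c‖) :
    ∃ z : D, z ≠ 0 ∧ (∀ c : F, ‖z‖ ≠ ‖c‖) ∧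
      ∀ j, 1 ≤ j → j < p → ‖τ (z ^ j)‖ * ‖g‖ < ‖τ g‖ * ‖z‖ ^ j := by
  have hg0 : g ≠ 0 := fun h => hg (by rw [h, map_zero])
  have hgn : 0 < ‖g‖ := norm_pos_iff.2 hg0
  have hτg : 0 < ‖τ g‖ := norm_pos_iff.2 hg
  obtain ⟨θ, hθ, hθ1, hθp⟩ := exists_theta hp.ne_zero hd.pos hd.lt
  by_cases hG : ∃ c : F, ‖g‖ = ‖c‖
  · obtain ⟨c, hc⟩ := hG
    obtain ⟨x, hx, hx2⟩ := hram
    refine ⟨x, hx, hx2, ?_⟩
    intro j hj hjp
    have h1 := hmax (x ^ j)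
    rw [norm_pow] at h1
    refine lt_of_le_of_ne h1 ?_
    intro h
    apply ramj hp hd hx hx2 (j := j) (by
      have := not_dvd_sub hp hjp hp.pos (by omega : j ≠ 0)
      simpa using this) (τ (x ^ j) * c / τ g)
    rw [zpow_natCast, norm_div, norm_mul, ← hc, h]
    field_simp
  · push Not at hG
    -- find `y` with the same value as `g` and smaller functional value
    have hex : ∃ y : D, ‖y‖ = ‖g‖ ∧ ‖τ y‖ < ‖τ g‖ := by
      by_contra hc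
      push Not at hc
      let V : Submodule F D := Submodule.span F (Set.range fun i : Fin p => g ^ (i : ℕ))
      have hV : V = ⊤ := by
        apply approx_top hθ hθ1
        intro x hx
        obtain ⟨j, hjp, c, hc0, hxc⟩ := value_decomp hp hd hg0 hG hx
        -- `y = c⁻¹ • x * g * (g ^ j)⁻¹`
        let y : D := c⁻¹ • (x * g * (g ^ j)⁻¹)
        have hcn : 0 < ‖c‖ := norm_pos_iff.2 hc0
        have hgj : 0 < ‖g‖ ^ j := pow_pos hgn j
        have hy : ‖y‖ = ‖g‖ := by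
          change ‖c⁻¹ • (x * g * (g ^ j)⁻¹)‖ = ‖g‖
          rw [norm_smul, norm_mul, norm_mul, norm_inv, norm_inv, norm_pow, hxc]
          field_simp
        let a : F := τ y / τ g
        have hyτ : ‖τ y‖ ≤ ‖τ g‖ := by
          have := hmax y
          rw [hy] at this
          exact le_of_mul_le_mul_right this hgn
        have ha : ‖a‖ ≤ 1 := by
          change ‖τ y / τ g‖ ≤ 1
          rw [norm_div, div_le_one hτg]
          exact hyτ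
        have h1 : ‖y - a • g‖ ≤ ‖g‖ := by
          apply sub_le' hy.le
          rw [norm_smul]
          nlinarith
        have h2 : τ (y - a • g) = 0 := by
          have h2' : τ (a • g) = τ y := by
            rw [LinearMap.map_smul, smul_eq_mul]
            exact div_mul_cancel₀ _ hg
          rw [LinearMap.map_sub, h2', sub_self]
        have h3 : ‖y - a • g‖ < ‖g‖ := by
          refine lt_of_le_of_ne h1 fun h => ?_
          have := hc _ h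
          rw [h2, norm_zero] at this
          linarith
        have h4 : ‖y - a • g‖ ≤ θ * ‖g‖ := by
          by_cases h0 : y - a • g = 0
          · rw [h0, norm_zero]; positivity
          · exact IsV.le_of_lt hp.ne_zero hd.pos hd.lt hθ hθp (hd.isV_top h0) (hd.isV_top hg0) h3
        refine ⟨(c * a) • g ^ j, V.smul_mem _ (Submodule.subset_span ⟨⟨j, hjp⟩, rfl⟩), ?_⟩
        have h5 : x - (c * a) • g ^ j = c • ((y - a • g) * (g⁻¹ * g ^ j)) := by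
          have e1 : x = c • (y * (g⁻¹ * g ^ j)) := by
            change x = c • ((c⁻¹ • (x * g * (g ^ j)⁻¹)) * (g⁻¹ * g ^ j))
            have hgj0 : g ^ j ≠ 0 := pow_ne_zero _ hg0
            have hcomm : (g ^ j)⁻¹ * g⁻¹ = g⁻¹ * (g ^ j)⁻¹ := by
              rw [← mul_inv_rev, ← mul_inv_rev, ← pow_succ, ← pow_succ']
            rw [smul_mul_assoc, smul_smul, mul_inv_cancel₀ hc0, one_smul]
            calc x = x * (g * g⁻¹) * ((g ^ j)⁻¹ * g ^ j) := by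
                  rw [mul_inv_cancel₀ hg0, inv_mul_cancel₀ hgj0, mul_one, mul_one]
              _ = x * g * (g⁻¹ * (g ^ j)⁻¹) * g ^ j := by noncomm_ring
              _ = x * g * ((g ^ j)⁻¹ * g⁻¹) * g ^ j := by rw [hcomm]
              _ = _ := by noncomm_ring
          have e2 : (c * a) • g ^ j = c • ((a • g) * (g⁻¹ * g ^ j)) := by
            rw [smul_mul_assoc, ← mul_assoc g, mul_inv_cancel₀ hg0, one_mul, smul_smul]
          conv_lhs => rw [e1, e2]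
          rw [← smul_sub, ← sub_mul]
        rw [h5, norm_smul, norm_mul, norm_mul, norm_inv, norm_pow, hxc]
        calc ‖c‖ * (‖y - a • g‖ * (‖g‖⁻¹ * ‖g‖ ^ j)) ≤ ‖c‖ * ((θ * ‖g‖) * (‖g‖⁻¹ * ‖g‖ ^ j)) := by gcongr
          _ = _ := by field_simp
      have h6 : finrank F D ≤ p := by
        have h7 : finrank F V ≤ p := by
          have := finrank_range_le_card (R := F) (fun i : Fin p => g ^ (i : ℕ))
          rwa [Fintype.card_fin] at this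
        rw [hV, finrank_top] at h7
        exact h7
      omega
    obtain ⟨y, hy, hyτ⟩ := hex
    have hy0 : y ≠ 0 := by
      intro h
      rw [h, norm_zero] at hy
      linarith
    refine ⟨y, hy0, fun c => by rw [hy]; exact hG c, ?_⟩
    intro j hj hjp
    rcases Nat.lt_or_ge 1 j with h1 | h1
    · have h2 := hmax (y ^ j)
      rw [norm_pow] at h2
      refine lt_of_le_of_ne h2 ?_
      intro h
      apply ramj hp hd hy0 (fun c => by rw [hy]; exact hG c) (j := ((j - 1 : ℕ) : ℤ)) (by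
        have := not_dvd_sub hp (show j - 1 < p by omega) hp.pos (by omega : j - 1 ≠ 0)
        simpa using this) (τ (y ^ j) / τ g)
      rw [zpow_natCast, norm_div, eq_div_iff hτg.ne']
      have h3 : ‖y‖ ^ j = ‖y‖ ^ (j - 1) * ‖g‖ := by
        rw [← hy, ← pow_succ]
        congr 1
        omega
      rw [h3] at h
      have h4 : ‖τ (y ^ j)‖ * ‖g‖ = (‖τ g‖ * ‖y‖ ^ (j - 1)) * ‖g‖ := by rw [h]; ring
      have h5 := mul_right_cancel₀ hgn.ne' h4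
      rw [h5]; ring
    · have h2 : j = 1 := by omega
      rw [h2, pow_one, pow_one, hy]
      exact mul_lt_mul_of_pos_right hyτ hgn

/-- solvability of the linearised system in the ramified case. -/
theorem ram_solve (hp : p.Prime) (hd : Disc F D p ϖ) (hj1 : ∀ j, 1 ≤ j → j < p → ‖(j : F)‖ = 1)
    (τ : D →ₗ[F] F) {g : D} (hg : τ g ≠ 0) {M : ℝ} (hM : M = ‖τ g‖ / ‖g‖) (hmax : ∀ x, ‖τ x‖ ≤ M * ‖x‖)
    {z0 : D} (hz0 : z0 ≠ 0) (hram : ∀ c : F, ‖z0‖ ≠ ‖c‖) {θ : ℝ} (hθ : 0 < θ) (hθ1 : θ < 1)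
    (hθp : θ ^ p = ‖ϖ‖) (n : ℕ) (c : ℕ → F)
    (hc : ∀ j, 1 ≤ j → j < p → ‖c j‖ ≤ θ ^ n * (M * ‖z0‖ ^ j)) :
    ∃ w : D, ‖w‖ ≤ θ ^ n * ‖z0‖ ∧ ∀ j, 1 ≤ j → j < p →
      ‖(j : F) * τ (z0 ^ (j - 1) * w) - c j‖ ≤ θ ^ (n + 1) * (M * ‖z0‖ ^ j) := by
  have hg0 : g ≠ 0 := fun h => hg (by rw [h, map_zero])
  have hgn : 0 < ‖g‖ := norm_pos_iff.2 hg0
  have hτg : 0 < ‖τ g‖ := norm_pos_iff.2 hg
  have hM0 : 0 < M := by rw [hM]; positivity
  have hzn : 0 < ‖z0‖ := norm_pos_iff.2 hz0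
  have hMV : IsV ‖ϖ‖ p M := by
    rw [hM]; exact (hd.isV_base hg).div hd.pos (hd.isV_top hg0)
  have hθV : IsV ‖ϖ‖ p θ := ⟨hθ, 1, by rw [hθp, zpow_one]⟩
  have hV : ∀ j, IsV ‖ϖ‖ p (θ ^ n * (M * ‖z0‖ ^ j)) := fun j =>
    (hθV.pow hd.pos n).mul hd.pos (hMV.mul hd.pos ((hd.isV_top hz0).pow hd.pos j))
  have hstrict : ∀ j, ∀ c : F, ‖c‖ < θ ^ n * (M * ‖z0‖ ^ j) → ‖c‖ ≤ θ ^ (n + 1) * (M * ‖z0‖ ^ j) := by
    intro j c h
    by_cases h0 : c = 0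
    · rw [h0, norm_zero]; positivity
    · have := IsV.le_of_lt hp.ne_zero hd.pos hd.lt hθ hθp (hd.isV_base h0) (hV j) h
      refine this.trans (le_of_eq ?_)
      ring
  by_cases hall : ∀ j, 1 ≤ j → j < p → ‖c j‖ < θ ^ n * (M * ‖z0‖ ^ j)
  · refine ⟨0, by rw [norm_zero]; positivity, ?_⟩
    intro j hj hjp
    rw [mul_zero, map_zero, mul_zero, zero_sub, norm_neg]
    exact hstrict j _ (hall j hj hjp)
  · push Not at hall
    obtain ⟨i, hi, hip, hci⟩ := hall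
    have hci' : ‖c i‖ = θ ^ n * (M * ‖z0‖ ^ i) := le_antisymm (hc i hi hip) hci
    have hi0 : (i : F) ≠ 0 := by
      rw [← norm_pos_iff, hj1 i hi hip]; exact one_pos
    have hci0 : c i ≠ 0 := by
      rw [← norm_pos_iff, hci']; positivity
    -- the correction
    let u : D := (c i / ((i : F) * τ g)) • g
    have hu : ‖u‖ = ‖c i‖ / M := by
      change ‖(c i / ((i : F) * τ g)) • g‖ = _
      rw [norm_smul, norm_div, norm_mul, hj1 i hi hip, one_mul, hM]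
      field_simp
    have hτu : (i : F) * τ u = c i := by
      change (i : F) * τ ((c i / ((i : F) * τ g)) • g) = c i
      rw [map_smul, smul_eq_mul]
      field_simp
    let w : D := (z0 ^ (i - 1))⁻¹ * u
    have hzi : 0 < ‖z0‖ ^ (i - 1) := pow_pos hzn _
    have hw : ‖w‖ = θ ^ n * ‖z0‖ := by
      change ‖(z0 ^ (i - 1))⁻¹ * u‖ = _
      rw [norm_mul, norm_inv, norm_pow, hu, hci']
      have : ‖z0‖ ^ i = ‖z0‖ ^ (i - 1) * ‖z0‖ := by
        rw [← pow_succ]; congr 1; omega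
      rw [this]
      field_simp
    refine ⟨w, hw.le, ?_⟩
    intro j hj hjp
    by_cases hji : j = i
    · subst hji
      have : z0 ^ (j - 1) * w = u := by
        change z0 ^ (j - 1) * ((z0 ^ (j - 1))⁻¹ * u) = u
        rw [← mul_assoc, mul_inv_cancel₀ (pow_ne_zero _ hz0), one_mul]
      rw [this, hτu, sub_self, norm_zero]
      positivity
    · -- off the distinguished index everything is small
      have hnd : ¬ (p : ℤ) ∣ (j : ℤ) - i := not_dvd_sub hp hjp hip hji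
      have hcj : ‖c j‖ < θ ^ n * (M * ‖z0‖ ^ j) := by
        refine lt_of_le_of_ne (hc j hj hjp) fun h => ?_
        apply ramj hp hd hz0 hram hnd (c j / c i)
        rw [norm_div, h, hci', zpow_sub₀ hzn.ne', zpow_natCast, zpow_natCast]
        have : 0 < ‖z0‖ ^ i := pow_pos hzn _
        field_simp
      have hnw : ‖z0 ^ (j - 1) * w‖ = θ ^ n * ‖z0‖ ^ j := by
        rw [norm_mul, norm_pow, hw]
        have : ‖z0‖ ^ j = ‖z0‖ ^ (j - 1) * ‖z0‖ := by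
          rw [← pow_succ]; congr 1; omega
        rw [this]; ring
      have hτw : ‖τ (z0 ^ (j - 1) * w)‖ < θ ^ n * (M * ‖z0‖ ^ j) := by
        have h1 := hmax (z0 ^ (j - 1) * w)
        rw [hnw] at h1
        refine lt_of_le_of_ne (h1.trans (le_of_eq (by ring))) fun h => ?_
        apply ramj hp hd hz0 hram hnd (τ (z0 ^ (j - 1) * w) / c i)
        rw [norm_div, h, hci', zpow_sub₀ hzn.ne', zpow_natCast, zpow_natCast]
        have : 0 < ‖z0‖ ^ i := pow_pos hzn _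
        field_simp
      have h1 : ‖(j : F) * τ (z0 ^ (j - 1) * w)‖ < θ ^ n * (M * ‖z0‖ ^ j) := by
        rw [norm_mul, hj1 j hj hjp, one_mul]
        exact hτw
      apply hstrict j
      have := nsub_le_max ((j : F) * τ (z0 ^ (j - 1) * w)) (c j)
      exact this.trans_lt (max_lt h1 hcj)

/-- **The ramified case.** -/
theorem ram_main [FiniteDimensional F D] (hp : p.Prime) (hd : Disc F D p ϖ) (hdim : p < finrank F D)
    (hj1 : ∀ j, 1 ≤ j → j < p → ‖(j : F)‖ = 1)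
    (τ : D →ₗ[F] F) (htr : ∀ x y, τ (x * y) = τ (y * x)) (hτ : τ ≠ 0)
    (hram : ∃ x : D, x ≠ 0 ∧ ∀ c : F, ‖x‖ ≠ ‖c‖) :
    ∃ z : D, (∀ c : F, ‖z‖ ≠ ‖c‖) ∧ ∀ j, 1 ≤ j → j < p → τ (z ^ j) = 0 := by
  obtain ⟨g, hg, hmax⟩ := exists_max hp.ne_zero hd τ hτ
  obtain ⟨z0, hz0, hz0r, hz0τ⟩ := ram_start hp hd hdim τ hg hmax hram
  have hg0 : g ≠ 0 := fun h => hg (by rw [h, map_zero])
  have hgn : 0 < ‖g‖ := norm_pos_iff.2 hg0
  have hτg : 0 < ‖τ g‖ := norm_pos_iff.2 hg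
  have hzn : 0 < ‖z0‖ := norm_pos_iff.2 hz0
  obtain ⟨θ, hθ, hθ1, hθp⟩ := exists_theta hp.ne_zero hd.pos hd.lt
  set M : ℝ := ‖τ g‖ / ‖g‖ with hM
  have hM0 : 0 < M := by positivity
  have hmax' : ∀ x, ‖τ x‖ ≤ M * ‖x‖ := by
    intro x
    rw [hM, div_mul_eq_mul_div, le_div_iff₀ hgn]
    exact hmax x
  have hMV : IsV ‖ϖ‖ p M := by
    rw [hM]; exact (hd.isV_base hg).div hd.pos (hd.isV_top hg0)
  obtain ⟨z, hz1, hz2⟩ := newton τ htr hM0 hmax' hz0 (p := p) hθ hθ1 (by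
      intro j hj hjp
      by_cases h0 : τ (z0 ^ j) = 0
      · rw [h0, norm_zero]; positivity
      · apply IsV.le_of_lt hp.ne_zero hd.pos hd.lt hθ hθp (hd.isV_base h0)
          (hMV.mul hd.pos ((hd.isV_top hz0).pow hd.pos j))
        have := hz0τ j hj hjp
        rw [hM, div_mul_eq_mul_div, lt_div_iff₀ hgn]
        exact this) (fun n _ c hc => ram_solve hp hd hj1 τ hg hM hmax' hz0 hz0r hθ hθ1 hθp n c hc)
  refine ⟨z, ?_, hz2⟩
  intro c
  have : ‖z‖ = ‖z0‖ := norm_eq_of_near (by nlinarith)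
  rw [this]
  exact hz0r c

end ram

end Run7.h339
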