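import Mathlib
import Pool.Agent.Run7.h339.Sub
import Pool.Agent.Run7.h339.Ram

/-! Residue division rings. -/

set_option autoImplicit false
set_option linter.all false

namespace Run7.h339

open Module Finset

section ring

variable (E : Type*) [NormedDivisionRing E] [IsUltrametricDist E]

/-- the valuation ring. -/
def OO : Subring E where
  carrier := {x | ‖x‖ ≤ 1}
  mul_mem' {a b} ha hb := by
    change ‖a * b‖ ≤ 1
    rw [norm_mul]
    exact mul_le_one₀ ha (norm_nonneg _) hb
  one_mem' := by change ‖(1 : E)‖ ≤ 1; rw [norm_one]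
  add_mem' {a b} ha hb := add_le' ha hb
  zero_mem' := by change ‖(0 : E)‖ ≤ 1; rw [norm_zero]; exact zero_le_one
  neg_mem' {a} ha := by change ‖-a‖ ≤ 1; rw [norm_neg]; exact ha

/-- the maximal ideal. -/
def MM : Ideal (OO E) where
  carrier := {x | ‖(x : E)‖ < 1}
  add_mem' {a b} ha hb := by
    change ‖(a : E) + b‖ < 1
    exact (IsUltrametricDist.norm_add_le_max _ _).trans_lt (max_lt ha hb)
  zero_mem' := by change ‖((0 : OO E) : E)‖ < 1; simp
  smul_mem' c {x} hx := by
    change ‖(c : E) * x‖ < 1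
    rw [norm_mul]
    exact (mul_le_of_le_one_left (norm_nonneg _) c.2).trans_lt hx

instance : (MM E).IsTwoSided := ⟨fun {a} b ha => by
  change ‖(a : E) * b‖ < 1
  rw [norm_mul]
  exact (mul_le_of_le_one_right (norm_nonneg _) b.2).trans_lt ha⟩

/-- the residue division ring. -/
def Kp : Type _ := OO E ⧸ MM E

noncomputable instance : Ring (Kp E) := inferInstanceAs (Ring (OO E ⧸ MM E))

/-- the residue map. -/
noncomputable def rs : OO E →+* Kp E := Ideal.Quotient.mk (MM E)

variable {E}

theorem rs_eq_zero {x : OO E} : rs E x = 0 ↔ ‖(x : E)‖ < 1 :=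
  Ideal.Quotient.eq_zero_iff_mem

theorem rs_eq_iff {x y : OO E} : rs E x = rs E y ↔ ‖(x : E) - y‖ < 1 := by
  rw [← sub_eq_zero, ← map_sub, rs_eq_zero]
  rfl

theorem rs_surj : Function.Surjective (rs E) := Ideal.Quotient.mk_surjective

instance : Nontrivial (Kp E) := by
  refine ⟨0, 1, fun h => ?_⟩
  have h1 : rs E 1 = 0 := by rw [map_one]; exact h.symm
  rw [rs_eq_zero] at h1
  simp at h1

theorem rs_unit {x : OO E} (h : ‖(x : E)‖ = 1) : ∃ y : OO E, x * y = 1 ∧ y * x = 1 := by
  have h0 : (x : E) ≠ 0 := by rw [← norm_pos_iff, h]; exact one_pos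
  refine ⟨⟨(x : E)⁻¹, ?_⟩, ?_, ?_⟩
  · change ‖(x : E)⁻¹‖ ≤ 1
    rw [norm_inv, h, inv_one]
  · apply Subtype.ext
    exact mul_inv_cancel₀ h0
  · apply Subtype.ext
    exact inv_mul_cancel₀ h0

theorem isUnit_or (a : Kp E) : IsUnit a ∨ a = 0 := by
  obtain ⟨x, rfl⟩ := rs_surj a
  by_cases h : ‖(x : E)‖ < 1
  · right; exact rs_eq_zero.2 h
  · left
    have h1 : ‖(x : E)‖ = 1 := le_antisymm x.2 (not_lt.1 h)
    obtain ⟨y, hy1, hy2⟩ := rs_unit h1
    exact ⟨⟨rs E x, rs E y, by rw [← map_mul, hy1, map_one], by rw [← map_mul, hy2, map_one]⟩, rfl⟩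

noncomputable instance : DivisionRing (Kp E) := DivisionRing.ofIsUnitOrEqZero isUnit_or

end ring

section field

variable (F : Type*) [NontriviallyNormedField F] [IsUltrametricDist F]

noncomputable instance : Field (Kp F) :=
  { (inferInstance : DivisionRing (Kp F)) with
    mul_comm := fun a b => by
      obtain ⟨x, rfl⟩ := rs_surj a
      obtain ⟨y, rfl⟩ := rs_surj b
      change rs F x * rs F y = rs F y * rs F x
      rw [← map_mul, ← map_mul]
      congr 1
      exact Subtype.ext (mul_comm _ _) }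

variable {F} {D : Type*} [NormedDivisionRing D] [NormedAlgebra F D] [IsUltrametricDist D]

/-- the map on valuation rings. -/
noncomputable def oMap (F D : Type*) [NontriviallyNormedField F] [IsUltrametricDist F]
    [NormedDivisionRing D] [NormedAlgebra F D] [IsUltrametricDist D] : OO F →+* OO D :=
  ((algebraMap F D).comp (OO F).subtype).codRestrict (OO D) (fun x => by
    change ‖algebraMap F D x‖ ≤ 1
    rw [norm_algebraMap']
    exact x.2)

theorem oMap_coe (x : OO F) : ((oMap F D x : OO D) : D) = algebraMap F D x := rfl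

/-- the map on residue rings. -/
noncomputable def kMap (F D : Type*) [NontriviallyNormedField F] [IsUltrametricDist F]
    [NormedDivisionRing D] [NormedAlgebra F D] [IsUltrametricDist D] : Kp F →+* Kp D :=
  Ideal.Quotient.lift (MM F) ((rs D).comp (oMap F D)) (fun a ha => by
    change rs D (oMap F D a) = 0
    rw [rs_eq_zero, oMap_coe, norm_algebraMap']
    exact ha)

theorem kMap_rs (x : OO F) : kMap F D (rs F x) = rs D (oMap F D x) := rfl

noncomputable instance : Algebra (Kp F) (Kp D) :=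
  (kMap F D).toAlgebra' (fun c x => by
    obtain ⟨a, rfl⟩ := rs_surj c
    obtain ⟨b, rfl⟩ := rs_surj x
    rw [kMap_rs, ← map_mul, ← map_mul]
    congr 1
    exact Subtype.ext (Algebra.commutes _ _))

theorem algK (x : OO F) : algebraMap (Kp F) (Kp D) (rs F x) = rs D (oMap F D x) := rfl

theorem smulK (a : OO F) (x : OO D) : rs F a • rs D x = rs D (oMap F D a * x) := by
  rw [Algebra.smul_def, algK, ← map_mul]

theorem sum_rs {ι : Type*} (s : Finset ι) (a : ι → OO F) (b : ι → OO D) :
    ∑ i ∈ s, rs F (a i) • rs D (b i) = rs D (∑ i ∈ s, oMap F D (a i) * b i) := by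
  rw [map_sum]
  exact sum_congr rfl fun i _ => smulK _ _

theorem coe_sum_oMap {ι : Type*} (s : Finset ι) (a : ι → OO F) (b : ι → OO D) :
    ((∑ i ∈ s, oMap F D (a i) * b i : OO D) : D) = ∑ i ∈ s, (a i : F) • (b i : D) := by
  rw [AddSubmonoidClass.coe_finset_sum]
  refine sum_congr rfl fun i _ => ?_
  rw [Algebra.smul_def]
  rfl

/-- lifting linear independence. -/
theorem lift_indep {ι : Type*} {b : ι → OO D} (h : LinearIndependent (Kp F) fun i => rs D (b i)) :
    LinearIndependent F fun i => (b i : D) := by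
  rw [linearIndependent_iff']
  intro s c hc
  by_contra hne
  push Not at hne
  obtain ⟨i0, hi0, hci0⟩ := hne
  obtain ⟨m, hm, hmax⟩ := s.exists_max_image (fun i => ‖c i‖) ⟨i0, hi0⟩
  have hcm : c m ≠ 0 := by
    rw [← norm_pos_iff]
    exact (norm_pos_iff.2 hci0).trans_le (hmax i0 hi0)
  have hcm' : 0 < ‖c m‖ := norm_pos_iff.2 hcm
  classical
  let a : ι → OO F := fun i => if hi : i ∈ s then ⟨c i / c m, by
    change ‖c i / c m‖ ≤ 1
    rw [norm_div, div_le_one hcm']
    exact hmax i hi⟩ else 0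
  have ha : ∀ i ∈ s, (a i : F) = c i / c m := fun i hi => by
    simp only [a, hi, dif_pos]
  have h1 : ∑ i ∈ s, (a i : F) • (b i : D) = 0 := by
    have : ∑ i ∈ s, (a i : F) • (b i : D) = (c m)⁻¹ • ∑ i ∈ s, c i • (b i : D) := by
      rw [smul_sum]
      refine sum_congr rfl fun i hi => ?_
      rw [ha i hi, smul_smul, div_eq_inv_mul]
    rw [this, hc, smul_zero]
  have h2 : ∑ i ∈ s, rs F (a i) • rs D (b i) = 0 := by
    rw [sum_rs, rs_eq_zero, coe_sum_oMap, h1, norm_zero]
    exact one_pos
  have h3 := linearIndependent_iff'.1 h s (fun i => rs F (a i)) h2 m hm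
  rw [rs_eq_zero, ha m hm, div_self hcm, norm_one] at h3
  exact lt_irrefl _ h3

instance kFin [FiniteDimensional F D] : FiniteDimensional (Kp F) (Kp D) := by
  have h : Module.rank (Kp F) (Kp D) ≤ (finrank F D : ℕ) := by
    apply rank_le
    intro s hs
    choose g hg using fun x : Kp D => rs_surj x
    have h1 : LinearIndependent (Kp F) fun i : s => rs D (g (i : Kp D)) := by
      convert hs using 1
      ext i
      exact hg _
    have h2 := (lift_indep h1).fintype_card_le_finrank
    simpa using h2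
  have h2 : Module.rank (Kp F) (Kp D) < Cardinal.aleph0 := h.trans_lt (Cardinal.natCast_lt_aleph0)
  exact Module.rank_lt_aleph0_iff.1 h2

theorem finrank_kp [CompleteSpace F] [FiniteDimensional F D] {p : ℕ} (hp : p ≠ 0) {ϖ : F} (hd : Disc F D p ϖ)
    (hun : ∀ x : D, ∃ c : F, ‖x‖ = ‖c‖) : finrank (Kp F) (Kp D) = finrank F D := by
  obtain ⟨θ, hθ, hθ1, hθp⟩ := exists_theta hp hd.pos hd.lt
  let B := Module.finBasis (Kp F) (Kp D)
  choose g hg using fun x : Kp D => rs_surj x
  let b : Fin (finrank (Kp F) (Kp D)) → OO D := fun i => g (B i)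
  have hb : ∀ i, rs D (b i) = B i := fun i => hg _
  have hind : LinearIndependent F fun i => (b i : D) := by
    apply lift_indep
    have : (fun i => rs D (b i)) = B := funext hb
    rw [this]
    exact B.linearIndependent
  have hspan : Submodule.span F (Set.range fun i => (b i : D)) = ⊤ := by
    apply approx_top hθ hθ1
    intro x hx
    obtain ⟨c, hc⟩ := hun x
    have hxn : 0 < ‖x‖ := norm_pos_iff.2 hx
    have hc0 : c ≠ 0 := by rw [← norm_pos_iff, ← hc]; exact hxn
    let y : OO D := ⟨c⁻¹ • x, by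
      change ‖c⁻¹ • x‖ ≤ 1
      rw [norm_smul, norm_inv, hc, inv_mul_cancel₀ (by rw [← hc]; exact hxn.ne')]⟩
    choose h hh using fun a : Kp F => rs_surj a
    let a : Fin (finrank (Kp F) (Kp D)) → OO F := fun i => h (B.repr (rs D y) i)
    have h1 : rs D y = rs D (∑ i, oMap F D (a i) * b i) := by
      rw [← sum_rs]
      conv_lhs => rw [← B.sum_repr (rs D y)]
      refine sum_congr rfl fun i _ => ?_
      rw [hb, hh]
    rw [rs_eq_iff, coe_sum_oMap] at h1
    refine ⟨c • ∑ i, (a i : F) • (b i : D), Submodule.smul_mem _ _ (Submodule.sum_mem _ fun i _ =>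
      Submodule.smul_mem _ _ (Submodule.subset_span ⟨i, rfl⟩)), ?_⟩
    have h2 : x - c • ∑ i, (a i : F) • (b i : D) = c • ((y : D) - ∑ i, (a i : F) • (b i : D)) := by
      rw [smul_sub]
      congr 1
      change x = c • c⁻¹ • x
      rw [smul_smul, mul_inv_cancel₀ hc0, one_smul]
    by_cases h0 : (y : D) - ∑ i, (a i : F) • (b i : D) = 0
    · rw [h2, h0, smul_zero, norm_zero]; positivity
    · have h3 : ‖(y : D) - ∑ i, (a i : F) • (b i : D)‖ ≤ θ * 1 :=
        IsV.le_of_lt hp hd.pos hd.lt hθ hθp (hd.isV_top h0) ⟨one_pos, 0, by simp⟩ h1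
      rw [h2, norm_smul, hc]
      have := norm_nonneg c
      nlinarith
  let B' : Basis (Fin (finrank (Kp F) (Kp D))) F D := Basis.mk hind hspan.ge
  rw [Module.finrank_eq_card_basis B', Fintype.card_fin]

end field

end Run7.h339
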