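import Mathlib
import Pool.Agent.Run7.h339.Sub
import Pool.Agent.Run7.h339.Ram
import Pool.Agent.Run7.h339.Res

/-! The unramified case and the ascent theorem. -/

set_option autoImplicit false
set_option linter.all false

namespace Run7.h339

open Module Finset

/-- The property that ascends: every division algebra of dimension `p ^ 2` all of whose elements have
degree at most `p`, with any nonzero trace functional, has a noncentral element whose first
`p - 1` powers are killed by the functional. -/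
def PC.{u} (p : ℕ) (k : Type u) [Field k] : Prop :=
  ∀ (D : Type u) [DivisionRing D] [Algebra k D], finrank k D = p ^ 2 →
    (∀ x : D, (minpoly k x).natDegree ≤ p) → ∀ τ : D →ₗ[k] k, τ ≠ 0 → (∀ x y, τ (x * y) = τ (y * x)) →
    ∃ z : D, z ∉ Set.range (algebraMap k D) ∧ ∀ j, 1 ≤ j → j < p → τ (z ^ j) = 0

section unram

variable {F D : Type*} [NontriviallyNormedField F] [CompleteSpace F] [IsUltrametricDist F]
  [NormedDivisionRing D] [NormedAlgebra F D] [IsUltrametricDist D]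

section functional

variable (τ : D →ₗ[F] F) {μ : F} (hμ : μ ≠ 0) (hmax : ∀ x, ‖τ x‖ ≤ ‖μ‖ * ‖x‖)

/-- the normalised functional on valuation rings. -/
noncomputable def oT : OO D →+ OO F where
  toFun x := ⟨μ⁻¹ * τ x, by
    change ‖μ⁻¹ * τ x‖ ≤ 1
    rw [norm_mul, norm_inv, inv_mul_le_iff₀ (norm_pos_iff.2 hμ)]
    exact (hmax x).trans (mul_le_mul_of_nonneg_left x.2 (norm_nonneg _))⟩
  map_zero' := Subtype.ext (by
    change μ⁻¹ * τ ((0 : OO D) : D) = ((0 : OO F) : F)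
    rw [ZeroMemClass.coe_zero, map_zero, mul_zero, ZeroMemClass.coe_zero])
  map_add' x y := Subtype.ext (by
    change μ⁻¹ * τ ((x + y : OO D) : D) = μ⁻¹ * τ x + μ⁻¹ * τ y
    rw [Subring.coe_add, map_add, mul_add])

theorem oT_coe (x : OO D) : ((oT τ hμ hmax x : OO F) : F) = μ⁻¹ * τ x := rfl

/-- the residue functional. -/
noncomputable def kT : Kp D →ₗ[Kp F] Kp F where
  toFun := QuotientAddGroup.lift (MM D).toAddSubgroup (((rs F : OO F →+* Kp F) : OO F →+ Kp F).comp (oT τ hμ hmax))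
    (fun x hx => by
      change rs F (oT τ hμ hmax x) = 0
      rw [rs_eq_zero, oT_coe, norm_mul, norm_inv, inv_mul_lt_iff₀ (norm_pos_iff.2 hμ)]
      exact (hmax x).trans_lt (mul_lt_mul_of_pos_left hx (norm_pos_iff.2 hμ)))
  map_add' x y := map_add _ x y
  map_smul' c x := by
    obtain ⟨a, rfl⟩ := rs_surj c
    obtain ⟨b, rfl⟩ := rs_surj x
    rw [smulK]
    change rs F (oT τ hμ hmax (oMap F D a * b)) = rs F a * rs F (oT τ hμ hmax b)
    rw [← map_mul]
    congr 1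
    apply Subtype.ext
    change μ⁻¹ * τ (((oMap F D a * b : OO D)) : D) = a * (μ⁻¹ * τ b)
    have : (((oMap F D a * b : OO D)) : D) = (a : F) • (b : D) := by
      rw [Algebra.smul_def]; rfl
    rw [this, LinearMap.map_smul, smul_eq_mul]
    ring

theorem kT_rs (x : OO D) : kT τ hμ hmax (rs D x) = rs F (oT τ hμ hmax x) := rfl

theorem kT_tr (htr : ∀ x y, τ (x * y) = τ (y * x)) (x y : Kp D) :
    kT τ hμ hmax (x * y) = kT τ hμ hmax (y * x) := by
  obtain ⟨a, rfl⟩ := rs_surj x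
  obtain ⟨b, rfl⟩ := rs_surj y
  rw [← map_mul, ← map_mul, kT_rs, kT_rs]
  congr 1
  apply Subtype.ext
  rw [oT_coe, oT_coe]
  congr 1
  exact htr a b

theorem kT_ne {g : D} (hg1 : ‖g‖ = 1) (hg : ‖τ g‖ = ‖μ‖) : kT τ hμ hmax ≠ 0 := by
  intro h
  have h1 : kT τ hμ hmax (rs D ⟨g, hg1.le⟩) = 0 := by rw [h]; rfl
  rw [kT_rs, rs_eq_zero, oT_coe, norm_mul, norm_inv, hg, inv_mul_cancel₀ (norm_pos_iff.2 hμ).ne'] at h1
  exact lt_irrefl _ h1

end functional

/-- degrees do not increase under reduction. -/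
theorem deg_res [FiniteDimensional F D] {p : ℕ} (hint : ∀ x : D, ‖x‖ ≤ 1 → ∀ n, ‖(minpoly F x).coeff n‖ ≤ 1)
    (hdeg : ∀ x : D, (minpoly F x).natDegree ≤ p) (x : Kp D) : (minpoly (Kp F) x).natDegree ≤ p := by
  obtain ⟨a, rfl⟩ := rs_surj x
  have hP : (↑(minpoly F (a : D)).coeffs : Set F) ⊆ (OO F : Set F) := by
    intro c hc
    rw [Finset.mem_coe, Polynomial.mem_coeffs_iff] at hc
    obtain ⟨n, -, rfl⟩ := hc
    exact hint a a.2 n
  have hmon : (minpoly F (a : D)).Monic := minpoly.monic (Algebra.IsIntegral.isIntegral _)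
  let P : Polynomial (OO F) := (minpoly F (a : D)).toSubring (OO F) hP
  have hPm : P.Monic := (Polynomial.monic_toSubring _ _ _).2 hmon
  have hPd : P.natDegree = (minpoly F (a : D)).natDegree := Polynomial.natDegree_toSubring _ _ _
  have hPmap : P.map (OO F).subtype = minpoly F (a : D) := by
    ext n
    rw [Polynomial.coeff_map]
    exact Polynomial.coeff_toSubring' _ _ _
  have h0 : Polynomial.eval₂ (oMap F D) a P = 0 := by
    apply Subtype.ext
    change (OO D).subtype (Polynomial.eval₂ (oMap F D) a P) = 0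
    rw [Polynomial.hom_eval₂]
    have h1 : (OO D).subtype.comp (oMap F D) = (algebraMap F D).comp (OO F).subtype := rfl
    rw [h1, ← Polynomial.eval₂_map, hPmap]
    exact minpoly.aeval F (a : D)
  have h2 : Polynomial.aeval (rs D a) (P.map (rs F)) = 0 := by
    rw [Polynomial.aeval_def, Polynomial.eval₂_map]
    have h3 : (algebraMap (Kp F) (Kp D)).comp (rs F) = (rs D).comp (oMap F D) := rfl
    rw [h3, ← Polynomial.hom_eval₂, h0, map_zero]
  have h4 := minpoly.min (Kp F) (rs D a) (hPm.map (rs F)) h2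
  have h5 : (minpoly (Kp F) (rs D a)).natDegree ≤ (P.map (rs F)).natDegree :=
    Polynomial.natDegree_le_natDegree h4
  rw [hPm.natDegree_map, hPd] at h5
  exact h5.trans (hdeg a)

/-- joint surjectivity of the functionals `w ↦ T (z ^ i * w)`. -/
theorem joint_surj {k Δ : Type*} [Field k] [DivisionRing Δ] [Algebra k Δ] (T : Δ →ₗ[k] k) (hT : T ≠ 0)
    {m : ℕ} (z : Δ) (hz : LinearIndependent k fun i : Fin m => z ^ (i : ℕ)) (c : Fin m → k) :
    ∃ w : Δ, ∀ i : Fin m, T (z ^ (i : ℕ) * w) = c i := by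
  let Ψ : Δ →ₗ[k] (Fin m → k) := LinearMap.pi fun i => T ∘ₗ LinearMap.mulLeft k (z ^ (i : ℕ))
  have hsurj : LinearMap.range Ψ = ⊤ := by
    by_contra hne
    obtain ⟨f, hf, hle⟩ := Submodule.exists_le_ker_of_lt_top _ (lt_top_iff_ne_top.2 hne)
    apply hf
    have h1 : ∀ w, f (Ψ w) = 0 := fun w => hle (LinearMap.mem_range_self _ _)
    let a : Fin m → k := fun i => f (Pi.single i 1)
    have hfa : ∀ v : Fin m → k, f v = ∑ i, v i * a i := by
      intro v
      conv_lhs => rw [pi_eq_sum_univ' v]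
      rw [map_sum]
      refine sum_congr rfl fun i _ => ?_
      rw [map_smul, smul_eq_mul]
    let y : Δ := ∑ i : Fin m, a i • z ^ (i : ℕ)
    have hy : ∀ w, T (y * w) = 0 := by
      intro w
      have := h1 w
      rw [hfa] at this
      rw [sum_mul, map_sum, ← this]
      refine sum_congr rfl fun i _ => ?_
      rw [smul_mul_assoc, LinearMap.map_smul, smul_eq_mul, mul_comm]
      rfl
    have hy0 : y = 0 := by
      by_contra h
      apply hT
      ext x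
      have := hy (y⁻¹ * x)
      rw [← mul_assoc, mul_inv_cancel₀ h, one_mul] at this
      exact this
    have ha : ∀ i, a i = 0 := Fintype.linearIndependent_iff.1 hz a hy0
    apply LinearMap.ext
    intro v
    rw [hfa]
    simp [ha]
  obtain ⟨w, hw⟩ := LinearMap.range_eq_top.1 hsurj c
  exact ⟨w, fun i => congrFun hw i⟩

variable {p : ℕ} {ϖ : F}

/-- **The unramified case.** -/
theorem unram_main [FiniteDimensional F D] (hp : p.Prime) (hd : Disc F D p ϖ)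
    (hj1 : ∀ j, 1 ≤ j → j < p → ‖(j : F)‖ = 1)
    (hint : ∀ x : D, ‖x‖ ≤ 1 → ∀ n, ‖(minpoly F x).coeff n‖ ≤ 1)
    (hdeg : ∀ x : D, (minpoly F x).natDegree ≤ p) (hdim : finrank F D = p ^ 2)
    (hk : ∀ T : Kp D →ₗ[Kp F] Kp F, T ≠ 0 → (∀ x y, T (x * y) = T (y * x)) →
      ∃ z : Kp D, z ∉ Set.range (algebraMap (Kp F) (Kp D)) ∧ ∀ j, 1 ≤ j → j < p → T (z ^ j) = 0)
    (τ : D →ₗ[F] F) (htr : ∀ x y, τ (x * y) = τ (y * x)) (hτ : τ ≠ 0)
    (hun : ∀ x : D, ∃ c : F, ‖x‖ = ‖c‖) :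
    ∃ z : D, z ∉ Set.range (algebraMap F D) ∧ ∀ j, 1 ≤ j → j < p → τ (z ^ j) = 0 := by
  obtain ⟨g', hg', hmax⟩ := exists_max hp.ne_zero hd τ hτ
  have hg'0 : g' ≠ 0 := fun h => hg' (by rw [h, map_zero])
  have hg'n : 0 < ‖g'‖ := norm_pos_iff.2 hg'0
  obtain ⟨c', hc'⟩ := hun g'
  have hc'0 : c' ≠ 0 := by rw [← norm_pos_iff, ← hc']; exact hg'n
  let g : D := c'⁻¹ • g'
  let μ : F := τ g
  have hμ : μ ≠ 0 := by
    change τ (c'⁻¹ • g') ≠ 0
    rw [LinearMap.map_smul, smul_eq_mul]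
    exact mul_ne_zero (inv_ne_zero hc'0) hg'
  have hg1 : ‖g‖ = 1 := by
    change ‖c'⁻¹ • g'‖ = 1
    rw [norm_smul, norm_inv, hc', inv_mul_cancel₀ (norm_pos_iff.2 hc'0).ne']
  have hmax' : ∀ x, ‖τ x‖ ≤ ‖μ‖ * ‖x‖ := by
    intro x
    have h1 : ‖μ‖ = ‖g'‖⁻¹ * ‖τ g'‖ := by
      change ‖τ (c'⁻¹ • g')‖ = _
      rw [LinearMap.map_smul, smul_eq_mul, norm_mul, norm_inv, hc']
    rw [h1, mul_assoc, ← div_eq_inv_mul, le_div_iff₀ hg'n]
    exact hmax x
  have hfr : finrank (Kp F) (Kp D) = p ^ 2 := by rw [finrank_kp hp.ne_zero hd hun, hdim]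
  obtain ⟨zb, hzb, hzbT⟩ := hk (kT τ hμ hmax') (kT_ne τ hμ hmax' hg1 rfl) (kT_tr τ hμ hmax' htr)
  obtain ⟨z0, rfl⟩ := rs_surj zb
  have hz0n : ‖(z0 : D)‖ = 1 := by
    refine le_antisymm z0.2 (not_lt.1 fun h => hzb ?_)
    rw [rs_eq_zero.2 h]
    exact ⟨0, map_zero _⟩
  have hz00 : (z0 : D) ≠ 0 := by rw [← norm_pos_iff, hz0n]; exact one_pos
  have hθ : 0 < ‖ϖ‖ := hd.pos
  have hθ1 : ‖ϖ‖ < 1 := hd.lt
  have hμn : 0 < ‖μ‖ := norm_pos_iff.2 hμ
  -- discreteness in the base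
  have hstrict : ∀ c : F, ‖c‖ < 1 → ‖c‖ ≤ ‖ϖ‖ := by
    intro c hc
    by_cases h0 : c = 0
    · rw [h0, norm_zero]; exact hθ.le
    · obtain ⟨n, hn⟩ := hd.base c h0
      rw [hn] at hc ⊢
      have h1 : 0 < n := by
        rw [← zpow_zero ‖ϖ‖, zpow_lt_zpow_iff_right_of_lt_one₀ hθ hθ1] at hc
        exact hc
      calc ‖ϖ‖ ^ n ≤ ‖ϖ‖ ^ (1 : ℤ) := (zpow_le_zpow_iff_right_of_lt_one₀ hθ hθ1).2 (by omega)
        _ = ‖ϖ‖ := zpow_one _
  -- the degree of the residue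
  have hdegz : (minpoly (Kp F) (rs D z0)).natDegree = p := by
    have h1 : (minpoly (Kp F) (rs D z0)).natDegree ∣ p ^ 2 := by rw [← hfr]; exact natDegree_dvd _
    have h2 := deg_res (F := F) hint hdeg (rs D z0)
    obtain ⟨i, hi, hi2⟩ := (Nat.dvd_prime_pow hp).1 h1
    rw [hi2] at h2 ⊢
    rcases Nat.lt_or_ge i 1 with h | h
    · exfalso
      have hi0 : i = 0 := by omega
      rw [hi0, pow_zero] at hi2
      exact hzb (minpoly.natDegree_eq_one_iff.1 hi2)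
    · rcases Nat.lt_or_ge i 2 with h' | h'
      · have : i = 1 := by omega
        rw [this, pow_one]
      · exfalso
        have : i = 2 := by omega
        rw [this] at h2
        have hp2 := hp.two_le
        nlinarith
  have hli : LinearIndependent (Kp F) fun i : Fin (p - 1) => (rs D z0) ^ (i : ℕ) := by
    have h1 := linearIndependent_pow (K := Kp F) (rs D z0)
    rw [hdegz] at h1
    exact h1.comp (Fin.castLE (Nat.sub_le p 1)) (Fin.castLE_injective _)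
  have htz : ∀ j, 1 ≤ j → j < p → ‖τ ((z0 : D) ^ j)‖ ≤ ‖ϖ‖ * (‖μ‖ * ‖(z0 : D)‖ ^ j) := by
    intro j hj hjp
    have h1 := hzbT j hj hjp
    rw [← map_pow, kT_rs, rs_eq_zero, oT_coe] at h1
    have h2 := hstrict _ h1
    rw [norm_mul, norm_inv, inv_mul_le_iff₀ hμn] at h2
    rw [hz0n, one_pow, mul_one]
    refine le_trans (le_of_eq ?_) (h2.trans (le_of_eq (mul_comm _ _)))
    rfl
  obtain ⟨z, hz1, hz2⟩ := newton τ htr hμn hmax' hz00 (p := p) hθ hθ1 htz (by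
    intro n hn c hc
    rw [hz0n] at *
    -- normalised right-hand sides
    have hϖn : 0 < ‖ϖ‖ ^ n := pow_pos hθ n
    have hcO : ∀ j, 1 ≤ j → j < p → ‖(ϖ ^ n)⁻¹ * (μ⁻¹ * c j)‖ ≤ 1 := by
      intro j hj hjp
      have := hc j hj hjp
      rw [one_pow, mul_one] at this
      rw [norm_mul, norm_mul, norm_inv, norm_inv, norm_pow, ← mul_assoc, ← mul_inv,
        inv_mul_le_iff₀ (mul_pos hϖn hμn), mul_one]
      exact this
    classical
    let cc : Fin (p - 1) → Kp F := fun i => rs F ⟨(ϖ ^ n)⁻¹ * (μ⁻¹ * c (i + 1)), hcO _ (by omega) (by omega)⟩ *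
      (((i + 1 : ℕ) : Kp F))⁻¹
    obtain ⟨wb, hwb⟩ := joint_surj (kT τ hμ hmax') (kT_ne τ hμ hmax' hg1 rfl) (rs D z0) hli cc
    obtain ⟨w, rfl⟩ := rs_surj wb
    refine ⟨(ϖ ^ n) • (w : D), ?_, ?_⟩
    · rw [norm_smul, norm_pow]
      exact mul_le_mul_of_nonneg_left w.2 hϖn.le
    · intro j hj hjp
      have h1 := hwb ⟨j - 1, by omega⟩
      have hj' : j - 1 + 1 = j := by omega
      have hjne : ((j : ℕ) : Kp F) ≠ 0 := by
        have h2 : ((j : ℕ) : Kp F) = rs F (j : OO F) := (map_natCast (rs F) j).symm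
        rw [h2, Ne, rs_eq_zero]
        have h3 : (((j : ℕ) : OO F) : F) = (j : F) := by norm_cast
        rw [h3, hj1 j hj hjp]
        exact lt_irrefl _
      rw [← map_pow, ← map_mul, kT_rs] at h1
      have h4 : ((j : ℕ) : Kp F) * rs F (oT τ hμ hmax' (z0 ^ (j - 1) * w)) =
          rs F ⟨(ϖ ^ n)⁻¹ * (μ⁻¹ * c j), hcO _ hj hjp⟩ := by
        rw [h1]
        change ((j : ℕ) : Kp F) * (rs F ⟨(ϖ ^ n)⁻¹ * (μ⁻¹ * c (j - 1 + 1)), _⟩ * (((j - 1 + 1 : ℕ) : Kp F))⁻¹) = _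
        simp only [hj']
        rw [mul_comm, mul_assoc, inv_mul_cancel₀ hjne, mul_one]
      rw [← map_natCast (rs F), ← map_mul, rs_eq_iff] at h4
      have h5 := hstrict _ h4
      have h6 : (((j : OO F) * oT τ hμ hmax' (z0 ^ (j - 1) * w) : OO F) : F) =
          (j : F) * (μ⁻¹ * τ ((z0 : D) ^ (j - 1) * w)) := by
        rw [Subring.coe_mul, oT_coe]
        norm_cast
      rw [h6] at h5
      have hϖ0 : ϖ ≠ 0 := hd.ne
      have h7 : (j : F) * τ ((z0 : D) ^ (j - 1) * (ϖ ^ n • (w : D))) - c j =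
          (ϖ ^ n * μ) * ((j : F) * (μ⁻¹ * τ ((z0 : D) ^ (j - 1) * w)) - (ϖ ^ n)⁻¹ * (μ⁻¹ * c j)) := by
        rw [mul_smul_comm, LinearMap.map_smul, smul_eq_mul]
        field_simp
      rw [h7, norm_mul, norm_mul, norm_pow, one_pow, mul_one, pow_succ]
      have h8 : 0 < ‖ϖ‖ ^ n * ‖μ‖ := mul_pos hϖn hμn
      calc ‖ϖ‖ ^ n * ‖μ‖ * _ ≤ ‖ϖ‖ ^ n * ‖μ‖ * ‖ϖ‖ := mul_le_mul_of_nonneg_left h5 h8.le
        _ = _ := by ring)
  refine ⟨z, ?_, hz2⟩
  rintro ⟨c, rfl⟩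
  rw [hz0n, mul_one] at hz1
  have hc1 : ‖c‖ ≤ 1 := by
    have : ‖algebraMap F D c‖ = ‖(z0 : D)‖ := norm_eq_of_near (by rw [hz0n]; linarith)
    rw [norm_algebraMap', hz0n] at this
    exact this.le
  apply hzb
  refine ⟨rs F ⟨c, hc1⟩, ?_⟩
  rw [algK, rs_eq_iff]
  change ‖algebraMap F D c - z0‖ < 1
  linarith

end unram

end Run7.h339
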