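import Mathlib
import Pool.Agent.Run7.h339.Nrm
import Pool.Agent.Run7.h339.Unram

/-! The ascent theorem for the property `PC`. -/

set_option autoImplicit false
set_option linter.all false

namespace Run7.h339

open Module Finset

/-- degree is `1` or `p`. -/
theorem deg_cases {k D : Type*} [Field k] [DivisionRing D] [Algebra k D] [FiniteDimensional k D] {p : ℕ}
    (hp : p.Prime) (hdim : finrank k D = p ^ 2) (hdeg : ∀ x : D, (minpoly k x).natDegree ≤ p) (x : D) :
    (minpoly k x).natDegree = 1 ∨ (minpoly k x).natDegree = p := by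
  have h1 : (minpoly k x).natDegree ∣ p ^ 2 := by rw [← hdim]; exact natDegree_dvd _
  have h2 := hdeg x
  obtain ⟨i, hi, hi2⟩ := (Nat.dvd_prime_pow hp).1 h1
  rw [hi2] at h2 ⊢
  have hp2 := hp.two_le
  interval_cases i
  · left; simp
  · right; simp
  · exfalso
    nlinarith

universe u

theorem ascend {F : Type u} [NontriviallyNormedField F] [IsUltrametricDist F] [CompleteSpace F] {p : ℕ}
    (hp : p.Prime) {ϖ : F} (hϖ : ϖ ≠ 0) (hϖ1 : ‖ϖ‖ < 1) (hbase : ∀ c : F, c ≠ 0 → ∃ n : ℤ, ‖c‖ = ‖ϖ‖ ^ n)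
    (hj : ∀ j, 1 ≤ j → j < p → ‖(j : F)‖ = 1) (h : PC p (Kp F)) : PC p F := by
  intro D _ _ hdim hdeg τ hτ htr
  haveI : FiniteDimensional F D := Module.finite_of_finrank_pos (by rw [hdim]; exact pow_pos hp.pos 2)
  letI : NormedDivisionRing D := nDR F D
  letI : NormedAlgebra F D := nAlg F D
  haveI : IsUltrametricDist D := nUltra (F := F)
  have hnorm : ∀ x : D, ‖x‖ = nrm F x := fun x => rfl
  have htop : ∀ x : D, x ≠ 0 → ∃ c : F, c ≠ 0 ∧ ‖x‖ ^ p = ‖c‖ := by
    intro x hx
    have h1 := nrm_pow_natDegree (F := F) x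
    have hc0 : (minpoly F x).coeff 0 ≠ 0 := by
      intro h0
      rw [h0, norm_zero] at h1
      exact hx (nrm_eq_zero (pow_eq_zero_iff (minpoly_irred (F := F) x).natDegree_pos.ne' |>.1 h1))
    rcases deg_cases hp hdim hdeg x with h2 | h2
    · refine ⟨(minpoly F x).coeff 0 ^ p, pow_ne_zero _ hc0, ?_⟩
      rw [norm_pow, ← h1, h2, pow_one]
      rfl
    · refine ⟨(minpoly F x).coeff 0, hc0, ?_⟩
      rw [← h1, h2]
      rfl
  have hd : Disc F D p ϖ := ⟨hϖ, hϖ1, hbase, htop⟩
  have hint : ∀ x : D, ‖x‖ ≤ 1 → ∀ n, ‖(minpoly F x).coeff n‖ ≤ 1 := by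
    intro x hx n
    have h1 : spectralValue (minpoly F x) ≤ 1 := hx
    exact (spectralValue_le_one_iff (minpoly.monic (Algebra.IsIntegral.isIntegral _))).1 h1 n
  by_cases hram : ∃ x : D, x ≠ 0 ∧ ∀ c : F, ‖x‖ ≠ ‖c‖
  · obtain ⟨z, hz1, hz2⟩ := ram_main hp hd (by rw [hdim]; nlinarith [hp.two_le]) hj τ htr hτ hram
    refine ⟨z, ?_, hz2⟩
    rintro ⟨c, rfl⟩
    exact hz1 c (norm_algebraMap' D c)
  · push Not at hram
    have hun : ∀ x : D, ∃ c : F, ‖x‖ = ‖c‖ := by
      intro x
      by_cases hx : x = 0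
      · exact ⟨0, by rw [hx, norm_zero, norm_zero]⟩
      · exact hram x hx
    have hfr : finrank (Kp F) (Kp D) = p ^ 2 := by rw [finrank_kp hp.ne_zero hd hun, hdim]
    exact unram_main hp hd hj hint hdeg hdim
      (fun T hT hTtr => h (Kp D) hfr (deg_res hint hdeg) T hT hTtr) τ htr hτ hun

/-- invariance of `PC` under field isomorphisms. -/
theorem PC.congr {k k' : Type u} [Field k] [Field k'] (e : k ≃+* k') {p : ℕ} (hp : p ≠ 0) (h : PC p k) : PC p k' := by
  intro D _ alg hdim hdeg τ hτ htr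
  haveI : FiniteDimensional k' D := Module.finite_of_finrank_pos (by rw [hdim]; exact pow_pos (Nat.pos_of_ne_zero hp) 2)
  letI : Algebra k D := ((algebraMap k' D).comp (e : k →+* k')).toAlgebra' (fun c x => Algebra.commutes _ _)
  have hsm : ∀ (c : k) (x : D), c • x = e c • x := fun c x => by
    rw [Algebra.smul_def, Algebra.smul_def]; rfl
  have halg : algebraMap k D = (algebraMap k' D).comp (e : k →+* k') := rfl
  have hdim' : finrank k D = p ^ 2 := by
    rw [← hdim]
    have := rank_eq_of_equiv_equiv e (AddEquiv.refl D) e.bijective (fun r m => hsm r m)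
    rw [Module.finrank, Module.finrank, this]
  have hdeg' : ∀ x : D, (minpoly k x).natDegree ≤ p := by
    intro x
    have hm : (minpoly k' x).Monic := minpoly.monic (Algebra.IsIntegral.isIntegral _)
    have h2 : Polynomial.aeval x ((minpoly k' x).map (e.symm : k' →+* k)) = 0 := by
      rw [Polynomial.aeval_def, Polynomial.eval₂_map, halg]
      have h3 : ((algebraMap k' D).comp (e : k →+* k')).comp (e.symm : k' →+* k) = algebraMap k' D := by
        ext c
        simp
      rw [h3]
      exact minpoly.aeval k' x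
    have h4 := minpoly.min k x (hm.map (e.symm : k' →+* k)) h2
    have h5 := Polynomial.natDegree_le_natDegree h4
    rw [hm.natDegree_map] at h5
    exact h5.trans (hdeg x)
  let τ' : D →ₗ[k] k :=
    { toFun := fun x => e.symm (τ x)
      map_add' := fun x y => by rw [map_add, map_add]
      map_smul' := fun c x => by
        rw [hsm, LinearMap.map_smul, smul_eq_mul, map_mul, RingEquiv.symm_apply_apply]
        rfl }
  obtain ⟨z, hz1, hz2⟩ := h D hdim' hdeg' τ' (fun h0 => hτ (LinearMap.ext fun x => by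
      have := LinearMap.congr_fun h0 x
      change e.symm (τ x) = 0 at this
      rw [map_eq_zero] at this
      exact this)) (fun x y => by
      change e.symm (τ (x * y)) = e.symm (τ (y * x))
      rw [htr])
  refine ⟨z, ?_, ?_⟩
  · rintro ⟨c, rfl⟩
    apply hz1
    refine ⟨e.symm c, ?_⟩
    rw [halg]
    simp
  · intro j hj hjp
    have := hz2 j hj hjp
    change e.symm (τ (z ^ j)) = 0 at this
    rwa [map_eq_zero] at this

end Run7.h339
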