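import Mathlib
import Pool.Agent.Helper18.Br.TensorCSA
import Pool.Agent.Run7.h339.Sub

/-! Trace functionals on central division algebras. -/

set_option autoImplicit false
set_option linter.all false

open scoped TensorProduct

namespace Run7.h339

open Module Finset

section tau

variable {F D : Type*} [Field F] [DivisionRing D] [Algebra F D] [FiniteDimensional F D]

/-- the trace of left multiplication, through a subfield. -/
theorem trace_left {L : Type*} [Field L] [Algebra F L] [FiniteDimensional F L] (φ : L →ₐ[F] D) (y : L) :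
    LinearMap.trace F D (LinearMap.mulLeft F (φ y)) = (dimL φ : F) * Algebra.trace F L y := by
  letI := modL φ
  haveI := towerL φ
  haveI : Module.Finite L D := Module.Finite.of_restrictScalars_finite F L D
  let m := finrank L D
  let e : D ≃ₗ[L] (Fin m → L) := (Module.finBasis L D).equivFun
  have h1 : LinearMap.mulLeft F (φ y) =
      (e.restrictScalars F).symm.conj ((Algebra.lmul F (Fin m → L)) (algebraMap L (Fin m → L) y)) := by
    ext d
    rw [LinearEquiv.conj_apply]
    change φ y * d = (e.symm (algebraMap L (Fin m → L) y * e d))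
    have h2 : algebraMap L (Fin m → L) y * e d = y • e d := by
      rw [Algebra.smul_def]
    rw [h2, map_smul, LinearEquiv.symm_apply_apply]
    rfl
  rw [h1, LinearMap.trace_conj', ← Algebra.trace_apply,
    ← Algebra.trace_trace (S := L), Algebra.trace_algebraMap, map_nsmul, nsmul_eq_mul, finrank_fin_fun]
  rfl

variable (F D)

theorem mulLeftRight_surjective [Algebra.IsCentral F D] :
    Function.Surjective (AlgHom.mulLeftRight F D) := by
  haveI : IsSimpleRing (D ⊗[F] Dᵐᵒᵖ) := Pool.Agent.Helper18.Br.isSimple_tensor
  have hinj : Function.Injective (AlgHom.mulLeftRight F D) := (AlgHom.mulLeftRight F D).toRingHom.injective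
  apply (LinearMap.injective_iff_surjective_of_finrank_eq_finrank
    (f := (AlgHom.mulLeftRight F D).toLinearMap) ?_).1 hinj
  rw [finrank_tensorProduct, finrank_linearMap]
  congr 1
  exact (MulOpposite.opLinearEquiv F (M := D)).symm.finrank_eq

/-- existence of a nonzero trace functional of the form `x ↦ tr(d ↦ y d x)`. -/
theorem exists_trace_ne [Algebra.IsCentral F D] :
    ∃ y : D, ∃ x : D, LinearMap.trace F D (LinearMap.mulLeft F y ∘ₗ LinearMap.mulRight F x) ≠ 0 := by
  by_contra hc
  push Not at hc
  have h1 : ∀ t : D ⊗[F] Dᵐᵒᵖ, LinearMap.trace F D (AlgHom.mulLeftRight F D t) = 0 := by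
    intro t
    induction t using TensorProduct.induction_on with
    | zero => rw [map_zero, map_zero]
    | tmul a b =>
      rw [← hc a b.unop]
      rfl
    | add s t hs ht => rw [map_add, map_add, hs, ht, add_zero]
  have h2 : ∀ f : Module.End F D, LinearMap.trace F D f = 0 := by
    intro f
    obtain ⟨t, rfl⟩ := mulLeftRight_surjective F D f
    exact h1 t
  -- a rank one projection
  let b := Module.finBasis F D
  have hpos : 0 < finrank F D := Module.finrank_pos
  let i : Fin (finrank F D) := ⟨0, hpos⟩
  let f : Module.End F D := (LinearMap.toSpanSingleton F D (b i)) ∘ₗ (b.coord i)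
  have h3 : LinearMap.trace F D f = 1 := by
    change LinearMap.trace F D ((LinearMap.toSpanSingleton F D (b i)) ∘ₗ (b.coord i)) = 1
    rw [LinearMap.trace_comp_comm']
    have : b.coord i ∘ₗ LinearMap.toSpanSingleton F D (b i) = LinearMap.id := by
      ext
      simp
    rw [this, LinearMap.trace_id]
    simp
  rw [h2] at h3
  exact zero_ne_one h3

/-- the trace functional attached to `y`. -/
noncomputable def tauOf (y : D) : D →ₗ[F] F where
  toFun x := LinearMap.trace F D (LinearMap.mulLeft F y ∘ₗ LinearMap.mulRight F x)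
  map_add' a b := by
    rw [← map_add]
    congr 1
    ext d
    simp [mul_add]
  map_smul' c a := by
    rw [← LinearMap.map_smul]
    congr 1
    ext d
    simp

theorem tauOf_tr (y a b : D) : tauOf F D y (a * b) = tauOf F D y (b * a) := by
  change LinearMap.trace F D (LinearMap.mulLeft F y ∘ₗ LinearMap.mulRight F (a * b)) =
    LinearMap.trace F D (LinearMap.mulLeft F y ∘ₗ LinearMap.mulRight F (b * a))
  have h1 : LinearMap.mulLeft F y ∘ₗ LinearMap.mulRight F (a * b) =
      (LinearMap.mulRight F b) ∘ₗ (LinearMap.mulLeft F y ∘ₗ LinearMap.mulRight F a) := by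
    ext d; simp [mul_assoc]
  have h2 : LinearMap.mulLeft F y ∘ₗ LinearMap.mulRight F (b * a) =
      (LinearMap.mulLeft F y ∘ₗ LinearMap.mulRight F a) ∘ₗ (LinearMap.mulRight F b) := by
    ext d; simp [mul_assoc]
  rw [h1, h2, LinearMap.trace_comp_comm']

theorem tauOf_one (y : D) : tauOf F D y 1 = LinearMap.trace F D (LinearMap.mulLeft F y) := by
  change LinearMap.trace F D (LinearMap.mulLeft F y ∘ₗ LinearMap.mulRight F 1) = _
  congr 1
  ext d
  simp

/-- in characteristic `p` and dimension `p ^ 2` there is a nonzero trace functional killing `1`. -/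
theorem exists_tau [Algebra.IsCentral F D] {p : ℕ} (hp : p.Prime) [CharP F p] (hdim : finrank F D = p ^ 2)
    (hdeg : ∀ x : D, (minpoly F x).natDegree = 1 ∨ (minpoly F x).natDegree = p) :
    ∃ τ : D →ₗ[F] F, τ ≠ 0 ∧ (∀ x y, τ (x * y) = τ (y * x)) ∧ τ 1 = 0 := by
  obtain ⟨y, x, hyx⟩ := exists_trace_ne F D
  refine ⟨tauOf F D y, fun h => hyx ?_, tauOf_tr F D y, ?_⟩
  · change tauOf F D y x = 0
    rw [h]; rfl
  · rw [tauOf_one]
    have h1 := trace_left (adHom F y) (AdjoinRoot.root (minpoly F y))
    rw [adHom_root] at h1
    have h2 : ((dimL (adHom F y) : ℕ) : F) = 0 := by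
      have h3 := dimL_mul (adHom F y)
      rw [finrank_ad, hdim] at h3
      rw [CharP.cast_eq_zero_iff F p]
      rcases hdeg y with h | h
      · rw [h, one_mul] at h3
        rw [h3]; exact dvd_pow_self p two_ne_zero
      · rw [h, pow_two] at h3
        rw [Nat.eq_of_mul_eq_mul_left hp.pos h3]
    rw [h1, h2, zero_mul]

end tau

end Run7.h339
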