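import Mathlib
import Pool.Agent.Run7.h339.Sub
import Pool.Agent.Run7.h339.Tau
import Pool.Agent.Run7.h339.Ascent

/-! Cyclicity in characteristic `p`. -/

set_option autoImplicit false
set_option linter.all false

namespace Run7.h339

open Module Finset Polynomial

universe u

/-- `D` contains a subfield of degree `p` that is cyclic Galois over `F`. -/
def CycMax (p : ℕ) (F D : Type u) [Field F] [DivisionRing D] [Algebra F D] : Prop :=
  ∃ (L : Type u) (_ : Field L) (_ : Algebra F L),
    IsGalois F L ∧ IsCyclic (L ≃ₐ[F] L) ∧ finrank F L = p ∧ Nonempty (L →ₐ[F] D)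

/-- all division algebras of degree `p` over `k` are cyclic. -/
def CycAll (p : ℕ) (k : Type u) [Field k] : Prop :=
  ∀ (D : Type u) [DivisionRing D] [Algebra k D] [Algebra.IsCentral k D] [FiniteDimensional k D],
    finrank k D = p ^ 2 → CycMax p k D

section basic

variable {F D : Type*} [Field F] [DivisionRing D] [Algebra F D] [FiniteDimensional F D]

theorem finrank_adjoin (z : D) : finrank F (Algebra.adjoin F {z}) = (minpoly F z).natDegree := by
  have h : Algebra.adjoin F {z} = (adHom F z).range := by
    apply le_antisymm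
    · rw [Algebra.adjoin_le_iff, Set.singleton_subset_iff]
      exact ⟨AdjoinRoot.root _, adHom_root z⟩
    · rintro _ ⟨a, rfl⟩
      obtain ⟨g, rfl⟩ := AdjoinRoot.mk_surjective a
      change adHom F z (AdjoinRoot.mk _ g) ∈ _
      rw [adHom_mk]
      exact aeval_mem_adjoin_singleton F z
  rw [h, ← finrank_ad z]
  exact (LinearEquiv.ofInjective (adHom F z).toLinearMap (adHom_injective z)).finrank_eq.symm

/-- an element of full degree makes the algebra commutative. -/
theorem comm_of_full {x : D} (h : (minpoly F x).natDegree = finrank F D) (a b : D) : a * b = b * a := by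
  have h2 : Algebra.adjoin F {x} = ⊤ := by
    apply Subalgebra.toSubmodule_injective
    rw [Algebra.top_toSubmodule]
    apply Submodule.eq_top_of_finrank_eq
    change finrank F (Algebra.adjoin F {x}) = _
    rw [finrank_adjoin, h]
  have ha : a ∈ Algebra.adjoin F {x} := by rw [h2]; trivial
  have hb : b ∈ Algebra.adjoin F {x} := by rw [h2]; trivial
  haveI := Algebra.isMulCommutative_adjoin_singleton F x
  have := mul_comm' (⟨a, ha⟩ : Algebra.adjoin F {x}) ⟨b, hb⟩
  exact congrArg Subtype.val this

theorem finrank_one_of_comm [Algebra.IsCentral F D] (h : ∀ a b : D, a * b = b * a) : finrank F D = 1 := by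
  have h3 : (⊥ : Subalgebra F D) = ⊤ := by
    rw [eq_top_iff]
    intro a _
    rw [← Algebra.IsCentral.center_eq_bot F D, Subalgebra.mem_center_iff]
    exact fun b => h b a
  exact Subalgebra.bot_eq_top_iff_finrank_eq_one.1 h3

/-- in a central division algebra of dimension `p ^ 2` all degrees are `1` or `p`. -/
theorem central_deg [Algebra.IsCentral F D] {p : ℕ} (hp : p.Prime) (hdim : finrank F D = p ^ 2) (x : D) :
    (minpoly F x).natDegree = 1 ∨ (minpoly F x).natDegree = p := by
  have h1 : (minpoly F x).natDegree ∣ p ^ 2 := by rw [← hdim]; exact natDegree_dvd _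
  obtain ⟨i, hi, hi2⟩ := (Nat.dvd_prime_pow hp).1 h1
  rw [hi2]
  interval_cases i
  · left; simp
  · right; simp
  · exfalso
    have h4 := finrank_one_of_comm (F := F) (D := D) (comm_of_full (F := F) (x := x) (by rw [hi2, hdim]))
    rw [hdim] at h4
    have := hp.two_le
    nlinarith

theorem mem_range_iff_deg (x : D) : x ∈ Set.range (algebraMap F D) ↔ (minpoly F x).natDegree = 1 :=
  minpoly.natDegree_eq_one_iff.symm

theorem mem_center_iff' [Algebra.IsCentral F D] (x : D) : x ∈ Set.range (algebraMap F D) ↔ ∀ y, y * x = x * y := by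
  rw [← Subalgebra.mem_center_iff (R := F), Algebra.IsCentral.center_eq_bot F D, Algebra.mem_bot]

theorem deg_p [Algebra.IsCentral F D] {p : ℕ} (hp : p.Prime) (hdim : finrank F D = p ^ 2) {z : D}
    (hz : z ∉ Set.range (algebraMap F D)) : (minpoly F z).natDegree = p :=
  (central_deg hp hdim z).resolve_left fun h => hz ((mem_range_iff_deg z).2 h)

/-- the centraliser of a noncentral element. -/
theorem centralizer_eq [Algebra.IsCentral F D] {p : ℕ} (hp : p.Prime) (hdim : finrank F D = p ^ 2) {z : D}
    (hz : z ∉ Set.range (algebraMap F D)) : Subalgebra.centralizer F {z} = Algebra.adjoin F {z} := by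
  set C := Subalgebra.centralizer F {z} with hC
  have hle : Algebra.adjoin F {z} ≤ C := by
    rw [Algebra.adjoin_le_iff, Set.singleton_subset_iff]
    change z ∈ Subalgebra.centralizer F {z}
    rw [Subalgebra.mem_centralizer_iff]
    intro g hg
    rw [Set.mem_singleton_iff] at hg
    rw [hg]
  have hA : finrank F (Algebra.adjoin F {z}) = p := by rw [finrank_adjoin, deg_p hp hdim hz]
  letI : DivisionRing C := divisionRingOfFiniteDimensional F C
  have hmul : finrank F C * finrank C D = finrank F D := Module.finrank_mul_finrank F C D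
  rw [hdim] at hmul
  have hdvd : finrank F C ∣ p ^ 2 := ⟨_, hmul.symm⟩
  have hge : p ≤ finrank F C := by
    rw [← hA]
    exact Submodule.finrank_mono (show Subalgebra.toSubmodule (Algebra.adjoin F {z}) ≤ Subalgebra.toSubmodule C from hle)
  obtain ⟨i, hi, hi2⟩ := (Nat.dvd_prime_pow hp).1 hdvd
  have hCp : finrank F C = p := by
    have h2 := hp.two_le
    interval_cases i
    · rw [hi2, pow_zero] at hge; omega
    · rw [hi2, pow_one]
    · exfalso
      have : Subalgebra.toSubmodule C = ⊤ := by
        apply Submodule.eq_top_of_finrank_eq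
        change finrank F C = _
        rw [hi2, hdim]
      apply hz
      rw [mem_center_iff']
      intro y
      have hy : y ∈ C := by
        rw [← Subalgebra.mem_toSubmodule, this]; trivial
      rw [hC, Subalgebra.mem_centralizer_iff] at hy
      exact (hy z rfl).symm
  symm
  apply Subalgebra.toSubmodule_injective
  apply Submodule.eq_of_le_of_finrank_eq hle
  change finrank F (Algebra.adjoin F {z}) = finrank F C
  rw [hA, hCp]

theorem mem_adjoin_of_comm [Algebra.IsCentral F D] {p : ℕ} (hp : p.Prime) (hdim : finrank F D = p ^ 2) {z y : D}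
    (hz : z ∉ Set.range (algebraMap F D)) (h : z * y = y * z) : y ∈ Algebra.adjoin F {z} := by
  rw [← centralizer_eq hp hdim hz, Subalgebra.mem_centralizer_iff]
  intro g hg
  rw [Set.mem_singleton_iff] at hg
  rw [hg, h]

/-- commuting is transitive on noncentral elements. -/
theorem comm_trans [Algebra.IsCentral F D] {p : ℕ} (hp : p.Prime) (hdim : finrank F D = p ^ 2) {x c z : D}
    (hc : c ∉ Set.range (algebraMap F D)) (h1 : c * x = x * c) (h2 : c * z = z * c) : x * z = z * x := by
  have hx := mem_adjoin_of_comm hp hdim hc h1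
  have hz := mem_adjoin_of_comm hp hdim hc h2
  haveI := Algebra.isMulCommutative_adjoin_singleton F c
  have := mul_comm' (⟨x, hx⟩ : Algebra.adjoin F {c}) ⟨z, hz⟩
  exact congrArg Subtype.val this

theorem deriv_comm {z x y : D} (hy : z * x - x * z = y) (hzy : z * y = y * z) (f : F[X]) :
    aeval z f * x - x * aeval z f = aeval z (derivative f) * y := by
  have hpow : ∀ n : ℕ, z ^ n * x - x * z ^ n = (n : D) * z ^ (n - 1) * y := by
    intro n
    induction n with
    | zero => simp
    | succ n ih =>
      have h1 : z ^ (n + 1) * x - x * z ^ (n + 1) = z * (z ^ n * x - x * z ^ n) + (z * x - x * z) * z ^ n := by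
        rw [pow_succ']; noncomm_ring
      have hzn : y * z ^ n = z ^ n * y := ((Commute.pow_left (show Commute z y from hzy) n).eq).symm
      rw [h1, ih, hy, hzn, Nat.add_sub_cancel]
      rcases Nat.eq_zero_or_pos n with h | h
      · subst h; simp
      · have h2 : z * ((n : D) * z ^ (n - 1) * y) = (n : D) * z ^ n * y := by
          have h3 : z ^ n = z * z ^ (n - 1) := by rw [← pow_succ']; congr 1; omega
          rw [h3, ← mul_assoc, ← mul_assoc, ← mul_assoc, (Nat.cast_commute n z).eq]
        rw [h2]
        push_cast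
        noncomm_ring
  induction f using Polynomial.induction_on' with
  | add f g hf hg =>
    rw [map_add, add_mul, mul_add, derivative_add, map_add, add_mul, ← hf, ← hg]
    abel
  | monomial n a =>
    rw [aeval_monomial, derivative_monomial, aeval_monomial]
    have h1 := hpow n
    have h2 : algebraMap F D a * z ^ n * x - x * (algebraMap F D a * z ^ n) =
        algebraMap F D a * (z ^ n * x - x * z ^ n) := by
      rw [mul_sub, mul_assoc, ← mul_assoc x, ← Algebra.commutes, mul_assoc]
    rw [h2, h1, map_mul, map_natCast]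
    noncomm_ring

/-- the key degeneration: a trace functional that kills the powers of a separable element is zero. -/
theorem tau_zero [Algebra.IsCentral F D] {p : ℕ} (hp : p.Prime) (hdim : finrank F D = p ^ 2) {z : D}
    (hz : z ∉ Set.range (algebraMap F D)) (hsep : derivative (minpoly F z) ≠ 0) (τ : D →ₗ[F] F)
    (htr : ∀ x y, τ (x * y) = τ (y * x)) (h0 : ∀ j, j < p → τ (z ^ j) = 0) : τ = 0 := by
  let δ : D →ₗ[F] D := LinearMap.mulLeft F z - LinearMap.mulRight F z
  have hδ : ∀ x, δ x = z * x - x * z := fun x => rfl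
  have hA : finrank F (Algebra.adjoin F {z}) = p := by rw [finrank_adjoin, deg_p hp hdim hz]
  have hker : LinearMap.ker δ = Subalgebra.toSubmodule (Algebra.adjoin F {z}) := by
    ext x
    rw [LinearMap.mem_ker, hδ, Subalgebra.mem_toSubmodule, sub_eq_zero]
    constructor
    · exact fun h => mem_adjoin_of_comm hp hdim hz h
    · intro h
      rw [← centralizer_eq hp hdim hz, Subalgebra.mem_centralizer_iff] at h
      exact h z rfl
  have hinf : LinearMap.ker δ ⊓ LinearMap.range δ = ⊥ := by
    rw [eq_bot_iff]
    rintro y ⟨hy1, x, hx⟩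
    have hy1' : z * y - y * z = 0 := hy1
    rw [sub_eq_zero] at hy1'
    have h1 := deriv_comm (F := F) (hx : z * x - x * z = y) hy1' (minpoly F z)
    rw [minpoly.aeval, zero_mul, mul_zero, sub_zero] at h1
    have h2 : aeval z (derivative (minpoly F z)) ≠ 0 := by
      intro h
      have h3 := minpoly.degree_le_of_ne_zero F z hsep h
      have h4 := degree_derivative_lt (minpoly.ne_zero (Algebra.IsIntegral.isIntegral (R := F) z))
      exact absurd h3 (not_le.2 h4)
    rw [Submodule.mem_bot]
    exact (mul_eq_zero.1 h1.symm).resolve_left h2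
  have hsup : LinearMap.ker δ ⊔ LinearMap.range δ = ⊤ := by
    apply Submodule.eq_top_of_finrank_eq
    have h1 := Submodule.finrank_sup_add_finrank_inf_eq (LinearMap.ker δ) (LinearMap.range δ)
    have h2 := LinearMap.finrank_range_add_finrank_ker δ
    rw [hinf, finrank_bot] at h1
    omega
  have hτA : ∀ x ∈ Algebra.adjoin F {z}, τ x = 0 := by
    intro x hx
    obtain ⟨g, rfl⟩ : ∃ g : F[X], aeval z g = x := by
      rw [Algebra.adjoin_singleton_eq_range_aeval] at hx
      exact hx
    -- reduce modulo the minimal polynomial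
    have hm : (minpoly F z).Monic := minpoly.monic (Algebra.IsIntegral.isIntegral _)
    rw [← Polynomial.aeval_modByMonic_eq_self_of_root (q := minpoly F z) (minpoly.aeval F z)]
    have hdeg : (g %ₘ minpoly F z).natDegree < p := by
      have := natDegree_modByMonic_lt g hm (minpoly.ne_one F z)
      rwa [deg_p hp hdim hz] at this
    rw [aeval_eq_sum_range' hdeg, map_sum]
    refine sum_eq_zero fun j hj => ?_
    rw [LinearMap.map_smul, h0 j (mem_range.1 hj), smul_zero]
  ext x
  have hx : x ∈ LinearMap.ker δ ⊔ LinearMap.range δ := by rw [hsup]; trivial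
  obtain ⟨a, ha, b, ⟨c, rfl⟩, rfl⟩ := Submodule.mem_sup.1 hx
  rw [hker] at ha
  rw [map_add, hτA a ha, hδ, map_sub, htr z c, sub_self, add_zero]
  rfl

/-- an irreducible polynomial of degree `p` with zero derivative. -/
theorem pow_mem_of_deriv [Algebra.IsCentral F D] {p : ℕ} (hp : p.Prime) [CharP F p] (hdim : finrank F D = p ^ 2) {z : D}
    (hz : z ∉ Set.range (algebraMap F D)) (h : derivative (minpoly F z) = 0) :
    z ^ p ∈ Set.range (algebraMap F D) := by
  have hdeg := deg_p hp hdim hz
  have hm : (minpoly F z).Monic := minpoly.monic (Algebra.IsIntegral.isIntegral _)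
  have hc : ∀ n, 0 < n → n < p → (minpoly F z).coeff n = 0 := by
    intro n hn hnp
    have h1 := congrArg (fun q => coeff q (n - 1)) h
    simp only [coeff_derivative, coeff_zero] at h1
    have h2 : n - 1 + 1 = n := by omega
    rw [h2] at h1
    have h3 : ((n - 1 : ℕ) : F) + 1 = (n : F) := by
      rw [← Nat.cast_succ]; congr 1
    rw [h3] at h1
    refine (mul_eq_zero.1 h1).resolve_right fun h4 => ?_
    rw [CharP.cast_eq_zero_iff F p] at h4
    exact absurd (Nat.le_of_dvd hn h4) (by omega)
  have h1 := minpoly.aeval F z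
  rw [aeval_eq_sum_range, hdeg, sum_range_succ, sum_eq_single 0, ← hdeg] at h1
  · rw [coeff_natDegree, hm.leadingCoeff, one_smul, pow_zero, hdeg] at h1
    refine ⟨-(minpoly F z).coeff 0, ?_⟩
    rw [map_neg, neg_eq_iff_add_eq_zero, Algebra.algebraMap_eq_smul_one]
    exact h1
  · intro b hb hb0
    rw [hc b (Nat.pos_of_ne_zero hb0) (mem_range.1 hb), zero_smul]
  · intro hh
    exact absurd (mem_range.2 hp.pos) hh

/-- in characteristic `p`: an element with `z ^ p` central, `z` noncentral, gives `x` with `[z,x] = z`. -/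
theorem exists_bracket [Algebra.IsCentral F D] {p : ℕ} (hp : p.Prime) [CharP F p] {z : D}
    (hz : z ∉ Set.range (algebraMap F D)) (hzp : z ^ p ∈ Set.range (algebraMap F D)) :
    ∃ x : D, z * x - x * z = z := by
  let δ : Module.End F D := LinearMap.mulLeft F z - LinearMap.mulRight F z
  have hδ : ∀ x, δ x = z * x - x * z := fun x => rfl
  have hz0 : z ≠ 0 := by
    rintro rfl
    exact hz ⟨0, map_zero _⟩
  haveI : Fact p.Prime := ⟨hp⟩
  haveI : CharP (Module.End F D) p := by
    exact charP_of_injective_algebraMap (R := F) (A := Module.End F D) (FaithfulSMul.algebraMap_injective F (Module.End F D)) p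
  have hcomm : Commute (LinearMap.mulLeft F z) (LinearMap.mulRight F z) := by
    change LinearMap.mulLeft F z * LinearMap.mulRight F z = LinearMap.mulRight F z * LinearMap.mulLeft F z
    ext d
    simp [mul_assoc]
  have hδp : δ ^ p = 0 := by
    change (LinearMap.mulLeft F z - LinearMap.mulRight F z) ^ p = 0
    rw [sub_pow_char_of_commute p hcomm]
    obtain ⟨c, hc⟩ := hzp
    have h1 : (LinearMap.mulLeft F z) ^ p = LinearMap.mulLeft F (z ^ p) := LinearMap.pow_mulLeft F D z p
    have h2 : (LinearMap.mulRight F z) ^ p = LinearMap.mulRight F (z ^ p) := LinearMap.pow_mulRight F D z p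
    rw [h1, h2, ← hc]
    ext d
    simp [Algebra.commutes]
  obtain ⟨u, hu⟩ : ∃ u, δ u ≠ 0 := by
    by_contra hc
    push Not at hc
    apply hz
    rw [mem_center_iff']
    intro y
    have := hc y
    rw [hδ, sub_eq_zero] at this
    exact this.symm
  have hex : ∃ n, (δ ^ n) u = 0 := ⟨p, by rw [hδp]; rfl⟩
  classical
  have hn := Nat.find_spec hex
  have hmin := fun m => Nat.find_min hex (m := m)
  set n := Nat.find hex with hn'
  have hn2 : 2 ≤ n := by
    by_contra hlt
    push Not at hlt
    interval_cases n
    · apply hu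
      have : u = 0 := by simpa using hn
      rw [this, map_zero]
    · apply hu
      simpa using hn
  let a := (δ ^ (n - 2)) u
  let b := (δ ^ (n - 1)) u
  have hb0 : b ≠ 0 := hmin (n - 1) (by omega)
  have hδa : δ a = b := by
    change δ ((δ ^ (n - 2)) u) = (δ ^ (n - 1)) u
    have h3 : n - 1 = (n - 2) + 1 := by omega
    rw [h3, pow_succ']
    rfl
  have hδb : δ b = 0 := by
    change δ ((δ ^ (n - 1)) u) = 0
    rw [← hn]
    conv_rhs => rw [show n = (n - 1) + 1 by omega, pow_succ']
    rfl
  rw [hδ] at hδa hδb
  rw [sub_eq_zero] at hδb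
  refine ⟨a * b⁻¹ * z, ?_⟩
  have h4 : z * b⁻¹ = b⁻¹ * z := by
    have : Commute z b := hδb
    exact (this.inv_right₀).eq
  calc z * (a * b⁻¹ * z) - a * b⁻¹ * z * z = (z * a - a * z) * b⁻¹ * z + a * (z * b⁻¹ - b⁻¹ * z) * z := by
        noncomm_ring
    _ = z := by rw [hδa, h4, sub_self, mul_zero, zero_mul, add_zero, mul_inv_cancel₀ hb0, one_mul]

/-- the commutation rule `z x = (x+1) z` makes `x ^ p - x` central. -/
theorem as_central [Algebra.IsCentral F D] {p : ℕ} (hp : p.Prime) [CharP F p] (hdim : finrank F D = p ^ 2) {z x : D}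
    (h : z * x - x * z = z) (hz : z ≠ 0) : x ^ p - x ∈ Set.range (algebraMap F D) ∧ x ∉ Set.range (algebraMap F D) := by
  haveI : Fact p.Prime := ⟨hp⟩
  haveI : CharP D p := charP_of_injective_algebraMap (algebraMap F D).injective p
  have hx : x ∉ Set.range (algebraMap F D) := by
    intro hx
    rw [mem_center_iff'] at hx
    rw [hx z, sub_self] at h
    exact hz h.symm
  refine ⟨?_, hx⟩
  by_contra hc
  have h1 : z * x = (x + 1) * z := by rw [add_mul, one_mul, ← sub_eq_iff_eq_add'.1 h]
  have h2 : ∀ n, z * x ^ n = (x + 1) ^ n * z := by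
    intro n
    induction n with
    | zero => simp
    | succ n ih => rw [pow_succ, ← mul_assoc, ih, mul_assoc, h1, ← mul_assoc, ← pow_succ]
  have h3 : (x ^ p - x) * z = z * (x ^ p - x) := by
    rw [mul_sub, h2, h1, add_pow_char_of_commute p (Commute.one_right x), one_pow]
    noncomm_ring
  have h4 : (x ^ p - x) * x = x * (x ^ p - x) := by
    rw [sub_mul, mul_sub, ← pow_succ, ← pow_succ']
  have h5 := comm_trans hp hdim hc h4 h3
  rw [h5, sub_self] at h
  exact hz h.symm

/-- an Artin-Schreier element gives a cyclic maximal subfield. -/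
theorem cycMax_of_as {F D : Type u} [Field F] [DivisionRing D] [Algebra F D] [FiniteDimensional F D] {p : ℕ}
    (hp : p.Prime) [CharP F p] {x : D} (hdeg : (minpoly F x).natDegree = p)
    (hx : x ^ p - x ∈ Set.range (algebraMap F D)) : CycMax p F D := by
  haveI : Fact p.Prime := ⟨hp⟩
  obtain ⟨c, hc⟩ := hx
  haveI : CharP (Ad F x) p := charP_of_injective_algebraMap (algebraMap F (Ad F x)).injective p
  -- the minimal polynomial
  have hmin : minpoly F x = X ^ p - X - C c := by
    have h1 : (X ^ p - X - C c : F[X]) = X ^ p - (X + C c) := by ring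
    have hpm : (X ^ p - X - C c : F[X]).Monic := by
      rw [h1]
      apply monic_X_pow_sub
      rw [degree_X_add_C]
      exact_mod_cast hp.one_lt
    have hd : (X ^ p - X - C c : F[X]).natDegree ≤ p := by
      rw [h1]
      refine (natDegree_sub_le _ _).trans ?_
      rw [natDegree_X_add_C, natDegree_X_pow]
      exact max_le le_rfl hp.one_lt.le
    have h0 : aeval x (X ^ p - X - C c : F[X]) = 0 := by
      simp [hc]
    exact (eq_of_monic_of_dvd_of_natDegree_le (minpoly.monic (Algebra.IsIntegral.isIntegral _)) hpm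
      (minpoly.dvd F x h0) (by rw [hdeg]; exact hd)).symm
  have hroot : (AdjoinRoot.root (minpoly F x)) ^ p - AdjoinRoot.root (minpoly F x) = algebraMap F (Ad F x) c := by
    have h1 : aeval (AdjoinRoot.root (minpoly F x)) (minpoly F x) = 0 := by
      rw [AdjoinRoot.aeval_eq, AdjoinRoot.mk_self]
    have h2 : aeval (AdjoinRoot.root (minpoly F x)) (X ^ p - X - C c : F[X]) = 0 := by
      rw [← hmin]; exact h1
    rw [map_sub, map_sub, map_pow, aeval_X, aeval_C, sub_eq_zero] at h2
    exact h2
  have hi : ∀ i : ZMod p, (ZMod.cast i : Ad F x) ^ p = ZMod.cast i := by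
    intro i
    have h1 : (ZMod.cast i : Ad F x) = ZMod.castHom (dvd_refl p) (Ad F x) i := rfl
    rw [h1, ← map_pow, ZMod.pow_card]
  have hlift : ∀ i : ZMod p, eval₂ (Algebra.ofId F (Ad F x) : F →+* Ad F x)
      (AdjoinRoot.root (minpoly F x) + ZMod.cast i) (minpoly F x) = 0 := by
    intro i
    have h2 : aeval (AdjoinRoot.root (minpoly F x) + (ZMod.cast i : Ad F x)) (X ^ p - X - C c : F[X]) = 0 := by
      rw [map_sub, map_sub, map_pow, aeval_X, aeval_C, add_pow_char, hi, ← hroot]
      ring
    have h3 : aeval (AdjoinRoot.root (minpoly F x) + (ZMod.cast i : Ad F x)) (minpoly F x) = 0 :=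
      (congrArg (aeval (AdjoinRoot.root (minpoly F x) + (ZMod.cast i : Ad F x))) hmin).trans h2
    exact h3
  let f : ZMod p → (Ad F x ≃ₐ[F] Ad F x) := fun i =>
    AlgEquiv.ofBijective (AdjoinRoot.liftAlgHom (minpoly F x) (Algebra.ofId F (Ad F x))
      (AdjoinRoot.root (minpoly F x) + ZMod.cast i) (hlift i)) (Algebra.IsAlgebraic.algHom_bijective _)
  have hf : ∀ i, f i (AdjoinRoot.root (minpoly F x)) = AdjoinRoot.root (minpoly F x) + ZMod.cast i := by
    intro i
    change AdjoinRoot.liftAlgHom (minpoly F x) (Algebra.ofId F (Ad F x))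
      (AdjoinRoot.root (minpoly F x) + ZMod.cast i) (hlift i) (AdjoinRoot.root (minpoly F x)) = _
    rw [AdjoinRoot.liftAlgHom_root]
  have hinj : Function.Injective f := by
    intro i j hij
    have h1 := hf i
    rw [hij, hf j, add_right_inj] at h1
    exact ((ZMod.castHom (dvd_refl p) (Ad F x)).injective h1).symm
  have hfr : finrank F (Ad F x) = p := by rw [finrank_ad, hdeg]
  have hcard : Nat.card (Ad F x ≃ₐ[F] Ad F x) = p := by
    apply le_antisymm
    · have := AlgEquiv.card_le (F := F) (K := Ad F x)
      rw [hfr] at this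
      rw [Nat.card_eq_fintype_card]
      exact this
    · have := Nat.card_le_card_of_injective f hinj
      rwa [Nat.card_zmod] at this
  refine ⟨Ad F x, inferInstance, inferInstance, ?_, ?_, hfr, ⟨adHom F x⟩⟩
  · apply IsGalois.of_card_aut_eq_finrank
    rw [hcard, hfr]
  · exact isCyclic_of_prime_card hcard

/-- **From `PC` to cyclicity in characteristic `p`.** -/
theorem PC.cycAll {F : Type u} [Field F] {p : ℕ} (hp : p.Prime) [CharP F p] (h : PC p F) : CycAll p F := by
  intro D _ _ _ _ hdim
  obtain ⟨τ, hτ, htr, hτ1⟩ := exists_tau F D hp hdim (central_deg hp hdim)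
  obtain ⟨z, hz, hzτ⟩ := h D hdim (fun x => by
    rcases central_deg hp hdim x with h | h
    · rw [h]; exact hp.one_lt.le
    · exact h.le) τ hτ htr
  have hder : derivative (minpoly F z) = 0 := by
    by_contra hc
    apply hτ
    apply tau_zero hp hdim hz hc τ htr
    intro j hj
    rcases Nat.eq_zero_or_pos j with h0 | h0
    · rw [h0, pow_zero, hτ1]
    · exact hzτ j h0 hj
  have hzp := pow_mem_of_deriv hp hdim hz hder
  obtain ⟨x, hx⟩ := exists_bracket hp hz hzp
  have hz0 : z ≠ 0 := by
    rintro rfl
    exact hz ⟨0, map_zero _⟩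
  obtain ⟨h1, h2⟩ := as_central hp hdim hx hz0
  exact cycMax_of_as hp (deg_p hp hdim h2) h1

end basic

end Run7.h339
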