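import Mathlib
import Pool.Agent.Helper18.Br.TensorCSA
import Pool.Agent.Run7.h339.Cyc

/-! Scalar extensions of division algebras. -/

set_option autoImplicit false
set_option linter.all false

namespace Run7.h339

open Module TensorProduct

section

variable {F E D : Type*} [Field F] [Field E] [Algebra F E] [DivisionRing D] [Algebra F D]

theorem simple_tens [Algebra.IsCentral F D] : IsSimpleRing (E ⊗[F] D) := by
  have h : IsSimpleRing (D ⊗[F] E) := Pool.Agent.Helper18.Br.isSimple_tensor
  exact IsSimpleRing.of_ringEquiv (Algebra.TensorProduct.comm F D E).toRingEquiv h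

/-- left ideals of an algebra containing `D` have dimension divisible by that of `D`. -/
theorem finrank_dvd_of_subring {R : Type*} [Ring R] [Algebra F R] [FiniteDimensional F D] (ι : D →ₐ[F] R)
    (S : Type*) [AddCommGroup S] [Module R S] [Module F S] [IsScalarTower F R S] :
    finrank F D ∣ finrank F S := by
  letI : Module D S := Module.compHom S ι.toRingHom
  have hsm : ∀ (d : D) (x : S), d • x = ι d • x := fun _ _ => rfl
  haveI : IsScalarTower F D S := ⟨fun c d x => by
    rw [hsm, hsm, map_smul, smul_assoc]⟩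
  exact ⟨_, (Module.finrank_mul_finrank F D S).symm⟩

variable [Algebra.IsCentral F D] [FiniteDimensional F D] [FiniteDimensional F E]

theorem tens_struct : ∃ (n : ℕ) (S : Submodule (E ⊗[F] D) (E ⊗[F] D)), n ≠ 0 ∧
    IsSimpleModule (E ⊗[F] D) S ∧ Nonempty ((E ⊗[F] D) ≃ₗ[E ⊗[F] D] (Fin n → S)) ∧
    n * finrank F S = finrank F E * finrank F D ∧ finrank F D ∣ finrank F S := by
  haveI := simple_tens (F := F) (E := E) (D := D)
  haveI : Module.Finite F (E ⊗[F] D) := inferInstance
  haveI : IsArtinianRing (E ⊗[F] D) := IsArtinianRing.of_finite F (E ⊗[F] D)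
  obtain ⟨n, hn, S, hS, ⟨e⟩⟩ := (IsSimpleRing.isIsotypic (E ⊗[F] D) (E ⊗[F] D)).linearEquiv_fun
  refine ⟨n, S, hn.out, hS, ⟨e⟩, ?_, finrank_dvd_of_subring (F := F) (D := D)
    (R := E ⊗[F] D) Algebra.TensorProduct.includeRight S⟩
  have h1 := LinearEquiv.finrank_eq (e.restrictScalars F)
  rw [Module.finrank_tensorProduct, Module.finrank_pi_fintype] at h1
  rw [h1]
  simp

/-- **scalar extension of coprime degree keeps division algebras.** -/
theorem tens_division (h : Nat.Coprime (finrank F E) (finrank F D)) (x : E ⊗[F] D) (hx : x ≠ 0) :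
    IsUnit x := by
  obtain ⟨n, S, hn, hS, ⟨e⟩, h1, h2⟩ := tens_struct (F := F) (E := E) (D := D)
  haveI : Module.Finite F (E ⊗[F] D) := inferInstance
  -- dimension over `E`
  have hE : n * finrank E S = finrank F D := by
    have h3 := LinearEquiv.finrank_eq (e.restrictScalars E)
    rw [Module.finrank_baseChange, Module.finrank_pi_fintype] at h3
    rw [h3]
    simp
  have hFS : finrank F S = finrank F E * finrank E S := (Module.finrank_mul_finrank F E S).symm
  have h4 : finrank F D ∣ finrank E S := by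
    rw [hFS] at h2
    exact h.symm.dvd_of_dvd_mul_left h2
  have hpos : 0 < finrank F D := Module.finrank_pos
  have hSpos : 0 < finrank E S := by
    rcases Nat.eq_zero_or_pos (finrank E S) with h0 | h0
    · rw [h0, mul_zero] at hE; omega
    · exact h0
  have h5 : finrank F D ≤ finrank E S := Nat.le_of_dvd hSpos h4
  have hn1 : n = 1 := by
    rcases Nat.lt_or_ge n 2 with h6 | h6
    · omega
    · exfalso
      have : 2 * finrank E S ≤ n * finrank E S := Nat.mul_le_mul_right _ h6
      omega
  subst hn1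
  have e' : (E ⊗[F] D) ≃ₗ[E ⊗[F] D] S := e.trans (LinearEquiv.funUnique (Fin 1) _ _)
  haveI : IsSimpleModule (E ⊗[F] D) (E ⊗[F] D) := IsSimpleModule.congr e'
  exact (isSimpleModule_self_iff_isUnit.1 this).2 x hx

/-- **splitting fields of prime degree embed.** -/
theorem embed_of_not_division {p : ℕ} (hp : p.Prime) (hE : finrank F E = p) (hD : finrank F D = p ^ 2)
    (hx : ∃ x : E ⊗[F] D, x ≠ 0 ∧ ¬ IsUnit x) : Nonempty (E →ₐ[F] D) := by
  obtain ⟨n, S, hn, hS, ⟨e⟩, h1, h2⟩ := tens_struct (F := F) (E := E) (D := D)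
  haveI : Module.Finite F (E ⊗[F] D) := inferInstance
  obtain ⟨s, hs⟩ := h2
  have h3 : n * s = p := by
    rw [hs, hE, hD] at h1
    have : p ^ 2 * (n * s) = p ^ 2 * p := by
      rw [mul_comm p (p ^ 2)] at h1
      rw [← h1]; ring
    exact Nat.eq_of_mul_eq_mul_left (pow_pos hp.pos 2) this
  have hn1 : n ≠ 1 := by
    rintro rfl
    obtain ⟨x, hx0, hxu⟩ := hx
    have e' : (E ⊗[F] D) ≃ₗ[E ⊗[F] D] S := e.trans (LinearEquiv.funUnique (Fin 1) _ _)
    haveI : IsSimpleModule (E ⊗[F] D) (E ⊗[F] D) := IsSimpleModule.congr e'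
    exact hxu ((isSimpleModule_self_iff_isUnit.1 this).2 x hx0)
  have hnp : n = p := ((Nat.dvd_prime hp).1 ⟨s, h3.symm⟩).resolve_left hn1
  have hs1 : s = 1 := by
    rw [hnp] at h3
    exact Nat.eq_of_mul_eq_mul_left hp.pos (by rw [h3, mul_one])
  rw [hs1, mul_one] at hs
  -- a vector
  haveI : Nontrivial S := IsSimpleModule.nontrivial (E ⊗[F] D) S
  obtain ⟨v, hv⟩ := exists_ne (0 : S)
  let ι : D →ₐ[F] E ⊗[F] D := Algebra.TensorProduct.includeRight
  let f : D →ₗ[F] S :=
    { toFun := fun d => ι d • v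
      map_add' := by intro a b; rw [map_add, add_smul]
      map_smul' := by intro c a; rw [map_smul, smul_assoc]; rfl }
  have hf : ∀ d, f d = ι d • v := fun _ => rfl
  have hinj : Function.Injective f := by
    rw [← LinearMap.ker_eq_bot, LinearMap.ker_eq_bot']
    intro d hd
    by_contra hd0
    apply hv
    have h4 : ι d⁻¹ • (ι d • v) = 0 := by rw [← hf d, hd, smul_zero]
    rwa [← mul_smul, ← map_mul, inv_mul_cancel₀ hd0, map_one, one_smul] at h4
  haveI : Module.Finite F S := by
    haveI : IsNoetherian F (E ⊗[F] D) := inferInstance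
    exact Module.Finite.of_injective ((S.subtype).restrictScalars F) Subtype.val_injective
  have hsurj : Function.Surjective f :=
    (LinearMap.injective_iff_surjective_of_finrank_eq_finrank hs.symm).1 hinj
  let j : E →ₐ[F] E ⊗[F] D := Algebra.TensorProduct.includeLeft
  have hcomm : ∀ a d, j a * ι d = ι d * j a := by
    intro a d
    change (a ⊗ₜ[F] (1 : D)) * ((1 : E) ⊗ₜ[F] d) = ((1 : E) ⊗ₜ[F] d) * (a ⊗ₜ[F] (1 : D))
    rw [Algebra.TensorProduct.tmul_mul_tmul, Algebra.TensorProduct.tmul_mul_tmul]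
    simp
  choose ψ hψ using fun a : E => hsurj (j a • v)
  have key : ∀ a, ι (ψ a) • v = j a • v := hψ
  have huniq : ∀ d d', ι d • v = ι d' • v → d = d' := fun d d' h => hinj h
  refine ⟨AlgHom.mk ⟨⟨⟨ψ, ?_⟩, ?_⟩, ?_, ?_⟩ ?_⟩
  · apply huniq
    rw [key, map_one, map_one]
  · intro a b
    apply huniq
    rw [key, map_mul, map_mul, mul_smul, mul_smul, key b, ← mul_smul (ι (ψ a)) (j b), ← hcomm, mul_smul, key a,
      ← mul_smul, ← mul_smul, ← map_mul, ← map_mul, mul_comm]
  · change ψ 0 = 0
    apply huniq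
    rw [key, map_zero, map_zero]
  · intro a b
    change ψ (a + b) = ψ a + ψ b
    apply huniq
    rw [key, map_add, map_add, add_smul, add_smul, key, key]
  · intro c
    change ψ (algebraMap F E c) = algebraMap F D c
    apply huniq
    rw [key, AlgHom.commutes, AlgHom.commutes]

end

end Run7.h339
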