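import Mathlib
import Pool.Agent.Run7.h339.Conic
import Pool.Agent.Run7.h339.Tens
import Pool.Agent.Run7.h339.Tau
import Pool.Agent.Run7.h339.Cyc

/-! Existence of conics, and the regular representation over a maximal subfield. -/

set_option autoImplicit false
set_option linter.all false

namespace Run7.h339

open Module Finset Polynomial TensorProduct

section count

variable {F K D : Type*} [Field F] [Field K] [Algebra F K] [DivisionRing D] [Algebra F D]

/-- the index set of the strictly lower triangular entries. -/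
abbrev Low : Type := {x : Fin 5 × Fin 5 // x.2 < x.1}

/-- the linear conditions defining `IsLam`. -/
noncomputable def condL (K : Type*) [Field K] : Matrix (Fin 5) (Fin 5) K →ₗ[K] (Low → K) × (Fin 3 → K) where
  toFun M := (fun x => M x.1.1 x.1.2, fun i => M (Fin.natAdd 2 i) (Fin.natAdd 2 i) - M 0 0 -
    (((i : ℕ) + 2 : ℕ) : K) * (M 1 1 - M 0 0))
  map_add' M N := by
    refine Prod.ext ?_ ?_
    · funext x; rfl
    · funext i
      simp only [Matrix.add_apply, Prod.mk_add_mk, Pi.add_apply]
      ring
  map_smul' k M := by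
    refine Prod.ext ?_ ?_
    · funext x; rfl
    · funext i
      simp only [Matrix.smul_apply, Prod.smul_mk, Pi.smul_apply, smul_eq_mul, RingHom.id_apply]
      ring

theorem isLam_of_condL {M : Matrix (Fin 5) (Fin 5) K} (h : condL K M = 0) : IsLam M := by
  have h1 : (fun x : Low => M x.1.1 x.1.2) = 0 := congrArg Prod.fst h
  have h2 : (fun i : Fin 3 => M (Fin.natAdd 2 i) (Fin.natAdd 2 i) - M 0 0 -
    (((i : ℕ) + 2 : ℕ) : K) * (M 1 1 - M 0 0)) = 0 := congrArg Prod.snd h
  refine ⟨fun i j hij => congrFun h1 ⟨(i, j), hij⟩, fun i => ?_⟩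
  fin_cases i
  · simp
  · simp
  · have := congrFun h2 0
    simp only [Pi.zero_apply] at this
    have e : (Fin.natAdd 2 (0 : Fin 3)) = (2 : Fin 5) := rfl
    rw [e, sub_sub, sub_eq_zero] at this
    change M 2 2 = M 0 0 + (((2 : Fin 5) : ℕ) : K) * (M 1 1 - M 0 0)
    rw [this]; simp
  · have := congrFun h2 1
    simp only [Pi.zero_apply] at this
    have e : (Fin.natAdd 2 (1 : Fin 3)) = (3 : Fin 5) := rfl
    rw [e, sub_sub, sub_eq_zero] at this
    change M 3 3 = M 0 0 + (((3 : Fin 5) : ℕ) : K) * (M 1 1 - M 0 0)
    rw [this]; congr 2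
  · have := congrFun h2 2
    simp only [Pi.zero_apply] at this
    have e : (Fin.natAdd 2 (2 : Fin 3)) = (4 : Fin 5) := rfl
    rw [e, sub_sub, sub_eq_zero] at this
    change M 4 4 = M 0 0 + (((4 : Fin 5) : ℕ) : K) * (M 1 1 - M 0 0)
    rw [this]; congr 2

/-- **existence of a good conic.** -/
theorem exists_conic [FiniteDimensional F D] [FiniteDimensional F K] (hD : finrank F D = 25) (hK : finrank F K = 5)
    (R : D →+* Matrix (Fin 5) (Fin 5) K)
    (hR : ∀ c : F, R (algebraMap F D c) = algebraMap K (Matrix (Fin 5) (Fin 5) K) (algebraMap F K c)) (θ : K) :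
    ∃ W : D[X], W.natDegree ≤ 2 ∧ IsLam (evK R θ W) ∧ ∃ i, W.coeff i ∉ Set.range (algebraMap F D) := by
  have hRs : ∀ (c : F) (d : D), R (c • d) = (algebraMap F K c) • R d := by
    intro c d
    rw [Algebra.smul_def, map_mul, hR, Algebra.smul_def]
  let A : (Fin 3 → D) →ₗ[F] Matrix (Fin 5) (Fin 5) K :=
    { toFun := fun a => ∑ i : Fin 3, (θ ^ (i : ℕ)) • R (a i)
      map_add' := fun a b => by
        rw [← sum_add_distrib]
        refine sum_congr rfl fun i _ => ?_
        rw [Pi.add_apply, map_add, smul_add]
      map_smul' := fun c a => by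
        rw [RingHom.id_apply, smul_sum]
        refine sum_congr rfl fun i _ => ?_
        rw [Pi.smul_apply, hRs, smul_comm, algebraMap_smul] }
  let Ψ : (Fin 3 → D) →ₗ[F] (Low → K) × (Fin 3 → K) := (condL K).restrictScalars F ∘ₗ A
  have hcard : Fintype.card Low = 10 := by decide
  have hcod : finrank F ((Low → K) × (Fin 3 → K)) = 65 := by
    rw [finrank_prod, finrank_pi_fintype, finrank_pi_fintype]
    simp only [hK, sum_const, card_univ, smul_eq_mul]
    rw [hcard, Fintype.card_fin]
  have hdom : finrank F (Fin 3 → D) = 75 := by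
    rw [finrank_pi_fintype]
    simp only [hD, sum_const, card_univ, smul_eq_mul]
    rw [Fintype.card_fin]
  have hker : 10 ≤ finrank F (LinearMap.ker Ψ) := by
    have h1 := LinearMap.finrank_range_add_finrank_ker Ψ
    have h2 := Submodule.finrank_le (LinearMap.range Ψ)
    rw [hdom] at h1
    rw [hcod] at h2
    omega
  -- the constant conics
  let S : (Fin 3 → F) →ₗ[F] (Fin 3 → D) := LinearMap.pi fun i => (Algebra.linearMap F D) ∘ₗ LinearMap.proj i
  have hS : finrank F (LinearMap.range S) ≤ 3 := by
    have := LinearMap.finrank_range_le S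
    rwa [finrank_fin_fun] at this
  obtain ⟨a, ha, haS⟩ : ∃ a ∈ LinearMap.ker Ψ, a ∉ LinearMap.range S := by
    by_contra hno
    push Not at hno
    have h1 : LinearMap.ker Ψ ≤ LinearMap.range S := hno
    have h2 := Submodule.finrank_mono h1
    omega
  have hi : ∃ i, a i ∉ Set.range (algebraMap F D) := by
    by_contra hno
    push Not at hno
    apply haS
    choose c hc using hno
    exact ⟨c, funext fun i => hc i⟩
  obtain ⟨i, hi⟩ := hi
  refine ⟨∑ i : Fin 3, C (a i) * X ^ (i : ℕ), ?_, ?_, i, ?_⟩
  · apply natDegree_sum_le_of_forall_le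
    intro j _
    exact (natDegree_C_mul_X_pow_le _ _).trans (by omega)
  · have h1 : evK R θ (∑ i : Fin 3, C (a i) * X ^ (i : ℕ)) = A a := by
      change _ = ∑ i : Fin 3, (θ ^ (i : ℕ)) • R (a i)
      rw [map_sum]
      refine sum_congr rfl fun i _ => ?_
      rw [map_mul, map_pow, evK_C, evK_X, ← map_pow, ← Algebra.commutes, Algebra.smul_def]
    rw [h1]
    exact isLam_of_condL (LinearMap.mem_ker.1 ha)
  · rw [finset_sum_coeff]
    have h1 : ∑ j : Fin 3, (C (a j) * X ^ (j : ℕ) : D[X]).coeff i = a i := by
      rw [sum_eq_single i]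
      · rw [coeff_C_mul_X_pow, if_pos rfl]
      · intro j _ hj
        rw [coeff_C_mul_X_pow, if_neg]
        intro h
        exact hj (Fin.ext h.symm)
      · intro h; exact absurd (mem_univ _) h
    rw [h1]
    exact hi

end count

section rep

variable {F D : Type*} [Field F] [DivisionRing D] [Algebra F D] [FiniteDimensional F D]

/-- trace functionals form a one-dimensional space. -/
theorem trace_unique [Algebra.IsCentral F D] (τ : D →ₗ[F] F) (hτ : τ ≠ 0) (htr : ∀ x y, τ (x * y) = τ (y * x))
    (l : D →ₗ[F] F) (hl : ∀ x y, l (x * y) = l (y * x)) : ∃ c : F, ∀ x, l x = c * τ x := by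
  let Ψ : D →ₗ[F] (D →ₗ[F] F) := LinearMap.mk₂ F (fun c β => τ (c * β)) (by
      intro a b c; rw [add_mul, map_add]) (by
      intro r a b; rw [smul_mul_assoc, map_smul]) (by
      intro a b c; rw [mul_add, map_add]) (by
      intro r a b; rw [mul_smul_comm, map_smul])
  have hΨ : ∀ c β, Ψ c β = τ (c * β) := fun c β => rfl
  have hinj : Function.Injective Ψ := by
    rw [← LinearMap.ker_eq_bot, LinearMap.ker_eq_bot']
    intro c hc
    by_contra hc0
    apply hτ
    ext y
    have := congrArg (fun f => f (c⁻¹ * y)) hc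
    simp only [hΨ, LinearMap.zero_apply] at this
    rwa [← mul_assoc, mul_inv_cancel₀ hc0, one_mul] at this
  have hsurj : Function.Surjective Ψ :=
    (LinearMap.injective_iff_surjective_of_finrank_eq_finrank (by
      rw [Module.finrank_linearMap, Module.finrank_self, mul_one])).1 hinj
  obtain ⟨u, hu⟩ := hsurj l
  have hul : ∀ x, l x = τ (u * x) := fun x => by rw [← hu]; rfl
  have hcen : ∀ x, x * u = u * x := by
    intro x
    apply hinj
    ext y
    rw [hΨ, hΨ]
    have h1 := hl x y
    rw [hul, hul] at h1
    rw [mul_assoc x u y, htr x (u * y), mul_assoc u y x, ← h1, mul_assoc]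
  obtain ⟨c, hc⟩ := (mem_center_iff' (F := F) u).2 hcen
  refine ⟨c, fun x => ?_⟩
  rw [hul, ← hc, ← Algebra.smul_def, LinearMap.map_smul, smul_eq_mul]

/-- the regular representation of `D` over a subfield acting on the right. -/
theorem exists_rep [Algebra.IsCentral F D] {K : Type*} [Field K] [Algebra F K] [FiniteDimensional F K]
    (φ : K →ₐ[F] D) {n : ℕ} (hn : 0 < n) (hK : finrank F K = n) (hD : finrank F D = n * n) :
    ∃ R : D →+* Matrix (Fin n) (Fin n) K,
      (∀ c : F, R (algebraMap F D c) = algebraMap K (Matrix (Fin n) (Fin n) K) (algebraMap F K c)) ∧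
      ∃ d, (R d).trace ≠ 0 := by
  classical
  -- the right module structure
  let ψ : K →+* Dᵐᵒᵖ := (φ : K →+* D).toOpposite (fun a b => by
    change φ a * φ b = φ b * φ a
    rw [← map_mul, mul_comm, map_mul])
  letI modR : Module K D := Module.compHom D ψ
  have hsm : ∀ (k : K) (y : D), k • y = y * φ k := fun k y => rfl
  haveI : IsScalarTower F K D := ⟨fun c k y => by
    rw [hsm, hsm, map_smul, mul_smul_comm]⟩
  haveI : Module.Finite K D := Module.Finite.of_restrictScalars_finite F K D
  have hKD : finrank K D = n := by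
    have := Module.finrank_mul_finrank F K D
    rw [hK, hD] at this
    exact Nat.eq_of_mul_eq_mul_left hn this
  let b : Basis (Fin n) K D := Module.finBasisOfFinrankEq K D hKD
  let L : D →+* Module.End K D :=
    { toFun := fun d =>
        { toFun := fun y => d * y
          map_add' := fun x y => mul_add _ _ _
          map_smul' := fun k y => by
            rw [hsm, RingHom.id_apply, hsm, mul_assoc] }
      map_one' := by
        apply LinearMap.ext; intro y
        exact one_mul y
      map_mul' := fun a c => by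
        apply LinearMap.ext; intro y
        exact mul_assoc a c y
      map_zero' := by
        apply LinearMap.ext; intro y
        exact zero_mul y
      map_add' := fun a c => by
        apply LinearMap.ext; intro y
        exact add_mul a c y }
  let R : D →+* Matrix (Fin n) (Fin n) K := (LinearMap.toMatrixAlgEquiv b).toRingEquiv.toRingHom.comp L
  have hR : ∀ c : F, R (algebraMap F D c) = algebraMap K (Matrix (Fin n) (Fin n) K) (algebraMap F K c) := by
    intro c
    change LinearMap.toMatrixAlgEquiv b (L (algebraMap F D c)) = _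
    have h1 : L (algebraMap F D c) = algebraMap K (Module.End K D) (algebraMap F K c) := by
      apply LinearMap.ext
      intro y
      change algebraMap F D c * y = (algebraMap F K c) • y
      rw [hsm, AlgHom.commutes, Algebra.commutes]
    rw [h1, AlgEquiv.commutes]
  refine ⟨R, hR, ?_⟩
  by_contra hno
  push Not at hno
  -- the algebra homomorphism on the tensor product
  let RF : D →ₐ[F] Matrix (Fin n) (Fin n) K := { R with
    commutes' := fun c => by
      change R (algebraMap F D c) = _
      rw [hR, ← IsScalarTower.algebraMap_apply] }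
  let Ψ : K ⊗[F] D →ₐ[F] Matrix (Fin n) (Fin n) K :=
    Algebra.TensorProduct.lift (Algebra.algHom F K (Matrix (Fin n) (Fin n) K)) RF (fun a d =>
      Algebra.commutes a (RF d))
  haveI := simple_tens (F := F) (E := K) (D := D)
  haveI : Nonempty (Fin n) := ⟨⟨0, hn⟩⟩
  have hinj : Function.Injective Ψ := Ψ.toRingHom.injective
  have hsurj : Function.Surjective Ψ.toLinearMap := by
    apply (LinearMap.injective_iff_surjective_of_finrank_eq_finrank ?_).1 hinj
    rw [finrank_tensorProduct, hK, hD, Module.finrank_matrix, Fintype.card_fin, hK]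
    ring
  have htr : ∀ t : K ⊗[F] D, (Ψ t).trace = 0 := by
    intro t
    induction t using TensorProduct.induction_on with
    | zero => rw [map_zero, Matrix.trace_zero]
    | tmul a d =>
      rw [Algebra.TensorProduct.lift_tmul]
      change (algebraMap K (Matrix (Fin n) (Fin n) K) a * R d).trace = 0
      rw [← Algebra.smul_def, Matrix.trace_smul, hno, smul_zero]
    | add s t hs ht => rw [map_add, Matrix.trace_add, hs, ht, add_zero]
  obtain ⟨t, ht⟩ := hsurj (Matrix.single ⟨0, hn⟩ ⟨0, hn⟩ 1)
  have h1 := htr t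
  change Ψ t = _ at ht
  rw [ht, Matrix.trace_single_eq_same] at h1
  exact one_ne_zero h1

/-- comparison of the trace with a trace functional. -/
theorem trace_compare [Algebra.IsCentral F D] {K : Type*} [Field K] [Algebra F K]
    {n : ℕ} (R : D →+* Matrix (Fin n) (Fin n) K)
    (hR : ∀ c : F, R (algebraMap F D c) = algebraMap K (Matrix (Fin n) (Fin n) K) (algebraMap F K c))
    (hne : ∃ d, (R d).trace ≠ 0) (τ : D →ₗ[F] F) (hτ : τ ≠ 0) (htr : ∀ x y, τ (x * y) = τ (y * x)) :
    ∃ κ : K, κ ≠ 0 ∧ ∀ d, (R d).trace = κ * algebraMap F K (τ d) := by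
  have hRs : ∀ (c : F) (d : D), R (c • d) = (algebraMap F K c) • R d := by
    intro c d
    rw [Algebra.smul_def, map_mul, hR, Algebra.smul_def]
  obtain ⟨d1, hd1⟩ : ∃ d1, τ d1 ≠ 0 := by
    by_contra hno
    push Not at hno
    exact hτ (LinearMap.ext hno)
  have key : ∀ d, (R d).trace = (R d1).trace * algebraMap F K (τ d / τ d1) := by
    intro d
    rw [← sub_eq_zero]
    rw [← Module.forall_dual_apply_eq_zero_iff F]
    intro ε
    let l : D →ₗ[F] F :=
      { toFun := fun x => ε (R x).trace
        map_add' := fun x y => by rw [map_add, Matrix.trace_add, map_add]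
        map_smul' := fun c x => by
          rw [hRs, Matrix.trace_smul, algebraMap_smul, map_smul]; rfl }
    obtain ⟨c, hc⟩ := trace_unique τ hτ htr l (fun x y => by
      change ε (R (x * y)).trace = ε (R (y * x)).trace
      rw [map_mul, map_mul, Matrix.trace_mul_comm])
    have h1 : ε (R d).trace = c * τ d := hc d
    have h2 : ε (R d1).trace = c * τ d1 := hc d1
    rw [map_sub, h1, mul_comm (R d1).trace, ← Algebra.smul_def, map_smul, h2, smul_eq_mul]
    field_simp
    ring
  refine ⟨(R d1).trace * algebraMap F K (τ d1)⁻¹, ?_, fun d => ?_⟩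
  · obtain ⟨d, hd⟩ := hne
    rw [key] at hd
    exact mul_ne_zero (left_ne_zero_of_mul hd) ((_root_.map_ne_zero _).2 (inv_ne_zero hd1))
  · rw [key, mul_assoc, ← map_mul, div_eq_mul_inv, mul_comm (τ d)]

end rep

end Run7.h339
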