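import Mathlib
import Pool.Agent.Run7.h339.Exist
import Pool.Agent.Run7.h339.Euler

/-! Vanishing of the traces of the powers up to `p - 2`. -/

set_option autoImplicit false
set_option linter.all false

namespace Run7.h339

open Module Finset Polynomial

section keyl

variable {F D : Type*} [Field F] [DivisionRing D] [Algebra F D] [FiniteDimensional F D]

theorem mulLeftRight_trace (a b : D) : tauOf F D a b =
    LinearMap.trace F D (LinearMap.mulLeft F a ∘ₗ LinearMap.mulRight F b) := rfl

theorem tauOf_tr' (y a b : D) : tauOf F D (a * b) y = tauOf F D (b * a) y := by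
  change LinearMap.trace F D (LinearMap.mulLeft F (a * b) ∘ₗ LinearMap.mulRight F y) =
    LinearMap.trace F D (LinearMap.mulLeft F (b * a) ∘ₗ LinearMap.mulRight F y)
  have h1 : LinearMap.mulLeft F (a * b) ∘ₗ LinearMap.mulRight F y =
      (LinearMap.mulLeft F a) ∘ₗ (LinearMap.mulLeft F b ∘ₗ LinearMap.mulRight F y) := by
    ext d; simp [mul_assoc]
  have h2 : LinearMap.mulLeft F (b * a) ∘ₗ LinearMap.mulRight F y =
      (LinearMap.mulLeft F b ∘ₗ LinearMap.mulRight F y) ∘ₗ (LinearMap.mulLeft F a) := by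
    ext d; simp [mul_assoc]
  rw [h1, h2, LinearMap.trace_comp_comm']

/-- the trace of a two-sided multiplication factors. -/
theorem tauOf_factor [Algebra.IsCentral F D] (τ : D →ₗ[F] F) (hτ : τ ≠ 0) (htr : ∀ x y, τ (x * y) = τ (y * x)) :
    ∃ β : D → F, (∀ a b, tauOf F D a b = β a * τ b) ∧ ∀ a, τ a = 0 → β a = 0 := by
  have h1 : ∀ a, ∃ c : F, ∀ b, tauOf F D a b = c * τ b := fun a =>
    trace_unique τ hτ htr (tauOf F D a) (tauOf_tr F D a)
  choose β hβ using h1
  refine ⟨β, hβ, fun a ha => ?_⟩
  obtain ⟨b, hb⟩ : ∃ b, τ b ≠ 0 := by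
    by_contra hno
    push Not at hno
    exact hτ (LinearMap.ext hno)
  let l : D →ₗ[F] F :=
    { toFun := fun x => tauOf F D x b
      map_add' := fun x y => by
        change LinearMap.trace F D (LinearMap.mulLeft F (x + y) ∘ₗ LinearMap.mulRight F b) =
          LinearMap.trace F D (LinearMap.mulLeft F x ∘ₗ LinearMap.mulRight F b) +
          LinearMap.trace F D (LinearMap.mulLeft F y ∘ₗ LinearMap.mulRight F b)
        rw [← map_add]
        congr 1
        ext d
        simp [add_mul]
      map_smul' := fun c x => by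
        change LinearMap.trace F D (LinearMap.mulLeft F (c • x) ∘ₗ LinearMap.mulRight F b) =
          c • LinearMap.trace F D (LinearMap.mulLeft F x ∘ₗ LinearMap.mulRight F b)
        rw [← LinearMap.map_smul]
        congr 1
        ext d
        simp }
  obtain ⟨c, hc⟩ := trace_unique τ hτ htr l (fun x y => tauOf_tr' b x y)
  have h2 : tauOf F D a b = c * τ a := hc a
  rw [ha, mul_zero, hβ] at h2
  exact (mul_eq_zero.1 h2).resolve_right hb

/-- **Key lemma.** -/
theorem artin_schreier_of_trace [Algebra.IsCentral F D] {p : ℕ} (hp : p.Prime) (hp2 : 2 < p) [CharP F p]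
    (hdim : finrank F D = p ^ 2)
    (τ : D →ₗ[F] F) (hτ : τ ≠ 0) (htr : ∀ x y, τ (x * y) = τ (y * x)) {z : D}
    (hz : z ∉ Set.range (algebraMap F D)) (h0 : ∀ j, j + 2 ≤ p → τ (z ^ j) = 0) :
    ∃ a c : F, z ^ p = algebraMap F D a * z + algebraMap F D c := by
  classical
  by_cases hder : derivative (minpoly F z) = 0
  · obtain ⟨c, hc⟩ := pow_mem_of_deriv hp hdim hz hder
    exact ⟨0, c, by rw [map_zero, zero_mul, zero_add, hc]⟩
  have hdeg := deg_p hp hdim hz
  set g := minpoly F z with hg
  have hgm : g.Monic := minpoly.monic (Algebra.IsIntegral.isIntegral _)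
  have hsep : g.Separable := (separable_iff_derivative_ne_zero (minpoly_irred z)).2 hder
  let L := Ad F z
  let φ : L →ₐ[F] D := adHom F z
  have hφinj : Function.Injective φ := adHom_injective z
  let pb := AdjoinRoot.powerBasis (minpoly_irred (F := F) z).ne_zero
  have hgen : pb.gen = AdjoinRoot.root (minpoly F z) := AdjoinRoot.powerBasis_gen _
  have hφr : φ pb.gen = z := by rw [hgen]; exact adHom_root z
  have hpbdim : pb.dim = p := by rw [AdjoinRoot.powerBasis_dim]; exact hdeg
  have hmin : minpoly F pb.gen = g := by rw [hgen]; exact minpoly_root_ad z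
  haveI : Algebra.IsSeparable F L := by
    have h1 : IsSeparable F pb.gen := by rw [IsSeparable, hmin]; exact hsep
    have h2 : IntermediateField.adjoin F {pb.gen} = ⊤ := by
      apply IntermediateField.toSubalgebra_injective
      rw [IntermediateField.adjoin_simple_toSubalgebra_of_isAlgebraic (Algebra.IsAlgebraic.isAlgebraic _),
        pb.adjoin_gen_eq_top]
      rfl
    haveI := (IntermediateField.isSeparable_adjoin_simple_iff_isSeparable F (Ad F z)).2 h1
    rw [h2] at this
    exact Algebra.IsSeparable.of_algHom F (⊤ : IntermediateField F (Ad F z)) (IntermediateField.topEquiv.symm.toAlgHom)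
  set r := pb.gen with hr
  -- the operator `s`
  let A : Module.End F D := LinearMap.mulLeft F z
  let B : Module.End F D := LinearMap.mulRight F z
  have hAB : Commute A B := by
    apply LinearMap.ext
    intro x
    change z * (x * z) = (z * x) * z
    rw [mul_assoc]
  have hApow : ∀ (n : ℕ) (x : D), (A ^ n) x = z ^ n * x := by
    intro n x
    rw [LinearMap.pow_mulLeft]; rfl
  have hBpow : ∀ (n : ℕ) (x : D), (B ^ n) x = x * z ^ n := by
    intro n x
    rw [LinearMap.pow_mulRight]; rfl
  let s : Module.End F D := ∑ k ∈ range (p + 1), g.coeff k • ∑ i ∈ range k, A ^ i * B ^ (k - 1 - i)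
  have hs1 : ∀ x, s x * z = z * s x := by
    intro x
    have h1 : (A - B) * s = aeval A g - aeval B g := by
      change (A - B) * ∑ k ∈ range (p + 1), g.coeff k • ∑ i ∈ range k, A ^ i * B ^ (k - 1 - i) = _
      rw [mul_sum, aeval_eq_sum_range, aeval_eq_sum_range, hdeg, ← sum_sub_distrib]
      refine sum_congr rfl fun k _ => ?_
      rw [mul_smul_comm, hAB.mul_geom_sum₂, smul_sub]
    have h2 : ((A - B) * s) x = 0 := by
      have e0 : ∑ k ∈ range (g.natDegree + 1), g.coeff k • z ^ k = 0 := by
        rw [← aeval_eq_sum_range]; exact minpoly.aeval F z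
      have e1 : (aeval A g) x = 0 := by
        rw [aeval_eq_sum_range, LinearMap.sum_apply]
        simp only [LinearMap.smul_apply, hApow]
        rw [← zero_mul x, ← e0, sum_mul]
        refine sum_congr rfl fun k _ => ?_
        rw [smul_mul_assoc]
      have e2 : (aeval B g) x = 0 := by
        rw [aeval_eq_sum_range, LinearMap.sum_apply]
        simp only [LinearMap.smul_apply, hBpow]
        rw [← mul_zero x, ← e0, mul_sum]
        refine sum_congr rfl fun k _ => ?_
        rw [mul_smul_comm]
      rw [h1, LinearMap.sub_apply, e1, e2, sub_zero]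
    have h3 : z * s x - s x * z = 0 := h2
    exact (sub_eq_zero.1 h3).symm
  have hs2 : ∀ x, ∃ y : L, φ y = s x := by
    intro x
    have h1 := mem_adjoin_of_comm hp hdim hz (hs1 x).symm
    rw [Algebra.adjoin_singleton_eq_range_aeval] at h1
    obtain ⟨q, hq⟩ := h1
    refine ⟨aeval r q, ?_⟩
    rw [← aeval_algHom_apply, hφr]
    exact hq
  set γ : L := aeval r (derivative g) with hγ
  have hγ0 : γ ≠ 0 := by
    have := (Algebra.IsSeparable.isSeparable F r).aeval_derivative_ne_zero (minpoly.aeval F r)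
    rwa [hmin] at this
  have hder2 : derivative g = ∑ k ∈ range (p + 1), C (g.coeff k * k) * X ^ (k - 1) := by
    conv_lhs => rw [g.as_sum_range_C_mul_X_pow, hdeg]
    rw [derivative_sum]
    refine sum_congr rfl fun k _ => ?_
    rw [derivative_C_mul_X_pow]
  have hs3 : ∀ y : L, s (φ y) = φ (γ * y) := by
    intro y
    have hcomm : ∀ n : ℕ, φ y * z ^ n = z ^ n * φ y := by
      intro n
      have e : z ^ n = φ (r ^ n) := by rw [map_pow, hφr]
      rw [e, ← map_mul, mul_comm, map_mul]
    change (∑ k ∈ range (p + 1), g.coeff k • ∑ i ∈ range k, A ^ i * B ^ (k - 1 - i)) (φ y) = _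
    rw [hγ, hder2, map_sum, sum_mul, map_sum, LinearMap.sum_apply]
    refine sum_congr rfl fun k _ => ?_
    rw [LinearMap.smul_apply, LinearMap.sum_apply]
    have h1 : ∀ i ∈ range k, (A ^ i * B ^ (k - 1 - i)) (φ y) = z ^ (k - 1) * φ y := by
      intro i hi
      have hi' := mem_range.1 hi
      change (A ^ i) ((B ^ (k - 1 - i)) (φ y)) = _
      rw [hBpow, hApow, hcomm, ← mul_assoc, ← pow_add]
      congr 2
      omega
    rw [sum_congr rfl h1, sum_const, card_range, map_mul, map_mul, map_pow, aeval_C, aeval_X, map_mul, map_pow,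
      AlgHom.commutes, hφr, map_mul, map_natCast, nsmul_eq_mul, Algebra.smul_def]
    rw [mul_assoc, mul_assoc]
  obtain ⟨β, hβ, hβ0⟩ := tauOf_factor τ hτ htr
  -- the trace of the operator `c s`
  have htrace1 : ∀ c : L, LinearMap.trace F D (LinearMap.mulLeft F (φ c) ∘ₗ s) = Algebra.trace F L (c * γ) := by
    intro c
    obtain ⟨π, hπ⟩ := LinearMap.exists_leftInverse_of_injective φ.toLinearMap (LinearMap.ker_eq_bot.2 hφinj)
    have hπ' : ∀ y : L, π (φ y) = y := fun y => congrArg (fun f => f y) hπ
    let S : D →ₗ[F] L := π ∘ₗ (LinearMap.mulLeft F (φ c) ∘ₗ s)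
    have h1 : φ.toLinearMap ∘ₗ S = LinearMap.mulLeft F (φ c) ∘ₗ s := by
      apply LinearMap.ext
      intro x
      change φ (π (φ c * s x)) = φ c * s x
      obtain ⟨y, hy⟩ := hs2 x
      rw [← hy, ← map_mul, hπ']
    have h2 : S ∘ₗ φ.toLinearMap = LinearMap.mulLeft F (c * γ) := by
      apply LinearMap.ext
      intro y
      change π (φ c * s (φ y)) = c * γ * y
      rw [hs3, ← map_mul, hπ', mul_assoc]
    rw [← h1, LinearMap.trace_comp_comm', h2]
    rfl
  have htrace2 : ∀ c : D, LinearMap.trace F D (LinearMap.mulLeft F c ∘ₗ s) = β c * τ (z ^ (p - 1)) := by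
    intro c
    have h1 : LinearMap.mulLeft F c ∘ₗ s = ∑ k ∈ range (p + 1), g.coeff k • ∑ i ∈ range k,
        (LinearMap.mulLeft F (c * z ^ i) ∘ₗ LinearMap.mulRight F (z ^ (k - 1 - i))) := by
      apply LinearMap.ext
      intro x
      change c * (∑ k ∈ range (p + 1), g.coeff k • ∑ i ∈ range k, A ^ i * B ^ (k - 1 - i)) x = _
      rw [LinearMap.sum_apply, LinearMap.sum_apply, mul_sum]
      refine sum_congr rfl fun k _ => ?_
      rw [LinearMap.smul_apply, LinearMap.smul_apply, LinearMap.sum_apply, LinearMap.sum_apply, mul_smul_comm, mul_sum]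
      congr 1
      refine sum_congr rfl fun i _ => ?_
      change c * ((A ^ i) ((B ^ (k - 1 - i)) x)) = c * z ^ i * (x * z ^ (k - 1 - i))
      rw [hBpow, hApow, mul_assoc]
    rw [h1, map_sum]
    simp only [map_smul, map_sum]
    have h2 : ∀ k ∈ range (p + 1), k ≠ p → g.coeff k • ∑ i ∈ range k, LinearMap.trace F D
        (LinearMap.mulLeft F (c * z ^ i) ∘ₗ LinearMap.mulRight F (z ^ (k - 1 - i))) = 0 := by
      intro k hk hkp
      have hk' := mem_range.1 hk
      rw [sum_eq_zero, smul_zero]
      intro i hi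
      have hi' := mem_range.1 hi
      rw [← mulLeftRight_trace, hβ, h0 (k - 1 - i) (by omega), mul_zero]
    rw [sum_eq_single_of_mem p (mem_range.2 (Nat.lt_succ_self p)) h2]
    have h3 : g.coeff p = 1 := by rw [← hdeg]; exact hgm.coeff_natDegree
    rw [h3, one_smul, sum_eq_single_of_mem 0 (mem_range.2 hp.pos)]
    · rw [← mulLeftRight_trace, hβ, pow_zero, mul_one]
      congr 2
    · intro i hi hi0
      have hi' := mem_range.1 hi
      rw [← mulLeftRight_trace, hβ, h0 (p - 1 - i) (by omega), mul_zero]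
  have hTr : ∀ m, m + 2 ≤ p → Algebra.trace F L (r ^ m * γ) = 0 := by
    intro m hm
    rw [← htrace1, htrace2, map_pow, hφr, hβ0 _ (h0 m hm), zero_mul]
  -- comparison with the dual basis
  have hp1 : p - 1 < pb.dim := by rw [hpbdim]; have := hp.pos; omega
  obtain ⟨κ, hκ⟩ : ∃ κ : F, κ = Algebra.trace F L (r ^ (p - 1) * γ) := ⟨_, rfl⟩
  have hdual := Module.Basis.traceDual_powerBasis_eq pb ⟨p - 1, hp1⟩
  have hcoef : (minpolyDiv F pb.gen).coeff (p - 1) = 1 := by
    rw [coeff_minpolyDiv_eq, hmin, hdeg]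
    have h1 : p - (p - 1) = 1 := by have := hp.pos; omega
    have h2 : p - 1 + 1 + 0 = p := by have := hp.pos; omega
    rw [h1, sum_range_one, pow_zero, mul_one, h2, ← hdeg, hgm.coeff_natDegree, map_one]
  have hε : pb.basis.traceDual ⟨p - 1, hp1⟩ = γ⁻¹ := by
    rw [hdual]
    change (minpolyDiv F pb.gen).coeff (p - 1) / aeval pb.gen (derivative (minpoly F pb.gen)) = _
    rw [hcoef, hmin, one_div]
  have h4 := (Module.Basis.traceDual_eq_iff (b := pb.basis) (v := pb.basis.traceDual)).1 rfl ⟨p - 1, hp1⟩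
  have hw : γ - algebraMap F L κ * γ⁻¹ = 0 := by
    apply (traceForm_nondegenerate F L).1
    intro y
    have h5 : (Algebra.traceForm F L (γ - algebraMap F L κ * γ⁻¹) : L →ₗ[F] F) = 0 := by
      apply pb.basis.ext
      intro j
      rw [LinearMap.zero_apply, Algebra.traceForm_apply, pb.basis_eq_pow, sub_mul, map_sub]
      have h6 := h4 j
      rw [hε, Algebra.traceForm_apply, pb.basis_eq_pow] at h6
      rw [mul_assoc, ← Algebra.smul_def, LinearMap.map_smul, h6, mul_comm γ]
      split_ifs with hj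
      · rw [smul_eq_mul, mul_one, hj]
        change Algebra.trace F L (r ^ (p - 1) * γ) - κ = 0
        rw [hκ, sub_self]
      · rw [smul_zero, sub_zero]
        apply hTr
        have h7 := j.2
        have h8 : (j : ℕ) ≠ p - 1 := fun h => hj (Fin.ext h)
        omega
    rw [h5, LinearMap.zero_apply]
  have hγ2 : γ ^ 2 = algebraMap F L κ := by
    have h5 : γ = algebraMap F L κ * γ⁻¹ := sub_eq_zero.1 hw
    rw [pow_two]
    nth_rewrite 1 [h5]
    rw [mul_assoc, inv_mul_cancel₀ hγ0, mul_one]
  obtain ⟨γ0, hγF⟩ : γ ∈ Set.range (algebraMap F L) := by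
    rw [mem_range_iff_deg]
    have h5 : (minpoly F γ).natDegree ∣ p := by
      have h6 : finrank F L = p := by rw [finrank_ad]; exact hdeg
      have := natDegree_dvd (F := F) γ
      rwa [h6] at this
    have h6 : minpoly F γ ∣ X ^ 2 - C κ := by
      apply minpoly.dvd
      rw [map_sub, map_pow, aeval_X, aeval_C, hγ2, sub_self]
    have h7 := natDegree_le_of_dvd h6 (X_pow_sub_C_ne_zero (by norm_num) κ)
    rw [natDegree_X_pow_sub_C] at h7
    exact ((Nat.dvd_prime hp).1 h5).resolve_right (by omega)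
  have hder3 : derivative g = C γ0 := by
    have h5 : aeval r (derivative g - C γ0) = 0 := by
      rw [map_sub, aeval_C, hγF, hγ, sub_self]
    by_contra hne
    have h6 : derivative g - C γ0 ≠ 0 := sub_ne_zero.2 hne
    have h7 := minpoly.dvd F r h5
    rw [hmin] at h7
    have h8 := natDegree_le_of_dvd h7 h6
    have h9 : (derivative g - C γ0).natDegree ≤ p - 1 := by
      refine (natDegree_sub_le _ _).trans (max_le ?_ ?_)
      · have := natDegree_derivative_le g
        rwa [hdeg] at this
      · rw [natDegree_C]; omega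
    rw [hdeg] at h8
    omega
  have hcoef : ∀ k, 2 ≤ k → k < p → g.coeff k = 0 := by
    intro k hk1 hk2
    have h5 := congrArg (fun q => coeff q (k - 1)) hder3
    simp only [coeff_derivative] at h5
    rw [coeff_C, if_neg (by omega)] at h5
    have h6 : k - 1 + 1 = k := by omega
    have h7 : ((k - 1 : ℕ) : F) + 1 = (k : F) := by
      rw [← Nat.cast_succ]; congr 1
    rw [h6, h7] at h5
    refine (mul_eq_zero.1 h5).resolve_right ?_
    intro h8
    rw [CharP.cast_eq_zero_iff F p] at h8
    have := Nat.le_of_dvd (by omega) h8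
    omega
  refine ⟨-g.coeff 1, -g.coeff 0, ?_⟩
  have h5 := minpoly.aeval F z
  rw [← hg, aeval_eq_sum_range, hdeg, sum_range_succ] at h5
  have h6 : ∑ k ∈ range p, g.coeff k • z ^ k = g.coeff 0 • (1 : D) + g.coeff 1 • z := by
    obtain ⟨q, hq⟩ : ∃ q, p = q + 2 := ⟨p - 2, by omega⟩
    rw [hq, sum_range_succ', sum_range_succ', sum_eq_zero, zero_add, pow_zero, zero_add, pow_one, add_comm]
    intro k hk
    have := mem_range.1 hk
    rw [hcoef (k + 1 + 1) (by omega) (by omega), zero_smul]
  have h7 : g.coeff p = 1 := by rw [← hdeg]; exact hgm.coeff_natDegree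
  rw [h6, h7, one_smul] at h5
  rw [map_neg, map_neg, neg_mul, ← Algebra.smul_def, Algebra.algebraMap_eq_smul_one (g.coeff 0)]
  rw [eq_comm, ← sub_eq_zero]
  have h8 : -(g.coeff 1 • z) + -(g.coeff 0 • (1 : D)) - z ^ p = -(g.coeff 0 • 1 + g.coeff 1 • z + z ^ p) := by abel
  rw [h8, h5, neg_zero]

end keyl

end Run7.h339
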