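import Mathlib
import Pool.Agent.Run7.h339.Cyc

/-! Base cases for the property `PC`. -/

set_option autoImplicit false
set_option linter.all false

namespace Run7.h339

open Module Finset Polynomial

universe u

section

variable {k D : Type u} [Field k] [DivisionRing D] [Algebra k D]

/-- a division algebra of prime dimension is commutative. -/
theorem comm_of_prime {K : Type u} [Field K] [Algebra K D] {p : ℕ} (hp : p.Prime) (h : finrank K D = p)
    (a b : D) : a * b = b * a := by
  haveI : FiniteDimensional K D := Module.finite_of_finrank_pos (by rw [h]; exact hp.pos)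
  by_cases hall : ∀ y : D, (minpoly K y).natDegree = 1
  · obtain ⟨c, hc⟩ := (mem_range_iff_deg (F := K) a).2 (hall a)
    rw [← hc, Algebra.commutes]
  · push Not at hall
    obtain ⟨y, hy⟩ := hall
    have h1 : (minpoly K y).natDegree ∣ p := by rw [← h]; exact natDegree_dvd _
    have h2 := ((Nat.dvd_prime hp).1 h1).resolve_left hy
    exact comm_of_full (F := K) (x := y) (by rw [h2, h]) a b

/-- a noncommutative division algebra of dimension `p ^ 2` is central. -/
theorem central_of_noncomm {p : ℕ} (hp : p.Prime) (hdim : finrank k D = p ^ 2)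
    (hnc : ¬ ∀ a b : D, a * b = b * a) : Algebra.IsCentral k D := by
  haveI : FiniteDimensional k D := Module.finite_of_finrank_pos (by rw [hdim]; exact pow_pos hp.pos 2)
  constructor
  intro x hx
  rw [Subalgebra.mem_center_iff] at hx
  rw [Algebra.mem_bot]
  by_contra hxk
  -- the degree of `x` is `p` or `p ^ 2`
  have h1 : (minpoly k x).natDegree ∣ p ^ 2 := by rw [← hdim]; exact natDegree_dvd _
  have hcomm : ∀ (c : Ad k x) (y : D), adHom k x c * y = y * adHom k x c := by
    intro c y
    obtain ⟨g, rfl⟩ := AdjoinRoot.mk_surjective c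
    rw [adHom_mk]
    have h2 : aeval x g ∈ Algebra.adjoin k {x} := aeval_mem_adjoin_singleton k x
    have h3 : Algebra.adjoin k {x} ≤ Subalgebra.center k D := by
      rw [Algebra.adjoin_le_iff, Set.singleton_subset_iff]
      exact Subalgebra.mem_center_iff.2 hx
    exact ((Subalgebra.mem_center_iff.1 (h3 h2)) y).symm
  letI : Algebra (Ad k x) D := (adHom k x).toRingHom.toAlgebra' hcomm
  haveI : IsScalarTower k (Ad k x) D := IsScalarTower.of_algebraMap_eq fun c => ((adHom k x).commutes c).symm
  have h4 : finrank k (Ad k x) * finrank (Ad k x) D = finrank k D := Module.finrank_mul_finrank k (Ad k x) D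
  obtain ⟨i, hi, hi2⟩ := (Nat.dvd_prime_pow hp).1 h1
  rw [finrank_ad, hi2, hdim] at h4
  interval_cases i
  · exact hxk ((mem_range_iff_deg (F := k) x).2 (by rw [hi2, pow_zero]))
  · apply hnc
    have h5 : finrank (Ad k x) D = p := by
      rw [pow_one, pow_two] at h4
      exact Nat.eq_of_mul_eq_mul_left hp.pos h4
    exact comm_of_prime hp h5
  · exact hnc (comm_of_full (F := k) (x := x) (by rw [hi2, hdim]))

/-- an Artin-Schreier generator of a cyclic extension. -/
theorem exists_as {L : Type u} [Field L] [Algebra k L] [IsGalois k L] {p : ℕ} (hp : p.Prime) [CharP k p]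
    (hL : finrank k L = p) : ∃ (θ : L), θ ^ p - θ ∈ Set.range (algebraMap k L) ∧ θ ∉ Set.range (algebraMap k L) := by
  haveI : Fact p.Prime := ⟨hp⟩
  haveI : FiniteDimensional k L := Module.finite_of_finrank_pos (by rw [hL]; exact hp.pos)
  have hcard : Nat.card (L ≃ₐ[k] L) = p := by rw [IsGalois.card_aut_eq_finrank, hL]
  haveI : CharP L p := charP_of_injective_algebraMap (algebraMap k L).injective p
  haveI : Finite (L ≃ₐ[k] L) := Nat.finite_of_card_ne_zero (by rw [hcard]; exact hp.ne_zero)
  haveI : Nontrivial (L ≃ₐ[k] L) := Finite.one_lt_card_iff_nontrivial.1 (by rw [hcard]; exact hp.one_lt)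
  obtain ⟨σ, hσ⟩ := exists_ne (1 : L ≃ₐ[k] L)
  have hgen : ∀ τ : L ≃ₐ[k] L, τ ∈ Subgroup.zpowers σ := fun τ => mem_zpowers_of_prime_card hcard hσ
  have hσp : σ ^ p = 1 := by rw [← hcard]; exact pow_card_eq_one'
  haveI : CharP (Module.End k L) p := charP_of_injective_algebraMap (R := k) (A := Module.End k L)
    (FaithfulSMul.algebraMap_injective k (Module.End k L)) p
  let s : Module.End k L := σ.toLinearMap
  let δ : Module.End k L := s - 1
  have hδ : ∀ x, δ x = σ x - x := fun x => rfl
  have hs : ∀ n : ℕ, ∀ x, (s ^ n) x = (σ ^ n) x := by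
    intro n
    induction n with
    | zero => intro x; simp
    | succ n ih =>
      intro x
      rw [pow_succ, pow_succ]
      change (s ^ n) (s x) = (σ ^ n) (σ x)
      rw [ih]
      rfl
  have hδp : δ ^ p = 0 := by
    change (s - 1) ^ p = 0
    rw [sub_pow_char_of_commute p (Commute.one_right s), one_pow, sub_eq_zero]
    ext x
    rw [hs, hσp]
    rfl
  obtain ⟨u, hu⟩ : ∃ u, δ u ≠ 0 := by
    by_contra hc
    push Not at hc
    apply hσ
    ext x
    have := hc x
    rw [hδ, sub_eq_zero] at this
    exact this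
  have hex : ∃ n, (δ ^ n) u = 0 := ⟨p, by rw [hδp]; rfl⟩
  classical
  have hn := Nat.find_spec hex
  have hmin := fun m => Nat.find_min hex (m := m)
  set n := Nat.find hex with hn'
  have hn2 : 2 ≤ n := by
    by_contra hlt
    push Not at hlt
    interval_cases n
    · apply hu
      have : u = 0 := by simpa using hn
      rw [this, map_zero]
    · apply hu
      simpa using hn
  let a := (δ ^ (n - 2)) u
  let b := (δ ^ (n - 1)) u
  have hb0 : b ≠ 0 := hmin (n - 1) (by omega)
  have hδa : δ a = b := by
    change δ ((δ ^ (n - 2)) u) = (δ ^ (n - 1)) u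
    have h3 : n - 1 = (n - 2) + 1 := by omega
    rw [h3, pow_succ']
    rfl
  have hδb : δ b = 0 := by
    change δ ((δ ^ (n - 1)) u) = 0
    rw [← hn]
    conv_rhs => rw [show n = (n - 1) + 1 by omega, pow_succ']
    rfl
  rw [hδ] at hδa hδb
  have hσb : σ b = b := sub_eq_zero.1 hδb
  have hσa : σ a = a + b := by rw [← hδa]; ring
  have hθ : σ (a / b) = a / b + 1 := by
    rw [map_div₀, hσa, hσb]
    field_simp
  refine ⟨a / b, ?_, ?_⟩
  · have h5 : σ ((a / b) ^ p - a / b) = (a / b) ^ p - a / b := by
      rw [map_sub, map_pow, hθ, add_pow_char, one_pow]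
      ring
    have h6 : ∀ τ : L ≃ₐ[k] L, τ ((a / b) ^ p - a / b) = (a / b) ^ p - a / b := by
      intro τ
      have : Subgroup.zpowers σ ≤ MulAction.stabilizer (L ≃ₐ[k] L) ((a / b) ^ p - a / b) := by
        rw [Subgroup.zpowers_le]
        exact h5
      exact this (hgen τ)
    exact (IsGalois.mem_range_algebraMap_iff_fixed _).2 h6
  · rintro ⟨c, hc⟩
    rw [← hc, AlgEquiv.commutes] at hθ
    have : (1 : L) = 0 := by
      have h7 := hθ
      rw [left_eq_add] at h7
      exact h7
    exact one_ne_zero this

end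

end Run7.h339
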