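import Mathlib
import Pool.Agent.Run7.h339.Base

/-! Base cases for the property `PC`, II. -/

set_option autoImplicit false
set_option linter.all false

namespace Run7.h339

open Module Finset Polynomial

universe u

theorem X_pow_sub_X_prod (p : ℕ) [Fact p.Prime] : (X ^ p - X : (ZMod p)[X]) = ∏ i : ZMod p, (X - C i) := by
  have hm : (X ^ p - X : (ZMod p)[X]).Monic := by
    apply monic_X_pow_sub
    rw [degree_X]
    exact_mod_cast (Fact.out (p := p.Prime)).one_lt
  have hr : (X ^ p - X : (ZMod p)[X]).roots = Finset.univ.val := by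
    have := FiniteField.roots_X_pow_card_sub_X (ZMod p)
    rwa [ZMod.card] at this
  have h := Polynomial.prod_multiset_X_sub_C_of_monic_of_roots_card_eq hm (by
    rw [hr, FiniteField.X_pow_card_sub_X_natDegree_eq _ (Fact.out (p := p.Prime)).one_lt]
    simp [ZMod.card])
  rw [hr] at h
  exact h.symm

section

variable {k D : Type*} [Field k] [DivisionRing D] [Algebra k D]

/-- an Artin-Schreier element acts with an eigenvector of eigenvalue one (after scaling). -/
theorem exists_eig {p : ℕ} (hp : p.Prime) [CharP k p] {t : D} (ht : t ^ p - t ∈ Set.range (algebraMap k D))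
    (hnc : ∃ u, t * u ≠ u * t) : ∃ t' y : D, t' * y - y * t' = y ∧ y ≠ 0 := by
  haveI : Fact p.Prime := ⟨hp⟩
  haveI : CharP (Module.End k D) p := charP_of_injective_algebraMap (R := k) (A := Module.End k D)
    (FaithfulSMul.algebraMap_injective k (Module.End k D)) p
  let δ : Module.End k D := LinearMap.mulLeft k t - LinearMap.mulRight k t
  have hδ : ∀ x, δ x = t * x - x * t := fun x => rfl
  have hcomm : Commute (LinearMap.mulLeft k t) (LinearMap.mulRight k t) := by
    change LinearMap.mulLeft k t * LinearMap.mulRight k t = LinearMap.mulRight k t * LinearMap.mulLeft k t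
    ext d
    simp [mul_assoc]
  have hδp : δ ^ p = δ := by
    change (LinearMap.mulLeft k t - LinearMap.mulRight k t) ^ p = _
    rw [sub_pow_char_of_commute p hcomm]
    obtain ⟨c, hc⟩ := ht
    have h1 : (LinearMap.mulLeft k t) ^ p = LinearMap.mulLeft k (t ^ p) := LinearMap.pow_mulLeft k D t p
    have h2 : (LinearMap.mulRight k t) ^ p = LinearMap.mulRight k (t ^ p) := LinearMap.pow_mulRight k D t p
    have h3 : t ^ p = t + algebraMap k D c := by rw [hc]; abel
    rw [h1, h2, h3]
    ext d
    rw [LinearMap.sub_apply, LinearMap.mulLeft_apply, LinearMap.mulRight_apply, add_mul, mul_add,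
      Algebra.commutes, hδ]
    abel
  obtain ⟨u, hu⟩ := hnc
  have hδu : δ u ≠ 0 := by rw [hδ]; exact sub_ne_zero.2 hu
  by_contra hno
  push Not at hno
  -- all nonzero eigenvalues are excluded
  have hinj : ∀ i : ZMod p, i ≠ 0 → ∀ y, (aeval δ (X - C (ZMod.cast i : k))) y = 0 → y = 0 := by
    intro i hi y hy
    rw [map_sub, aeval_X, aeval_C, LinearMap.sub_apply, hδ, sub_eq_zero] at hy
    have hik : (ZMod.cast i : k) ≠ 0 := by
      intro h0
      apply hi
      apply (ZMod.castHom (dvd_refl p) k).injective
      rw [map_zero]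
      exact h0
    apply hno ((ZMod.cast i : k)⁻¹ • t) y
    have hy' : t * y - y * t = (ZMod.cast i : k) • y := hy
    rw [smul_mul_assoc, mul_smul_comm, ← smul_sub, hy', smul_smul, inv_mul_cancel₀ hik, one_smul]
  have hprod : ∀ s : Finset (ZMod p), (∀ i ∈ s, i ≠ 0) → ∀ y,
      (aeval δ (∏ i ∈ s, (X - C (ZMod.cast i : k)))) y = 0 → y = 0 := by
    classical
    intro s
    induction s using Finset.induction_on with
    | empty => intro _ y hy; simpa using hy
    | insert a s ha ih =>
      intro hs y hy
      rw [prod_insert ha, map_mul] at hy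
      exact ih (fun i hi => hs i (mem_insert_of_mem hi)) y (hinj a (hs a (mem_insert_self _ _)) _ hy)
  have hfac : (X ^ p - X : k[X]) = ∏ i : ZMod p, (X - C (ZMod.cast i : k)) := by
    have h1 := congrArg (Polynomial.map (ZMod.castHom (dvd_refl p) k)) (X_pow_sub_X_prod p)
    rw [Polynomial.map_sub, Polynomial.map_pow, map_X, Polynomial.map_prod] at h1
    rw [h1]
    refine prod_congr rfl fun i _ => ?_
    rw [Polynomial.map_sub, map_X, map_C]
    rfl
  have h0 : (aeval δ (X ^ p - X : k[X])) u = 0 := by
    rw [map_sub, map_pow, aeval_X, hδp, sub_self]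
    rfl
  classical
  rw [hfac, ← mul_prod_erase univ _ (mem_univ (0 : ZMod p)), mul_comm, map_mul] at h0
  have h1 := hprod (univ.erase 0) (fun i hi => ne_of_mem_erase hi) _ h0
  apply hδu
  simpa using h1

/-- in that situation trace functionals kill the powers of `y`. -/
theorem tau_pow_zero {p : ℕ} (hp : p.Prime) [CharP k p] {t y : D} (h : t * y - y * t = y) (τ : D →ₗ[k] k)
    (htr : ∀ x y, τ (x * y) = τ (y * x)) (j : ℕ) (hj : 1 ≤ j) (hjp : j < p) : τ (y ^ j) = 0 := by
  have hpow : ∀ n : ℕ, t * y ^ n - y ^ n * t = (n : D) * y ^ n := by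
    intro n
    induction n with
    | zero => simp
    | succ n ih =>
      have h1 : t * y ^ (n + 1) - y ^ (n + 1) * t = (t * y ^ n - y ^ n * t) * y + y ^ n * (t * y - y * t) := by
        rw [pow_succ]; noncomm_ring
      rw [h1, ih, h]
      push_cast
      rw [pow_succ]
      noncomm_ring
  have h1 := congrArg τ (hpow j)
  rw [map_sub, htr t, sub_self] at h1
  have h2 : (j : D) * y ^ j = (j : k) • y ^ j := by
    rw [Algebra.smul_def, map_natCast]
  rw [h2, LinearMap.map_smul, smul_eq_mul] at h1
  refine (mul_eq_zero.1 h1.symm).resolve_left fun h3 => ?_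
  rw [CharP.cast_eq_zero_iff k p] at h3
  exact absurd (Nat.le_of_dvd hj h3) (by omega)

end

/-- The property needed of commutative division algebras. -/
def PP (p : ℕ) (k : Type u) [Field k] : Prop :=
  ∀ (A : Type u) [Field A] [Algebra k A], finrank k A = p ^ 2 → (∀ a : A, a ^ p ∈ Set.range (algebraMap k A)) →
    ∀ τ : A →ₗ[k] k, τ ≠ 0 → ∃ z : A, z ∉ Set.range (algebraMap k A) ∧ ∀ j, 1 ≤ j → j < p → τ (z ^ j) = 0

/-- an element with inseparable minimal polynomial of degree at most `p`. -/
theorem pow_mem_of_deriv' {F D : Type*} [Field F] [DivisionRing D] [Algebra F D] [FiniteDimensional F D]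
    {p : ℕ} (hp : p.Prime) [CharP F p] {z : D} (hdeg : (minpoly F z).natDegree ≤ p)
    (h : derivative (minpoly F z) = 0) : z ^ p ∈ Set.range (algebraMap F D) := by
  have hm : (minpoly F z).Monic := minpoly.monic (Algebra.IsIntegral.isIntegral _)
  have hc : ∀ n, 0 < n → (minpoly F z).coeff n ≠ 0 → p ∣ n := by
    intro n hn hne
    have h1 := congrArg (fun q => coeff q (n - 1)) h
    simp only [coeff_derivative, coeff_zero] at h1
    have h2 : n - 1 + 1 = n := by omega
    rw [h2] at h1
    have h3 : ((n - 1 : ℕ) : F) + 1 = (n : F) := by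
      rw [← Nat.cast_succ]; congr 1
    rw [h3] at h1
    have h4 := (mul_eq_zero.1 h1).resolve_left hne
    exact (CharP.cast_eq_zero_iff F p n).1 h4
  have hpos := (minpoly_irred (F := F) z).natDegree_pos
  have hd : (minpoly F z).natDegree = p := by
    have h1 := hc _ hpos (by rw [coeff_natDegree, hm.leadingCoeff]; exact one_ne_zero)
    exact le_antisymm hdeg (Nat.le_of_dvd hpos h1)
  have h1 := minpoly.aeval F z
  rw [aeval_eq_sum_range, hd, sum_range_succ, sum_eq_single 0, ← hd] at h1
  · rw [coeff_natDegree, hm.leadingCoeff, one_smul, pow_zero, hd] at h1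
    refine ⟨-(minpoly F z).coeff 0, ?_⟩
    rw [map_neg, neg_eq_iff_add_eq_zero, Algebra.algebraMap_eq_smul_one]
    exact h1
  · intro b hb hb0
    have : (minpoly F z).coeff b = 0 := by
      by_contra hne
      have h2 := Nat.le_of_dvd (Nat.pos_of_ne_zero hb0) (hc b (Nat.pos_of_ne_zero hb0) hne)
      exact absurd (mem_range.1 hb) (by omega)
    rw [this, zero_smul]
  · intro hh
    exact absurd (mem_range.2 hp.pos) hh

/-- a commutative algebra all of whose degrees are small is purely inseparable of exponent one. -/
theorem pow_mem_of_comm {k A : Type u} [Field k] [Field A] [Algebra k A] {p : ℕ} (hp : p.Prime) [CharP k p]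
    (hdim : finrank k A = p ^ 2) (hdeg : ∀ x : A, (minpoly k x).natDegree ≤ p) (a : A) :
    a ^ p ∈ Set.range (algebraMap k A) := by
  haveI : FiniteDimensional k A := Module.finite_of_finrank_pos (by rw [hdim]; exact pow_pos hp.pos 2)
  haveI : Fact p.Prime := ⟨hp⟩
  haveI : CharP A p := charP_of_injective_algebraMap (algebraMap k A).injective p
  haveI : ExpChar k p := ExpChar.prime hp
  -- either separable or a `p`-th root
  have hdich : ∀ x : A, x ^ p ∉ Set.range (algebraMap k A) → x ∈ separableClosure k A := by
    intro x hx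
    rw [mem_separableClosure_iff]
    by_contra hns
    apply hx
    apply pow_mem_of_deriv' hp (hdeg x)
    by_contra hc
    exact hns ((separable_iff_derivative_ne_zero (minpoly_irred (F := k) x)).2 hc)
  by_contra ha
  have has := hdich a ha
  -- every `p`-th root is in the base
  have hbase : ∀ y : A, y ^ p ∈ Set.range (algebraMap k A) → y ∈ Set.range (algebraMap k A) := by
    intro y hy
    have h1 : y + a ∈ separableClosure k A := by
      apply hdich
      rw [add_pow_char]
      rintro ⟨c, hc⟩
      obtain ⟨c', hc'⟩ := hy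
      apply ha
      refine ⟨c - c', ?_⟩
      rw [map_sub, hc, hc']
      ring
    have h2 : y ∈ separableClosure k A := by
      have := (separableClosure k A).sub_mem h1 has
      rwa [add_sub_cancel_right] at this
    have h3 : y ∈ perfectClosure k A := by
      rw [mem_perfectClosure_iff_pow_mem p]
      exact ⟨1, by rw [pow_one]; exact hy⟩
    have h4 : y ∈ separableClosure k A ⊓ perfectClosure k A := ⟨h2, h3⟩
    rw [separableClosure_inf_perfectClosure, IntermediateField.mem_bot] at h4
    exact h4
  have hsep : ∀ x : A, x ∈ separableClosure k A := by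
    intro x
    by_cases hx : x ^ p ∈ Set.range (algebraMap k A)
    · obtain ⟨c, hc⟩ := hbase x hx
      rw [← hc]
      exact (separableClosure k A).algebraMap_mem c
    · exact hdich x hx
  haveI : Algebra.IsSeparable k A := ⟨fun x => mem_separableClosure_iff.1 (hsep x)⟩
  obtain ⟨α, hα⟩ := Field.exists_primitive_element k A
  have h1 : (minpoly k α).natDegree = finrank k A := by
    rw [← IntermediateField.adjoin.finrank (Algebra.IsIntegral.isIntegral α), hα, IntermediateField.finrank_top']
  have h2 := hdeg α
  rw [h1, hdim] at h2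
  have := hp.two_le
  nlinarith

/-- **`PC` from its two constituents.** -/
theorem PC.of {k : Type u} [Field k] {p : ℕ} (hp : p.Prime) [CharP k p] (hc : CycAll p k) (hpp : PP p k) :
    PC p k := by
  intro D _ _ hdim hdeg τ hτ htr
  haveI : FiniteDimensional k D := Module.finite_of_finrank_pos (by rw [hdim]; exact pow_pos hp.pos 2)
  by_cases hcomm : ∀ a b : D, a * b = b * a
  · letI : Field D := { ‹DivisionRing D› with mul_comm := hcomm }
    exact hpp D hdim (pow_mem_of_comm hp hdim hdeg) τ hτ
  · haveI := central_of_noncomm hp hdim hcomm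
    obtain ⟨L, _, _, hgal, hcyc, hL, ⟨φ⟩⟩ := hc D hdim
    obtain ⟨θ, hθ, hθ2⟩ := exists_as (k := k) hp hL
    have hφinj : Function.Injective φ := φ.toRingHom.injective
    obtain ⟨t', y, hty, hy0⟩ := exists_eig (k := k) hp (t := φ θ) (by
        obtain ⟨c, hc⟩ := hθ
        refine ⟨c, ?_⟩
        rw [← map_pow, ← map_sub, ← hc, AlgHom.commutes]) (by
        by_contra hno
        push Not at hno
        have h1 : φ θ ∈ Set.range (algebraMap k D) := by
          rw [mem_center_iff']
          exact fun y => (hno y).symm
        obtain ⟨c, hc⟩ := h1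
        apply hθ2
        refine ⟨c, hφinj ?_⟩
        rw [AlgHom.commutes, hc])
    refine ⟨y, ?_, fun j hj hjp => tau_pow_zero hp hty τ htr j hj hjp⟩
    rintro ⟨c, hc⟩
    apply hy0
    rw [← hty, ← hc, Algebra.commutes, sub_self]

end Run7.h339
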