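import Mathlib
import Pool.Agent.Run7.h339.Tens

/-! Descent of subfields along extensions of prime-to-`p` degree. -/

set_option autoImplicit false
set_option linter.all false

namespace Run7.h339

open Module TensorProduct Finset Polynomial

section

variable {F E D L : Type*} [Field F] [Field E] [Algebra F E] [DivisionRing D] [Algebra F D] [Field L] [Algebra F L]
  [Algebra.IsCentral F D] [FiniteDimensional F D] [FiniteDimensional F E] [FiniteDimensional F L]

/-- **fields of degree `p` inside a prime-to-`p` scalar extension embed.** -/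
theorem descend_embed {p : ℕ} (hp : p.Prime) (hD : finrank F D = p ^ 2) (hL : finrank F L = p)
    (hE : (finrank F E).Coprime p) (φ : L →ₐ[F] E ⊗[F] D) : Nonempty (L →ₐ[F] D) := by
  apply embed_of_not_division hp hL hD
  by_contra hno
  push Not at hno
  haveI := simple_tens (F := F) (E := L) (D := D)
  haveI : Nontrivial (L ⊗[F] D) := inferInstance
  letI : DivisionRing (L ⊗[F] D) := DivisionRing.ofIsUnitOrEqZero (fun a => by
    by_cases ha : a = 0
    · exact Or.inr ha
    · exact Or.inl (hno a ha))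
  let ι : D →ₐ[F] E ⊗[F] D := Algebra.TensorProduct.includeRight
  -- the two commuting actions
  let f : L →ₐ[F] Module.End F (E ⊗[F] D) :=
    { toFun := fun l => LinearMap.mulRight F (φ l)
      map_one' := by ext x; simp
      map_mul' := by
        intro a b
        apply LinearMap.ext
        intro x
        change x * φ (a * b) = (x * φ b) * φ a
        rw [mul_comm a b, map_mul, mul_assoc]
      map_zero' := by apply LinearMap.ext; intro x; change x * φ 0 = 0; rw [map_zero, mul_zero]
      map_add' := by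
        intro a b
        apply LinearMap.ext
        intro x
        change x * φ (a + b) = x * φ a + x * φ b
        rw [map_add, mul_add]
      commutes' := by
        intro r
        apply LinearMap.ext
        intro x
        change x * φ (algebraMap F L r) = r • x
        rw [AlgHom.commutes, Algebra.smul_def, Algebra.commutes] }
  let g : D →ₐ[F] Module.End F (E ⊗[F] D) := (Algebra.lmul F (E ⊗[F] D)).comp ι
  let h : L ⊗[F] D →ₐ[F] Module.End F (E ⊗[F] D) := Algebra.TensorProduct.lift f g (by
    intro a b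
    apply LinearMap.ext
    intro x
    change (ι b * x) * φ a = ι b * (x * φ a)
    rw [mul_assoc])
  have hdvd := finrank_dvd_of_subring (F := F) (D := L ⊗[F] D) (R := Module.End F (E ⊗[F] D)) h (E ⊗[F] D)
  rw [Module.finrank_tensorProduct, Module.finrank_tensorProduct, hL, hD] at hdvd
  have h1 : p ∣ finrank F E := by
    rw [mul_comm p, mul_comm _ (p ^ 2)] at hdvd
    exact Nat.dvd_of_mul_dvd_mul_left (pow_pos hp.pos 2) hdvd
  rw [Nat.coprime_comm, hp.coprime_iff_not_dvd] at hE
  exact hE h1

end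

section insep

variable {F E : Type*} [Field F] [Field E] [Algebra F E] [FiniteDimensional F E] [IsGalois F E]

/-- if `b` is not a `p`-th power then some trace `Tr (e^p b)` is not a `p`-th power. -/
theorem exists_trace_not_pow {p : ℕ} (hp : p.Prime) [CharP E p] {b : E} (hb : ∀ e : E, e ^ p ≠ b) :
    ∃ e : E, ∀ x : E, x ^ p ≠ ∑ g : E ≃ₐ[F] E, (g e) ^ p * g b := by
  classical
  haveI : Fact p.Prime := ⟨hp⟩
  haveI : ExpChar E p := ExpChar.prime hp
  by_contra hno
  push Not at hno
  let K₀ : Subfield E := (frobenius E p).fieldRange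
  have hmem : ∀ x : E, x ^ p ∈ K₀ := fun x => ⟨x, rfl⟩
  have hbK : b ∉ K₀ := by
    rintro ⟨x, hx⟩
    exact hb x hx
  -- a functional
  obtain ⟨lam, hlam1, hlamb⟩ : ∃ lam : E →ₗ[K₀] K₀, lam 1 = 0 ∧ lam b ≠ 0 := by
    let W : Submodule K₀ E := Submodule.span K₀ {(1 : E)}
    have hbW : b ∉ W := by
      intro h
      rw [Submodule.mem_span_singleton] at h
      obtain ⟨c, hc⟩ := h
      apply hbK
      rw [← hc]
      change (c : E) * 1 ∈ K₀
      rw [mul_one]
      exact c.2
    obtain ⟨f, hf1, hf2⟩ := Submodule.exists_le_ker_of_notMem hbW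
    exact ⟨f, hf2 (Submodule.mem_span_singleton_self _), hf1⟩
  have hK : ∀ x : E, x ∈ K₀ → lam x = 0 := by
    intro x hx
    have : x = (⟨x, hx⟩ : K₀) • (1 : E) := by
      change x = x * 1
      rw [mul_one]
    rw [this, LinearMap.map_smul, hlam1, smul_zero]
  let χ : (E ≃ₐ[F] E) → (E →* K₀) := fun g =>
    { toFun := fun x => ⟨(g x) ^ p, hmem _⟩
      map_one' := by apply Subtype.ext; simp
      map_mul' := by intro x y; apply Subtype.ext; simp [mul_pow] }
  have hχ : Function.Injective χ := by
    intro g h hgh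
    ext x
    have h1 := congrArg (fun f : E →* K₀ => ((f x : K₀) : E)) hgh
    have h2 : (g x) ^ p = (h x) ^ p := h1
    exact frobenius_inj E p h2
  have hli := (linearIndependent_monoidHom E K₀).comp χ hχ
  rw [Fintype.linearIndependent_iff] at hli
  have h0 := hli (fun g => lam (g b)) (by
    funext e
    rw [Finset.sum_apply]
    simp only [Function.comp, Pi.smul_apply, smul_eq_mul, Pi.zero_apply]
    obtain ⟨x, hx⟩ := hno e
    have h1 : lam (∑ g : E ≃ₐ[F] E, (g e) ^ p * g b) = 0 := by
      rw [← hx]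
      exact hK _ (hmem x)
    rw [map_sum] at h1
    rw [← h1]
    refine Finset.sum_congr rfl fun g _ => ?_
    have h2 : (g e) ^ p * g b = (⟨(g e) ^ p, hmem _⟩ : K₀) • (g b) := rfl
    rw [h2, LinearMap.map_smul, smul_eq_mul, mul_comm]
    rfl) 1
  exact hlamb h0

end insep

/-- **descent of `p`-central elements in characteristic `p`.** -/
theorem descend_pcentral {F E D : Type*} [Field F] [Field E] [Algebra F E] [DivisionRing D] [Algebra F D]
    [Algebra.IsCentral F D] [FiniteDimensional F D] [FiniteDimensional F E] [IsGalois F E]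
    {p : ℕ} (hp : p.Prime) [CharP F p] (hD : finrank F D = p ^ 2) (hE : (finrank F E).Coprime p)
    {w : E ⊗[F] D} {b : E} (hb : w ^ p = algebraMap E (E ⊗[F] D) b) (hb0 : ∀ e : E, e ^ p ≠ b)
    (hg : ∀ g : E ≃ₐ[F] E, ∃ (n : ℕ) (e : E), g b = b ^ n * e ^ p) :
    ∃ v : D, v ∉ Set.range (algebraMap F D) ∧ v ^ p ∈ Set.range (algebraMap F D) := by
  classical
  haveI : Fact p.Prime := ⟨hp⟩
  haveI : CharP E p := charP_of_injective_algebraMap (algebraMap F E).injective p
  haveI : ExpChar E p := ExpChar.prime hp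
  choose n e hne using hg
  obtain ⟨e0, he0⟩ := exists_trace_not_pow (F := F) hp hb0
  -- the trace lies in `F`
  obtain ⟨τ, hτ⟩ : ∃ τ : F, algebraMap F E τ = ∑ g : E ≃ₐ[F] E, (g e0) ^ p * g b := by
    refine ⟨Algebra.trace F E (e0 ^ p * b), ?_⟩
    rw [trace_eq_sum_automorphisms]
    refine Finset.sum_congr rfl fun g _ => ?_
    rw [map_mul, map_pow]
  -- the element of `E ⊗ D`
  let P : E[X] := ∑ g : E ≃ₐ[F] E, C (g e0 * e g) * X ^ n g
  have hPp : (aeval w P) ^ p = algebraMap F (E ⊗[F] D) τ := by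
    rw [← map_pow]
    change aeval w ((∑ g : E ≃ₐ[F] E, C (g e0 * e g) * X ^ n g) ^ p) = _
    rw [sum_pow_char, map_sum, IsScalarTower.algebraMap_apply F E (E ⊗[F] D), hτ, map_sum]
    refine Finset.sum_congr rfl fun g _ => ?_
    rw [mul_pow, ← C_pow, ← pow_mul, mul_comm (n g) p, pow_mul, map_mul, aeval_C, map_pow, map_pow, map_pow, aeval_X, hb,
      ← map_pow, ← map_pow, ← map_mul]
    congr 1
    rw [hne g]
    ring
  -- the field `F(τ^{1/p})`
  have hτp : ∀ x : F, x ^ p ≠ τ := by
    intro x hx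
    apply he0 (algebraMap F E x)
    rw [← hτ, ← hx, map_pow]
  have hirr : Irreducible (X ^ p - C τ : F[X]) := X_pow_sub_C_irreducible_of_prime hp hτp
  haveI : Fact (Irreducible (X ^ p - C τ : F[X])) := ⟨hirr⟩
  have hne0 : (X ^ p - C τ : F[X]) ≠ 0 := hirr.ne_zero
  have hL : finrank F (AdjoinRoot (X ^ p - C τ : F[X])) = p := by
    rw [(AdjoinRoot.powerBasis hne0).finrank, AdjoinRoot.powerBasis_dim, natDegree_X_pow_sub_C]
  haveI : FiniteDimensional F (AdjoinRoot (X ^ p - C τ : F[X])) := (AdjoinRoot.powerBasis hne0).finite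
  let φ : AdjoinRoot (X ^ p - C τ : F[X]) →ₐ[F] E ⊗[F] D := Ideal.Quotient.liftₐ _ (aeval (aeval w P)) (by
    intro q hq
    rw [Ideal.mem_span_singleton] at hq
    obtain ⟨q', rfl⟩ := hq
    have : (aeval (aeval w P)) (X ^ p - C τ : F[X]) = 0 := by
      rw [map_sub, map_pow, aeval_X, aeval_C, hPp, sub_self]
    rw [map_mul, this, zero_mul])
  obtain ⟨ψ⟩ := descend_embed hp hD hL hE φ
  have hψ : (ψ (AdjoinRoot.root _)) ^ p = algebraMap F D τ := by
    have h1 := AdjoinRoot.eval₂_root (X ^ p - C τ : F[X])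
    rw [eval₂_sub, eval₂_X_pow, eval₂_C, sub_eq_zero] at h1
    rw [← map_pow, h1]
    exact ψ.commutes τ
  refine ⟨ψ (AdjoinRoot.root _), ?_, ⟨τ, hψ.symm⟩⟩
  rintro ⟨x, hx⟩
  rw [← hx, ← map_pow] at hψ
  exact hτp x ((algebraMap F D).injective hψ)

end Run7.h339
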