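import Mathlib

/-! Products of conjugates of the `p`-th power of a skew element. -/

set_option autoImplicit false
set_option linter.all false

namespace Run7.h339

open Finset

section norm

variable {D A : Type*} [DivisionRing D] [CommMonoid A] (j : A →* D) (θ : A ≃* A) {w : D}

theorem skew_pow (h : ∀ c, w * j c = j (θ c) * w) (n : ℕ) (c : A) : w ^ n * j c = j ((θ ^ n) c) * w ^ n := by
  induction n generalizing c with
  | zero => simp
  | succ n ih =>
    rw [pow_succ, mul_assoc, h, ← mul_assoc, ih, mul_assoc, pow_succ]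
    rfl

theorem skew_prod (h : ∀ c, w * j c = j (θ c) * w) (n : ℕ) (c : A) (k : ℕ) :
    (j c * w ^ n) ^ k = j (∏ i ∈ range k, (θ ^ (n * i)) c) * w ^ (n * k) := by
  induction k with
  | zero => simp
  | succ k ih =>
    rw [pow_succ, ih, prod_range_succ, map_mul, mul_assoc, ← mul_assoc (w ^ (n * k)), skew_pow j θ h, mul_assoc,
      ← mul_assoc, ← pow_add]
    rfl

/-- the norm is independent of the generator. -/
theorem norm_indep {p : ℕ} (hp : p.Prime) (hθ : θ ^ p = 1) {n : ℕ} (hn : n.Coprime p) (c : A) :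
    ∏ i ∈ range p, (θ ^ (n * i)) c = ∏ i ∈ range p, (θ ^ i) c := by
  haveI : Fact p.Prime := ⟨hp⟩
  have hmod : ∀ a b : ℕ, a ≡ b [MOD p] → θ ^ a = θ ^ b := by
    intro a b hab
    rw [← Nat.div_add_mod a p, ← Nat.div_add_mod b p, pow_add, pow_add, pow_mul, pow_mul, hθ, one_pow, one_pow, hab]
  have h1 : ∀ f : ℕ → A, (∀ a b : ℕ, a ≡ b [MOD p] → f a = f b) →
      ∏ i ∈ range p, f i = ∏ i : ZMod p, f i.val := by
    intro f hf
    rw [← Fin.prod_univ_eq_prod_range]
    refine Fintype.prod_bijective (fun i : Fin p => ((i : ℕ) : ZMod p)) ?_ _ _ ?_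
    · constructor
      · intro a b hab
        simp only at hab
        rw [ZMod.natCast_eq_natCast_iff] at hab
        have := Nat.ModEq.eq_of_lt_of_lt hab a.2 b.2
        exact Fin.ext this
      · intro b
        refine ⟨⟨b.val, ZMod.val_lt b⟩, ?_⟩
        simp
    · intro i
      apply hf
      rw [ZMod.val_natCast]
      exact (Nat.mod_modEq _ _).symm
  rw [h1 (fun i => (θ ^ (n * i)) c) (fun a b hab => by
      rw [hmod _ _ (Nat.ModEq.mul_left n hab)]),
    h1 (fun i => (θ ^ i) c) (fun a b hab => by rw [hmod _ _ hab])]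
  have hn0 : (n : ZMod p) ≠ 0 := by
    intro h0
    rw [ZMod.natCast_eq_zero_iff] at h0
    have := Nat.Coprime.eq_one_of_dvd hn.symm h0
    exact hp.one_lt.ne' this
  refine Fintype.prod_bijective (fun i : ZMod p => (n : ZMod p) * i) ?_ _ _ ?_
  · exact (Equiv.mulLeft₀ (n : ZMod p) hn0).bijective
  · intro i
    rw [hmod (n * i.val) ((n : ZMod p) * i).val]
    rw [← ZMod.natCast_eq_natCast_iff]
    simp

end norm

/-- **Product of conjugates.** -/
theorem conj_prod {E D A G : Type*} [Field E] [DivisionRing D] [Algebra E D] [CommMonoid A] [Group G] [Fintype G]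
    {p : ℕ} (hp : p.Prime) (j : A →* D) (hj : Function.Injective j) (θ : A ≃* A) {w : D} (hw : w ≠ 0)
    (hθ : ∀ c, w * j c = j (θ c) * w) {b : E} (hb : w ^ p = algebraMap E D b)
    (ρ : G → D →+* D) (r : G → E →+* E) (hρr : ∀ g x, ρ g (algebraMap E D x) = algebraMap E D (r g x))
    (hr : ∀ g h x, r (g * h) x = r g (r h x))
    (c : G → A) (n : G → ℕ) (hc : ∀ g, ρ g w = j (c g) * w ^ n g)
    (hn : ∀ g h, n (g * h) ≡ n g * n h [MOD p]) (hn0 : ∀ g, (n g).Coprime p) (hG : (Fintype.card G).Coprime p) :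
    ∃ (c' : A) (S : ℕ) (b' : E), S ≡ Fintype.card G [MOD p] ∧ (j c' * w ^ S) ^ p = algebraMap E D b' ∧ b' ≠ 0 ∧
      ∀ h, ∃ e : E, e ≠ 0 ∧ r h b' = b' ^ n h * e ^ p := by
  classical
  haveI : Fact p.Prime := ⟨hp⟩
  have hθp : θ ^ p = 1 := by
    ext x
    apply hj
    have h1 := skew_pow j θ hθ p x
    rw [hb, Algebra.commutes, ← hb] at h1
    exact (mul_right_cancel₀ (pow_ne_zero p hw) h1).symm
  have hb0 : b ≠ 0 := by
    rintro rfl
    rw [map_zero] at hb
    exact pow_ne_zero p hw hb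
  have hrb : ∀ g, r g b ≠ 0 := fun g => (map_ne_zero (r g)).2 hb0
  have hnz : ∀ g, (n g : ZMod p) ≠ 0 := by
    intro g h0
    rw [ZMod.natCast_eq_zero_iff] at h0
    have := Nat.Coprime.eq_one_of_dvd (hn0 g).symm h0
    exact hp.one_lt.ne' this
  let k : G → ℕ := fun g => ((n g : ZMod p)⁻¹).val
  have hk : ∀ g, (k g : ZMod p) = (n g : ZMod p)⁻¹ := fun g => by
    simp only [k, ZMod.natCast_val, ZMod.cast_id', id]
  set S := ∑ g, n g * k g with hS
  have hScast : (S : ZMod p) = (Fintype.card G : ZMod p) := by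
    rw [hS, Nat.cast_sum, Finset.sum_congr rfl (fun g _ => by
      rw [Nat.cast_mul, hk, mul_inv_cancel₀ (hnz g)])]
    simp
  have hSmod : S ≡ Fintype.card G [MOD p] := (ZMod.natCast_eq_natCast_iff _ _ _).1 hScast
  have hScop : S.Coprime p := by
    rw [Nat.coprime_comm, hp.coprime_iff_not_dvd]
    intro hd
    rw [Nat.coprime_comm, hp.coprime_iff_not_dvd] at hG
    exact hG ((Nat.ModEq.dvd_iff hSmod dvd_rfl).1 hd)
  let N : A → A := fun x => ∏ i ∈ range p, (θ ^ i) x
  have hNmul : ∀ x y, N (x * y) = N x * N y := fun x y => by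
    simp only [N, map_mul, prod_mul_distrib]
  have hN1 : N 1 = 1 := by simp only [N, map_one, prod_const_one]
  let ε : G → E := fun g => r g b / b ^ n g
  have hNc : ∀ g, j (N (c g)) = algebraMap E D (ε g) := by
    intro g
    have h1 : algebraMap E D (r g b) = j (N (c g)) * algebraMap E D (b ^ n g) := by
      rw [← hρr, ← hb, map_pow, hc, skew_prod j θ hθ, norm_indep θ hp hθp (hn0 g), mul_comm (n g) p, pow_mul, hb, map_pow]
    have h2 : algebraMap E D (b ^ n g) ≠ 0 := by
      rw [Ne, map_eq_zero]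
      exact pow_ne_zero _ hb0
    rw [map_div₀, h1, mul_div_assoc, div_self h2, mul_one]
  have hNprod : ∀ s : Finset G, j (N (∏ g ∈ s, c g ^ k g)) = algebraMap E D (∏ g ∈ s, ε g ^ k g) := by
    intro s
    induction s using Finset.induction_on with
    | empty => simp [hN1]
    | insert a s ha ih =>
      have hNpow : ∀ m : ℕ, N (c a ^ m) = N (c a) ^ m := by
        intro m
        induction m with
        | zero => simp [hN1]
        | succ m ihm => rw [pow_succ, hNmul, ihm, pow_succ]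
      rw [prod_insert ha, prod_insert ha, hNmul, map_mul, map_mul, ih, hNpow, map_pow, hNc, map_pow]
  let b' : E := ∏ g, (r g b) ^ k g
  have hb'0 : b' ≠ 0 := prod_ne_zero_iff.2 fun g _ => pow_ne_zero _ (hrb g)
  refine ⟨∏ g, c g ^ k g, S, b', hSmod, ?_, hb'0, ?_⟩
  · rw [skew_prod j θ hθ, norm_indep θ hp hθp hScop]
    have h1 := hNprod univ
    change j (N _) * _ = _
    rw [h1, mul_comm S p, pow_mul, hb, ← map_pow, ← map_mul]
    congr 1
    rw [hS, ← prod_pow_eq_pow_sum, ← prod_mul_distrib]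
    refine prod_congr rfl fun g _ => ?_
    rw [pow_mul, ← mul_pow, div_mul_cancel₀ _ (pow_ne_zero _ hb0)]
  · intro h
    have hq : ∀ g, ∃ q : ℤ, (k (h⁻¹ * g) : ℤ) = n h * k g + p * q := by
      intro g
      have h1 : ((k (h⁻¹ * g) : ℤ) : ZMod p) = ((n h * k g : ℤ) : ZMod p) := by
        push_cast
        rw [hk, hk]
        have h2 := (ZMod.natCast_eq_natCast_iff _ _ p).2 (hn h (h⁻¹ * g))
        rw [mul_inv_cancel_left] at h2
        push_cast at h2
        rw [h2, mul_inv, ← mul_assoc, mul_inv_cancel₀ (hnz h), one_mul]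
      rw [ZMod.intCast_eq_intCast_iff_dvd_sub] at h1
      obtain ⟨q, hq⟩ := h1
      exact ⟨-q, by linarith⟩
    choose q hq using hq
    refine ⟨∏ g, (r g b) ^ q g, prod_ne_zero_iff.2 fun g _ => zpow_ne_zero _ (hrb g), ?_⟩
    have h1 : r h b' = ∏ g, (r g b) ^ k (h⁻¹ * g) := by
      change r h (∏ g, (r g b) ^ k g) = _
      rw [map_prod]
      refine Fintype.prod_equiv (Equiv.mulLeft h) _ _ fun g => ?_
      rw [map_pow, ← hr]
      simp
    rw [h1]
    change _ = (∏ g, (r g b) ^ k g) ^ n h * _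
    rw [← prod_pow, ← prod_pow, ← prod_mul_distrib]
    refine prod_congr rfl fun g _ => ?_
    rw [← zpow_natCast (r g b), hq g, zpow_add₀ (hrb g), ← pow_mul, mul_comm (n h : ℤ), mul_comm (p : ℤ), zpow_mul, zpow_mul]
    simp only [zpow_natCast]
    rw [← pow_mul]

end Run7.h339
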