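import Mathlib
import Pool.Agent.Run7.h339.Desc
import Pool.Agent.Run7.h339.Prod
import Pool.Agent.Run7.h339.Base2

/-! Elements with `z ^ p - a z` central in characteristic `p`. -/

set_option autoImplicit false
set_option linter.all false

namespace Run7.h339

open Module TensorProduct Finset Polynomial

/-- conjugation preserves the centraliser. -/
theorem cent_conj {E D : Type*} [Field E] [DivisionRing D] [Algebra E D] [FiniteDimensional E D] [Algebra.IsCentral E D]
    {p : ℕ} (hp : p.Prime) (hdim : finrank E D = p ^ 2) {y w : D} (hy : y ∉ Set.range (algebraMap E D)) (hw : w ≠ 0)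
    (hc : (w * y * w⁻¹) * y = y * (w * y * w⁻¹)) (x : D) :
    x * y = y * x ↔ (w * x * w⁻¹) * y = y * (w * x * w⁻¹) := by
  have hy' : w * y * w⁻¹ ∉ Set.range (algebraMap E D) := by
    rintro ⟨e, he⟩
    apply hy
    refine ⟨e, ?_⟩
    have h1 : y = w⁻¹ * (w * y * w⁻¹) * w := by
      rw [mul_assoc w y, ← mul_assoc w⁻¹ w, inv_mul_cancel₀ hw, one_mul, mul_assoc, inv_mul_cancel₀ hw, mul_one]
    rw [h1, ← he, ← Algebra.commutes, mul_assoc, inv_mul_cancel₀ hw, mul_one]
  have h1 : x * y = y * x ↔ (w * x * w⁻¹) * (w * y * w⁻¹) = (w * y * w⁻¹) * (w * x * w⁻¹) := by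
    have e1 : ∀ s t : D, (w * s * w⁻¹) * (w * t * w⁻¹) = w * (s * t) * w⁻¹ := by
      intro s t
      have : (w * s * w⁻¹) * (w * t * w⁻¹) = w * s * (w⁻¹ * w) * t * w⁻¹ := by noncomm_ring
      rw [this, inv_mul_cancel₀ hw, mul_one]
      noncomm_ring
    rw [e1, e1]
    constructor
    · intro h; rw [h]
    · intro h
      exact mul_left_cancel₀ hw (mul_right_cancel₀ (inv_ne_zero hw) h)
  rw [h1]
  constructor
  · intro h
    exact comm_trans hp hdim hy' h.symm hc
  · intro h
    exact comm_trans hp hdim hy h.symm hc.symm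

/-- **products of conjugates in a division algebra of prime degree.** -/
theorem conj_prod_csa {E D G : Type*} [Field E] [DivisionRing D] [Algebra E D] [FiniteDimensional E D] [Algebra.IsCentral E D]
    [Group G] [Fintype G] {p : ℕ} (hp : p.Prime) (hdim : finrank E D = p ^ 2) {y w : D}
    (hy : y ∉ Set.range (algebraMap E D)) (hw : w ≠ 0)
    (hcw : (w * y * w⁻¹) * y = y * (w * y * w⁻¹)) {b : E} (hb : w ^ p = algebraMap E D b)
    (ρ : G → D →+* D) (r : G → E →+* E) (hρr : ∀ g x, ρ g (algebraMap E D x) = algebraMap E D (r g x))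
    (hr : ∀ g h x, r (g * h) x = r g (r h x))
    (c : G → D) (hcy : ∀ g, c g * y = y * c g) (n : G → ℕ) (hc : ∀ g, ρ g w = c g * w ^ n g)
    (hn : ∀ g h, n (g * h) ≡ n g * n h [MOD p]) (hn0 : ∀ g, (n g).Coprime p) (hG : (Fintype.card G).Coprime p) :
    ∃ (c' : D) (S : ℕ) (b' : E), c' * y = y * c' ∧ S ≡ Fintype.card G [MOD p] ∧
      (c' * w ^ S) ^ p = algebraMap E D b' ∧ b' ≠ 0 ∧
      ∀ h, ∃ e : E, e ≠ 0 ∧ r h b' = b' ^ n h * e ^ p := by
  let A := Submonoid.centralizer ({y} : Set D)
  have hA : ∀ x : D, x ∈ A ↔ x * y = y * x := by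
    intro x
    rw [Submonoid.mem_centralizer_iff]
    constructor
    · intro h
      exact (h y (Set.mem_singleton y)).symm
    · intro h g hg
      rw [Set.mem_singleton_iff] at hg
      rw [hg, h]
  letI : CommMonoid A := { (inferInstance : Monoid A) with
    mul_comm := by
      rintro ⟨a, ha⟩ ⟨b, hb⟩
      apply Subtype.ext
      rw [hA] at ha hb
      exact comm_trans hp hdim hy ha.symm hb.symm }
  have hconj := cent_conj hp hdim hy hw hcw
  let θ : A ≃* A :=
    { toFun := fun x => ⟨w * x * w⁻¹, (hA _).2 ((hconj x).1 ((hA _).1 x.2))⟩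
      invFun := fun x => ⟨w⁻¹ * x * w, (hA _).2 ((hconj _).2 (by
        have : w * (w⁻¹ * (x : D) * w) * w⁻¹ = x := by
          have h1 : w * (w⁻¹ * (x : D) * w) * w⁻¹ = (w * w⁻¹) * x * (w * w⁻¹) := by noncomm_ring
          rw [h1, mul_inv_cancel₀ hw, one_mul, mul_one]
        rw [this]
        exact (hA _).1 x.2))⟩
      left_inv := by
        intro x
        apply Subtype.ext
        change w⁻¹ * (w * (x : D) * w⁻¹) * w = x
        have h1 : w⁻¹ * (w * (x : D) * w⁻¹) * w = (w⁻¹ * w) * x * (w⁻¹ * w) := by noncomm_ring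
        rw [h1, inv_mul_cancel₀ hw, one_mul, mul_one]
      right_inv := by
        intro x
        apply Subtype.ext
        change w * (w⁻¹ * (x : D) * w) * w⁻¹ = x
        have h1 : w * (w⁻¹ * (x : D) * w) * w⁻¹ = (w * w⁻¹) * x * (w * w⁻¹) := by noncomm_ring
        rw [h1, mul_inv_cancel₀ hw, one_mul, mul_one]
      map_mul' := by
        intro x z
        apply Subtype.ext
        change w * ((x : D) * z) * w⁻¹ = (w * x * w⁻¹) * (w * z * w⁻¹)
        have h1 : (w * (x : D) * w⁻¹) * (w * z * w⁻¹) = w * x * (w⁻¹ * w) * z * w⁻¹ := by noncomm_ring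
        rw [h1, inv_mul_cancel₀ hw, mul_one]
        noncomm_ring }
  obtain ⟨c', S, b', h1, h2, h3, h4⟩ := conj_prod (E := E) (D := D) (A := A) (G := G) hp A.subtype Subtype.val_injective θ hw
    (by
      intro x
      change w * (x : D) = (w * x * w⁻¹) * w
      rw [mul_assoc _ w⁻¹ w, inv_mul_cancel₀ hw, mul_one]) hb ρ r hρr hr
    (fun g => ⟨c g, (hA _).2 (hcy g)⟩) n hc hn hn0 hG
  exact ⟨c', S, b', (hA _).1 c'.2, h1, h2, h3, h4⟩


/-- scalar extensions of central algebras are central. -/
theorem central_tens {F E D : Type*} [Field F] [Field E] [Algebra F E] [DivisionRing D] [Algebra F D]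
    [Algebra.IsCentral F D] : Algebra.IsCentral E (E ⊗[F] D) where
  out t ht := by
    classical
    rw [Subalgebra.mem_center_iff] at ht
    set s := Algebra.TensorProduct.comm F E D t with hs
    have hts : t = Algebra.TensorProduct.comm F D E s := by
      rw [hs]
      exact ((Algebra.TensorProduct.comm F E D).symm_apply_apply t).symm
    have b := Module.Basis.ofVectorSpace F E
    obtain ⟨m, hm⟩ := Pool.Agent.Helper18.Br.exists_one_tmul b s (fun i => by
      have hc : Pool.Agent.Helper18.Br.co b s i ∈ Subalgebra.center F D := by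
        rw [Subalgebra.mem_center_iff]
        intro a
        rw [← Pool.Agent.Helper18.Br.co_left, ← Pool.Agent.Helper18.Br.co_right]
        have h1 := congrArg (Algebra.TensorProduct.comm F E D) (ht ((1 : E) ⊗ₜ[F] a))
        rw [map_mul, map_mul, Algebra.TensorProduct.comm_tmul, ← hs] at h1
        rw [h1]
      rw [Algebra.IsCentral.center_eq_bot] at hc
      exact Algebra.mem_bot.1 hc)
    rw [Algebra.mem_bot]
    refine ⟨m, ?_⟩
    rw [hts, hm, Algebra.TensorProduct.comm_tmul]
    rfl

/-- an Artin-Schreier element has an eigenvector of eigenvalue one. -/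
theorem exists_eig1 {k D : Type*} [Field k] [DivisionRing D] [Algebra k D] {p : ℕ} (hp : p.Prime) [CharP k p] {t : D}
    (ht : t ^ p - t ∈ Set.range (algebraMap k D)) (hnc : ∃ u, t * u ≠ u * t) :
    ∃ w : D, t * w - w * t = w ∧ w ≠ 0 := by
  haveI : Fact p.Prime := ⟨hp⟩
  haveI : CharP (Module.End k D) p := charP_of_injective_algebraMap (R := k) (A := Module.End k D)
    (FaithfulSMul.algebraMap_injective k (Module.End k D)) p
  let δ : Module.End k D := LinearMap.mulLeft k t - LinearMap.mulRight k t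
  have hδ : ∀ x, δ x = t * x - x * t := fun x => rfl
  have hcomm : Commute (LinearMap.mulLeft k t) (LinearMap.mulRight k t) := by
    change LinearMap.mulLeft k t * LinearMap.mulRight k t = LinearMap.mulRight k t * LinearMap.mulLeft k t
    ext d
    simp [mul_assoc]
  have hδp : δ ^ p = δ := by
    change (LinearMap.mulLeft k t - LinearMap.mulRight k t) ^ p = _
    rw [sub_pow_char_of_commute p hcomm]
    obtain ⟨c, hc⟩ := ht
    have h1 : (LinearMap.mulLeft k t) ^ p = LinearMap.mulLeft k (t ^ p) := LinearMap.pow_mulLeft k D t p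
    have h2 : (LinearMap.mulRight k t) ^ p = LinearMap.mulRight k (t ^ p) := LinearMap.pow_mulRight k D t p
    have h3 : t ^ p = t + algebraMap k D c := by rw [hc]; abel
    rw [h1, h2, h3]
    ext d
    rw [LinearMap.sub_apply, LinearMap.mulLeft_apply, LinearMap.mulRight_apply, add_mul, mul_add,
      Algebra.commutes, hδ]
    abel
  obtain ⟨u, hu⟩ := hnc
  have hδu : δ u ≠ 0 := by rw [hδ]; exact sub_ne_zero.2 hu
  by_contra hno
  push Not at hno
  -- all nonzero eigenvalues are excluded
  have hpow : ∀ (i : k) (y : D), δ y = i • y → ∀ m : ℕ, δ (y ^ m) = ((m : k) * i) • y ^ m := by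
    intro i y hy m
    rw [hδ] at hy
    induction m with
    | zero => rw [hδ]; simp
    | succ m ih =>
      rw [hδ] at ih ⊢
      have h1 : t * y ^ (m + 1) - y ^ (m + 1) * t = (t * y ^ m - y ^ m * t) * y + y ^ m * (t * y - y * t) := by
        rw [pow_succ]; noncomm_ring
      rw [h1, ih, hy, smul_mul_assoc, mul_smul_comm, ← pow_succ, ← add_smul]
      congr 1
      push_cast
      ring
  have hinj : ∀ i : ZMod p, i ≠ 0 → ∀ y, (aeval δ (X - C (ZMod.cast i : k))) y = 0 → y = 0 := by
    intro i hi y hy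
    rw [map_sub, aeval_X, aeval_C, LinearMap.sub_apply, sub_eq_zero] at hy
    have hy' : δ y = (ZMod.cast i : k) • y := hy
    by_contra hy0
    have h1 := hpow _ _ hy' (i⁻¹).val
    have h2 : (((i⁻¹).val : ℕ) : k) * (ZMod.cast i : k) = 1 := by
      have h3 : (((i⁻¹).val : ℕ) : k) = (ZMod.castHom (dvd_refl p) k) i⁻¹ := by
        rw [ZMod.castHom_apply, ZMod.natCast_val]
      have h4 : (ZMod.cast i : k) = (ZMod.castHom (dvd_refl p) k) i := rfl
      rw [h3, h4, ← map_mul, inv_mul_cancel₀ hi, map_one]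
    rw [h2, one_smul, hδ] at h1
    exact pow_ne_zero _ hy0 (hno _ h1)
  have hprod : ∀ s : Finset (ZMod p), (∀ i ∈ s, i ≠ 0) → ∀ y,
      (aeval δ (∏ i ∈ s, (X - C (ZMod.cast i : k)))) y = 0 → y = 0 := by
    classical
    intro s
    induction s using Finset.induction_on with
    | empty => intro _ y hy; simpa using hy
    | insert a s ha ih =>
      intro hs y hy
      rw [prod_insert ha, map_mul] at hy
      exact ih (fun i hi => hs i (mem_insert_of_mem hi)) y (hinj a (hs a (mem_insert_self _ _)) _ hy)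
  have hfac : (X ^ p - X : k[X]) = ∏ i : ZMod p, (X - C (ZMod.cast i : k)) := by
    have h1 := congrArg (Polynomial.map (ZMod.castHom (dvd_refl p) k)) (X_pow_sub_X_prod p)
    rw [Polynomial.map_sub, Polynomial.map_pow, map_X, Polynomial.map_prod] at h1
    rw [h1]
    refine prod_congr rfl fun i _ => ?_
    rw [Polynomial.map_sub, map_X, map_C]
    rfl
  have h0 : (aeval δ (X ^ p - X : k[X])) u = 0 := by
    rw [map_sub, map_pow, aeval_X, hδp, sub_self]
    rfl
  classical
  rw [hfac, ← mul_prod_erase univ _ (mem_univ (0 : ZMod p)), mul_comm, map_mul] at h0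
  have h1 := hprod (univ.erase 0) (fun i hi => ne_of_mem_erase hi) _ h0
  apply hδu
  simpa using h1

/-- roots of `x ^ (p - 1) = 1` in characteristic `p`. -/
theorem exists_zmod {E : Type*} [Field E] {p : ℕ} (hp : p.Prime) [CharP E p] {u : E} (hu : u ^ (p - 1) = 1) :
    ∃ i : ZMod p, (ZMod.cast i : E) = u := by
  haveI : Fact p.Prime := ⟨hp⟩
  have h1 := congrArg (Polynomial.map (ZMod.castHom (dvd_refl p) E)) (X_pow_sub_X_prod p)
  rw [Polynomial.map_sub, Polynomial.map_pow, map_X, Polynomial.map_prod] at h1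
  have h2 := congrArg (Polynomial.eval u) h1
  rw [eval_sub, eval_pow, eval_X, eval_prod] at h2
  have h3 : u ^ p - u = 0 := by
    obtain ⟨q, hq⟩ : ∃ q, p = q + 1 := ⟨p - 1, by have := hp.pos; omega⟩
    rw [hq] at hu ⊢
    rw [Nat.add_sub_cancel] at hu
    rw [pow_succ, hu, one_mul, sub_self]
  rw [h3] at h2
  obtain ⟨i, _, hi⟩ := prod_eq_zero_iff.1 h2.symm
  rw [Polynomial.map_sub, map_X, map_C, eval_sub, eval_X, eval_C, sub_eq_zero] at hi
  exact ⟨i, hi.symm⟩

end Run7.h339
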