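import Mathlib
import Pool.Agent.Run7.h339.Solv

/-! Elements with `z ^ p - a z` central in characteristic `p`, II. -/

set_option autoImplicit false
set_option linter.all false

namespace Run7.h339

open Module TensorProduct Finset Polynomial

universe u

/-- facts on the extension `F(a^{1/(p-1)})`. -/
theorem kummer_data {F : Type u} [Field F] {p : ℕ} (hp : p.Prime) [CharP F p] {a : F} (ha : a ≠ 0) :
    ∃ (E : Type u) (_ : Field E) (_ : Algebra F E) (_ : FiniteDimensional F E) (_ : IsGalois F E) (α : E)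
      (χ : (E ≃ₐ[F] E) → ZMod p), α ^ (p - 1) = algebraMap F E a ∧ α ≠ 0 ∧ (∀ g, g α = (ZMod.cast (χ g) : E) * α) ∧
      (∀ g, χ g ≠ 0) ∧ (∀ g h, χ (g * h) = χ g * χ h) ∧ (Fintype.card (E ≃ₐ[F] E)).Coprime p := by
  classical
  haveI : Fact p.Prime := ⟨hp⟩
  have hp1 : 0 < p - 1 := by have := hp.two_le; omega
  have hcast : (((p - 1 : ℕ)) : F) ≠ 0 := by
    intro h0
    rw [CharP.cast_eq_zero_iff F p] at h0
    have := Nat.le_of_dvd hp1 h0
    have := hp.two_le
    omega
  let f : F[X] := X ^ (p - 1) - C a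
  have hf : f = X ^ (p - 1) - C a := rfl
  have hsep : f.Separable := separable_X_pow_sub_C a hcast ha
  let E := f.SplittingField
  haveI : IsGalois F E := IsGalois.of_separable_splitting_field hsep
  haveI : CharP E p := charP_of_injective_algebraMap (algebraMap F E).injective p
  have hfd : f.natDegree = p - 1 := natDegree_X_pow_sub_C
  have hsplit : (f.map (algebraMap F E)).Splits := SplittingField.splits f
  obtain ⟨α, hα⟩ : ∃ α : E, α ^ (p - 1) = algebraMap F E a := by
    obtain ⟨α, hα⟩ := hsplit.exists_eval_eq_zero (by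
      rw [degree_map, degree_eq_natDegree (by
        intro h0
        rw [h0, natDegree_zero] at hfd
        omega), hfd]
      exact_mod_cast hp1.ne')
    refine ⟨α, ?_⟩
    change eval α ((X ^ (p - 1) - C a : F[X]).map (algebraMap F E)) = 0 at hα
    rw [Polynomial.map_sub, Polynomial.map_pow, map_X, map_C, eval_sub, eval_pow, eval_X, eval_C, sub_eq_zero] at hα
    exact hα
  have hα0 : α ≠ 0 := by
    rintro rfl
    rw [zero_pow hp1.ne'] at hα
    exact ha ((map_eq_zero _).1 hα.symm)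
  have hχ : ∀ g : E ≃ₐ[F] E, ∃ i : ZMod p, (ZMod.cast i : E) = g α / α := by
    intro g
    apply exists_zmod hp
    rw [div_pow, ← map_pow, hα, AlgEquiv.commutes, div_self]
    exact (_root_.map_ne_zero _).2 ha
  choose χ hχ using hχ
  have hg : ∀ g, g α = (ZMod.cast (χ g) : E) * α := by
    intro g
    rw [hχ, div_mul_cancel₀ _ hα0]
  have hχ0 : ∀ g, χ g ≠ 0 := by
    intro g h0
    have := hg g
    rw [h0, ZMod.cast_zero, zero_mul, map_eq_zero] at this
    exact hα0 this
  have hcastinj : Function.Injective (ZMod.castHom (dvd_refl p) E) := (ZMod.castHom (dvd_refl p) E).injective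
  have hcastfix : ∀ (g : E ≃ₐ[F] E) (i : ZMod p), g (ZMod.cast i : E) = (ZMod.cast i : E) := by
    intro g i
    have h1 : (ZMod.cast i : E) = ((i.val : ℕ) : E) := (ZMod.natCast_val i).symm
    rw [h1, map_natCast]
  have hmul : ∀ g h, χ (g * h) = χ g * χ h := by
    intro g h
    apply hcastinj
    rw [map_mul]
    change (ZMod.cast (χ (g * h)) : E) = (ZMod.cast (χ g) : E) * (ZMod.cast (χ h) : E)
    apply mul_right_cancel₀ hα0
    rw [← hg, AlgEquiv.mul_apply, hg h, map_mul, hcastfix, hg g]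
    ring
  have hinj : Function.Injective χ := by
    intro g h hgh
    have h1 : g α = h α := by rw [hg, hg, hgh]
    have h2 : (g : E →ₐ[F] E) = (h : E →ₐ[F] E) := by
      apply AlgHom.ext_of_adjoin_eq_top (SplittingField.adjoin_rootSet f)
      intro x hx
      rw [mem_rootSet] at hx
      have hx2 : x ^ (p - 1) = algebraMap F E a := by
        have h3 : aeval x (X ^ (p - 1) - C a : F[X]) = 0 := hx.2
        rw [map_sub, map_pow, aeval_X, aeval_C, sub_eq_zero] at h3
        exact h3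
      obtain ⟨i, hi⟩ := exists_zmod hp (u := x / α) (by
        rw [div_pow, hx2, hα, div_self]
        exact (_root_.map_ne_zero _).2 ha)
      have hx3 : x = (ZMod.cast i : E) * α := by rw [hi, div_mul_cancel₀ _ hα0]
      change g x = h x
      rw [hx3, map_mul, map_mul, hcastfix, hcastfix, h1]
    ext x
    exact congrArg (fun f : E →ₐ[F] E => f x) h2
  refine ⟨E, inferInstance, inferInstance, inferInstance, inferInstance, α, χ, hα, hα0, hg, hχ0, hmul, ?_⟩
  have hcard : Fintype.card (E ≃ₐ[F] E) ≤ p - 1 := by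
    have h1 : Function.Injective (fun g : E ≃ₐ[F] E => Units.mk0 (χ g) (hχ0 g)) := by
      intro g h hgh
      apply hinj
      exact congrArg Units.val hgh
    have h2 := Fintype.card_le_of_injective _ h1
    rwa [ZMod.card_units p] at h2
  rw [Nat.coprime_comm, hp.coprime_iff_not_dvd]
  intro hd
  have h1 := Nat.le_of_dvd Fintype.card_pos hd
  have := hp.two_le
  omega

/-- the computation in the extended algebra. -/
theorem solv_core {E D G : Type*} [Field E] [DivisionRing D] [Algebra E D] [FiniteDimensional E D]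
    [Algebra.IsCentral E D] [Group G] [Fintype G] {p : ℕ} (hp : p.Prime) [CharP E p] (hdimE : finrank E D = p ^ 2)
    (ρ : G → D →+* D) (r : G → E →+* E) (hρm : ∀ g x, ρ g (algebraMap E D x) = algebraMap E D (r g x))
    (hr : ∀ g h x, r (g * h) x = r g (r h x)) (hcop : (Fintype.card G).Coprime p)
    {α : E} (hα0 : α ≠ 0) {χ : G → ZMod p} (hg : ∀ g, r g α = (ZMod.cast (χ g) : E) * α) (hχ0 : ∀ g, χ g ≠ 0)
    (hmul : ∀ g h, χ (g * h) = χ g * χ h) {z : D} (hρz : ∀ g, ρ g z = z) (hz : ∃ u, z * u ≠ u * z) {c : E}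
    (h : z ^ p = algebraMap E D (α ^ (p - 1)) * z + algebraMap E D c) :
    ∃ (w : D) (b : E), w ^ p = algebraMap E D b ∧ (∀ e : E, e ^ p ≠ b) ∧
      ∀ g, ∃ (n : ℕ) (e : E), r g b = b ^ n * e ^ p := by
  classical
  haveI : Fact p.Prime := ⟨hp⟩
  haveI : CharP D p := charP_of_injective_algebraMap (algebraMap E D).injective p
  set m := algebraMap E D with hm
  have hmc : ∀ e x, m e * x = x * m e := fun e x => Algebra.commutes e x
  -- the Artin-Schreier element
  obtain ⟨y, hydef⟩ : ∃ y : D, y = m α⁻¹ * z := ⟨_, rfl⟩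
  have hy : y ^ p - y = m (α⁻¹ ^ p * c) := by
    have h1 : y ^ p = m (α⁻¹ ^ p) * z ^ p := by
      rw [hydef, (show Commute (m α⁻¹) z from hmc _ _).mul_pow, map_pow]
    rw [h1, h, mul_add, ← mul_assoc, ← map_mul, ← map_mul]
    have h2 : α⁻¹ ^ p * α ^ (p - 1) = α⁻¹ := by
      rw [inv_pow]
      have h3 : α ^ p = α ^ (p - 1) * α := by
        rw [← pow_succ]; congr 1; have := hp.pos; omega
      rw [h3, mul_inv, mul_comm (α ^ (p - 1))⁻¹, mul_assoc, inv_mul_cancel₀ (pow_ne_zero _ hα0), mul_one]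
    rw [h2, ← hydef, add_sub_cancel_left]
  obtain ⟨u, hu⟩ := hz
  have hyu : y * u ≠ u * y := by
    intro h1
    apply hu
    have h2 : m α⁻¹ * (z * u) = m α⁻¹ * (u * z) := by
      rw [← mul_assoc, ← hydef, h1, hydef, ← mul_assoc, ← hmc, mul_assoc]
    exact mul_left_cancel₀ (by rw [hm, Ne, map_eq_zero]; exact inv_ne_zero hα0) h2
  obtain ⟨w, hw, hw0⟩ := exists_eig1 (k := E) hp (t := y) ⟨_, hy.symm⟩ ⟨_, hyu⟩
  have hyE : y ∉ Set.range m := by
    rintro ⟨e, he⟩
    apply hyu
    rw [← he, hmc]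
  -- powers of `w`
  have hwpow : ∀ n : ℕ, y * w ^ n - w ^ n * y = (n : D) * w ^ n := by
    intro n
    induction n with
    | zero => simp
    | succ n ih =>
      have h1 : y * w ^ (n + 1) - w ^ (n + 1) * y = (y * w ^ n - w ^ n * y) * w + w ^ n * (y * w - w * y) := by
        rw [pow_succ]; noncomm_ring
      rw [h1, ih, hw]
      push_cast
      rw [pow_succ]
      noncomm_ring
  have hyw : y * w ≠ w * y := by
    intro h1
    apply hw0
    rw [← hw, h1, sub_self]
  obtain ⟨b, hb⟩ : w ^ p ∈ Set.range m := by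
    by_contra hno
    apply hyw
    refine comm_trans hp hdimE hno ?_ ?_
    · have h1 := hwpow p
      rw [CharP.cast_eq_zero, zero_mul, sub_eq_zero] at h1
      exact h1.symm
    · rw [← pow_succ, ← pow_succ']
  have hyw' : y * w = w * (y + 1) := by
    have h1 : y * w = (y * w - w * y) + w * y := by abel
    rw [h1, hw, mul_add, mul_one, add_comm]
  have hcw : (w * y * w⁻¹) * y = y * (w * y * w⁻¹) := by
    have h1 : w * y * w⁻¹ = y - 1 := by
      have h2 : w * y = (y - 1) * w := by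
        rw [sub_mul, hyw', one_mul]; noncomm_ring
      rw [h2, mul_assoc, mul_inv_cancel₀ hw0, mul_one]
    rw [h1]; noncomm_ring
  -- the Galois action
  obtain ⟨n, hndef⟩ : ∃ n : G → ℕ, n = fun g => (χ g).val := ⟨_, rfl⟩
  have hncast : ∀ g, ((n g : ℕ) : E) = (ZMod.cast (χ g) : E) := fun g => by
    rw [hndef]; exact ZMod.natCast_val _
  have hnz : ∀ g, ((n g : ℕ) : ZMod p) = χ g := fun g => by
    rw [hndef]
    change (((χ g).val : ℕ) : ZMod p) = χ g
    rw [ZMod.natCast_val, ZMod.cast_id', id]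
  have hcop' : ∀ g, (n g).Coprime p := by
    intro g
    rw [Nat.coprime_comm, hp.coprime_iff_not_dvd, ← ZMod.natCast_eq_zero_iff, hnz]
    exact hχ0 g
  have hnE : ∀ g, ((n g : ℕ) : E) ≠ 0 := by
    intro g h0
    rw [CharP.cast_eq_zero_iff E p] at h0
    have h1 := hcop' g
    rw [Nat.coprime_comm, hp.coprime_iff_not_dvd] at h1
    exact h1 h0
  have hρy : ∀ g, (m ((n g : ℕ) : E)) * ρ g y = y := by
    intro g
    rw [hydef, map_mul, hρm, hρz, ← mul_assoc, ← map_mul, map_inv₀, hg, hncast]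
    congr 2
    have h1 : (ZMod.cast (χ g) : E) ≠ 0 := by rw [← hncast]; exact hnE g
    rw [mul_inv, ← mul_assoc, mul_inv_cancel₀ h1, one_mul]
  have hρw : ∀ g, y * ρ g w - ρ g w * y = m ((n g : ℕ) : E) * ρ g w := by
    intro g
    have h1 := congrArg (ρ g) hw
    rw [map_sub, map_mul, map_mul] at h1
    have h2 : m ((n g : ℕ) : E) * ρ g y * ρ g w - ρ g w * (m ((n g : ℕ) : E) * ρ g y) =
        m ((n g : ℕ) : E) * (ρ g y * ρ g w - ρ g w * ρ g y) := by
      rw [mul_sub, ← mul_assoc (ρ g w), ← hmc, mul_assoc, mul_assoc]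
    rw [h1, hρy g] at h2
    exact h2
  obtain ⟨cc, hccdef⟩ : ∃ cc : G → D, ∀ g, cc g = ρ g w * (w ^ n g)⁻¹ := ⟨fun g => ρ g w * (w ^ n g)⁻¹, fun g => rfl⟩
  have hcc : ∀ g, cc g * y = y * cc g := by
    intro g
    have hwn : w ^ n g ≠ 0 := pow_ne_zero _ hw0
    have h1 : (w ^ n g)⁻¹ * y = (y + m ((n g : ℕ) : E)) * (w ^ n g)⁻¹ := by
      have h2 := hwpow (n g)
      have h3 : y * w ^ n g = w ^ n g * (y + m ((n g : ℕ) : E)) := by
        have h5 : y * w ^ n g = (y * w ^ n g - w ^ n g * y) + w ^ n g * y := by abel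
        rw [h5, h2, mul_add, ← hmc, map_natCast, add_comm]
      have h4 : (w ^ n g)⁻¹ * (y * w ^ n g) * (w ^ n g)⁻¹ = (w ^ n g)⁻¹ * (w ^ n g * (y + m ((n g : ℕ) : E))) * (w ^ n g)⁻¹ := by
        rw [h3]
      rw [← mul_assoc, mul_assoc _ (w ^ n g) (w ^ n g)⁻¹, mul_inv_cancel₀ hwn, mul_one, ← mul_assoc,
        inv_mul_cancel₀ hwn, one_mul] at h4
      exact h4
    have h5 : ρ g w * (y + m ((n g : ℕ) : E)) = y * ρ g w := by
      have h6 : y * ρ g w = (y * ρ g w - ρ g w * y) + ρ g w * y := by abel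
      rw [h6, hρw g, mul_add, ← hmc, add_comm]
    rw [hccdef, mul_assoc, h1, ← mul_assoc, h5, mul_assoc]
  have hccw : ∀ g, ρ g w = cc g * w ^ n g := by
    intro g
    rw [hccdef, mul_assoc, inv_mul_cancel₀ (pow_ne_zero _ hw0), mul_one]
  obtain ⟨c', S, b', hc'y, hS, hb', hb'0, hstab⟩ := conj_prod_csa (E := E) (D := D) (G := G) hp hdimE hyE hw0 hcw
    hb.symm ρ r hρm hr cc hcc n hccw
    (by
      intro g h
      rw [← ZMod.natCast_eq_natCast_iff]
      push_cast
      rw [hnz, hnz, hnz, hmul]) hcop' hcop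
  obtain ⟨w', hw'⟩ : ∃ w' : D, w' = c' * w ^ S := ⟨_, rfl⟩
  rw [← hw'] at hb'
  have hSne : ((S : ℕ) : D) ≠ 0 := by
    intro h0
    rw [CharP.cast_eq_zero_iff D p] at h0
    rw [Nat.coprime_comm, hp.coprime_iff_not_dvd] at hcop
    exact hcop ((Nat.ModEq.dvd_iff hS dvd_rfl).1 h0)
  have hw'0 : w' ≠ 0 := by
    intro h0
    rw [h0, zero_pow hp.ne_zero] at hb'
    exact hb'0 ((map_eq_zero _).1 hb'.symm)
  have hyw'2 : y * w' - w' * y = (S : D) * w' := by
    have h1 : y * w' - w' * y = c' * (y * w ^ S - w ^ S * y) := by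
      rw [hw', mul_sub, ← mul_assoc, ← hc'y]
      noncomm_ring
    rw [h1, hwpow, hw', ← mul_assoc, ← mul_assoc, (Nat.cast_commute S c').eq]
  refine ⟨w', b', hb', ?_, fun g => ?_⟩
  · intro e he
    -- `w'` would be central
    have h1 : (w' - m e) ^ p = 0 := by
      rw [sub_pow_char_of_commute p (show Commute w' (m e) from (hmc e w').symm), hb', ← he, map_pow, sub_self]
    have h2 := eq_zero_of_pow_eq_zero h1
    rw [sub_eq_zero] at h2
    have h3 : y * w' - w' * y = 0 := by rw [h2, ← hmc, sub_self]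
    rw [h3] at hyw'2
    exact (mul_ne_zero hSne hw'0) hyw'2.symm
  · obtain ⟨e, _, he⟩ := hstab g
    exact ⟨n g, e, he⟩

/-- **elements with `z ^ p - a z` central produce `p`-central elements.** -/
theorem pcentral_of_solv {F D : Type*} [Field F] [DivisionRing D] [Algebra F D]
    [Algebra.IsCentral F D] [FiniteDimensional F D] {p : ℕ} (hp : p.Prime) [CharP F p] (hD : finrank F D = p ^ 2)
    {z : D} (hz : z ∉ Set.range (algebraMap F D)) {a c : F} (h : z ^ p = algebraMap F D a * z + algebraMap F D c) :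
    ∃ v : D, v ∉ Set.range (algebraMap F D) ∧ v ^ p ∈ Set.range (algebraMap F D) := by
  classical
  haveI : Fact p.Prime := ⟨hp⟩
  by_cases ha : a = 0
  · refine ⟨z, hz, c, ?_⟩
    rw [h, ha, map_zero, zero_mul, zero_add]
  obtain ⟨E, _, _, _, _, α, χ, hα, hα0, hg, hχ0, hmul, hcop⟩ := kummer_data hp ha
  haveI : CharP E p := charP_of_injective_algebraMap (algebraMap F E).injective p
  have hE : (finrank F E).Coprime p := by
    have := IsGalois.card_aut_eq_finrank F E
    rw [Nat.card_eq_fintype_card] at this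
    rwa [this] at hcop
  have hdiv := tens_division (F := F) (E := E) (D := D) (by
    rw [hD]; exact Nat.Coprime.pow_right 2 hE)
  haveI := simple_tens (F := F) (E := E) (D := D)
  haveI hnt : Nontrivial (E ⊗[F] D) := IsSimpleRing.instNontrivial
  haveI hcen : Algebra.IsCentral E (E ⊗[F] D) := central_tens
  haveI hfd : FiniteDimensional E (E ⊗[F] D) := inferInstance
  have hdimE : finrank E (E ⊗[F] D) = p ^ 2 := by rw [Module.finrank_baseChange, hD]
  let ι : D →ₐ[F] E ⊗[F] D := Algebra.TensorProduct.includeRight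
  have hιinj : Function.Injective ι := ι.toRingHom.injective
  obtain ⟨u, hu⟩ : ∃ u, z * u ≠ u * z := by
    by_contra hno
    push Not at hno
    exact hz ((mem_center_iff' z).2 fun y => (hno y).symm)
  have hmF : ∀ x : F, ι (algebraMap F D x) = algebraMap E (E ⊗[F] D) (algebraMap F E x) := by
    intro x
    rw [AlgHom.commutes, ← IsScalarTower.algebraMap_apply]
  let ρ : (E ≃ₐ[F] E) → (E ⊗[F] D) →+* (E ⊗[F] D) := fun g =>
    (Algebra.TensorProduct.map (g : E →ₐ[F] E) (AlgHom.id F D)).toRingHom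
  have hρm : ∀ g x, ρ g (algebraMap E (E ⊗[F] D) x) = algebraMap E (E ⊗[F] D) (g x) := by
    intro g x
    change Algebra.TensorProduct.map (g : E →ₐ[F] E) (AlgHom.id F D) (x ⊗ₜ[F] (1 : D)) = (g x) ⊗ₜ[F] (1 : D)
    rw [Algebra.TensorProduct.map_tmul]
    simp
  have hρι : ∀ g x, ρ g (ι x) = ι x := by
    intro g x
    change Algebra.TensorProduct.map (g : E →ₐ[F] E) (AlgHom.id F D) ((1 : E) ⊗ₜ[F] x) = (1 : E) ⊗ₜ[F] x
    rw [Algebra.TensorProduct.map_tmul]
    simp
  letI hDR : DivisionRing (E ⊗[F] D) := DivisionRing.ofIsUnitOrEqZero (fun a => by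
    by_cases ha : a = 0
    · exact Or.inr ha
    · exact Or.inl (hdiv a ha))
  obtain ⟨w, b, hw, hb, hstab⟩ := solv_core (E := E) (D := E ⊗[F] D) (G := E ≃ₐ[F] E) hp hdimE ρ
    (fun g => (g : E →+* E)) hρm (fun g h x => rfl) hcop hα0 hg hχ0 hmul (z := ι z) (fun g => hρι g z)
    ⟨ι u, fun h1 => hu (hιinj (by rw [map_mul, map_mul]; exact h1))⟩ (c := algebraMap F E c) (by
      rw [hα, ← hmF, ← hmF, ← map_mul, ← map_pow, ← map_add, h])
  exact descend_pcentral hp hD hE (w := w) (b := b) hw hb hstab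

end Run7.h339
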