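import Mathlib
import Pool.Agent.Run7.h339.Solv

/-! Solvable irreducible polynomials of degree `p` in characteristic `p`. -/

set_option autoImplicit false
set_option linter.all false

namespace Run7.h339

open Module Finset Polynomial

/-- Galois: a solvable transitive faithful group of prime degree has a normal subgroup of prime order
which is transitive. -/
theorem exists_normal_prime {G Ω : Type*} [Group G] [Finite G] [MulAction G Ω] [FaithfulSMul G Ω]
    [MulAction.IsPretransitive G Ω] {p : ℕ} (hp : p.Prime) (hΩ : Nat.card Ω = p) (hs : IsSolvable G) :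
    ∃ A : Subgroup G, A.Normal ∧ Nat.card A = p ∧ ∀ x y : Ω, ∃ a ∈ A, a • x = y := by
  classical
  haveI : Finite Ω := (Nat.card_ne_zero.mp (by rw [hΩ]; exact hp.ne_zero)).2
  haveI : MulAction.IsPreprimitive G Ω := MulAction.IsPreprimitive.of_prime_card (by rw [hΩ]; exact hp)
  -- an abelian normal subgroup
  have hGne : ¬ Subsingleton G := by
    intro hsub
    haveI : Nontrivial Ω := by
      rw [← Finite.one_lt_card_iff_nontrivial, hΩ]; exact hp.one_lt
    obtain ⟨x, y, hxy⟩ := exists_pair_ne Ω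
    obtain ⟨g, hg⟩ := MulAction.exists_smul_eq G x y
    apply hxy
    rw [← hg, Subsingleton.elim g 1, one_smul]
  have hex : ∃ n, derivedSeries G n = ⊥ := hs.solvable
  set n := Nat.find hex with hn
  have hn0 : n ≠ 0 := by
    intro h0
    have := Nat.find_spec hex
    rw [← hn, h0, derivedSeries_zero] at this
    apply hGne
    rw [Subgroup.subsingleton_iff.symm]
    exact subsingleton_of_top_le_bot this.le
  obtain ⟨m, hm⟩ := Nat.exists_eq_succ_of_ne_zero hn0
  set A := derivedSeries G m with hA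
  have hAne : A ≠ ⊥ := Nat.find_min hex (by rw [← hn, hm]; exact Nat.lt_succ_self m)
  have hAcomm : ∀ a ∈ A, ∀ b ∈ A, a * b = b * a := by
    have h1 : ⁅A, A⁆ = ⊥ := by
      have := Nat.find_spec hex
      rw [← hn, hm, Nat.succ_eq_add_one, derivedSeries_succ] at this
      exact this
    rw [Subgroup.commutator_eq_bot_iff_le_centralizer] at h1
    intro a ha b hb
    have := h1 ha
    rw [Subgroup.mem_centralizer_iff] at this
    exact (this b hb).symm
  haveI hAn : A.Normal := derivedSeries_normal G m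
  -- transitivity
  haveI : MulAction.IsPretransitive A Ω := by
    apply MulAction.IsQuasiPreprimitive.isPretransitive_of_normal (G := G)
    intro hfix
    apply hAne
    rw [Subgroup.eq_bot_iff_forall]
    intro a ha
    apply FaithfulSMul.eq_of_smul_eq_smul (α := Ω)
    intro x
    have hx : x ∈ MulAction.fixedPoints A Ω := by rw [hfix]; trivial
    have := hx ⟨a, ha⟩
    rw [one_smul]
    exact this
  have htrans : ∀ x y : Ω, ∃ a ∈ A, a • x = y := by
    intro x y
    obtain ⟨a, ha⟩ := MulAction.exists_smul_eq A x y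
    exact ⟨a, a.2, ha⟩
  refine ⟨A, hAn, ?_, htrans⟩
  -- regularity
  obtain ⟨x0⟩ : Nonempty Ω := by
    rw [← Nat.card_pos_iff.trans ⟨fun h => h.1, fun h => ⟨h, inferInstance⟩⟩]
    rw [hΩ]; exact hp.pos
  rw [← hΩ]
  refine Nat.card_congr (Equiv.ofBijective (fun a : A => a • x0) ⟨?_, ?_⟩)
  · intro a b hab
    apply Subtype.ext
    apply FaithfulSMul.eq_of_smul_eq_smul (α := Ω)
    intro y
    obtain ⟨c, hc, rfl⟩ := htrans x0 y
    have h1 : (a : G) • x0 = (b : G) • x0 := hab
    rw [← mul_smul, ← mul_smul, hAcomm a a.2 c hc, hAcomm b b.2 c hc, mul_smul, mul_smul, h1]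
  · intro y
    obtain ⟨a, ha, h⟩ := htrans x0 y
    exact ⟨⟨a, ha⟩, h⟩


/-- the additive resolvent computation. -/
theorem resolvent {N G : Type*} [Field N] [Group G] [MulSemiringAction G N] {p : ℕ} (hp : p.Prime) [CharP N p]
    {τ : G} (hτ : τ ^ p = 1) {x0 : N} (hx0 : Set.InjOn (fun i : ℕ => (τ ^ i) • x0) (Set.Iio p)) :
    ∃ (Y : N), τ • Y = Y - 1 ∧ (∀ h : G, h • x0 = x0 → ∀ k : ℕ, k.Coprime p → h * τ * h⁻¹ = τ ^ k →
      (k : N) * (h • Y) = Y) := by
  classical
  haveI : Fact p.Prime := ⟨hp⟩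
  -- a power with nonzero sum of conjugates
  obtain ⟨m, hm⟩ : ∃ m : ℕ, ∑ i ∈ range p, ((τ ^ i) • x0) ^ m ≠ 0 := by
    by_contra hno
    push Not at hno
    let q : N[X] := Lagrange.interpolate (range p) (fun i => (τ ^ i) • x0) (fun i => if i = 0 then 1 else 0)
    have hinj : Set.InjOn (fun i : ℕ => (τ ^ i) • x0) (range p) := by
      intro a ha b hb hab
      exact hx0 (by simpa using ha) (by simpa using hb) hab
    have hq : ∀ i ∈ range p, q.eval ((τ ^ i) • x0) = if i = 0 then 1 else 0 := fun i hi =>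
      Lagrange.eval_interpolate_at_node _ hinj hi
    have h1 : ∑ i ∈ range p, q.eval ((τ ^ i) • x0) = 1 := by
      rw [sum_congr rfl hq, sum_ite_eq']
      rw [if_pos (mem_range.2 hp.pos)]
    have h2 : ∑ i ∈ range p, q.eval ((τ ^ i) • x0) = 0 := by
      simp only [eval_eq_sum_range]
      rw [sum_comm]
      refine sum_eq_zero fun j _ => ?_
      rw [← mul_sum, hno, mul_zero]
    rw [h2] at h1
    exact zero_ne_one h1
  obtain ⟨u, hu⟩ : ∃ u : N, u = x0 ^ m := ⟨_, rfl⟩
  have hmod : ∀ a b : ℕ, a ≡ b [MOD p] → τ ^ a = τ ^ b := by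
    intro a b hab
    rw [← Nat.div_add_mod a p, ← Nat.div_add_mod b p, pow_add, pow_add, pow_mul, pow_mul, hτ, one_pow, one_pow, hab]
  let U : ZMod p → N := fun i => (τ ^ i.val) • u
  have hUnat : ∀ n : ℕ, U (n : ZMod p) = (τ ^ n) • u := by
    intro n
    change (τ ^ ((n : ZMod p)).val) • u = _
    rw [ZMod.val_natCast, hmod _ _ (Nat.mod_modEq n p)]
  have hsumU : ∑ i : ZMod p, U i = ∑ i ∈ range p, ((τ ^ i) • x0) ^ m := by
    rw [← Fin.sum_univ_eq_sum_range (fun i => ((τ ^ i) • x0) ^ m)]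
    symm
    refine Fintype.sum_bijective (fun i : Fin p => ((i : ℕ) : ZMod p)) ?_ _ _ ?_
    · constructor
      · intro a b hab
        simp only at hab
        rw [ZMod.natCast_eq_natCast_iff] at hab
        exact Fin.ext (Nat.ModEq.eq_of_lt_of_lt hab a.2 b.2)
      · intro b
        refine ⟨⟨b.val, ZMod.val_lt b⟩, ?_⟩
        simp
    · intro i
      rw [hUnat, hu, smul_pow']
  obtain ⟨t, ht⟩ : ∃ t : N, t = ∑ i : ZMod p, U i := ⟨_, rfl⟩
  have ht0 : t ≠ 0 := by rw [ht, hsumU]; exact hm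
  have hτU : ∀ i, τ • U i = U (i + 1) := by
    intro i
    have h1 : i + 1 = ((i.val + 1 : ℕ) : ZMod p) := by
      push_cast
      rw [ZMod.natCast_val, ZMod.cast_id', id]
    rw [h1, hUnat, pow_succ', mul_smul]
  let c : ZMod p →+* N := ZMod.castHom (dvd_refl p) N
  have hcn : ∀ n : ℕ, c (n : ZMod p) = (n : N) := fun n => map_natCast c n
  have hcfix : ∀ (g : G) (i : ZMod p), g • c i = c i := by
    intro g i
    have h1 : c i = ((i.val : ℕ) : N) := by
      rw [← hcn, ZMod.natCast_val, ZMod.cast_id', id]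
    rw [h1]
    exact map_natCast (MulSemiringAction.toRingHom G N g) _
  obtain ⟨y, hy⟩ : ∃ y : N, y = ∑ i : ZMod p, c i * U i := ⟨_, rfl⟩
  have hτt : τ • t = t := by
    rw [ht, smul_sum]
    simp only [hτU]
    exact Fintype.sum_equiv (Equiv.addRight (1 : ZMod p)) _ _ fun i => rfl
  have hτy : τ • y = y - t := by
    rw [hy, ht, smul_sum, ← sum_sub_distrib]
    have h1 : ∀ i : ZMod p, τ • (c i * U i) = c ((i + 1) - 1) * U (i + 1) := by
      intro i
      rw [smul_mul', hcfix, hτU, add_sub_cancel_right]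
    simp only [h1]
    rw [Fintype.sum_equiv (Equiv.addRight (1 : ZMod p)) (fun i => c ((i + 1) - 1) * U (i + 1))
      (fun i => c (i - 1) * U i) fun i => rfl]
    refine sum_congr rfl fun i _ => ?_
    rw [map_sub, map_one]
    ring
  refine ⟨y / t, ?_, ?_⟩
  · rw [smul_div₀', hτy, hτt, sub_div, div_self ht0]
  · intro h hh k hk hconj
    have hkz : (k : ZMod p) ≠ 0 := by
      rw [Ne, ZMod.natCast_eq_zero_iff, ← hp.coprime_iff_not_dvd]
      exact hk.symm
    have hpow : ∀ n : ℕ, h * τ ^ n = τ ^ (k * n) * h := by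
      intro n
      have h1 : h * τ = τ ^ k * h := by
        rw [← hconj, mul_assoc (h * τ), inv_mul_cancel, mul_one]
      induction n with
      | zero => simp
      | succ n ih =>
        rw [pow_succ, ← mul_assoc, ih, mul_assoc, h1, ← mul_assoc, ← pow_add, mul_add, mul_one]
    have hhU : ∀ i : ZMod p, h • U i = U (k * i) := by
      intro i
      have h1 : (k : ZMod p) * i = ((k * i.val : ℕ) : ZMod p) := by
        push_cast
        rw [ZMod.natCast_val, ZMod.cast_id', id]
      rw [h1, hUnat]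
      change h • ((τ ^ i.val) • u) = _
      rw [← mul_smul, hpow, mul_smul, hu, smul_pow', hh]
    have hht : h • t = t := by
      rw [ht, smul_sum]
      simp only [hhU]
      exact Fintype.sum_equiv (Equiv.mulLeft₀ (k : ZMod p) hkz) _ _ fun i => rfl
    have hhy : (k : N) * (h • y) = y := by
      rw [hy, smul_sum, mul_sum]
      have h1 : ∀ i : ZMod p, (k : N) * (h • (c i * U i)) = c (k * i) * U (k * i) := by
        intro i
        rw [smul_mul', hcfix, hhU, map_mul, hcn]
        ring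
      simp only [h1]
      exact Fintype.sum_equiv (Equiv.mulLeft₀ (k : ZMod p) hkz) _ _ fun i => rfl
    rw [smul_div₀', hht, ← mul_div_assoc, hhy]


/-- a solvable irreducible separable polynomial of degree `p = char F` defines the same field as a
polynomial `X ^ p - a X - c`. -/
theorem exists_poly_aux {F N : Type*} [Field F] [Field N] [Algebra F N] [IsGalois F N] [FiniteDimensional F N]
    {p : ℕ} (hp : p.Prime) [CharP F p] {f : F[X]} (hf : Irreducible f)
    (hsep : f.Separable) (hd : f.natDegree = p) (hspl : IsSplittingField F N f) (hs : IsSolvable (N ≃ₐ[F] N)) :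
    ∃ (g : F[X]) (a c : F), f ∣ g ^ p - C a * g - C c ∧ ∀ e : F, ¬ f ∣ g - C e := by
  classical
  haveI : Fact p.Prime := ⟨hp⟩
  have hfm : f ≠ 0 := hf.ne_zero
  haveI : CharP N p := charP_of_injective_algebraMap (algebraMap F N).injective p
  haveI : Finite (N ≃ₐ[F] N) := inferInstance
  -- the action on the roots
  letI act : MulAction (N ≃ₐ[F] N) (f.rootSet N) :=
    { smul := fun g x => ⟨g x, by
        rw [mem_rootSet]
        refine ⟨hfm, ?_⟩
        have h1 := (mem_rootSet.1 x.2).2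
        have h2 := Polynomial.aeval_algHom_apply (g : N →ₐ[F] N) (x : N) f
        rw [h1, map_zero] at h2
        exact h2⟩
      one_smul := fun x => rfl
      mul_smul := fun g h x => rfl }
  have hact : ∀ (g : N ≃ₐ[F] N) (x : f.rootSet N), ((g • x : f.rootSet N) : N) = g (x : N) := fun g x => rfl
  haveI hfaith : FaithfulSMul (N ≃ₐ[F] N) (f.rootSet N) := ⟨fun {g h} hgh => by
    have h2 : (g : N →ₐ[F] N) = (h : N →ₐ[F] N) := by
      apply AlgHom.ext_of_adjoin_eq_top (IsSplittingField.adjoin_rootSet N f)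
      intro x hx
      have := congrArg Subtype.val (hgh ⟨x, hx⟩)
      rw [hact, hact] at this
      exact this
    ext x
    exact congrArg (fun f : N →ₐ[F] N => f x) h2⟩
  have hroot : ∀ x : f.rootSet N, minpoly F (x : N) = f * C f.leadingCoeff⁻¹ := by
    intro x
    have h1 : aeval (x : N) f = 0 := (mem_rootSet.1 x.2).2
    exact (minpoly.eq_of_irreducible hf h1).symm
  haveI htr : MulAction.IsPretransitive (N ≃ₐ[F] N) (f.rootSet N) := ⟨fun x y => by
    obtain ⟨σ, hσ⟩ := minpoly.exists_algEquiv_of_root (K := F) (x := (x : N)) (y := (y : N))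
      (Algebra.IsAlgebraic.isAlgebraic _) (by
        rw [hroot, map_mul, (mem_rootSet.1 x.2).2, zero_mul])
    exact ⟨σ, Subtype.ext hσ⟩⟩
  have hcard : Nat.card (f.rootSet N) = p := by
    rw [Nat.card_eq_fintype_card, card_rootSet_eq_natDegree hsep (IsSplittingField.splits N f), hd]
  let G := N ≃ₐ[F] N
  let Ω := f.rootSet N
  obtain ⟨A, hAn, hAcard, hAtr⟩ := exists_normal_prime (G := N ≃ₐ[F] N) (Ω := f.rootSet N) hp hcard hs
  -- a generator
  haveI : Fact (Nat.card A).Prime := ⟨by rw [hAcard]; exact hp⟩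
  haveI hcyc : IsCyclic A := isCyclic_of_prime_card (p := p) hAcard
  obtain ⟨τ', hτ'⟩ := hcyc.exists_generator
  obtain ⟨τ, hττ⟩ : ∃ τ : N ≃ₐ[F] N, τ = τ' := ⟨_, rfl⟩
  have hτA : τ ∈ A := by rw [hττ]; exact τ'.2
  have hτp : τ ^ p = 1 := by
    have h1 : τ' ^ Nat.card A = 1 := pow_card_eq_one'
    rw [hAcard] at h1
    rw [hττ]
    exact congrArg Subtype.val h1
  have hgen : ∀ g ∈ A, ∃ n : ℕ, n < p ∧ τ ^ n = g := by
    intro g hg
    have h1 := hτ' ⟨g, hg⟩
    rw [← mem_powers_iff_mem_zpowers, Submonoid.mem_powers_iff] at h1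
    obtain ⟨n, hn⟩ := h1
    refine ⟨n % p, Nat.mod_lt _ hp.pos, ?_⟩
    have h2 : τ ^ n = g := by rw [hττ]; exact congrArg Subtype.val hn
    rw [← h2, ← Nat.div_add_mod n p]
    conv_rhs => rw [pow_add, pow_mul, hτp, one_pow, one_mul]
    rw [Nat.div_add_mod]
  obtain ⟨x0⟩ : Nonempty Ω := by
    haveI : Finite Ω := inferInstance
    rw [← Finite.card_pos_iff, hcard]; exact hp.pos
  have hinj : Set.InjOn (fun i : ℕ => (τ ^ i) • (x0 : N)) (Set.Iio p) := by
    have hsurj : Function.Surjective (fun i : Fin p => (τ ^ (i : ℕ)) • x0) := by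
      intro y
      obtain ⟨a, ha, hay⟩ := hAtr x0 y
      obtain ⟨n, hn, rfl⟩ := hgen a ha
      exact ⟨⟨n, hn⟩, hay⟩
    have hbij : Function.Injective (fun i : Fin p => (τ ^ (i : ℕ)) • x0) := by
      haveI : Fintype Ω := Fintype.ofFinite Ω
      exact ((Fintype.bijective_iff_surjective_and_card _).2 ⟨hsurj, by
        rw [Fintype.card_fin, ← Nat.card_eq_fintype_card, hcard]⟩).1
    intro a ha b hb hab
    have h1 : (τ ^ a) • x0 = (τ ^ b) • x0 := Subtype.ext hab
    have h2 := @hbij ⟨a, ha⟩ ⟨b, hb⟩ h1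
    exact congrArg Fin.val h2
  obtain ⟨Y, hY1, hY2⟩ := resolvent (N := N) (G := G) hp hτp hinj
  -- the field `F(x0)`
  have hH : ∀ h : G, h • (x0 : N) = x0 → ∃ k : ℕ, k.Coprime p ∧ h * τ * h⁻¹ = τ ^ k := by
    intro h _
    obtain ⟨n, hn, hn2⟩ := hgen _ (hAn.conj_mem τ hτA h)
    refine ⟨n, ?_, hn2.symm⟩
    rw [Nat.coprime_comm, hp.coprime_iff_not_dvd]
    intro hdv
    have hn0 : n = 0 := Nat.eq_zero_of_dvd_of_lt hdv hn
    rw [hn0, pow_zero] at hn2
    have h1 : τ = 1 := by
      have h2 : τ = h⁻¹ * (h * τ * h⁻¹) * h := by group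
      rw [h2, ← hn2]; group
    have h3 : (0 : ℕ) = 1 := hinj (Set.mem_Iio.2 hp.pos) (Set.mem_Iio.2 hp.one_lt) (by simp [h1])
    omega
  have hτYY : τ Y = Y - 1 := hY1
  obtain ⟨c0, hc0⟩ : ∃ c0 : N, c0 = Y ^ p - Y := ⟨_, rfl⟩
  have hc0ne : c0 ≠ 0 := by
    intro h0
    have h1 : Y ^ p - Y = 0 := by rw [← hc0, h0]
    by_cases hY0 : Y = 0
    · rw [hY0, map_zero] at hτYY
      simp at hτYY
    · obtain ⟨i, hi⟩ := exists_zmod hp (u := Y) (by
        have h2 : Y ^ (p - 1) * Y = Y := by
          rw [← pow_succ, Nat.sub_add_cancel hp.one_lt.le]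
          exact sub_eq_zero.1 h1
        exact mul_right_cancel₀ hY0 (by rw [h2, one_mul]))
      have h3 : τ Y = Y := by
        rw [← hi, ← ZMod.natCast_val, map_natCast]
      rw [h3] at hτYY
      have : (1 : N) = 0 := by linear_combination hτYY
      exact one_ne_zero this
  have hτc0 : τ c0 = c0 := by
    rw [hc0, map_sub, map_pow, hτYY, sub_pow_char]
    ring
  -- elements of the stabiliser
  have hHact : ∀ h : G, h • (x0 : N) = x0 → ∃ κ : N, κ ≠ 0 ∧ κ ^ (p - 1) = 1 ∧ κ * h Y = Y ∧ κ * h c0 = c0 := by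
    intro h hh
    obtain ⟨k, hk, hk2⟩ := hH h hh
    have hk3 := hY2 h hh k hk hk2
    have hkp : (k : N) ^ p = k := by
      have h1 : ((k : ℕ) : ZMod p) ^ p = (k : ZMod p) := ZMod.pow_card _
      have h2 := congrArg (ZMod.castHom (dvd_refl p) N) h1
      rw [map_pow, map_natCast] at h2
      exact h2
    have hk0 : (k : N) ≠ 0 := by
      intro h0
      rw [CharP.cast_eq_zero_iff N p] at h0
      rw [Nat.coprime_comm, hp.coprime_iff_not_dvd] at hk
      exact hk h0
    refine ⟨k, hk0, ?_, hk3, ?_⟩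
    · apply mul_right_cancel₀ hk0
      rw [← pow_succ, Nat.sub_add_cancel hp.one_lt.le, hkp, one_mul]
    · have h4 : (k : N) * h Y = Y := hk3
      rw [hc0, map_sub, map_pow, mul_sub, h4]
      congr 1
      rw [← h4, mul_pow, hkp]
      rw [h4]
  obtain ⟨z, hz⟩ : ∃ z : N, z = Y / c0 := ⟨_, rfl⟩
  obtain ⟨a, ha⟩ : ∃ a : N, a = (c0 ^ (p - 1))⁻¹ := ⟨_, rfl⟩
  have hzH : ∀ h : G, h • (x0 : N) = x0 → h z = z := by
    intro h hh
    obtain ⟨κ, hκ0, _, h1, h2⟩ := hHact h hh
    have h2' : h c0 ≠ 0 := (_root_.map_ne_zero h).2 hc0ne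
    rw [hz, map_div₀, div_eq_div_iff h2' hc0ne]
    calc h Y * c0 = h Y * (κ * h c0) := by rw [h2]
      _ = (κ * h Y) * h c0 := by ring
      _ = Y * h c0 := by rw [h1]
  have haH : ∀ h : G, h • (x0 : N) = x0 → h a = a := by
    intro h hh
    obtain ⟨κ, hκ0, hκ1, h1, h2⟩ := hHact h hh
    rw [ha, map_inv₀, map_pow]
    congr 1
    conv_rhs => rw [← h2, mul_pow, hκ1, one_mul]
  have haτ : τ a = a := by
    rw [ha, map_inv₀, map_pow, hτc0]
  -- `a` is in the base field
  have haF : ∀ g : G, g a = a := by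
    intro g
    obtain ⟨b, hb, hb2⟩ := hAtr x0 (g • x0)
    obtain ⟨n, _, rfl⟩ := hgen b hb
    have h1 : ((τ ^ n)⁻¹ * g) • (x0 : N) = x0 := by
      have h2 : (τ ^ n) • (x0 : N) = g • (x0 : N) := congrArg Subtype.val hb2
      rw [mul_smul, ← h2, inv_smul_smul]
    have h3 : ∀ n : ℕ, (τ ^ n) a = a := by
      intro n
      induction n with
      | zero => rfl
      | succ n ih => rw [pow_succ, AlgEquiv.mul_apply, haτ, ih]
    have h4 : g = τ ^ n * ((τ ^ n)⁻¹ * g) := by group
    rw [h4, AlgEquiv.mul_apply, haH _ h1, h3]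
  obtain ⟨a', ha'⟩ : ∃ a' : F, algebraMap F N a' = a := by
    have := (IsGalois.mem_bot_iff_fixed (F := F) (E := N) a).2 haF
    rw [IntermediateField.mem_bot] at this
    exact this
  have hzp : z ^ p = a * z + a := by
    have h1 : c0 ^ p = c0 ^ (p - 1) * c0 := by
      rw [← pow_succ, Nat.sub_add_cancel hp.one_lt.le]
    have h2 : Y ^ p = Y + c0 := by rw [hc0]; ring
    rw [hz, ha, div_pow, h2, h1]
    field_simp
  -- `z` is a polynomial in `x0`
  have hzmem : z ∈ IntermediateField.adjoin F {(x0 : N)} := by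
    have h1 := IsGalois.fixedField_fixingSubgroup (IntermediateField.adjoin F {(x0 : N)})
    rw [← h1, IntermediateField.mem_fixedField_iff]
    intro g hg
    apply hzH
    rw [IntermediateField.mem_fixingSubgroup_iff] at hg
    exact hg x0 (IntermediateField.mem_adjoin_simple_self F (x0 : N))
  obtain ⟨g, hg⟩ : ∃ g : F[X], aeval (x0 : N) g = z := by
    have h1 : z ∈ Algebra.adjoin F {(x0 : N)} := by
      rw [← IntermediateField.adjoin_simple_toSubalgebra_of_isAlgebraic (Algebra.IsAlgebraic.isAlgebraic (x0 : N))]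
      exact hzmem
    rw [Algebra.adjoin_singleton_eq_range_aeval] at h1
    exact h1
  have hdvd : ∀ q : F[X], aeval (x0 : N) q = 0 → f ∣ q := by
    intro q hq
    have h1 := minpoly.dvd F (x0 : N) hq
    rw [hroot] at h1
    exact (dvd_mul_right f _).trans h1
  refine ⟨g, a', a', hdvd _ ?_, fun e he => ?_⟩
  · rw [map_sub, map_sub, map_mul, map_pow, aeval_C, hg, ha', hzp]
    ring
  · obtain ⟨q, hq⟩ := he
    have h1 := congrArg (aeval (x0 : N)) hq
    rw [map_mul, map_sub, aeval_C, (mem_rootSet.1 x0.2).2, zero_mul, hg, sub_eq_zero] at h1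
    have h2 : τ z = z := by rw [h1, AlgEquiv.commutes]
    rw [hz, map_div₀, hτc0, hτYY, div_left_inj' hc0ne] at h2
    have : (1 : N) = 0 := by linear_combination -h2
    exact one_ne_zero this


theorem exists_poly {F : Type*} [Field F] {p : ℕ} (hp : p.Prime) [CharP F p] {f : F[X]} (hf : Irreducible f)
    (hsep : f.Separable) (hd : f.natDegree = p) (hs : IsSolvable f.Gal) :
    ∃ (g : F[X]) (a c : F), f ∣ g ^ p - C a * g - C c ∧ ∀ e : F, ¬ f ∣ g - C e := by
  haveI : IsGalois F f.SplittingField := IsGalois.of_separable_splitting_field hsep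
  exact exists_poly_aux (N := f.SplittingField) hp hf hsep hd inferInstance hs

end Run7.h339
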