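import Mathlib
import Pool.Agent.Run7.h339.Solv2
import Pool.Agent.Run7.h339.SolvG

/-! Solvable maximal subfields in characteristic `p`. -/

set_option autoImplicit false
set_option linter.all false

namespace Run7.h339

open Module Finset Polynomial

universe u

/-- a `p`-central element makes the algebra cyclic. -/
theorem cyc_of_pcentral {F D : Type u} [Field F] [DivisionRing D] [Algebra F D]
    [Algebra.IsCentral F D] [FiniteDimensional F D] {p : ℕ} (hp : p.Prime) [CharP F p] (hD : finrank F D = p ^ 2)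
    {v : D} (hv : v ∉ Set.range (algebraMap F D)) (hvp : v ^ p ∈ Set.range (algebraMap F D)) : CycMax p F D := by
  obtain ⟨x, hx⟩ := exists_bracket hp hv hvp
  have hv0 : v ≠ 0 := by
    rintro rfl
    exact hv ⟨0, map_zero _⟩
  obtain ⟨h1, h2⟩ := as_central hp hD hx hv0
  exact cycMax_of_as hp (deg_p hp hD h2) h1

theorem cyc_of_solvable {F D : Type u} [Field F] [DivisionRing D] [Algebra F D]
    [Algebra.IsCentral F D] [FiniteDimensional F D] {p : ℕ} (hp : p.Prime) [CharP F p] (hD : finrank F D = p ^ 2)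
    {x : D} (hx : x ∉ Set.range (algebraMap F D)) (hs : IsSolvable (minpoly F x).Gal) : CycMax p F D := by
  have hirr := minpoly_irred (F := F) x
  have hdeg := deg_p hp hD hx
  by_cases hder : derivative (minpoly F x) = 0
  · exact cyc_of_pcentral hp hD hx (pow_mem_of_deriv hp hD hx hder)
  · have hsep : (minpoly F x).Separable := (separable_iff_derivative_ne_zero hirr).2 hder
    obtain ⟨g, a, c, hg1, hg2⟩ := exists_poly hp hirr hsep hdeg hs
    have hz : aeval x g ∉ Set.range (algebraMap F D) := by
      rintro ⟨e, he⟩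
      apply hg2 e
      rw [minpoly.dvd_iff, map_sub, aeval_C, he, sub_self]
    obtain ⟨v, hv, hvp⟩ := pcentral_of_solv hp hD hz (a := a) (c := c) (by
      rw [minpoly.dvd_iff, map_sub, map_sub, map_mul, map_pow, aeval_C, aeval_C, sub_sub, sub_eq_zero] at hg1
      exact hg1)
    exact cyc_of_pcentral hp hD hv hvp

theorem solvable_of_cyc {F D : Type u} [Field F] [DivisionRing D] [Algebra F D]
    {p : ℕ} (hp : p.Prime) (h : CycMax p F D) :
    ∃ x : D, x ∉ Set.range (algebraMap F D) ∧ IsSolvable (minpoly F x).Gal := by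
  obtain ⟨L, _, _, hgal, hcyc, hdim, ⟨φ⟩⟩ := h
  haveI : FiniteDimensional F L := Module.finite_of_finrank_pos (by rw [hdim]; exact hp.pos)
  obtain ⟨θ, hθ⟩ : ∃ θ : L, θ ∉ Set.range (algebraMap F L) := by
    by_contra hno
    push Not at hno
    have h1 : finrank F L = 1 := by
      rw [finrank_eq_one_iff_of_nonzero' (1 : L) one_ne_zero]
      intro w
      obtain ⟨c, hc⟩ := hno w
      exact ⟨c, by rw [← hc, Algebra.algebraMap_eq_smul_one]⟩
    rw [hdim] at h1
    exact hp.one_lt.ne' h1
  have hφ : Function.Injective φ := φ.toRingHom.injective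
  refine ⟨φ θ, ?_, ?_⟩
  · rintro ⟨c, hc⟩
    apply hθ
    refine ⟨c, hφ ?_⟩
    rw [AlgHom.commutes, hc]
  · rw [minpoly.algHom_eq φ hφ]
    haveI : Fact (((minpoly F θ).map (algebraMap F L)).Splits) := ⟨Normal.splits inferInstance θ⟩
    haveI : IsSolvable (L ≃ₐ[F] L) := by
      obtain ⟨g, hg⟩ := hcyc.exists_generator
      apply isSolvable_of_comm
      intro a b
      obtain ⟨m, rfl⟩ := Subgroup.mem_zpowers_iff.1 (hg a)
      obtain ⟨n, rfl⟩ := Subgroup.mem_zpowers_iff.1 (hg b)
      rw [← zpow_add, ← zpow_add, add_comm]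
    exact solvable_of_surjective (Polynomial.Gal.restrict_surjective (minpoly F θ) L)

end Run7.h339
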