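import Mathlib
import Pool.Agent.Run7.h339.Five2

/-! Fields of definition of cyclic algebras of degree `p` in characteristic `p`. -/

set_option autoImplicit false
set_option linter.all false

namespace Run7.h339

open Module TensorProduct

universe u

/-- the monomials `x ^ i y ^ j`. -/
def mon {E : Type*} [Monoid E] (p : ℕ) (x y : E) (q : Fin p × Fin p) : E := x ^ (q.1 : ℕ) * y ^ (q.2 : ℕ)

section mono

variable {K E : Type u} [Field K] [DivisionRing E] [Algebra K E] [FiniteDimensional K E]
  [Algebra.IsCentral K E] {p : ℕ}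

theorem pow_bracket {x y : E} (hxy : y * x - x * y = y) (j : ℕ) :
    y ^ j * x - x * y ^ j = (j : E) * y ^ j := by
  induction j with
  | zero => simp
  | succ j ih =>
    have h1 : y * x = x * y + y := by rw [← sub_eq_iff_eq_add'.1 hxy]
    have h2 : y ^ j * x = x * y ^ j + (j : E) * y ^ j := by rw [← sub_eq_iff_eq_add'.1 ih]
    have hc : y * (j : E) = (j : E) * y := (Nat.cast_commute j y).eq.symm
    calc y ^ (j + 1) * x - x * y ^ (j + 1) = y * (y ^ j * x) - x * y ^ (j + 1) := by rw [pow_succ', mul_assoc]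
      _ = (y * x) * y ^ j + (y * (j : E)) * y ^ j - x * y ^ (j + 1) := by rw [h2]; noncomm_ring
      _ = ((j + 1 : ℕ) : E) * y ^ (j + 1) := by
        rw [h1, hc, pow_succ', Nat.cast_succ]; noncomm_ring

theorem mon_li (hp : p.Prime) [CharP K p] (hE : finrank K E = p ^ 2) {x y : E}
    (hxy : y * x - x * y = y) (hy : y ≠ 0) : LinearIndependent K (mon p x y) := by
  obtain ⟨h1, h2⟩ := as_central hp hE hxy hy
  have hdeg := deg_p hp hE h2
  letI := modL (adHom K x)
  haveI := towerL (adHom K x)
  have hsm : ∀ (l : Ad K x) (w : E), l • w = adHom K x l * w := fun l w => rfl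
  haveI : CharP (Ad K x) p := charP_of_injective_algebraMap (algebraMap K (Ad K x)).injective p
  haveI : IsTorsionFree (Ad K x) E := inferInstance
  have hcom : ∀ l : Ad K x, adHom K x l * x = x * adHom K x l := by
    intro l
    have h3 : adHom K x (l * AdjoinRoot.root (minpoly K x)) = adHom K x (AdjoinRoot.root (minpoly K x) * l) := by
      rw [mul_comm]
    rwa [map_mul, map_mul, adHom_root] at h3
  let T : Module.End (Ad K x) E :=
    { toFun := fun w => w * x - x * w
      map_add' := fun v w => by noncomm_ring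
      map_smul' := fun l w => by
        rw [RingHom.id_apply, hsm, hsm, mul_sub, ← mul_assoc x, ← hcom, mul_assoc, mul_assoc] }
  have hc : LinearIndependent (Ad K x) (fun j : Fin p => y ^ (j : ℕ)) := by
    apply Module.End.eigenvectors_linearIndependent' T (fun j : Fin p => ((j : ℕ) : Ad K x))
    · intro i j hij
      apply Fin.ext
      exact CharP.natCast_injOn_Iio (Ad K x) p (Set.mem_Iio.2 i.2) (Set.mem_Iio.2 j.2) hij
    · intro j
      refine ⟨?_, pow_ne_zero _ hy⟩
      rw [Module.End.mem_eigenspace_iff]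
      change y ^ (j : ℕ) * x - x * y ^ (j : ℕ) = _
      rw [pow_bracket hxy, hsm, map_natCast]
  have hb : LinearIndependent K (fun i : Fin p => AdjoinRoot.root (minpoly K x) ^ (i : ℕ)) := by
    have h3 := linearIndependent_pow (K := K) (AdjoinRoot.root (minpoly K x))
    rw [minpoly_root_ad, hdeg] at h3
    exact h3
  have h4 := linearIndependent_smul hb hc
  convert h4 using 2 with q
  rw [hsm, map_pow, adHom_root]
  rfl

theorem mon_span (hp : p.Prime) [CharP K p] (hE : finrank K E = p ^ 2) {x y : E}
    (hxy : y * x - x * y = y) (hy : y ≠ 0) : Submodule.span K (Set.range (mon p x y)) = ⊤ := by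
  haveI : Nonempty (Fin p × Fin p) := ⟨(⟨0, hp.pos⟩, ⟨0, hp.pos⟩)⟩
  apply (mon_li hp hE hxy hy).span_eq_top_of_card_eq_finrank
  rw [Fintype.card_prod, Fintype.card_fin, hE, pow_two]

end mono

/-- extension of scalars from a spanning subalgebra -/
theorem tens_equiv {M K A₀ A : Type*} [Field M] [Field K] [Algebra M K] [Ring A₀] [Algebra M A₀]
    [Ring A] [Algebra K A] [Algebra M A] [IsScalarTower M K A] [FiniteDimensional M A₀]
    [FiniteDimensional K A] (j : A₀ →ₐ[M] A) (hspan : Submodule.span K (Set.range j) = ⊤)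
    (hfin : finrank M A₀ = finrank K A) : Nonempty (K ⊗[M] A₀ ≃ₐ[K] A) := by
  let Ψ : K ⊗[M] A₀ →ₐ[K] A :=
    Algebra.TensorProduct.lift (Algebra.ofId K A) j (fun k a => Algebra.commutes k (j a))
  have hsurj : Function.Surjective Ψ := by
    rw [← AlgHom.range_eq_top, ← Algebra.toSubmodule_eq_top, eq_top_iff, ← hspan, Submodule.span_le]
    rintro _ ⟨a, rfl⟩
    refine ⟨1 ⊗ₜ a, ?_⟩
    change Ψ (1 ⊗ₜ a) = _
    rw [Algebra.TensorProduct.lift_tmul, map_one, one_mul]
  have hinj : Function.Injective Ψ :=
    (LinearMap.injective_iff_surjective_of_finrank_eq_finrank (f := Ψ.toLinearMap) (by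
      rw [finrank_baseChange, hfin])).2 hsurj
  exact ⟨AlgEquiv.ofBijective Ψ ⟨hinj, hsurj⟩⟩

section desc

variable {M K E : Type u} [Field M] [Field K] [Algebra M K] [DivisionRing E] [Algebra K E]
  [Algebra M E] [IsScalarTower M K E] [FiniteDimensional K E] [Algebra.IsCentral K E] {p : ℕ}

/-- the subalgebra generated by `x` and `y` over the field of definition. -/
theorem adjoin_eq_span (hp : p.Prime) {x y : E} (hxy : y * x - x * y = y)
    (ha : ∃ a : M, x ^ p - x = algebraMap M E a) (hb : ∃ b : M, y ^ p = algebraMap M E b) :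
    Subalgebra.toSubmodule (Algebra.adjoin M {x, y}) = Submodule.span M (Set.range (mon p x y)) := by
  obtain ⟨a, ha⟩ := ha
  obtain ⟨b, hb⟩ := hb
  have h1 : y * x = x * y + y := by rw [← sub_eq_iff_eq_add'.1 hxy]
  have hxp : x ^ p = x + algebraMap M E a := by rw [← ha]; abel
  set W := Submodule.span M (Set.range (mon p x y)) with hW
  have hmem : ∀ i j : ℕ, i < p → j < p → x ^ i * y ^ j ∈ W := fun i j hi hj =>
    Submodule.subset_span ⟨(⟨i, hi⟩, ⟨j, hj⟩), rfl⟩
  have hx : ∀ w ∈ W, x * w ∈ W := by
    intro w hw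
    induction hw using Submodule.span_induction with
    | mem w hw =>
      obtain ⟨⟨i, j⟩, rfl⟩ := hw
      change x * (x ^ (i : ℕ) * y ^ (j : ℕ)) ∈ W
      rw [← mul_assoc, ← pow_succ']
      rcases Nat.lt_or_ge ((i : ℕ) + 1) p with h | h
      · exact hmem _ _ h j.2
      · have : (i : ℕ) + 1 = p := by have := i.2; omega
        rw [this, hxp, add_mul, ← Algebra.smul_def]
        refine W.add_mem ?_ (W.smul_mem _ ?_)
        · have := hmem 1 j hp.one_lt j.2
          rwa [pow_one] at this
        · have := hmem 0 j hp.pos j.2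
          rwa [pow_zero, one_mul] at this
    | zero => rw [mul_zero]; exact W.zero_mem
    | add v w _ _ hv hw => rw [mul_add]; exact W.add_mem hv hw
    | smul c w _ hw => rw [mul_smul_comm]; exact W.smul_mem c hw
  have hyj : ∀ j : ℕ, j ≤ p → y ^ j ∈ W := by
    intro j hj
    rcases Nat.lt_or_ge j p with h | h
    · have := hmem 0 j hp.pos h
      rwa [pow_zero, one_mul] at this
    · have : j = p := by omega
      rw [this, hb, Algebra.algebraMap_eq_smul_one]
      have := hmem 0 0 hp.pos hp.pos
      rw [pow_zero, one_mul, pow_zero] at this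
      exact W.smul_mem _ this
  have hyx : ∀ i : ℕ, ∀ w, y * w ∈ W → y * (x ^ i * w) ∈ W := by
    intro i
    induction i with
    | zero => intro w hw; rwa [pow_zero, one_mul]
    | succ i ih =>
      intro w hw
      have h2 : y * (x ^ (i + 1) * w) = x * (y * (x ^ i * w)) + y * (x ^ i * w) := by
        calc y * (x ^ (i + 1) * w) = (y * x) * (x ^ i * w) := by rw [pow_succ']; noncomm_ring
          _ = _ := by rw [h1]; noncomm_ring
      rw [h2]
      exact W.add_mem (hx _ (ih w hw)) (ih w hw)
  have hy : ∀ w ∈ W, y * w ∈ W := by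
    intro w hw
    induction hw using Submodule.span_induction with
    | mem w hw =>
      obtain ⟨⟨i, j⟩, rfl⟩ := hw
      change y * (x ^ (i : ℕ) * y ^ (j : ℕ)) ∈ W
      apply hyx
      rw [← pow_succ']
      exact hyj _ j.2
    | zero => rw [mul_zero]; exact W.zero_mem
    | add v w _ _ hv hw => rw [mul_add]; exact W.add_mem hv hw
    | smul c w _ hw => rw [mul_smul_comm]; exact W.smul_mem c hw
  apply le_antisymm
  · intro z hz
    have hz' : z ∈ Algebra.adjoin M {x, y} := hz
    clear hz
    have key : ∀ w ∈ W, z * w ∈ W := by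
      induction hz' using Algebra.adjoin_induction with
      | mem u hu =>
        rcases hu with hu | hu
        · rw [hu]; exact hx
        · rw [Set.mem_singleton_iff] at hu
          rw [hu]
          exact hy
      | algebraMap c =>
        intro w hw
        rw [← Algebra.smul_def]
        exact W.smul_mem _ hw
      | add u v _ _ hu hv =>
        intro w hw
        rw [add_mul]
        exact W.add_mem (hu w hw) (hv w hw)
      | mul u v _ _ hu hv =>
        intro w hw
        rw [mul_assoc]
        exact hu _ (hv w hw)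
    have h1' : (1 : E) ∈ W := by
      have := hyj 0 (Nat.zero_le _)
      rwa [pow_zero] at this
    have := key 1 h1'
    rwa [mul_one] at this
  · rw [hW, Submodule.span_le]
    rintro _ ⟨q, rfl⟩
    have hxm : x ∈ Algebra.adjoin M {x, y} := Algebra.subset_adjoin (Set.mem_insert _ _)
    have hym : y ∈ Algebra.adjoin M {x, y} := Algebra.subset_adjoin (Set.mem_insert_of_mem _ rfl)
    exact Subalgebra.mul_mem _ (Subalgebra.pow_mem _ hxm _) (Subalgebra.pow_mem _ hym _)

theorem descend (hp : p.Prime) [CharP K p] (hE : finrank K E = p ^ 2) {x y : E}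
    (hxy : y * x - x * y = y) (hy : y ≠ 0)
    (ha : ∃ a : M, x ^ p - x = algebraMap M E a) (hb : ∃ b : M, y ^ p = algebraMap M E b) :
    ∃ (A₀ : Type u) (_ : Ring A₀) (_ : Algebra M A₀), Algebra.IsCentral M A₀ ∧ IsSimpleRing A₀ ∧
      finrank M A₀ = p ^ 2 ∧ Nonempty (K ⊗[M] A₀ ≃ₐ[K] E) := by
  have hspan := mon_span hp hE hxy hy
  have hli := mon_li hp hE hxy hy
  have hliM : LinearIndependent M (mon p x y) := hli.restrict_scalars' M
  have hadj := adjoin_eq_span (M := M) hp hxy ha hb
  let A₀ := Algebra.adjoin M ({x, y} : Set E)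
  have hfin : finrank M A₀ = p ^ 2 := by
    change finrank M (Subalgebra.toSubmodule A₀) = p ^ 2
    rw [hadj, finrank_span_eq_card hliM, Fintype.card_prod, Fintype.card_fin, pow_two]
  haveI : FiniteDimensional M A₀ := Module.finite_of_finrank_pos (by rw [hfin]; exact pow_pos hp.pos 2)
  have hspan' : Submodule.span K (Set.range A₀.val) = ⊤ := by
    rw [eq_top_iff, ← hspan]
    apply Submodule.span_mono
    rintro _ ⟨q, rfl⟩
    have : mon p x y q ∈ A₀ := by
      change mon p x y q ∈ Subalgebra.toSubmodule A₀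
      rw [hadj]
      exact Submodule.subset_span ⟨q, rfl⟩
    exact ⟨⟨_, this⟩, rfl⟩
  refine ⟨A₀, inferInstance, inferInstance, ?_, ?_, hfin, tens_equiv A₀.val hspan' (by rw [hfin, hE])⟩
  · constructor
    intro z hz
    rw [Subalgebra.mem_center_iff] at hz
    have h1 : ∀ w : E, w * z = z * w := by
      intro w
      have hw : w ∈ Submodule.span K (Set.range A₀.val) := by rw [hspan']; trivial
      induction hw using Submodule.span_induction with
      | mem w hw =>
        obtain ⟨a, rfl⟩ := hw
        exact congrArg Subtype.val (hz a)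
      | zero => rw [mul_zero, zero_mul]
      | add v w _ _ hv hw => rw [add_mul, mul_add, hv, hw]
      | smul c w _ hw => rw [smul_mul_assoc, mul_smul_comm, hw]
    obtain ⟨c, hc⟩ := (mem_center_iff' (F := K) (z : E)).2 (fun w => h1 w)
    have hzW : (z : E) ∈ Submodule.span M (Set.range (mon p x y)) := by
      rw [← hadj]; exact z.2
    rw [Submodule.mem_span_range_iff_exists_fun] at hzW
    obtain ⟨m, hm⟩ := hzW
    let q0 : Fin p × Fin p := (⟨0, hp.pos⟩, ⟨0, hp.pos⟩)
    have hq0 : mon p x y q0 = 1 := by simp [mon, q0]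
    have h2 : ∑ q, (algebraMap M K (m q) - if q = q0 then c else 0) • mon p x y q = 0 := by
      simp only [sub_smul, Finset.sum_sub_distrib, ite_smul, zero_smul]
      rw [Finset.sum_ite_eq' Finset.univ q0, if_pos (Finset.mem_univ _), hq0, ← Algebra.algebraMap_eq_smul_one,
        hc, sub_eq_zero, ← hm]
      refine Finset.sum_congr rfl fun q _ => ?_
      rw [algebraMap_smul]
    have h3 := Fintype.linearIndependent_iff.1 hli _ h2 q0
    rw [if_pos rfl, sub_eq_zero] at h3
    rw [Algebra.mem_bot]
    refine ⟨m q0, Subtype.ext ?_⟩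
    rw [← hc, ← h3, ← IsScalarTower.algebraMap_apply]
    rfl
  · haveI : Nontrivial A₀ := ⟨⟨0, 1, fun h => zero_ne_one (congrArg Subtype.val h)⟩⟩
    refine ⟨⟨fun I => ?_⟩⟩
    by_cases hI : I = ⊥
    · exact Or.inl hI
    right
    obtain ⟨w, hwI, hw0⟩ : ∃ w ∈ I, w ≠ 0 := by
      by_contra hno
      push Not at hno
      apply hI
      rw [eq_bot_iff]
      intro w hw
      rw [TwoSidedIdeal.mem_bot]
      exact hno w hw
    have hinj : Function.Injective (LinearMap.mulLeft M w) := by
      intro u v huv
      have h1 : (w : E) * u = w * v := congrArg Subtype.val huv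
      have h2 : (w : E) ≠ 0 := fun h => hw0 (Subtype.ext h)
      exact Subtype.ext (mul_left_cancel₀ h2 h1)
    obtain ⟨u, hu⟩ := (LinearMap.injective_iff_surjective.1 hinj) 1
    have h1 : (1 : A₀) ∈ I := by
      rw [← hu]
      exact I.mul_mem_right _ _ hwI
    rw [eq_top_iff]
    intro v _
    have h5 := I.mul_mem_left v _ h1
    rwa [mul_one] at h5

end desc

end Run7.h339
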