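import Mathlib
import Pool.Agent.Run7.h339.Ed

/-! Essential dimension of algebras of degree five in characteristic five. -/

set_option autoImplicit false
set_option linter.all false

namespace Run7.h339

open Module TensorProduct IntermediateField

universe u

section trdeg

open scoped IntermediateField.algebraAdjoinAdjoin

theorem trdeg_adjoin_le {F K : Type u} [Field F] [Field K] [Algebra F K] (S : Set K) :
    Algebra.trdeg F (IntermediateField.adjoin F S) ≤ Cardinal.mk S := by
  have h1 := trdeg_add_eq F (Algebra.adjoin F S) (A := IntermediateField.adjoin F S)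
  have h0 : Algebra.trdeg (Algebra.adjoin F S) (IntermediateField.adjoin F S) = 0 :=
    trdeg_eq_zero_iff.2 inferInstance
  rw [h0, add_zero] at h1
  rw [← h1]
  let f : MvPolynomial S F →ₐ[F] Algebra.adjoin F S :=
    (MvPolynomial.aeval (R := F) fun s : S => (⟨(s : K), Algebra.subset_adjoin s.2⟩ : Algebra.adjoin F S))
  have hf : Function.Surjective f := by
    rw [← AlgHom.range_eq_top, eq_top_iff]
    rintro ⟨z, hz⟩ _
    rw [← Algebra.adjoin_range_eq_range_aeval]
    have h2 : (⟨z, hz⟩ : Algebra.adjoin F S) ∈ Algebra.adjoin F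
        (Set.range fun s : S => (⟨(s : K), Algebra.subset_adjoin s.2⟩ : Algebra.adjoin F S)) := by
      have h3 : Set.range (fun s : S => (⟨(s : K), Algebra.subset_adjoin s.2⟩ : Algebra.adjoin F S)) =
          (((↑) : Algebra.adjoin F S → K) ⁻¹' S) := by
        ext w
        constructor
        · rintro ⟨s, rfl⟩
          exact s.2
        · intro hw
          exact ⟨⟨(w : K), hw⟩, rfl⟩
      rw [h3, Algebra.adjoin_adjoin_coe_preimage]
      trivial
    exact h2
  have h2 := trdeg_le_of_surjective f hf
  rwa [MvPolynomial.trdeg_of_isDomain, Cardinal.lift_id] at h2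

end trdeg

/-- descent data: `A` is defined over the intermediate field `L`. -/
def DefOver {F K : Type u} [Field F] [Field K] [Algebra F K] (n : ℕ) (L : IntermediateField F K)
    (A : Type u) [Ring A] [Algebra K A] : Prop :=
  ∃ (A₀ : Type u) (_ : Ring A₀) (_ : Algebra L A₀), Algebra.IsCentral L A₀ ∧ IsSimpleRing A₀ ∧
    finrank L A₀ = n ^ 2 ∧ Nonempty (K ⊗[L] A₀ ≃ₐ[K] A)

theorem DefOver.congr {F K : Type u} [Field F] [Field K] [Algebra F K] {n : ℕ} {L : IntermediateField F K}
    {A B : Type u} [Ring A] [Algebra K A] [Ring B] [Algebra K B] (e : A ≃ₐ[K] B) (h : DefOver n L A) :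
    DefOver n L B := by
  obtain ⟨A₀, i1, i2, h1, h2, h3, ⟨e'⟩⟩ := h
  exact ⟨A₀, i1, i2, h1, h2, h3, ⟨e'.trans e⟩⟩

theorem ed_le_two {F K : Type u} [Field F] [CharP F 5] [Field K] [Algebra F K] (A : Type u) [Ring A]
    [Algebra K A] [Algebra.IsCentral K A] [IsSimpleRing A] (hA : finrank K A = 5 ^ 2) :
    ∃ L : IntermediateField F K, Algebra.trdeg F L ≤ 2 ∧ DefOver 5 L A := by
  haveI : FiniteDimensional K A := Module.finite_of_finrank_pos (by rw [hA]; norm_num)
  haveI : CharP K 5 := charP_of_injective_algebraMap (algebraMap F K).injective 5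
  haveI : IsArtinianRing A := IsArtinianRing.of_finite K A
  obtain ⟨m, hm, E, _, _, _, ⟨e⟩⟩ := IsSimpleRing.exists_algEquiv_matrix_divisionRing_finite K A
  clear hm
  have hr := e.toLinearEquiv.finrank_eq
  rw [hA, Module.finrank_matrix, Fintype.card_fin] at hr
  have hmn : m ∣ 5 := by
    have h1 : m ^ 2 ∣ 5 ^ 2 := ⟨finrank K E, by rw [hr]; ring⟩
    exact (Nat.pow_dvd_pow_iff two_ne_zero).1 h1
  rcases (Nat.dvd_prime (by norm_num : Nat.Prime 5)).1 hmn with rfl | rfl
  · -- a division algebra
    let e1 : A ≃ₐ[K] E := e.trans (m1 K E)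
    haveI : Algebra.IsCentral K E := Algebra.IsCentral.of_algEquiv K A E e1
    have hE : finrank K E = 5 ^ 2 := by omega
    obtain ⟨y, hy, b, hb⟩ := pcentral_five hE
    have hy0 : y ≠ 0 := by
      rintro rfl
      exact hy ⟨0, map_zero _⟩
    obtain ⟨x, hx⟩ := exists_bracket (by norm_num : Nat.Prime 5) hy ⟨b, hb⟩
    obtain ⟨⟨a, ha⟩, _⟩ := as_central (by norm_num : Nat.Prime 5) hE hx hy0
    let L : IntermediateField F K := IntermediateField.adjoin F {a, b}
    have haL : a ∈ L := IntermediateField.subset_adjoin F _ (Set.mem_insert _ _)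
    have hbL : b ∈ L := IntermediateField.subset_adjoin F _ (Set.mem_insert_of_mem _ rfl)
    refine ⟨L, ?_, DefOver.congr e1.symm (descend (M := L) (K := K) (E := E) (by norm_num : Nat.Prime 5) hE hx hy0
      ⟨⟨a, haL⟩, ?_⟩ ⟨⟨b, hbL⟩, ?_⟩)⟩
    · refine (trdeg_adjoin_le _).trans ?_
      refine (Cardinal.mk_insert_le).trans ?_
      rw [Cardinal.mk_singleton]
      norm_num
    · rw [← ha]; rfl
    · rw [← hb]; rfl
  · -- the split algebra
    have hE : finrank K E = 1 := by omega
    refine ⟨⊥, ?_, ?_⟩
    · have h0 : Algebra.trdeg F (⊥ : IntermediateField F K) = 0 := trdeg_eq_zero_iff.2 inferInstance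
      rw [h0]
      exact zero_le
    · let M : IntermediateField F K := ⊥
      letI : Algebra M E := Algebra.compHom E (algebraMap M K)
      haveI : IsScalarTower M K E := IsScalarTower.of_algebraMap_eq fun _ => rfl
      let j : Matrix (Fin 5) (Fin 5) M →ₐ[M] Matrix (Fin 5) (Fin 5) E := (Algebra.ofId M E).mapMatrix
      have hspan : Submodule.span K (Set.range j) = ⊤ := by
        rw [eq_top_iff]
        intro w _
        rw [Matrix.matrix_eq_sum_single w]
        refine Submodule.sum_mem _ fun s _ => Submodule.sum_mem _ fun t _ => ?_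
        obtain ⟨c, hc⟩ := (finrank_eq_one_iff_of_nonzero' (1 : E) one_ne_zero).1 hE (w s t)
        have h1 : Matrix.single s t (w s t) = c • j (Matrix.single s t 1) := by
          change _ = c • (Matrix.single s t (1 : M)).map (Algebra.ofId M E)
          rw [Matrix.map_single, map_one, Matrix.smul_single, hc]
        rw [h1]
        exact Submodule.smul_mem _ _ (Submodule.subset_span ⟨_, rfl⟩)
      have hfin : finrank M (Matrix (Fin 5) (Fin 5) M) = finrank K (Matrix (Fin 5) (Fin 5) E) := by
        rw [Module.finrank_matrix, Module.finrank_matrix, Module.finrank_self, hE]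
      refine ⟨Matrix (Fin 5) (Fin 5) M, inferInstance, inferInstance, inferInstance, inferInstance, ?_, ?_⟩
      · rw [Module.finrank_matrix, Module.finrank_self]
        simp
      · obtain ⟨e'⟩ := tens_equiv j hspan hfin
        exact ⟨e'.trans e.symm⟩

end Run7.h339
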