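import Mathlib
import Pool.Agent.Run7.h339.Exist

/-! In every division algebra of degree five there is a nonzero element whose first three powers have
trace zero (any characteristic). -/

set_option autoImplicit false
set_option linter.all false

namespace Run7.h339

open Module Finset Polynomial

section su

variable {K : Type*} [Field K]

/-- strictly upper triangular. -/
def IsSU (M : Matrix (Fin 5) (Fin 5) K) : Prop := ∀ i j : Fin 5, j ≤ i → M i j = 0

theorem trace_su {M : Matrix (Fin 5) (Fin 5) K} (h : IsSU M) {n : ℕ} (hn : 1 ≤ n) : (M ^ n).trace = 0 := by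
  rw [Matrix.trace]
  refine sum_eq_zero fun i _ => ?_
  rw [Matrix.diag_apply, (tri_pow (fun i j hij => h i j hij.le) n).2, h i i le_rfl, zero_pow (by omega)]

theorem IsSU.smul {M : Matrix (Fin 5) (Fin 5) K} (h : IsSU M) (k : K) : IsSU (k • M) := by
  intro i j hij
  rw [Matrix.smul_apply, h i j hij, smul_zero]

end su

section core

variable {F K D : Type*} [Field F] [Field K] [Algebra F K] [DivisionRing D] [Algebra F D]

theorem dvd_phi_su (R : D →+* Matrix (Fin 5) (Fin 5) K) (θ : K) {f : F[X]}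
    (hf : ∀ q : F[X], aeval θ q = 0 → f ∣ q) (τ : D →ₗ[F] F) {κ : K} (hκ : κ ≠ 0)
    (htr : ∀ d, (R d).trace = κ * algebraMap F K (τ d)) {W : D[X]} (hW : IsSU (evK R θ W)) {n : ℕ}
    (hn : 1 ≤ n) : f ∣ PhiD τ (W ^ n) := by
  apply hf
  have h1 := trace_evK R θ τ κ htr (W ^ n)
  rw [map_pow, trace_su hW hn] at h1
  exact (mul_eq_zero.1 h1.symm).resolve_left hκ

theorem phi_zero_su (R : D →+* Matrix (Fin 5) (Fin 5) K) (θ : K) {f : F[X]} (hfd : f.natDegree = 5)
    (hf : ∀ q : F[X], aeval θ q = 0 → f ∣ q) (τ : D →ₗ[F] F) {κ : K} (hκ : κ ≠ 0)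
    (htr : ∀ d, (R d).trace = κ * algebraMap F K (τ d)) {W : D[X]} (hW : IsSU (evK R θ W)) {n d : ℕ}
    (hd : W.natDegree ≤ d) (hn : 1 ≤ n) (hnd : n * d < 5) : PhiD τ (W ^ n) = 0 := by
  refine Polynomial.eq_zero_of_dvd_of_natDegree_lt (dvd_phi_su R θ hf τ hκ htr hW hn) ?_
  rw [hfd]
  refine (PhiD_natDegree τ (W ^ n) (natDegree_pow_le_of_le n hd)).trans_lt hnd

theorem line_su (R : D →+* Matrix (Fin 5) (Fin 5) K) (θ : K) {f : F[X]} (hfd : f.natDegree = 5)
    (hf : ∀ q : F[X], aeval θ q = 0 → f ∣ q) (τ : D →ₗ[F] F) {κ : K} (hκ : κ ≠ 0)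
    (htr : ∀ d, (R d).trace = κ * algebraMap F K (τ d)) {W : D[X]} (hW : IsSU (evK R θ W))
    (hd : W.natDegree ≤ 1) (hW0 : W ≠ 0) :
    ∃ z : D, z ≠ 0 ∧ ∀ n, 1 ≤ n → n ≤ 3 → τ (z ^ n) = 0 := by
  have h0 : ∀ n, 1 ≤ n → n ≤ 3 → PhiD τ (W ^ n) = 0 := fun n hn hn3 =>
    phi_zero_su R θ hfd hf τ hκ htr hW hd hn (by omega)
  by_cases h : W.coeff 1 = 0
  · refine ⟨W.coeff 0, ?_, fun n hn hn3 => ?_⟩
    · intro h2
      apply hW0
      ext i
      rcases i with _ | _ | i
      · exact h2
      · exact h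
      · exact coeff_eq_zero_of_natDegree_lt (by omega)
    · have hd0 : W.natDegree ≤ 0 := by
        rw [natDegree_le_iff_coeff_eq_zero]
        intro m hm
        rcases Nat.lt_or_ge 1 m with h3 | h3
        · exact coeff_eq_zero_of_natDegree_lt (by omega)
        · have : m = 1 := by omega
          rw [this, h]
      have h2 := coeff_pow_of_natDegree_le (m := n) hd0
      rw [mul_zero] at h2
      rw [← h2, ← PhiD_coeff, h0 n hn hn3, coeff_zero]
  · refine ⟨W.coeff 1, h, fun n hn hn3 => ?_⟩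
    have h2 := coeff_pow_of_natDegree_le (m := n) hd
    rw [← h2, ← PhiD_coeff, h0 n hn hn3, coeff_zero]

/-- degree two. -/
theorem conic_su (R : D →+* Matrix (Fin 5) (Fin 5) K)
    (hR : ∀ c : F, R (algebraMap F D c) = algebraMap K (Matrix (Fin 5) (Fin 5) K) (algebraMap F K c))
    (θ : K) {f : F[X]} (hfd : f.natDegree = 5)
    (hf : ∀ q : F[X], aeval θ q = 0 → f ∣ q) (τ : D →ₗ[F] F) {κ : K} (hκ : κ ≠ 0)
    (htr : ∀ d, (R d).trace = κ * algebraMap F K (τ d)) {W : D[X]} (hW : IsSU (evK R θ W))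
    (hd : W.natDegree ≤ 2) (hW0 : W ≠ 0) :
    ∃ z : D, z ≠ 0 ∧ ∀ n, 1 ≤ n → n ≤ 3 → τ (z ^ n) = 0 := by
  have hWe : W = C (W.coeff 0) + C (W.coeff 1) * X + C (W.coeff 2) * X ^ 2 := by
    conv_lhs => rw [W.as_sum_range_C_mul_X_pow' (n := 3) (by omega)]
    rw [sum_range_succ, sum_range_succ, sum_range_succ, range_zero, sum_empty, zero_add, pow_zero, mul_one, pow_one]
  have hevW : evK R θ W = R (W.coeff 0) + θ • R (W.coeff 1) + (θ ^ 2) • R (W.coeff 2) := by
    conv_lhs => rw [hWe]
    rw [map_add, map_add, map_mul, map_mul, map_pow, evK_C, evK_C, evK_C, evK_X, ← map_pow, ← Algebra.commutes,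
      ← Algebra.commutes, Algebra.smul_def, Algebra.smul_def]
  have hlin : ∀ a b : D, evK R θ (C a + C b * X) = R a + θ • R b := by
    intro a b
    rw [map_add, map_mul, evK_C, evK_C, evK_X, ← Algebra.commutes, Algebra.smul_def]
  have hlindeg : ∀ a b : D, (C a + C b * X : D[X]).natDegree ≤ 1 := by
    intro a b
    rw [add_comm]
    exact natDegree_linear_le
  have hcoef1 : ∀ a b : D, (C a + C b * X : D[X]).coeff 1 = b := by intro a b; simp
  by_cases hc2 : W.coeff 2 = 0
  · refine line_su R θ hfd hf τ hκ htr hW ?_ hW0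
    rw [natDegree_le_iff_coeff_eq_zero]
    intro m hm
    rcases Nat.lt_or_ge 2 m with h3 | h3
    · exact coeff_eq_zero_of_natDegree_lt (by omega)
    · have : m = 2 := by omega
      rw [this, hc2]
  have hT1 : PhiD τ (W ^ 1) = 0 := phi_zero_su R θ hfd hf τ hκ htr hW hd le_rfl (by norm_num)
  have hT2 : PhiD τ (W ^ 2) = 0 := phi_zero_su R θ hfd hf τ hκ htr hW hd (by norm_num) (by norm_num)
  obtain ⟨g, hg⟩ := dvd_phi_su R θ hf τ hκ htr hW (n := 3) (by norm_num)
  have hT3 : (PhiD τ (W ^ 3)).natDegree ≤ 6 := PhiD_natDegree τ (W ^ 3) (natDegree_pow_le_of_le 3 hd)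
  have hf0 : f ≠ 0 := by
    rintro rfl
    rw [natDegree_zero] at hfd
    omega
  have hgd : g.natDegree ≤ 1 := by
    by_cases hg0 : g = 0
    · rw [hg0, natDegree_zero]; omega
    · rw [hg, natDegree_mul hf0 hg0, hfd] at hT3
      omega
  by_cases hα : g.coeff 1 = 0
  · refine ⟨W.coeff 2, hc2, ?_⟩
    have hg0 : g.natDegree ≤ 0 := by
      rw [natDegree_le_iff_coeff_eq_zero]
      intro m hm
      rcases Nat.lt_or_ge 1 m with h | h
      · exact coeff_eq_zero_of_natDegree_lt (by omega)
      · have : m = 1 := by omega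
        rw [this, hα]
    have hT3' : (PhiD τ (W ^ 3)).coeff 6 = 0 := by
      apply coeff_eq_zero_of_natDegree_lt
      rw [hg]
      have := natDegree_mul_le (p := f) (q := g)
      omega
    intro n hn hn3
    have hco : ∀ n, (W ^ n).coeff (2 * n) = W.coeff 2 ^ n := fun n => by
      rw [mul_comm]
      exact coeff_pow_of_natDegree_le hd
    interval_cases n
    · rw [← hco, ← PhiD_coeff, hT1, coeff_zero]
    · rw [← hco, ← PhiD_coeff, hT2, coeff_zero]
    · rw [← hco, ← PhiD_coeff]
      exact hT3'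
  · obtain ⟨t, ht⟩ : ∃ t : F, g.eval t = 0 := by
      refine ⟨-(g.coeff 0 / g.coeff 1), ?_⟩
      rw [eval_eq_sum_range' (n := 2) (by omega), sum_range_succ, sum_range_succ, range_zero, sum_empty]
      field_simp
      ring
    have hz : ∀ n, 1 ≤ n → n ≤ 3 → τ ((evD D t W) ^ n) = 0 := by
      intro n hn hn3
      rw [← map_pow, evD_apply, ← PhiD_eval]
      interval_cases n
      · rw [hT1, eval_zero]
      · rw [hT2, eval_zero]
      · rw [hg, eval_mul, ht, mul_zero]
    by_cases hz0 : evD D t W = 0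
    · have hθt : θ - algebraMap F K t ≠ 0 := by
        intro h0
        have h1 := hf (X - C t) (by rw [map_sub, aeval_X, aeval_C, h0])
        have h2 := natDegree_le_of_dvd h1 (X_sub_C_ne_zero t)
        rw [hfd, natDegree_X_sub_C] at h2
        omega
      refine line_su R θ hfd hf τ hκ htr (W := C (W.coeff 1 + t • W.coeff 2) + C (W.coeff 2) * X) ?_
        (hlindeg _ _) (fun h => hc2 (by rw [← hcoef1 (W.coeff 1 + t • W.coeff 2) (W.coeff 2), h, coeff_zero]))
      rw [hlin]
      have hRs : ∀ (c : F) (d : D), R (c • d) = (algebraMap F K c) • R d := by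
        intro c d
        rw [Algebra.smul_def, map_mul, hR, Algebra.smul_def]
      have hcc' : W.coeff 0 = - t • W.coeff 1 - (t ^ 2) • W.coeff 2 := by
        have h3 : evD D t W = W.coeff 0 + t • W.coeff 1 + (t ^ 2) • W.coeff 2 := by
          rw [evD_apply, eval_eq_sum_range' (n := 3) (by omega), sum_range_succ, sum_range_succ, sum_range_succ,
            range_zero, sum_empty, zero_add, pow_zero, mul_one, pow_one, ← map_pow, ← Algebra.commutes,
            ← Algebra.commutes, ← Algebra.smul_def, ← Algebra.smul_def]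
        rw [h3] at hz0
        rw [eq_comm, ← sub_eq_zero, ← neg_eq_zero, ← hz0]
        module
      have h1 : R (W.coeff 1 + t • W.coeff 2) + θ • R (W.coeff 2) =
          (θ - algebraMap F K t)⁻¹ • (evK R θ W) := by
        have h2 : evK R θ W = (θ - algebraMap F K t) • (R (W.coeff 1 + t • W.coeff 2) + θ • R (W.coeff 2)) := by
          rw [hevW, hcc', map_sub, hRs, hRs, map_add, hRs, map_pow, map_neg]
          module
        rw [h2, smul_smul, inv_mul_cancel₀ hθt, one_smul]
      rw [h1]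
      exact hW.smul _
    · exact ⟨_, hz0, hz⟩

/-- existence of a good conic. -/
theorem exists_su [FiniteDimensional F D] [FiniteDimensional F K] (hD : finrank F D = 25) (hK : finrank F K = 5)
    (R : D →+* Matrix (Fin 5) (Fin 5) K)
    (hR : ∀ c : F, R (algebraMap F D c) = algebraMap K (Matrix (Fin 5) (Fin 5) K) (algebraMap F K c)) (θ : K)
    (τ : D →ₗ[F] F) (hτ : τ ≠ 0) {κ : K}
    (htr : ∀ d, (R d).trace = κ * algebraMap F K (τ d)) :
    ∃ W : D[X], W.natDegree ≤ 2 ∧ IsSU (evK R θ W) ∧ W ≠ 0 := by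
  have hRs : ∀ (c : F) (d : D), R (c • d) = (algebraMap F K c) • R d := by
    intro c d
    rw [Algebra.smul_def, map_mul, hR, Algebra.smul_def]
  let N := LinearMap.ker τ
  have hN : finrank F N = 24 := by
    have h1 := LinearMap.finrank_range_add_finrank_ker τ
    have h2 : LinearMap.range τ = ⊤ := by
      rw [LinearMap.range_eq_top]
      exact LinearMap.surjective hτ
    rw [h2, finrank_top, Module.finrank_self, hD] at h1
    change finrank F (LinearMap.ker τ) = 24
    omega
  let A : (Fin 3 → N) →ₗ[F] Matrix (Fin 5) (Fin 5) K :=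
    { toFun := fun a => ∑ i : Fin 3, (θ ^ (i : ℕ)) • R (a i)
      map_add' := fun a b => by
        rw [← sum_add_distrib]
        refine sum_congr rfl fun i _ => ?_
        rw [Pi.add_apply, Submodule.coe_add, map_add, smul_add]
      map_smul' := fun c a => by
        rw [RingHom.id_apply, smul_sum]
        refine sum_congr rfl fun i _ => ?_
        rw [Pi.smul_apply, Submodule.coe_smul, hRs, smul_comm, algebraMap_smul] }
  let B : Matrix (Fin 5) (Fin 5) K →ₗ[K] (Low → K) × (Fin 4 → K) :=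
    { toFun := fun M => (fun x => M x.1.1 x.1.2, fun i => M i.castSucc i.castSucc)
      map_add' := fun M N => rfl
      map_smul' := fun k M => rfl }
  let Ψ : (Fin 3 → N) →ₗ[F] (Low → K) × (Fin 4 → K) := B.restrictScalars F ∘ₗ A
  have hcard : Fintype.card Low = 10 := by decide
  have hcod : finrank F ((Low → K) × (Fin 4 → K)) = 70 := by
    rw [finrank_prod, finrank_pi_fintype, finrank_pi_fintype]
    simp only [hK, sum_const, card_univ, smul_eq_mul]
    rw [hcard, Fintype.card_fin]
  have hdom : finrank F (Fin 3 → N) = 72 := by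
    rw [finrank_pi_fintype]
    simp only [hN, sum_const, card_univ, smul_eq_mul]
    rw [Fintype.card_fin]
  obtain ⟨a, ha, ha0⟩ : ∃ a ∈ LinearMap.ker Ψ, a ≠ 0 := by
    apply Submodule.exists_mem_ne_zero_of_ne_bot
    intro hbot
    have h1 := LinearMap.finrank_range_add_finrank_ker Ψ
    have h2 := Submodule.finrank_le (LinearMap.range Ψ)
    rw [hbot, finrank_bot, hdom] at h1
    rw [hcod] at h2
    omega
  have hcoef : ∀ i : Fin 3, (∑ j : Fin 3, C (a j : D) * X ^ (j : ℕ) : D[X]).coeff i = a i := by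
    intro i
    rw [finset_sum_coeff, sum_eq_single i]
    · rw [coeff_C_mul_X_pow, if_pos rfl]
    · intro j _ hj
      rw [coeff_C_mul_X_pow, if_neg]
      intro h
      exact hj (Fin.ext h.symm)
    · intro h; exact absurd (mem_univ _) h
  have hdeg : (∑ i : Fin 3, C (a i : D) * X ^ (i : ℕ) : D[X]).natDegree ≤ 2 := by
    apply natDegree_sum_le_of_forall_le
    intro j _
    exact (natDegree_C_mul_X_pow_le _ _).trans (by omega)
  refine ⟨∑ i : Fin 3, C (a i : D) * X ^ (i : ℕ), hdeg, ?_, ?_⟩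
  · have h1 : evK R θ (∑ i : Fin 3, C (a i : D) * X ^ (i : ℕ)) = A a := by
      change _ = ∑ i : Fin 3, (θ ^ (i : ℕ)) • R (a i)
      rw [map_sum]
      refine sum_congr rfl fun i _ => ?_
      rw [map_mul, map_pow, evK_C, evK_X, ← map_pow, ← Algebra.commutes, Algebra.smul_def]
    have h2 : B (A a) = 0 := LinearMap.mem_ker.1 ha
    have h3 : (fun x : Low => A a x.1.1 x.1.2) = 0 := congrArg Prod.fst h2
    have h4 : (fun i : Fin 4 => A a i.castSucc i.castSucc) = 0 := congrArg Prod.snd h2
    have h5 : (A a).trace = 0 := by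
      rw [← h1, trace_evK R θ τ κ htr]
      have h6 : PhiD τ (∑ i : Fin 3, C (a i : D) * X ^ (i : ℕ)) = 0 := by
        ext n
        rw [PhiD_coeff, coeff_zero]
        rcases Nat.lt_or_ge n 3 with h | h
        · rw [hcoef ⟨n, h⟩]
          exact LinearMap.mem_ker.1 (a ⟨n, h⟩).2
        · rw [coeff_eq_zero_of_natDegree_lt (by omega), map_zero]
      rw [h6, map_zero, mul_zero]
    have h6 : ∀ i : Fin 4, A a i.castSucc i.castSucc = 0 := fun i => congrFun h4 i
    have h7 : A a (Fin.last 4) (Fin.last 4) = 0 := by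
      rw [Matrix.trace, Fin.sum_univ_castSucc] at h5
      simpa [h6] using h5
    rw [h1]
    intro i j hij
    rcases lt_or_eq_of_le hij with h | h
    · exact congrFun h3 ⟨(i, j), h⟩
    · subst h
      induction j using Fin.lastCases with
      | last => exact h7
      | cast i => exact h6 i
  · intro h0
    apply ha0
    funext i
    apply Subtype.ext
    rw [← hcoef i, h0, coeff_zero]
    rfl

end core

universe u

/-- **Theorem.** In every central division algebra of degree five over a field of characteristic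
different from five there is a noncentral element `z` such that `z`, `z ^ 2`, `z ^ 3` have trace
zero. -/
theorem bring {F D : Type u} [Field F] [DivisionRing D] [Algebra F D]
    [Algebra.IsCentral F D] [FiniteDimensional F D] (hD : finrank F D = 5 ^ 2) (h5 : (5 : F) ≠ 0) :
    ∃ z : D, z ∉ Set.range (algebraMap F D) ∧
      ∀ (τ : D →ₗ[F] F), (∀ x y, τ (x * y) = τ (y * x)) → ∀ n, 1 ≤ n → n ≤ 3 → τ (z ^ n) = 0 := by
  have hp : Nat.Prime 5 := by norm_num
  obtain ⟨x, hx⟩ : ∃ x : D, x ∉ Set.range (algebraMap F D) := by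
    by_contra hno
    push Not at hno
    have h1 : finrank F D = 1 := by
      rw [finrank_eq_one_iff_of_nonzero' (1 : D) one_ne_zero]
      intro w
      obtain ⟨c, hc⟩ := hno w
      exact ⟨c, by rw [← hc, Algebra.algebraMap_eq_smul_one]⟩
    rw [hD] at h1
    norm_num at h1
  have hdeg := deg_p hp hD hx
  have hK : finrank F (Ad F x) = 5 := by rw [finrank_ad, hdeg]
  obtain ⟨R, hR, hne⟩ := exists_rep (adHom F x) (n := 5) (by norm_num) hK (by rw [hD]; norm_num)
  -- the trace
  let τ : D →ₗ[F] F := (LinearMap.trace F D) ∘ₗ (Algebra.lmul F D).toLinearMap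
  have hτa : ∀ y, τ y = LinearMap.trace F D (Algebra.lmul F D y) := fun y => rfl
  have htr : ∀ x y, τ (x * y) = τ (y * x) := by
    intro x y
    rw [hτa, hτa, map_mul (Algebra.lmul F D), map_mul (Algebra.lmul F D), LinearMap.trace_mul_comm]
  have hτ1 : τ 1 ≠ 0 := by
    rw [hτa, map_one, LinearMap.trace_one, hD]
    have h25 : ((5 ^ 2 : ℕ) : F) = 5 ^ 2 := by norm_num
    rw [h25]
    exact pow_ne_zero 2 h5
  have hτ : τ ≠ 0 := fun h => hτ1 (by rw [h]; rfl)
  obtain ⟨κ, hκ, hκtr⟩ := trace_compare R hR hne τ hτ htr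
  obtain ⟨W, hW1, hW2, hW3⟩ := exists_su (by rw [hD]; norm_num) hK R hR (AdjoinRoot.root (minpoly F x)) τ hτ hκtr
  obtain ⟨z, hz, hzτ⟩ := conic_su R hR (AdjoinRoot.root (minpoly F x)) (f := minpoly F x) hdeg (by
    intro q hq
    have h1 := minpoly.dvd F _ hq
    rwa [minpoly_root_ad] at h1) τ hκ hκtr hW2 hW1 hW3
  refine ⟨z, ?_, ?_⟩
  · rintro ⟨c, rfl⟩
    have h1 := hzτ 1 le_rfl (by norm_num)
    rw [pow_one, Algebra.algebraMap_eq_smul_one, map_smul, smul_eq_mul] at h1
    have h2 := (mul_eq_zero.1 h1).resolve_right hτ1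
    exact hz (by rw [h2, map_zero])
  · intro τ' hτ' n hn hn3
    obtain ⟨c, hc⟩ := trace_unique τ hτ htr τ' hτ'
    rw [hc, hzτ n hn hn3, mul_zero]

end Run7.h339
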