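import Mathlib
import Pool.Agent.Run7.h339.Bring
import Pool.Agent.Run7.h339.GenPoly2

/-! The polynomial form. -/

set_option autoImplicit false
set_option linter.all false

namespace Run7.h339

open Module Matrix

universe u v

theorem exists_bring_csa {C D : Type u} [Field C] [Ring D] [Algebra C D] [FiniteDimensional C D]
    [Algebra.IsCentral C D] [IsSimpleRing D] (hD : finrank C D = 5 * 5) (h5 : (5 : C) ≠ 0) :
    ∃ x : D, x ∉ Set.range (algebraMap C D) ∧
      ∀ (τ : D →ₗ[C] C), (∀ x y, τ (x * y) = τ (y * x)) → ∀ n, 1 ≤ n → n ≤ 3 → τ (x ^ n) = 0 := by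
  haveI : IsArtinianRing D := IsArtinianRing.of_finite C D
  obtain ⟨m, hm, E, _, _, _, ⟨e⟩⟩ := IsSimpleRing.exists_algEquiv_matrix_divisionRing_finite C D
  clear hm
  have hr := e.toLinearEquiv.finrank_eq
  rw [hD, Module.finrank_matrix, Fintype.card_fin] at hr
  have hmn : m ∣ 5 := by
    have h1 : m ^ 2 ∣ 5 ^ 2 := ⟨finrank C E, by rw [pow_two, pow_two, hr]⟩
    exact (Nat.pow_dvd_pow_iff two_ne_zero).1 h1
  rcases (Nat.dvd_prime (by norm_num : Nat.Prime 5)).1 hmn with rfl | rfl
  · let e1 : D ≃ₐ[C] E := e.trans (m1 C E)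
    haveI : Algebra.IsCentral C E := Algebra.IsCentral.of_algEquiv C D E e1
    obtain ⟨v, hv, hvτ⟩ := bring (F := C) (D := E) (by omega) h5
    refine ⟨e1.symm v, ?_, ?_⟩
    · rintro ⟨b, hb⟩
      exact hv ⟨b, by rw [← e1.commutes, hb, AlgEquiv.apply_symm_apply]⟩
    · intro τ hτ n hn hn3
      have h1 := hvτ (τ ∘ₗ e1.symm.toLinearMap) (fun x y => by
        change τ (e1.symm (x * y)) = τ (e1.symm (y * x))
        rw [map_mul e1.symm, map_mul e1.symm, hτ]) n hn hn3
      change τ (e1.symm (v ^ n)) = 0 at h1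
      rwa [map_pow] at h1
  · have hsq : (Matrix.single (0 : Fin 5) (1 : Fin 5) (1 : E)) * Matrix.single 0 1 1 = 0 :=
      Matrix.single_mul_single_of_ne _ _ _ _ (by decide) _
    refine ⟨e.symm (Matrix.single (0 : Fin 5) (1 : Fin 5) (1 : E)), ?_, ?_⟩
    · rintro ⟨b, hb⟩
      have h1 : Matrix.single (0 : Fin 5) (1 : Fin 5) (1 : E) = algebraMap C _ b := by
        rw [← e.commutes, hb, AlgEquiv.apply_symm_apply]
      have h2 := congrFun (congrFun h1 0) 1
      rw [Matrix.single_apply_same, Matrix.algebraMap_matrix_apply, if_neg (by decide)] at h2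
      exact one_ne_zero h2
    · intro τ hτ n hn hn3
      have h1 : τ (e.symm (Matrix.single (0 : Fin 5) (1 : Fin 5) (1 : E))) = 0 := by
        have e1 : (Matrix.single (0 : Fin 5) (1 : Fin 5) (1 : E)) = Matrix.single 0 0 1 * Matrix.single 0 1 1 := by
          rw [Matrix.single_mul_single_same, one_mul]
        have e2 : Matrix.single (0 : Fin 5) (1 : Fin 5) (1 : E) * Matrix.single 0 0 1 = 0 :=
          Matrix.single_mul_single_of_ne _ _ _ _ (by decide) _
        rw [e1, map_mul e.symm, hτ, ← map_mul e.symm, e2, map_zero, map_zero]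
      rcases Nat.lt_or_ge 1 n with h | h
      · obtain ⟨k, rfl⟩ : ∃ k, n = 2 + k := ⟨n - 2, by omega⟩
        rw [pow_add, pow_two, ← map_mul e.symm, hsq, map_zero, zero_mul, map_zero]
      · have : n = 1 := by omega
        rw [this, pow_one, h1]

/-- the traces of the powers in the generic algebra. -/
theorem trace_of_functional {A : Type*} [Ring A] {L : Type u} [Field L] {n : ℕ}
    {φ : A →+* Matrix (Fin n) (Fin n) L} {x : loc φ}
    (h : ∀ (τ : loc φ →ₗ[cen φ] cen φ), (∀ x y, τ (x * y) = τ (y * x)) → τ x = 0) :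
    (x : Matrix (Fin n) (Fin n) L).trace = 0 := by
  rw [← Module.forall_dual_apply_eq_zero_iff (cen φ)]
  intro ε
  exact h
    { toFun := fun y => ε (y : Matrix (Fin n) (Fin n) L).trace
      map_add' := fun a b => by
        rw [Subalgebra.coe_add, Matrix.trace_add, map_add]
      map_smul' := fun c a => by
        rw [Subalgebra.coe_smul, Matrix.trace_smul, map_smul]; rfl }
    (fun a b => by
      change ε ((a * b : loc φ) : Matrix (Fin n) (Fin n) L).trace = ε ((b * a : loc φ) : Matrix (Fin n) (Fin n) L).trace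
      rw [Subalgebra.coe_mul, Subalgebra.coe_mul, Matrix.trace_mul_comm])

theorem exists_bring_gen {K : Type u} [Field K] (h5 : (5 : K) ≠ 0) :
    ∃ f : FreeAlgebra K (Fin 2),
      (∀ n, 1 ≤ n → n ≤ 3 → (gev' K 5 f ^ n).trace = 0) ∧
      (∀ t : FractionRing (GR K 5), gev' K 5 f ≠ algebraMap _ _ t) := by
  have hn : Nat.Prime 5 := by norm_num
  have hsp := gev'_span K 5
  haveI := loc_finite hsp hn.pos
  haveI := loc_central hsp hn.pos
  haveI := loc_simple hsp hn.pos
  have h5' : (5 : cen (gev' K 5)) ≠ 0 := by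
    intro h0
    have h1 : (5 : FractionRing (GR K 5)) = 0 := by
      have := congrArg (Subtype.val) h0
      exact this
    apply h5
    apply (algebraMap K (FractionRing (GR K 5))).injective
    rw [map_zero, map_ofNat, h1]
  obtain ⟨x, hx, hxτ⟩ := exists_bring_csa (finrank_loc hsp hn.pos) h5'
  obtain ⟨s, hs, hs0, f, hf⟩ := x.2
  refine ⟨f, ?_, ?_⟩
  · intro n hn hn3
    rw [hf, smul_pow, Matrix.trace_smul]
    have h1 := trace_of_functional (x := x ^ n) (fun τ hτ => hxτ τ hτ n hn hn3)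
    rw [Subalgebra.coe_pow] at h1
    rw [h1, smul_zero]
  · intro t ht
    rw [hf] at ht
    have h1 : (x : Matrix (Fin 5) (Fin 5) (FractionRing (GR K 5))) = algebraMap _ _ (s⁻¹ * t) := by
      rw [map_mul, ← ht, ← Algebra.smul_def, inv_smul_smul₀ hs0]
    have h2 : s⁻¹ * t ∈ cen (gev' K 5) := scalar_mem _ (by rw [← h1]; exact x.2)
    exact hx ⟨⟨_, h2⟩, Subtype.ext h1.symm⟩

/-- values form -/
theorem exists_bring_poly {K : Type u} [Field K] (h5 : (5 : K) ≠ 0) :
    ∃ f : FreeAlgebra K (Fin 2), ∀ (E : Type v) [Field E] [Infinite E] [Algebra K E],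
      (∀ X : Fin 2 → Matrix (Fin 5) (Fin 5) E, ∀ n, 1 ≤ n → n ≤ 3 → (FreeAlgebra.lift K X f ^ n).trace = 0) ∧
      ¬ ∀ X : Fin 2 → Matrix (Fin 5) (Fin 5) E, ∃ c : E,
        FreeAlgebra.lift K X f = Matrix.scalar (Fin 5) c := by
  obtain ⟨f, hf1, hf2⟩ := exists_bring_gen h5
  refine ⟨f, fun E _ _ _ => ⟨?_, ?_⟩⟩
  · intro X n hn hn3
    have h1 := hf1 n hn hn3
    have h2 : (gev K 5 f ^ n).trace = 0 := by
      apply FaithfulSMul.algebraMap_injective (GR K 5) (FractionRing (GR K 5))
      rw [map_zero, ← h1, gev'_apply, ← RingHom.mapMatrix_apply, ← map_pow (RingHom.mapMatrix _)]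
      exact AddMonoidHom.map_trace (algebraMap (GR K 5) (FractionRing (GR K 5))).toAddMonoidHom
        (gev K 5 f ^ n)
    rw [← map_pow, spe_gev, map_pow]
    have h3 := congrArg (spe K 5 X) h2
    rw [map_zero] at h3
    rw [← h3]
    exact (AddMonoidHom.map_trace (spe K 5 X).toRingHom.toAddMonoidHom (gev K 5 f ^ n)).symm
  · intro h
    obtain ⟨t, ht⟩ := scalar_of_values (by norm_num) h
    exact hf2 t ht

end Run7.h339
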