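import Mathlib

/-! Newton's identities for a five by five matrix. -/

set_option autoImplicit false
set_option linter.all false

namespace Run7.h339

open Polynomial Matrix

section newt

variable {R : Type*} [CommRing R]

theorem crev_smul (M : Matrix (Fin 5) (Fin 5) R) (c : R) (k : ℕ) :
    (c • M).charpolyRev.coeff k = M.charpolyRev.coeff k * c ^ k := by
  have h : (c • M).charpolyRev = M.charpolyRev.comp (C c * X) := by
    unfold charpolyRev
    have h1 := (compRingHom (C c * X : R[X])).map_det (1 - (X : R[X]) • M.map C)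
    rw [coe_compRingHom_apply] at h1
    rw [h1]
    refine congrArg Matrix.det ?_
    ext i j : 1
    simp [Matrix.one_apply, apply_ite]
    split_ifs <;> simp <;> ring
  rw [h, comp_C_mul_X_coeff]

theorem crev_zero (M : Matrix (Fin 5) (Fin 5) R) : M.charpolyRev.coeff 0 = 1 := by
  rw [coeff_zero_eq_eval_zero, eval_charpolyRev]

theorem crev_expand (M : Matrix (Fin 5) (Fin 5) R) (n : ℕ) :
    expand R n M.charpolyRev = det (1 - (X ^ n : R[X]) • M.map C) := by
  unfold charpolyRev
  rw [AlgHom.map_det]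
  refine congrArg Matrix.det ?_
  ext i j : 1
  simp [Matrix.one_apply, apply_ite]

theorem coeff_mul_two (P Q : R[X]) : (P * Q).coeff 2 =
    P.coeff 0 * Q.coeff 2 + P.coeff 1 * Q.coeff 1 + P.coeff 2 * Q.coeff 0 := by
  rw [coeff_mul, Finset.Nat.sum_antidiagonal_eq_sum_range_succ_mk]
  simp [Finset.sum_range_succ]

theorem coeff_mul_three (P Q : R[X]) : (P * Q).coeff 3 =
    P.coeff 0 * Q.coeff 3 + P.coeff 1 * Q.coeff 2 + P.coeff 2 * Q.coeff 1 + P.coeff 3 * Q.coeff 0 := by
  rw [coeff_mul, Finset.Nat.sum_antidiagonal_eq_sum_range_succ_mk]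
  simp [Finset.sum_range_succ]

theorem coeff_mul_one' (P Q : R[X]) : (P * Q).coeff 1 =
    P.coeff 0 * Q.coeff 1 + P.coeff 1 * Q.coeff 0 := by
  rw [coeff_mul, Finset.Nat.sum_antidiagonal_eq_sum_range_succ_mk]
  simp [Finset.sum_range_succ]

theorem coeff_mul_zero' (P Q : R[X]) : (P * Q).coeff 0 = P.coeff 0 * Q.coeff 0 := mul_coeff_zero P Q

theorem two_e2 (M : Matrix (Fin 5) (Fin 5) R) :
    2 * M.charpolyRev.coeff 2 - M.charpolyRev.coeff 1 ^ 2 = - (M ^ 2).trace := by
  have h1 : M.charpolyRev * ((-1 : R) • M).charpolyRev = expand R 2 (M ^ 2).charpolyRev := by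
    rw [crev_expand]
    unfold charpolyRev
    rw [← det_mul]
    refine congrArg Matrix.det ?_
    have e1 : ((-1 : R) • M).map C = - M.map C := by
      ext i j : 1
      simp
    have e2 : (M ^ 2).map C = (M.map C) ^ 2 := by
      rw [← RingHom.mapMatrix_apply, map_pow, RingHom.mapMatrix_apply]
    rw [e1, e2, ← _root_.smul_pow, smul_neg]
    generalize (X : R[X]) • M.map C = Y
    noncomm_ring
  have h2 := congrArg (fun P => coeff P 2) h1
  rw [coeff_expand (by norm_num), if_pos (by norm_num), show 2 / 2 = 1 by norm_num,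
    coeff_charpolyRev_eq_neg_trace, coeff_mul_two, crev_smul, crev_smul, crev_smul, crev_zero] at h2
  linear_combination h2

theorem triple {S A : Type*} [CommRing S] [Ring A] [Algebra S A] (a : S) (ha : 1 + a + a ^ 2 = 0) (Y : A) :
    (1 - Y) * (1 - a • Y) * (1 - (a ^ 2) • Y) = 1 - Y ^ 3 := by
  have h : ((1 - X) * (1 - C a * X) * (1 - C (a ^ 2) * X) : S[X]) = 1 - X ^ 3 := by
    have h1 : (1 + C a + C a ^ 2 : S[X]) = 0 := by
      rw [← C_pow, ← C_1, ← C_add, ← C_add, ha, C_0]
    rw [C_pow]
    linear_combination ((X ^ 2 * C a - X) - X ^ 3 * (C a - 1) : S[X]) * h1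
  have h2 := congrArg (aeval Y) h
  simp only [map_mul, map_sub, map_one, map_pow, aeval_X, aeval_C] at h2
  rw [← Algebra.smul_def, ← map_pow, ← Algebra.smul_def] at h2
  exact h2

theorem three_e3 (M : Matrix (Fin 5) (Fin 5) R) (w : R) (hw : 1 + w + w ^ 2 = 0)
    (h1 : M.charpolyRev.coeff 1 = 0) (h2 : M.charpolyRev.coeff 2 = 0) :
    3 * M.charpolyRev.coeff 3 = - (M ^ 3).trace := by
  have hw3 : w ^ 3 = 1 := by linear_combination (w - 1) * hw
  have h3 : M.charpolyRev * (w • M).charpolyRev * ((w ^ 2) • M).charpolyRev = expand R 3 (M ^ 3).charpolyRev := by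
    rw [crev_expand]
    unfold charpolyRev
    rw [← det_mul, ← det_mul]
    refine congrArg Matrix.det ?_
    have e1 : ∀ c : R, (c • M).map C = (C c) • M.map C := by
      intro c
      ext i j : 1
      simp
    have e2 : (M ^ 3).map C = (M.map C) ^ 3 := by
      rw [← RingHom.mapMatrix_apply, map_pow, RingHom.mapMatrix_apply]
    have hW : (1 : R[X]) + C w + C w ^ 2 = 0 := by
      rw [← C_pow, ← C_1, ← C_add, ← C_add, hw, C_0]
    rw [e1, e1, e2, ← _root_.smul_pow, smul_comm (X : R[X]) (C w), smul_comm (X : R[X]) (C (w ^ 2)), C_pow]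
    exact triple (C w) hW _
  have h4 := congrArg (fun P => coeff P 3) h3
  rw [coeff_expand (by norm_num), if_pos (by norm_num), show 3 / 3 = 1 by norm_num,
    coeff_charpolyRev_eq_neg_trace, coeff_mul_three, coeff_mul_three, coeff_mul_two, coeff_mul_one', coeff_mul_zero',
    crev_smul, crev_smul, crev_smul, crev_smul, crev_smul, crev_smul, crev_smul, crev_smul, crev_zero, h1, h2] at h4
  linear_combination h4 - (M.charpolyRev.coeff 3) * (w ^ 3 + 2) * hw3

end newt

/-- a five by five matrix whose first three powers have trace zero. -/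
theorem charpoly_of_trace {E : Type*} [Field E] (h2 : (2 : E) ≠ 0) (h3 : (3 : E) ≠ 0)
    {M : Matrix (Fin 5) (Fin 5) E} (h : ∀ n, 1 ≤ n → n ≤ 3 → (M ^ n).trace = 0) :
    ∃ a b : E, M.charpoly = X ^ 5 + C a * X + C b := by
  have q1 : M.charpolyRev.coeff 1 = 0 := by
    rw [coeff_charpolyRev_eq_neg_trace]
    have := h 1 le_rfl (by norm_num)
    rw [pow_one] at this
    rw [this, neg_zero]
  have q2 : M.charpolyRev.coeff 2 = 0 := by
    have h4 := two_e2 M
    rw [q1, h 2 (by norm_num) (by norm_num)] at h4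
    have h5 : 2 * M.charpolyRev.coeff 2 = 0 := by linear_combination h4
    exact (mul_eq_zero.1 h5).resolve_left h2
  have q3 : M.charpolyRev.coeff 3 = 0 := by
    let Ω := AlgebraicClosure E
    let M' : Matrix (Fin 5) (Fin 5) Ω := M.map (algebraMap E Ω)
    have hrev : M'.charpolyRev = M.charpolyRev.map (algebraMap E Ω) := by
      unfold charpolyRev
      have h4 := (mapRingHom (algebraMap E Ω)).map_det (1 - (X : E[X]) • M.map C)
      rw [coe_mapRingHom] at h4
      rw [h4]
      refine congrArg Matrix.det ?_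
      ext i j : 1
      simp [M', Matrix.one_apply, apply_ite]
    obtain ⟨w, hw⟩ : ∃ w : Ω, 1 + w + w ^ 2 = 0 := by
      have hdd : (X ^ 2 + X + 1 : Polynomial Ω).degree = 2 := by compute_degree!
      obtain ⟨w, hw⟩ := IsAlgClosed.exists_root (X ^ 2 + X + 1 : Polynomial Ω) (by
        rw [hdd]; norm_num)
      refine ⟨w, ?_⟩
      have : (X ^ 2 + X + 1 : Polynomial Ω).eval w = 0 := hw
      simp at this
      linear_combination this
    have h5 := three_e3 M' w hw (by rw [hrev, coeff_map, q1, map_zero]) (by rw [hrev, coeff_map, q2, map_zero])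
    have h6 : (M' ^ 3).trace = 0 := by
      have h7 : M' ^ 3 = (M ^ 3).map (algebraMap E Ω) := by
        rw [← RingHom.mapMatrix_apply, map_pow]; rfl
      have h8 := AddMonoidHom.map_trace (algebraMap E Ω).toAddMonoidHom (M ^ 3)
      rw [h 3 (by norm_num) le_rfl] at h8
      rw [h7]
      have h9 : (algebraMap E Ω).toAddMonoidHom 0 = 0 := map_zero _
      rw [h9] at h8
      exact h8.symm
    rw [h6, neg_zero, hrev, coeff_map] at h5
    have h3' : (3 : Ω) ≠ 0 := by
      intro h0
      apply h3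
      apply (algebraMap E Ω).injective
      rw [map_zero, map_ofNat, h0]
    have h7 := (mul_eq_zero.1 h5).resolve_left h3'
    exact (map_eq_zero _).1 h7
  have hd : M.charpoly.natDegree = 5 := by simp
  have hco : ∀ k, k ≤ 5 → M.charpolyRev.coeff k = M.charpoly.coeff (5 - k) := by
    intro k hk
    rw [← reverse_charpoly, coeff_reverse, hd, revAt_le hk]
  refine ⟨M.charpoly.coeff 1, M.charpoly.coeff 0, ?_⟩
  have c5 : M.charpoly.coeff 5 = 1 := by
    have := (charpoly_monic M).coeff_natDegree
    rwa [hd] at this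
  have c4 : M.charpoly.coeff 4 = 0 := by rw [← q1, hco 1 (by norm_num)]
  have c3 : M.charpoly.coeff 3 = 0 := by rw [← q2, hco 2 (by norm_num)]
  have c2 : M.charpoly.coeff 2 = 0 := by rw [← q3, hco 3 (by norm_num)]
  ext k
  rcases Nat.lt_or_ge k 6 with hk | hk
  · interval_cases k <;> simp [c5, c4, c3, c2, coeff_X, coeff_X_pow, coeff_C]
  · rw [coeff_eq_zero_of_natDegree_lt (by omega)]
    rw [coeff_add, coeff_add, coeff_X_pow, coeff_C_mul, coeff_X, coeff_C, if_neg (by omega), if_neg (by omega),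
      if_neg (by omega)]
    simp

end Run7.h339
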