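import Mathlib
import Pool.Agent.Run7.h339.KeyL
import Pool.Agent.Run7.h339.SolvT

/-! Division algebras of degree five in characteristic five. -/

set_option autoImplicit false
set_option linter.all false

namespace Run7.h339

open Module Finset Polynomial

universe u

/-- **Every division algebra of degree five in characteristic five is cyclic.** -/
theorem cyc_five {F D : Type u} [Field F] [CharP F 5] [DivisionRing D] [Algebra F D]
    [Algebra.IsCentral F D] [FiniteDimensional F D] (hD : finrank F D = 5 ^ 2) : CycMax 5 F D := by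
  have hp : Nat.Prime 5 := by norm_num
  obtain ⟨x, hx⟩ : ∃ x : D, x ∉ Set.range (algebraMap F D) := by
    by_contra hno
    push Not at hno
    have h1 : finrank F D = 1 := by
      rw [finrank_eq_one_iff_of_nonzero' (1 : D) one_ne_zero]
      intro w
      obtain ⟨c, hc⟩ := hno w
      exact ⟨c, by rw [← hc, Algebra.algebraMap_eq_smul_one]⟩
    rw [hD] at h1
    norm_num at h1
  have hdeg := deg_p hp hD hx
  have hK : finrank F (Ad F x) = 5 := by rw [finrank_ad, hdeg]
  haveI : CharP (Ad F x) 5 := charP_of_injective_algebraMap (algebraMap F (Ad F x)).injective 5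
  obtain ⟨R, hR, hne⟩ := exists_rep (adHom F x) (n := 5) (by norm_num) hK (by rw [hD]; norm_num)
  obtain ⟨τ, hτ, htr, hτ1⟩ := exists_tau F D hp hD (central_deg hp hD)
  obtain ⟨κ, hκ, hκtr⟩ := trace_compare R hR hne τ hτ htr
  obtain ⟨W, hW1, hW2, hW3⟩ := exists_conic (by rw [hD]; norm_num) hK R hR (AdjoinRoot.root (minpoly F x))
  obtain ⟨z, hz, hzτ⟩ := conic_case R hR (AdjoinRoot.root (minpoly F x)) (f := minpoly F x) hdeg (by
    intro q hq
    have h1 := minpoly.dvd F _ hq
    rwa [minpoly_root_ad] at h1) τ hκ hκtr hW2 hW1 hW3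
  obtain ⟨a, c, hac⟩ := artin_schreier_of_trace hp (by norm_num) hD τ hτ htr hz (by
    intro j hj
    rcases Nat.eq_zero_or_pos j with h | h
    · rw [h, pow_zero, hτ1]
    · exact hzτ j h (by omega))
  obtain ⟨v, hv, hvp⟩ := pcentral_of_solv hp hD hz hac
  exact cyc_of_pcentral hp hD hv hvp

end Run7.h339
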