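import Mathlib
import Pool.Agent.Run7.h339.Ascent

/-! Laurent series. -/

set_option autoImplicit false
set_option linter.all false

noncomputable section

namespace Run7.h339

open PowerSeries WithZero MonoidWithZeroHom MonoidWithZeroHom.ValueGroup₀
open scoped NNReal

universe u

variable (k : Type u) [Field k]

section norm

/-- the rank one structure on the valuation of Laurent series -/
@[instance_reducible]
def rankOneLS : Valuation.RankOne (Valued.v : Valuation (LaurentSeries k) ℤᵐ⁰) where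
  hom' := (WithZeroMulInt.toNNReal (e := 2) two_ne_zero).comp ValueGroup₀.embedding
  strictMono' := (WithZeroMulInt.toNNReal_strictMono (by norm_num)).comp
    ValueGroup₀.embedding_strictMono
  exists_val_nontrivial := by
    refine ⟨HahnSeries.single 1 1, ?_, ?_⟩
    · rw [Valuation.ne_zero_iff]
      simp
    · have := LaurentSeries.valuation_single_zpow k 1
      rw [this]
      decide

/-- normed field structure -/
@[instance_reducible]
def nfLS : NontriviallyNormedField (LaurentSeries k) :=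
  letI := rankOneLS k
  Valued.toNontriviallyNormedField (LaurentSeries k) ℤᵐ⁰

theorem ultraLS : letI := nfLS k; IsUltrametricDist (LaurentSeries k) := by
  let _ := rankOneLS k
  exact Valued.instIsUltrametricDist (LaurentSeries k) ℤᵐ⁰

theorem completeLS : letI := nfLS k; CompleteSpace (LaurentSeries k) :=
  LaurentSeries.instLaurentSeriesComplete

theorem normLS (x : LaurentSeries k) : (nfLS k).norm x =
    WithZeroMulInt.toNNReal (e := 2) two_ne_zero (Valued.v x) := by
  change ((WithZeroMulInt.toNNReal (e := 2) two_ne_zero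
    (ValueGroup₀.embedding ((Valued.v : Valuation (LaurentSeries k) ℤᵐ⁰).restrict x)) : ℝ≥0) : ℝ) = _
  rw [Valuation.embedding_restrict]

end norm

theorem nLS_strict : StrictMono (WithZeroMulInt.toNNReal (e := 2) two_ne_zero) :=
  WithZeroMulInt.toNNReal_strictMono (by norm_num)

theorem normLS_le_one_iff (x : LaurentSeries k) : (nfLS k).norm x ≤ 1 ↔ Valued.v x ≤ (1 : ℤᵐ⁰) := by
  rw [normLS]
  have h : ((WithZeroMulInt.toNNReal (e := 2) two_ne_zero (1 : ℤᵐ⁰) : ℝ≥0) : ℝ) = 1 := by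
    rw [map_one]; rfl
  rw [← h, NNReal.coe_le_coe, nLS_strict.le_iff_le]

theorem normLS_lt_one_iff (x : LaurentSeries k) : (nfLS k).norm x < 1 ↔ Valued.v x < (1 : ℤᵐ⁰) := by
  rw [normLS]
  have h : ((WithZeroMulInt.toNNReal (e := 2) two_ne_zero (1 : ℤᵐ⁰) : ℝ≥0) : ℝ) = 1 := by
    rw [map_one]; rfl
  rw [← h, NNReal.coe_lt_coe, nLS_strict.lt_iff_lt]

/-- the uniformiser -/
abbrev tLS : LaurentSeries k := HahnSeries.single (1 : ℤ) (1 : k)

theorem tLS_val : (Valued.v (tLS k) : ℤᵐ⁰) = exp (-1 : ℤ) := LaurentSeries.valuation_single_zpow k 1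

theorem tLS_norm_lt : (nfLS k).norm (tLS k) < 1 := by
  rw [normLS_lt_one_iff, tLS_val, ← exp_zero, exp_lt_exp]
  omega

theorem base_LS (c : LaurentSeries k) (hc : c ≠ 0) : ∃ n : ℤ, (nfLS k).norm c = (nfLS k).norm (tLS k) ^ n := by
  have h0 : (Valued.v c : ℤᵐ⁰) ≠ 0 := (Valuation.ne_zero_iff _).2 hc
  refine ⟨-(log (Valued.v c : ℤᵐ⁰)), ?_⟩
  rw [normLS, normLS, tLS_val]
  have h1 : (Valued.v c : ℤᵐ⁰) = exp (-1 : ℤ) ^ (-(log (Valued.v c : ℤᵐ⁰))) := by
    rw [← exp_zsmul, smul_eq_mul, mul_neg, mul_one, neg_neg, exp_log h0]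
  conv_lhs => rw [h1]
  rw [map_zpow₀]
  push_cast
  rfl

theorem lt_one_iff_le (x : LaurentSeries k) : Valued.v x < (1 : ℤᵐ⁰) ↔ Valued.v x ≤ (exp (-1 : ℤ) : ℤᵐ⁰) := by
  by_cases h : x = 0
  · simp [h]
  · have h0 : (Valued.v x : ℤᵐ⁰) ≠ 0 := (Valuation.ne_zero_iff _).2 h
    rw [← exp_log h0, ← exp_zero, exp_lt_exp, exp_le_exp]
    omega

theorem val_C (c : k) : Valued.v (HahnSeries.C c : LaurentSeries k) ≤ (1 : ℤᵐ⁰) := by
  have h : (1 : ℤᵐ⁰) = exp (-(0 : ℤ)) := by simp
  rw [h, LaurentSeries.valuation_le_iff_coeff_lt_eq_zero]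
  intro n hn
  rw [HahnSeries.C_apply, HahnSeries.coeff_single_of_ne hn.ne]

theorem const_near (x : LaurentSeries k) (hx : Valued.v x ≤ (1 : ℤᵐ⁰)) :
    Valued.v (x - HahnSeries.C (x.coeff 0)) < (1 : ℤᵐ⁰) := by
  have h : (1 : ℤᵐ⁰) = exp (-(0 : ℤ)) := by simp
  rw [h, LaurentSeries.valuation_le_iff_coeff_lt_eq_zero] at hx
  rw [lt_one_iff_le, LaurentSeries.valuation_le_iff_coeff_lt_eq_zero]
  intro n hn
  rw [HahnSeries.coeff_sub, HahnSeries.C_apply]
  rcases lt_or_eq_of_le (show n ≤ 0 by omega) with h1 | h1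
  · rw [hx n h1, HahnSeries.coeff_single_of_ne h1.ne, sub_zero]
  · rw [h1, HahnSeries.coeff_single_same, sub_self]

/-- the constants inside the valuation ring. -/
def cO : letI := nfLS k; haveI := ultraLS k; k →+* OO (LaurentSeries k) :=
  letI := nfLS k
  haveI := ultraLS k
  (HahnSeries.C : k →+* LaurentSeries k).codRestrict (OO (LaurentSeries k)) (fun c => by
    change (nfLS k).norm _ ≤ 1
    rw [normLS_le_one_iff]
    exact val_C k c)

/-- the residue field of `k((t))` is `k`. -/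
def resLS : letI := nfLS k; haveI := ultraLS k; k ≃+* Kp (LaurentSeries k) :=
  letI := nfLS k
  haveI := ultraLS k
  RingEquiv.ofBijective ((rs (LaurentSeries k)).comp (cO k)) (by
    refine ⟨RingHom.injective _, ?_⟩
    intro y
    obtain ⟨x, rfl⟩ := rs_surj y
    refine ⟨(x : LaurentSeries k).coeff 0, ?_⟩
    change rs (LaurentSeries k) (cO k _) = rs (LaurentSeries k) x
    symm
    rw [rs_eq_iff]
    change (nfLS k).norm ((x : LaurentSeries k) - HahnSeries.C ((x : LaurentSeries k).coeff 0)) < 1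
    rw [normLS_lt_one_iff]
    apply const_near
    rw [← normLS_le_one_iff]
    exact x.2)

theorem norm_natCast_LS {j : ℕ} (hj : (j : k) ≠ 0) : (nfLS k).norm (j : LaurentSeries k) = 1 := by
  have h1 : (j : LaurentSeries k) = HahnSeries.C (j : k) := by rw [map_natCast]
  have h2 : (nfLS k).norm (HahnSeries.C (j : k) : LaurentSeries k) ≤ 1 := by
    rw [normLS_le_one_iff]; exact val_C k _
  have h3 : (nfLS k).norm (HahnSeries.C ((j : k)⁻¹) : LaurentSeries k) ≤ 1 := by
    rw [normLS_le_one_iff]; exact val_C k _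
  letI := nfLS k
  have h4 : ‖(HahnSeries.C (j : k) : LaurentSeries k)‖ * ‖(HahnSeries.C ((j : k)⁻¹) : LaurentSeries k)‖ = 1 := by
    rw [← norm_mul, ← map_mul, mul_inv_cancel₀ hj, map_one, norm_one]
  rw [h1]
  change ‖(HahnSeries.C (j : k) : LaurentSeries k)‖ = 1
  have h5 : ‖(HahnSeries.C (j : k) : LaurentSeries k)‖ ≤ 1 := h2
  have h6 : ‖(HahnSeries.C ((j : k)⁻¹) : LaurentSeries k)‖ ≤ 1 := h3
  have h7 := norm_nonneg (HahnSeries.C (j : k) : LaurentSeries k)
  nlinarith

/-- **Ascent through `k((t))`.** -/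
theorem PC.laurent {p : ℕ} (hp : p.Prime) (hj : ∀ j, 1 ≤ j → j < p → (j : k) ≠ 0) (h : PC p k) :
    PC p (LaurentSeries k) := by
  letI := nfLS k
  haveI := ultraLS k
  haveI := completeLS k
  exact ascend hp (ϖ := tLS k) (by simp [tLS]) (tLS_norm_lt k) (base_LS k)
    (fun j hj1 hjp => norm_natCast_LS k (hj j hj1 hjp)) (h.congr (resLS k) hp.ne_zero)

end Run7.h339
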