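import Mathlib

/-! Kummer descent. -/

set_option autoImplicit false
set_option linter.all false

namespace Run7.h339

open Module Finset Polynomial IntermediateField

universe u

theorem exists_normal_complement {G : Type*} [Group G] [Finite G] {N : Subgroup G} [N.Normal]
    (hc : ∀ n ∈ N, ∀ g : G, n * g = g * n) (hcop : (Nat.card N).Coprime N.index) :
    ∃ H : Subgroup G, H.Normal ∧ H.index = Nat.card N := by
  obtain ⟨H, hH⟩ := Subgroup.exists_right_complement'_of_coprime hcop
  refine ⟨H, ⟨fun h hh g => ?_⟩, ?_⟩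
  · obtain ⟨⟨n, h'⟩, hnh⟩ := hH.2 g
    have hg : (n : G) * (h' : G) = g := hnh
    rw [← hg]
    have h1 : (n : G) * h' * h * (n * h' : G)⁻¹ = (n : G) * (h' * h * (h' : G)⁻¹) * (n : G)⁻¹ := by group
    rw [h1, hc n n.2, mul_assoc, mul_inv_cancel, mul_one]
    exact H.mul_mem (H.mul_mem h'.2 hh) (H.inv_mem h'.2)
  · have h1 := hH.card_mul
    have h2 := Subgroup.card_mul_index H
    have h3 : 0 < Nat.card H := Nat.card_pos
    rw [mul_comm] at h1
    rw [← h1] at h2
    exact Nat.eq_of_mul_eq_mul_left h3 h2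

theorem root_unique {K : Type*} [Field K] {p : ℕ} (hp : p.Prime) {ζ : K} (hζ : IsPrimitiveRoot ζ p) {x y : K} (hy : y ≠ 0)
    (h : x ^ p = y ^ p) : ∃ i : ℕ, x = ζ ^ i * y := by
  haveI : NeZero p := ⟨hp.ne_zero⟩
  obtain ⟨i, _, hi⟩ := hζ.eq_pow_of_pow_eq_one (ξ := x / y) (by
    rw [div_pow, h, div_self (pow_ne_zero p hy)])
  exact ⟨i, by rw [hi, div_mul_cancel₀ _ hy]⟩

/-- **Kummer descent**: an equivariant Kummer extension of prime degree descends to a cyclic extension. -/
theorem kummer_descent {F E : Type u} [Field F] [Field E] [Algebra F E] [FiniteDimensional F E] [IsGalois F E]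
    {p : ℕ} (hp : p.Prime) {ζ : E} (hζ : IsPrimitiveRoot ζ p) (n : (E ≃ₐ[F] E) → ℕ) (hn : ∀ g, g ζ = ζ ^ n g)
    (hm : (finrank F E).Coprime p) {b : E} (hb : ∀ e : E, e ^ p ≠ b)
    (hst : ∀ g : E ≃ₐ[F] E, ∃ e : E, g b = b ^ n g * e ^ p) :
    ∃ (L : Type u) (_ : Field L) (_ : Algebra F L), IsGalois F L ∧ IsCyclic (L ≃ₐ[F] L) ∧ finrank F L = p ∧
      ∀ (R : Type u) [Ring R] [Algebra E R] [Algebra F R] [IsScalarTower F E R] (w : R),
        w ^ p = algebraMap E R b → Nonempty (L →ₐ[F] R) := by
  classical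
  haveI : NeZero p := ⟨hp.ne_zero⟩
  have hb0 : b ≠ 0 := by
    rintro rfl
    exact hb 0 (zero_pow hp.ne_zero)
  have hpE : (p : E) ≠ 0 := by
    have := hζ.neZero'
    exact this.ne
  let Ω := AlgebraicClosure E
  obtain ⟨β, hβ⟩ : ∃ β : Ω, β ^ p = algebraMap E Ω b := IsAlgClosed.exists_pow_nat_eq _ hp.pos
  have hβ0 : β ≠ 0 := by
    rintro rfl
    rw [zero_pow hp.ne_zero] at hβ
    exact hb0 ((map_eq_zero _).1 hβ.symm)
  have hirr : Irreducible (X ^ p - C b : E[X]) := X_pow_sub_C_irreducible_of_prime hp hb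
  have hmin : minpoly E β = X ^ p - C b := by
    refine (minpoly.eq_of_irreducible_of_monic hirr ?_ (monic_X_pow_sub_C b hp.ne_zero)).symm
    rw [map_sub, map_pow, aeval_X, aeval_C, hβ, sub_self]
  have hint : IsIntegral E β := Algebra.IsIntegral.isIntegral β
  -- the field `K = E(β)`
  let K := E⟮β⟯
  haveI hKfd : FiniteDimensional E K := adjoin.finiteDimensional hint
  have hKE : finrank E K = p := by
    rw [adjoin.finrank hint, hmin, natDegree_X_pow_sub_C]
  haveI : FiniteDimensional F K := FiniteDimensional.trans F E K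
  have hKF : finrank F K = finrank F E * p := by
    rw [← hKE, Module.finrank_mul_finrank]
  let βK : K := ⟨β, mem_adjoin_simple_self E β⟩
  have hβK : βK ^ p = algebraMap E K b := Subtype.ext hβ
  have hβK0 : βK ≠ 0 := fun h => hβ0 (congrArg Subtype.val h)
  let ζK : K := algebraMap E K ζ
  have hζK : IsPrimitiveRoot ζK p := hζ.map_of_injective (algebraMap E K).injective
  -- Galois over `F`
  haveI hsepK : Algebra.IsSeparable E K := by
    rw [IntermediateField.isSeparable_adjoin_simple_iff_isSeparable, IsSeparable, hmin]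
    exact separable_X_pow_sub_C b hpE hb0
  haveI : Algebra.IsSeparable F K := Algebra.IsSeparable.trans F E K
  haveI : Algebra.IsAlgebraic F Ω := Algebra.IsAlgebraic.trans F E Ω
  haveI : Normal F Ω := IsAlgClosure.normal F Ω
  haveI hnorm : Normal F K := by
    have h1 : Normal F (K.restrictScalars F) := by
      rw [IntermediateField.normal_iff_forall_map_le]
      intro σ
      let M : IntermediateField E Ω :=
        { carrier := {y | σ y ∈ K}
          mul_mem' := by
            intro a c ha hc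
            change σ (a * c) ∈ K
            rw [map_mul]
            exact K.mul_mem ha hc
          add_mem' := by
            intro a c ha hc
            change σ (a + c) ∈ K
            rw [map_add]
            exact K.add_mem ha hc
          algebraMap_mem' := by
            intro e
            change σ (algebraMap E Ω e) ∈ K
            rw [← AlgHom.restrictNormal_commutes]
            exact K.algebraMap_mem _
          inv_mem' := by
            intro a ha
            change σ a⁻¹ ∈ K
            rw [map_inv₀]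
            exact K.inv_mem ha }
      have hKM : K ≤ M := by
        rw [IntermediateField.adjoin_le_iff, Set.singleton_subset_iff]
        change σ β ∈ K
        obtain ⟨e, he⟩ := hst (AlgEquiv.ofBijective (σ.restrictNormal E) (AlgHom.normal_bijective F E E _))
        have h2 : (σ β) ^ p = (β ^ n (AlgEquiv.ofBijective (σ.restrictNormal E) (AlgHom.normal_bijective F E E _)) *
            algebraMap E Ω e) ^ p := by
          rw [← map_pow, hβ, ← AlgHom.restrictNormal_commutes]
          have h3 : σ.restrictNormal E b = b ^ n (AlgEquiv.ofBijective (σ.restrictNormal E)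
            (AlgHom.normal_bijective F E E _)) * e ^ p := he
          rw [h3, map_mul, map_pow, map_pow, ← hβ, mul_pow, ← pow_mul, ← pow_mul, mul_comm p]
        have h4 : e ≠ 0 := by
          rintro rfl
          have h3 : σ.restrictNormal E b = b ^ n (AlgEquiv.ofBijective (σ.restrictNormal E)
            (AlgHom.normal_bijective F E E _)) * 0 ^ p := he
          rw [zero_pow hp.ne_zero, mul_zero, map_eq_zero] at h3
          exact hb0 h3
        obtain ⟨i, hi⟩ := root_unique hp (hζ.map_of_injective (algebraMap E Ω).injective)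
          (mul_ne_zero (pow_ne_zero _ hβ0) ((map_ne_zero (algebraMap E Ω)).2 h4)) h2
        rw [hi]
        refine K.mul_mem (pow_mem (K.algebraMap_mem ζ) _) (K.mul_mem (pow_mem (mem_adjoin_simple_self E β) _)
          (K.algebraMap_mem e))
      rintro _ ⟨y, hy, rfl⟩
      exact hKM hy
    exact h1
  haveI : IsGalois F K := ⟨⟩
  -- the group
  let G := K ≃ₐ[F] K
  let res : (K ≃ₐ[F] K) →* (E ≃ₐ[F] E) := AlgEquiv.restrictNormalHom E
  have hres : ∀ (σ : K ≃ₐ[F] K) (e : E), algebraMap E K (res σ e) = σ (algebraMap E K e) := by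
    intro σ e
    exact AlgEquiv.restrictNormal_commutes σ E e
  have hressurj : Function.Surjective res := AlgEquiv.restrictNormalHom_surjective K
  have hcardG : Nat.card (K ≃ₐ[F] K) = finrank F E * p := by
    rw [IsGalois.card_aut_eq_finrank, hKF]
  have hcardE : Nat.card (E ≃ₐ[F] E) = finrank F E := IsGalois.card_aut_eq_finrank F E
  have hindex : res.ker.index = finrank F E := by
    rw [Subgroup.index_ker, MonoidHom.range_eq_top.2 hressurj, Subgroup.card_top, hcardE]
  have hker : Nat.card res.ker = p := by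
    have h1 := Subgroup.card_mul_index res.ker
    rw [hindex, hcardG, mul_comm (finrank F E)] at h1
    exact Nat.eq_of_mul_eq_mul_right Module.finrank_pos h1
  have hkerfix : ∀ τ ∈ res.ker, ∀ e : E, τ (algebraMap E K e) = algebraMap E K e := by
    intro τ hτ e
    rw [← hres, (MonoidHom.mem_ker).1 hτ]
    rfl
  have hgen : ∀ τ : K ≃ₐ[F] K, (∀ e : E, τ (algebraMap E K e) = algebraMap E K e) → τ βK = βK → τ = 1 := by
    intro τ h1 h2
    let τ' : K →ₐ[E] K := { (τ : K →ₐ[F] K) with commutes' := h1 }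
    have h3 : τ' = AlgHom.id E K := by
      apply IntermediateField.algHom_ext_of_eq_adjoin E (s := ({β} : Set Ω)) rfl
      intro x hx
      rw [Set.mem_singleton_iff] at hx
      subst hx
      exact h2
    ext x
    exact congrArg (fun f : K →ₐ[E] K => ((f x : K) : Ω)) h3
  -- centrality
  have hact : ∀ σ : K ≃ₐ[F] K, ∃ (j : ℕ) (e : E), e ≠ 0 ∧ σ βK = ζK ^ j * (βK ^ n (res σ) * algebraMap E K e) := by
    intro σ
    obtain ⟨e, he⟩ := hst (res σ)
    have h4 : e ≠ 0 := by
      rintro rfl
      rw [zero_pow hp.ne_zero, mul_zero, map_eq_zero] at he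
      exact hb0 he
    have h2 : (σ βK) ^ p = (βK ^ n (res σ) * algebraMap E K e) ^ p := by
      rw [← map_pow, hβK, ← hres, he, map_mul, map_pow, map_pow, ← hβK, mul_pow, ← pow_mul, ← pow_mul, mul_comm p]
    obtain ⟨j, hj⟩ := root_unique hp hζK (mul_ne_zero (pow_ne_zero _ hβK0) ((map_ne_zero (algebraMap E K)).2 h4)) h2
    exact ⟨j, e, h4, hj⟩
  have hcen : ∀ τ ∈ res.ker, ∀ σ : K ≃ₐ[F] K, τ * σ = σ * τ := by
    intro τ hτ σ
    obtain ⟨i, hi⟩ := root_unique hp hζK hβK0 (show (τ βK) ^ p = βK ^ p by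
      rw [← map_pow, hβK, hkerfix τ hτ])
    obtain ⟨j, e, he0, hj⟩ := hact σ
    have hσζ : σ ζK = ζK ^ n (res σ) := by
      change σ (algebraMap E K ζ) = _
      rw [← hres, hn, map_pow]
    have hτζ : τ ζK = ζK := hkerfix τ hτ ζ
    have h1 : τ (σ βK) = σ (τ βK) := by
      rw [hj, hi, map_mul, map_mul, map_pow, map_pow, map_mul, map_pow, hτζ, hkerfix τ hτ, hi, hσζ, hj]
      ring
    have h2 : (σ⁻¹ * τ⁻¹ * σ * τ) = 1 := by
      apply hgen
      · intro e
        have hτi : τ⁻¹ ∈ res.ker := inv_mem hτ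
        change σ⁻¹ (τ⁻¹ (σ (τ (algebraMap E K e)))) = algebraMap E K e
        rw [hkerfix τ hτ, ← hres, hkerfix _ hτi, hres]
        change (σ⁻¹ * σ) (algebraMap E K e) = _
        rw [inv_mul_cancel]; rfl
      · change σ⁻¹ (τ⁻¹ (σ (τ βK))) = βK
        rw [← h1]
        change (σ⁻¹ * (τ⁻¹ * τ) * σ) βK = βK
        rw [inv_mul_cancel, mul_one, inv_mul_cancel]; rfl
    have h3 : τ * σ = τ * σ * (σ⁻¹ * τ⁻¹ * σ * τ) := by rw [h2, mul_one]
    rw [h3]
    group
  obtain ⟨H, hHn, hHi⟩ := exists_normal_complement (G := K ≃ₐ[F] K) (N := res.ker) hcen (by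
    rw [hker, hindex]; exact hm.symm)
  rw [hker] at hHi
  haveI := hHn
  let L := fixedField H
  have hLp : finrank F L = p := by
    have h1 : finrank L K = Nat.card H := IntermediateField.finrank_fixedField_eq_card H
    have h2 := Module.finrank_mul_finrank F L K
    have h3 := Subgroup.card_mul_index H
    rw [hcardG, ← hKF, hHi] at h3
    rw [h1, ← h3, mul_comm] at h2
    exact Nat.eq_of_mul_eq_mul_left Nat.card_pos h2
  haveI hLG : IsGalois F L := inferInstance
  refine ⟨L, inferInstance, inferInstance, hLG, ?_, hLp, ?_⟩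
  · haveI : Fact p.Prime := ⟨hp⟩
    haveI : FiniteDimensional F L := Module.finite_of_finrank_pos (by rw [hLp]; exact hp.pos)
    exact isCyclic_of_prime_card (p := p) (by rw [IsGalois.card_aut_eq_finrank, hLp])
  · intro R _ _ _ _ w hw
    let φ₀ : AdjoinRoot (minpoly E β) →ₐ[E] R := Ideal.Quotient.liftₐ _ (aeval w) (by
      intro q hq
      rw [Ideal.mem_span_singleton] at hq
      obtain ⟨q', rfl⟩ := hq
      have : (aeval w) (minpoly E β) = 0 := by
        rw [hmin, map_sub, map_pow, aeval_X, aeval_C, hw, sub_self]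
      rw [map_mul, this, zero_mul])
    let e1 : AdjoinRoot (minpoly E β) ≃ₐ[E] K := IntermediateField.adjoinRootEquivAdjoin E hint
    let φ : K →ₐ[E] R := φ₀.comp (e1.symm : K →ₐ[E] AdjoinRoot (minpoly E β))
    exact ⟨(φ.restrictScalars F).comp (L.val)⟩

end Run7.h339
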