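import Mathlib
import Pool.Agent.Run7.h339.Kum
import Pool.Agent.Run7.h339.Solv2

/-! Albert: a `p`-central element makes an algebra of degree `p` cyclic (characteristic not `p`). -/

set_option autoImplicit false
set_option linter.all false

namespace Run7.h339

open Module TensorProduct Finset Polynomial

universe u

/-- adjoining a primitive `p`-th root of unity. -/
theorem cyclo_data {F : Type u} [Field F] {p : ℕ} (hp : p.Prime) (hF : (p : F) ≠ 0) :
    ∃ (E : Type u) (_ : Field E) (_ : Algebra F E) (_ : FiniteDimensional F E) (_ : IsGalois F E) (ζ : E)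
      (n : (E ≃ₐ[F] E) → ℕ), IsPrimitiveRoot ζ p ∧ (∀ g : E ≃ₐ[F] E, g ζ = ζ ^ n g) ∧ (∀ g, (n g).Coprime p) ∧
      (∀ g h, n (g * h) ≡ n g * n h [MOD p]) ∧ (Fintype.card (E ≃ₐ[F] E)).Coprime p := by
  classical
  haveI : Fact p.Prime := ⟨hp⟩
  haveI : NeZero p := ⟨hp.ne_zero⟩
  haveI : NeZero ((p : ℕ) : F) := ⟨hF⟩
  haveI hcyc : IsCyclotomicExtension {p} F (CyclotomicField p F) := inferInstance
  haveI : FiniteDimensional F (CyclotomicField p F) := IsCyclotomicExtension.finiteDimensional {p} F _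
  haveI : IsGalois F (CyclotomicField p F) := IsCyclotomicExtension.isGalois {p} F _
  have hζ := IsCyclotomicExtension.zeta_spec p F (CyclotomicField p F)
  set ζ := IsCyclotomicExtension.zeta p F (CyclotomicField p F) with hζdef
  let n : ((CyclotomicField p F) ≃ₐ[F] (CyclotomicField p F)) → ℕ := fun g => ((hζ.autToPow F g : (ZMod p)ˣ) : ZMod p).val
  have hncast : ∀ g, ((n g : ℕ) : ZMod p) = ((hζ.autToPow F g : (ZMod p)ˣ) : ZMod p) := fun g => by
    change ((((hζ.autToPow F g : (ZMod p)ˣ) : ZMod p).val : ℕ) : ZMod p) = _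
    rw [ZMod.natCast_val, ZMod.cast_id', id]
  refine ⟨CyclotomicField p F, inferInstance, inferInstance, inferInstance, inferInstance, ζ, n, hζ, ?_, ?_, ?_, ?_⟩
  · intro g
    exact (hζ.autToPow_spec F g).symm
  · intro g
    rw [Nat.coprime_comm, hp.coprime_iff_not_dvd, ← ZMod.natCast_eq_zero_iff, hncast]
    exact Units.ne_zero _
  · intro g h
    rw [← ZMod.natCast_eq_natCast_iff]
    push_cast
    rw [hncast, hncast, hncast, map_mul, Units.val_mul]
  · have h1 := Fintype.card_le_of_injective _ (hζ.autToPow_injective F)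
    rw [ZMod.card_units p] at h1
    rw [Nat.coprime_comm, hp.coprime_iff_not_dvd]
    intro hd
    have h2 := Nat.le_of_dvd Fintype.card_pos hd
    have := hp.two_le
    omega

/-- the computation in the extended algebra. -/
theorem kum_core {E D G : Type*} [Field E] [DivisionRing D] [Algebra E D] [FiniteDimensional E D]
    [Algebra.IsCentral E D] [Group G] [Fintype G] {p : ℕ} (hp : p.Prime) (hdimE : finrank E D = p ^ 2)
    (ρ : G → D →+* D) (r : G → E →+* E) (hρm : ∀ g x, ρ g (algebraMap E D x) = algebraMap E D (r g x))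
    (hr : ∀ g h x, r (g * h) x = r g (r h x)) (hcop : (Fintype.card G).Coprime p)
    {ζ : E} (hζ : IsPrimitiveRoot ζ p) {n : G → ℕ} (hg : ∀ g, r g ζ = ζ ^ n g) (hn0 : ∀ g, (n g).Coprime p)
    (hmul : ∀ g h, n (g * h) ≡ n g * n h [MOD p]) {u : D} (hρu : ∀ g, ρ g u = u) (hu : ∃ x, u * x ≠ x * u) {a : E}
    (h : u ^ p = algebraMap E D a) :
    ∃ (w : D) (b : E), w ^ p = algebraMap E D b ∧ (∀ e : E, e ^ p ≠ b) ∧
      ∀ g, ∃ (e : E), r g b = b ^ n g * e ^ p := by
  classical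
  haveI : Fact p.Prime := ⟨hp⟩
  haveI : NeZero p := ⟨hp.ne_zero⟩
  set m := algebraMap E D with hm
  have hmc : ∀ e x, m e * x = x * m e := fun e x => Algebra.commutes e x
  obtain ⟨x, hx⟩ := hu
  have hu0 : u ≠ 0 := by
    rintro rfl
    apply hx
    rw [zero_mul, mul_zero]
  have hζ1 : ζ ≠ 1 := hζ.ne_one hp.one_lt
  have hζ0 : ζ ≠ 0 := hζ.ne_zero hp.ne_zero
  have hm0 : ∀ e : E, e ≠ 0 → m e ≠ 0 := fun e he => by rw [hm, Ne, map_eq_zero]; exact he
  -- conjugation
  let c : Module.End E D := (LinearMap.mulLeft E u) ∘ₗ (LinearMap.mulRight E u⁻¹)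
  have hc : ∀ y, c y = u * (y * u⁻¹) := fun y => rfl
  have hcp : c ^ p = 1 := by
    have h1 : ∀ k : ℕ, ∀ y, (c ^ k) y = u ^ k * (y * (u⁻¹) ^ k) := by
      intro k
      induction k with
      | zero => intro y; simp
      | succ k ih =>
        intro y
        rw [pow_succ', Module.End.mul_apply, ih, hc, pow_succ', pow_succ]
        noncomm_ring
    ext y
    rw [h1, h, inv_pow, h, Module.End.one_apply, ← mul_assoc, hmc, mul_assoc, mul_inv_cancel₀, mul_one]
    rw [← h]
    exact pow_ne_zero p hu0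
  have hcne : c ≠ 1 := by
    intro h1
    apply hx
    have h2 := congrArg (fun f : Module.End E D => f x) h1
    simp only [hc, Module.End.one_apply] at h2
    have h3 : u * x = u * (x * u⁻¹) * u := by
      rw [mul_assoc, mul_assoc, inv_mul_cancel₀ hu0, mul_one]
    rw [h3, h2]
  -- an eigenvector
  obtain ⟨ξ, hξ, hξ1, y, hy, hy0⟩ : ∃ ξ ∈ nthRootsFinset p (1 : E), ξ ≠ 1 ∧ ∃ y : D, c y = ξ • y ∧ y ≠ 0 := by
    by_contra hno
    push Not at hno
    have hinj : ∀ s : Finset E, (∀ ξ ∈ s, ξ ∈ nthRootsFinset p (1 : E) ∧ ξ ≠ 1) → ∀ y,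
        (aeval c (∏ ξ ∈ s, (X - C ξ))) y = 0 → y = 0 := by
      intro s
      induction s using Finset.induction_on with
      | empty => intro _ y hy; simpa using hy
      | insert ξ s hξs ih =>
        intro hs y hy
        rw [prod_insert hξs, map_mul] at hy
        apply ih (fun i hi => hs i (mem_insert_of_mem hi)) y
        obtain ⟨h1, h2⟩ := hs ξ (mem_insert_self _ _)
        apply hno ξ h1 h2
        have h3 : (aeval c (X - C ξ)) ((aeval c (∏ ξ ∈ s, (X - C ξ))) y) = 0 := hy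
        rw [map_sub, aeval_X, aeval_C, LinearMap.sub_apply, sub_eq_zero] at h3
        exact h3
    apply hcne
    ext y
    have h1 : (aeval c (X ^ p - 1 : E[X])) y = 0 := by
      rw [map_sub, map_pow, aeval_X, hcp, map_one, sub_self]
      rfl
    have h1r : (1 : E) ∈ nthRootsFinset p (1 : E) := by
      rw [mem_nthRootsFinset hp.pos, one_pow]
    rw [X_pow_sub_one_eq_prod hp.pos hζ, ← mul_prod_erase _ _ h1r, mul_comm, map_mul] at h1
    have h2 := hinj _ (fun ξ hξ => ⟨mem_of_mem_erase hξ, ne_of_mem_erase hξ⟩) _ h1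
    rw [map_sub, aeval_X, aeval_C, LinearMap.sub_apply, sub_eq_zero] at h2
    rw [h2]
    simp
  have hcmul : ∀ y z, c (y * z) = c y * c z := by
    intro y z
    rw [hc, hc, hc]
    have h1 : u * (y * u⁻¹) * (u * (z * u⁻¹)) = u * y * (u⁻¹ * u) * z * u⁻¹ := by noncomm_ring
    rw [h1, inv_mul_cancel₀ hu0]
    noncomm_ring
  have hcpow : ∀ k : ℕ, c (y ^ k) = ξ ^ k • y ^ k := by
    intro k
    induction k with
    | zero =>
      rw [hc, pow_zero, one_mul, mul_inv_cancel₀ hu0, pow_zero, one_smul]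
    | succ k ih => rw [pow_succ, hcmul, ih, hy, smul_mul_smul_comm, ← pow_succ]
  rw [mem_nthRootsFinset hp.pos] at hξ
  obtain ⟨w, hw0, hw⟩ : ∃ w : D, w ≠ 0 ∧ u * w = m ζ * (w * u) := by
    obtain ⟨i, hi, hi2⟩ := hζ.eq_pow_of_pow_eq_one hξ
    have hip : i.Coprime p := by
      rw [Nat.coprime_comm, hp.coprime_iff_not_dvd]
      intro hd
      have hi0 : i = 0 := Nat.eq_zero_of_dvd_of_lt hd hi
      rw [hi0, pow_zero] at hi2
      exact hξ1 hi2.symm
    obtain ⟨j, hj⟩ := Nat.exists_mul_mod_eq_one_of_coprime hip hp.one_lt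
    refine ⟨y ^ j, pow_ne_zero _ hy0, ?_⟩
    have h1 := hcpow j
    have h2 : ξ ^ j = ζ := by
      have h2' : ζ ^ (i * j) = ζ := by
        conv_lhs => rw [← Nat.div_add_mod (i * j) p, hj.2, pow_add, pow_mul, hζ.pow_eq_one, one_pow, one_mul, pow_one]
      rw [← hi2, ← pow_mul, h2']
    rw [h2, hc, Algebra.smul_def] at h1
    have h3 : u * y ^ j = u * (y ^ j * u⁻¹) * u := by
      rw [mul_assoc, mul_assoc, inv_mul_cancel₀ hu0, mul_one]
    rw [h3, h1, mul_assoc]
  have huE : u ∉ Set.range m := by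
    rintro ⟨e, he⟩
    apply hx
    rw [← he, hmc]
  have hwpow : ∀ k : ℕ, u * w ^ k = m (ζ ^ k) * (w ^ k * u) := by
    intro k
    induction k with
    | zero => simp
    | succ k ih =>
      rw [pow_succ, ← mul_assoc, ih, mul_assoc, mul_assoc, hw, ← mul_assoc (w ^ k), ← hmc, mul_assoc (m ζ), ← mul_assoc,
        ← map_mul, ← pow_succ, mul_assoc]
  have huw : u * w ≠ w * u := by
    intro h1
    rw [hw] at h1
    have h2 : (m ζ - 1) * (w * u) = 0 := by rw [sub_mul, h1, one_mul, sub_self]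
    rcases mul_eq_zero.1 h2 with h3 | h3
    · rw [sub_eq_zero, ← map_one m] at h3
      exact hζ1 (m.injective h3)
    · exact (mul_ne_zero hw0 hu0) h3
  obtain ⟨b, hb⟩ : w ^ p ∈ Set.range m := by
    by_contra hno
    apply huw
    refine comm_trans hp hdimE hno ?_ ?_
    · have h1 := hwpow p
      rw [hζ.pow_eq_one, map_one, one_mul] at h1
      exact h1.symm
    · rw [← pow_succ, ← pow_succ']
  have hcw : (w * u * w⁻¹) * u = u * (w * u * w⁻¹) := by
    have h1 : w * u * w⁻¹ = m ζ⁻¹ * u := by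
      have h2 : w * u = m ζ⁻¹ * (u * w) := by
        rw [hw, ← mul_assoc, ← map_mul, inv_mul_cancel₀ hζ0, map_one, one_mul]
      rw [h2, mul_assoc, mul_assoc, mul_inv_cancel₀ hw0, mul_one]
    rw [h1, ← mul_assoc, ← hmc, mul_assoc]
  obtain ⟨cc, hccdef⟩ : ∃ cc : G → D, ∀ g, cc g = ρ g w * (w ^ n g)⁻¹ := ⟨fun g => ρ g w * (w ^ n g)⁻¹, fun g => rfl⟩
  have hcc : ∀ g, cc g * u = u * cc g := by
    intro g
    have hwn : w ^ n g ≠ 0 := pow_ne_zero _ hw0
    have h1 : (w ^ n g)⁻¹ * u = m (ζ ^ n g) * (u * (w ^ n g)⁻¹) := by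
      have h2 := hwpow (n g)
      have h3 : (w ^ n g)⁻¹ * (u * w ^ n g) * (w ^ n g)⁻¹ = (w ^ n g)⁻¹ * (m (ζ ^ n g) * (w ^ n g * u)) * (w ^ n g)⁻¹ := by
        rw [h2]
      rw [← mul_assoc, mul_assoc _ (w ^ n g) (w ^ n g)⁻¹, mul_inv_cancel₀ hwn, mul_one, ← mul_assoc _ (m _), ← hmc,
        mul_assoc (m _), ← mul_assoc _ (w ^ n g) u, inv_mul_cancel₀ hwn, one_mul, mul_assoc] at h3
      exact h3
    have h2 : u * ρ g w = m (ζ ^ n g) * (ρ g w * u) := by
      have h3 := congrArg (ρ g) hw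
      rw [map_mul, map_mul, map_mul, hρu, hρm, hg] at h3
      exact h3
    rw [hccdef, mul_assoc, h1, ← mul_assoc, ← mul_assoc, ← hmc, mul_assoc (m _), ← h2, mul_assoc]
  have hccw : ∀ g, ρ g w = cc g * w ^ n g := by
    intro g
    rw [hccdef, mul_assoc, inv_mul_cancel₀ (pow_ne_zero _ hw0), mul_one]
  obtain ⟨c', S, b', hc'u, hS, hb', hb'0, hstab⟩ := conj_prod_csa (E := E) (D := D) (G := G) hp hdimE huE hw0 hcw
    hb.symm ρ r hρm hr cc hcc n hccw hmul hn0 hcop
  obtain ⟨w', hw'⟩ : ∃ w' : D, w' = c' * w ^ S := ⟨_, rfl⟩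
  rw [← hw'] at hb'
  have hSp : ζ ^ S ≠ 1 := by
    intro h0
    rw [hζ.pow_eq_one_iff_dvd] at h0
    rw [Nat.coprime_comm, hp.coprime_iff_not_dvd] at hcop
    exact hcop ((Nat.ModEq.dvd_iff hS dvd_rfl).1 h0)
  have hw'0 : w' ≠ 0 := by
    intro h0
    rw [h0, zero_pow hp.ne_zero] at hb'
    exact hb'0 ((map_eq_zero _).1 hb'.symm)
  have huw' : u * w' = m (ζ ^ S) * (w' * u) := by
    rw [hw', ← mul_assoc, ← hc'u, mul_assoc, hwpow, ← mul_assoc, ← hmc, mul_assoc, mul_assoc]
  refine ⟨w', b', hb', ?_, fun g => ?_⟩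
  · intro e he
    have he0 : e ≠ 0 := by
      rintro rfl
      rw [zero_pow hp.ne_zero] at he
      exact hb'0 he.symm
    -- `w' / e` is a root of unity
    have h1 : (m e⁻¹ * w') ^ p = 1 := by
      rw [(show Commute (m e⁻¹) w' from hmc _ _).mul_pow, hb', ← he, ← map_pow, ← map_mul, inv_pow,
        inv_mul_cancel₀ (pow_ne_zero p he0), map_one]
    have h2 : minpoly E (m e⁻¹ * w') ∣ X ^ p - 1 := by
      apply minpoly.dvd
      rw [map_sub, map_pow, aeval_X, h1, map_one, sub_self]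
    rw [X_pow_sub_one_eq_prod hp.pos hζ] at h2
    obtain ⟨ξ', _, h3⟩ := (minpoly_irred (F := E) (m e⁻¹ * w')).prime.exists_mem_finset_dvd h2
    obtain ⟨q, hq⟩ := h3
    have h4 : aeval (m e⁻¹ * w') (X - C ξ' : E[X]) = 0 := by
      rw [hq, map_mul, minpoly.aeval, zero_mul]
    rw [map_sub, aeval_X, aeval_C, sub_eq_zero] at h4
    have h5 : w' = m (e * ξ') := by
      rw [map_mul, hm, ← h4, ← mul_assoc, ← map_mul, mul_inv_cancel₀ he0, map_one, one_mul]
    have h6 : u * w' = w' * u := by rw [h5, hmc]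
    rw [h6] at huw'
    have h7 : (m (ζ ^ S) - 1) * (w' * u) = 0 := by rw [sub_mul, ← huw', one_mul, sub_self]
    rcases mul_eq_zero.1 h7 with h8 | h8
    · rw [sub_eq_zero, ← map_one m] at h8
      exact hSp (m.injective h8)
    · exact (mul_ne_zero hw'0 hu0) h8
  · obtain ⟨e, _, he⟩ := hstab g
    exact ⟨e, he⟩

/-- **Albert's theorem**: a division algebra of prime degree with a `p`-central element is cyclic. -/
theorem albert {F D : Type u} [Field F] [DivisionRing D] [Algebra F D]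
    [Algebra.IsCentral F D] [FiniteDimensional F D] {p : ℕ} (hp : p.Prime) (hF : (p : F) ≠ 0) (hD : finrank F D = p ^ 2)
    {v : D} (hv : v ∉ Set.range (algebraMap F D)) (hvp : v ^ p ∈ Set.range (algebraMap F D)) : CycMax p F D := by
  classical
  obtain ⟨a, ha⟩ := hvp
  obtain ⟨E, _, _, _, _, ζ, n, hζ, hg, hn0, hmul, hcop⟩ := cyclo_data (F := F) hp hF
  have hE : (finrank F E).Coprime p := by
    have := IsGalois.card_aut_eq_finrank F E
    rw [Nat.card_eq_fintype_card] at this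
    rwa [this] at hcop
  have hdiv := tens_division (F := F) (E := E) (D := D) (by
    rw [hD]; exact Nat.Coprime.pow_right 2 hE)
  haveI := simple_tens (F := F) (E := E) (D := D)
  haveI hnt : Nontrivial (E ⊗[F] D) := IsSimpleRing.instNontrivial
  haveI hcen : Algebra.IsCentral E (E ⊗[F] D) := central_tens
  haveI hfd : FiniteDimensional E (E ⊗[F] D) := inferInstance
  have hdimE : finrank E (E ⊗[F] D) = p ^ 2 := by rw [Module.finrank_baseChange, hD]
  let ι : D →ₐ[F] E ⊗[F] D := Algebra.TensorProduct.includeRight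
  have hιinj : Function.Injective ι := ι.toRingHom.injective
  obtain ⟨u, hu⟩ : ∃ u, v * u ≠ u * v := by
    by_contra hno
    push Not at hno
    exact hv ((mem_center_iff' v).2 fun y => (hno y).symm)
  have hmF : ∀ x : F, ι (algebraMap F D x) = algebraMap E (E ⊗[F] D) (algebraMap F E x) := by
    intro x
    rw [AlgHom.commutes, ← IsScalarTower.algebraMap_apply]
  let ρ : (E ≃ₐ[F] E) → (E ⊗[F] D) →+* (E ⊗[F] D) := fun g =>
    (Algebra.TensorProduct.map (g : E →ₐ[F] E) (AlgHom.id F D)).toRingHom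
  have hρm : ∀ g x, ρ g (algebraMap E (E ⊗[F] D) x) = algebraMap E (E ⊗[F] D) (g x) := by
    intro g x
    change Algebra.TensorProduct.map (g : E →ₐ[F] E) (AlgHom.id F D) (x ⊗ₜ[F] (1 : D)) = (g x) ⊗ₜ[F] (1 : D)
    rw [Algebra.TensorProduct.map_tmul]
    simp
  have hρι : ∀ g x, ρ g (ι x) = ι x := by
    intro g x
    change Algebra.TensorProduct.map (g : E →ₐ[F] E) (AlgHom.id F D) ((1 : E) ⊗ₜ[F] x) = (1 : E) ⊗ₜ[F] x
    rw [Algebra.TensorProduct.map_tmul]
    simp
  letI hDR : DivisionRing (E ⊗[F] D) := DivisionRing.ofIsUnitOrEqZero (fun a => by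
    by_cases ha : a = 0
    · exact Or.inr ha
    · exact Or.inl (hdiv a ha))
  obtain ⟨w, b, hw, hb, hstab⟩ := kum_core (E := E) (D := E ⊗[F] D) (G := E ≃ₐ[F] E) hp hdimE ρ
    (fun g => (g : E →+* E)) hρm (fun g h x => rfl) hcop hζ hg hn0 hmul (u := ι v) (fun g => hρι g v)
    ⟨ι u, fun h1 => hu (hιinj (by rw [map_mul, map_mul]; exact h1))⟩ (a := algebraMap F E a) (by
      rw [← hmF, ← map_pow, ha])
  obtain ⟨L, _, _, hgal, hcyc, hL, hφ⟩ := kummer_descent hp hζ n hg hE hb hstab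
  obtain ⟨φ⟩ := hφ (E ⊗[F] D) w hw
  haveI : FiniteDimensional F L := Module.finite_of_finrank_pos (by rw [hL]; exact hp.pos)
  exact ⟨L, inferInstance, inferInstance, hgal, hcyc, hL, descend_embed hp hD hL hE φ⟩

end Run7.h339
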