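import Mathlib
import Pool.Agent.Run7.h339.Euler
import Pool.Agent.Run7.h339.Albert

/-! From `PC` to cyclicity in characteristic different from `p`. -/

set_option autoImplicit false
set_option linter.all false

namespace Run7.h339

open Module Finset Polynomial

universe u

theorem PC.cycAll' {F : Type u} [Field F] {p : ℕ} (hp : p.Prime) (hpF : (p : F) ≠ 0)
    (hj : ∀ j, 1 ≤ j → j < p → (j : F) ≠ 0) (h : PC p F) : CycAll p F := by
  intro D _ _ _ _ hdim
  let τ : D →ₗ[F] F := (LinearMap.trace F D) ∘ₗ (Algebra.lmul F D).toLinearMap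
  have hτ : ∀ x, τ x = LinearMap.trace F D (LinearMap.mulLeft F x) := fun x => rfl
  have hτ1 : τ 1 ≠ 0 := by
    rw [hτ, LinearMap.mulLeft_one]
    change LinearMap.trace F D (LinearMap.id) ≠ 0
    rw [LinearMap.trace_id, hdim]
    push_cast
    exact pow_ne_zero 2 hpF
  obtain ⟨z, hz, hzτ⟩ := h D hdim (fun x => by
    rcases central_deg hp hdim x with h | h
    · rw [h]; exact hp.one_lt.le
    · exact h.le) τ (fun h0 => hτ1 (by rw [h0]; rfl)) (by
      intro x y
      rw [hτ, hτ, LinearMap.mulLeft_mul, LinearMap.mulLeft_mul]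
      exact LinearMap.trace_mul_comm F _ _)
  have hzp := pow_mem_of_trace hp hpF hj hdim (deg_p hp hdim hz) hzτ
  exact albert hp hpF hdim hz hzp

end Run7.h339
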