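import Mathlib
import Pool.Agent.Run7.h339.Nrm

/-! Newton iteration in a complete nonarchimedean field. -/

set_option autoImplicit false
set_option linter.all false

namespace Run7.h339

open Module Polynomial

section hensel

variable {L : Type*} [NormedField L] [IsUltrametricDist L]

/-- Taylor expansion with bounded remainder. -/
theorem taylor_bound (f : L[X]) (hf : ∀ n, ‖f.coeff n‖ ≤ 1) {x y : L} (hx : ‖x‖ ≤ 1) (hy : ‖y‖ ≤ 1) :
    ‖f.eval (x + y) - f.eval x - f.derivative.eval x * y‖ ≤ ‖y‖ ^ 2 := by
  let O : Subring L :=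
    { carrier := {x | ‖x‖ ≤ 1}
      mul_mem' := fun {a b} ha hb => by
        change ‖a * b‖ ≤ 1
        rw [norm_mul]
        exact mul_le_one₀ ha (norm_nonneg _) hb
      one_mem' := by
        change ‖(1 : L)‖ ≤ 1
        rw [norm_one]
      add_mem' := fun {a b} ha hb => (IsUltrametricDist.norm_add_le_max a b).trans (max_le ha hb)
      zero_mem' := by
        change ‖(0 : L)‖ ≤ 1
        rw [norm_zero]
        exact zero_le_one
      neg_mem' := fun {a} ha => by
        change ‖-a‖ ≤ 1
        rw [norm_neg]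
        exact ha }
  have hP : (↑f.coeffs : Set L) ⊆ (O : Set L) := by
    intro c hc
    rw [Finset.mem_coe, Polynomial.mem_coeffs_iff] at hc
    obtain ⟨n, -, rfl⟩ := hc
    exact hf n
  let P : Polynomial O := f.toSubring O hP
  have hPmap : P.map O.subtype = f := by
    ext n
    rw [Polynomial.coeff_map]
    exact Polynomial.coeff_toSubring' _ _ _
  obtain ⟨k, hk⟩ := P.binomExpansion ⟨x, hx⟩ ⟨y, hy⟩
  have h1 := congrArg O.subtype hk
  simp only [map_add, map_mul, map_pow] at h1
  have e : ∀ (Q : Polynomial O) (z : O), O.subtype (Q.eval z) = (Q.map O.subtype).eval (z : L) := by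
    intro Q z
    rw [eval_map]
    exact (eval₂_at_apply O.subtype z).symm
  rw [e, e, e, ← derivative_map, hPmap] at h1
  change f.eval (x + y) = f.eval x + f.derivative.eval x * y + (k : L) * y ^ 2 at h1
  have h2 : f.eval (x + y) - f.eval x - f.derivative.eval x * y = (k : L) * y ^ 2 := by
    rw [h1]; ring
  rw [h2, norm_mul, norm_pow]
  exact mul_le_of_le_one_left (by positivity) k.2

theorem eval_diff_bound (f : L[X]) (hf : ∀ n, ‖f.coeff n‖ ≤ 1) {x y : L} (hx : ‖x‖ ≤ 1) (hy : ‖y‖ ≤ 1) :
    ‖f.eval x‖ ≤ 1 := by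
  rw [eval_eq_sum_range]
  obtain ⟨i, -, hi⟩ := IsUltrametricDist.exists_norm_finsetSum_le (Finset.range (f.natDegree + 1))
    (fun i => f.coeff i * x ^ i)
  refine hi.trans ?_
  rw [norm_mul, norm_pow]
  exact mul_le_one₀ (hf i) (by positivity) (pow_le_one₀ (norm_nonneg _) hx)

theorem norm_eval_le (f : L[X]) (hf : ∀ n, ‖f.coeff n‖ ≤ 1) {x : L} (hx : ‖x‖ ≤ 1) :
    ‖f.eval x‖ ≤ 1 := eval_diff_bound f hf hx hx

theorem norm_natCast_le (n : ℕ) : ‖(n : L)‖ ≤ 1 := IsUltrametricDist.norm_natCast_le_one L n

theorem coeff_derivative_le (f : L[X]) (hf : ∀ n, ‖f.coeff n‖ ≤ 1) (n : ℕ) : ‖f.derivative.coeff n‖ ≤ 1 := by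
  rw [coeff_derivative, norm_mul]
  refine mul_le_one₀ (hf _) (norm_nonneg _) ?_
  have : ((n : L) + 1) = ((n + 1 : ℕ) : L) := by push_cast; rfl
  rw [this]
  exact norm_natCast_le _

theorem eval_lip (f : L[X]) (hf : ∀ n, ‖f.coeff n‖ ≤ 1) {x y : L} (hx : ‖x‖ ≤ 1) (hy : ‖y‖ ≤ 1) :
    ‖f.eval (x + y) - f.eval x‖ ≤ ‖y‖ := by
  have h1 := taylor_bound f hf hx hy
  have h2 : ‖f.derivative.eval x * y‖ ≤ ‖y‖ := by
    rw [norm_mul]
    exact mul_le_of_le_one_left (norm_nonneg _) (norm_eval_le _ (coeff_derivative_le f hf) hx)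
  have h3 : f.eval (x + y) - f.eval x = (f.eval (x + y) - f.eval x - f.derivative.eval x * y) +
      f.derivative.eval x * y := by ring
  rw [h3]
  refine (IsUltrametricDist.norm_add_le_max _ _).trans (max_le (h1.trans ?_) h2)
  rw [pow_two]
  exact mul_le_of_le_one_left (norm_nonneg _) hy

/-- **Hensel's lemma.** -/
theorem hensel [CompleteSpace L] (f : L[X]) (hf : ∀ n, ‖f.coeff n‖ ≤ 1) {a : L} (ha : ‖a‖ ≤ 1)
    (h1 : ‖f.eval a‖ < 1) (h2 : ‖f.derivative.eval a‖ = 1) : ∃ b, f.eval b = 0 ∧ ‖b - a‖ < 1 := by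
  set δ := ‖f.eval a‖ with hδ
  have hδ0 : 0 ≤ δ := norm_nonneg _
  let g : L → L := fun x => x - f.eval x / f.derivative.eval x
  let u : ℕ → L := fun n => g^[n] a
  have hu0 : u 0 = a := rfl
  have hus : ∀ n, u (n + 1) = u n + (-(f.eval (u n) / f.derivative.eval (u n))) := by
    intro n
    change g^[n + 1] a = _
    rw [Function.iterate_succ_apply', ← sub_eq_add_neg]
  have hinv : ∀ n, ‖u n‖ ≤ 1 ∧ ‖f.derivative.eval (u n)‖ = 1 ∧ ‖f.eval (u n)‖ ≤ δ ^ (n + 1) ∧ ‖u n - a‖ ≤ δ := by
    intro n
    induction n with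
    | zero =>
      refine ⟨ha, h2, ?_, ?_⟩
      · rw [hu0, zero_add, pow_one]
      · rw [hu0, sub_self, norm_zero]; exact hδ0
    | succ n ih =>
      obtain ⟨i1, i2, i3, i4⟩ := ih
      have hy : ‖-(f.eval (u n) / f.derivative.eval (u n))‖ = ‖f.eval (u n)‖ := by
        rw [norm_neg, norm_div, i2, div_one]
      have hyle : ‖f.eval (u n)‖ ≤ δ := i3.trans (by
        rw [pow_succ]
        exact mul_le_of_le_one_left hδ0 (pow_le_one₀ hδ0 h1.le))
      have hy1 : ‖-(f.eval (u n) / f.derivative.eval (u n))‖ ≤ 1 := by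
        rw [hy]; exact hyle.trans h1.le
      have hne : f.derivative.eval (u n) ≠ 0 := by
        rw [← norm_pos_iff, i2]; exact one_pos
      refine ⟨?_, ?_, ?_, ?_⟩
      · rw [hus]
        exact (IsUltrametricDist.norm_add_le_max _ _).trans (max_le i1 hy1)
      · rw [hus]
        have h3 := eval_lip f.derivative (coeff_derivative_le f hf) i1 hy1
        rw [hy] at h3
        have h4 : ‖f.derivative.eval (u n + -(f.eval (u n) / f.derivative.eval (u n))) -
            f.derivative.eval (u n)‖ < ‖f.derivative.eval (u n)‖ := by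
          rw [i2]; exact (h3.trans hyle).trans_lt h1
        have h5 := IsUltrametricDist.norm_add_eq_max_of_norm_ne_norm h4.ne
        rw [sub_add_cancel, max_eq_right h4.le, i2] at h5
        exact h5
      · rw [hus]
        have h3 := taylor_bound f hf i1 hy1
        rw [hy] at h3
        have h4 : f.eval (u n) + f.derivative.eval (u n) * (-(f.eval (u n) / f.derivative.eval (u n))) = 0 := by
          field_simp
          ring
        have h5 : f.eval (u n + -(f.eval (u n) / f.derivative.eval (u n))) - f.eval (u n) -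
            f.derivative.eval (u n) * (-(f.eval (u n) / f.derivative.eval (u n))) =
            f.eval (u n + -(f.eval (u n) / f.derivative.eval (u n))) := by
          rw [sub_sub, h4, sub_zero]
        rw [h5] at h3
        refine h3.trans ?_
        rw [pow_two, pow_succ _ (n + 1)]
        exact mul_le_mul i3 hyle (norm_nonneg _) (pow_nonneg hδ0 _)
      · rw [hus]
        have : u n + -(f.eval (u n) / f.derivative.eval (u n)) - a =
          (u n - a) + -(f.eval (u n) / f.derivative.eval (u n)) := by ring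
        rw [this]
        refine (IsUltrametricDist.norm_add_le_max _ _).trans (max_le i4 ?_)
        rw [hy]; exact hyle
  have hstep : ∀ n, dist (u n) (u (n + 1)) ≤ δ * δ ^ n := by
    intro n
    rw [dist_comm, dist_eq_norm, hus, add_sub_cancel_left, norm_neg, norm_div, (hinv n).2.1, div_one]
    refine (hinv n).2.2.1.trans ?_
    rw [pow_succ, mul_comm]
  have hcau : CauchySeq u := cauchySeq_of_le_geometric δ δ h1 hstep
  obtain ⟨b, hb⟩ := cauchySeq_tendsto_of_complete hcau
  refine ⟨b, ?_, ?_⟩
  · have h3 : Filter.Tendsto (fun n => f.eval (u n)) Filter.atTop (nhds (f.eval b)) :=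
      (f.continuous.tendsto b).comp hb
    have h4 : Filter.Tendsto (fun n => f.eval (u n)) Filter.atTop (nhds 0) := by
      apply squeeze_zero_norm (a := fun n => δ ^ (n + 1)) (fun n => (hinv n).2.2.1)
      exact (tendsto_pow_atTop_nhds_zero_of_lt_one hδ0 h1).comp (Filter.tendsto_add_atTop_nat 1)
    exact tendsto_nhds_unique h3 h4
  · have h3 : Filter.Tendsto (fun n => ‖u n - a‖) Filter.atTop (nhds ‖b - a‖) :=
      ((hb.sub_const a).norm)
    exact (le_of_tendsto' h3 fun n => (hinv n).2.2.2).trans_lt h1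

end hensel

/-- the normed field structure. -/
noncomputable abbrev nFd (F L : Type*) [NontriviallyNormedField F] [IsUltrametricDist F] [CompleteSpace F]
    [i : Field L] [Algebra F L] [FiniteDimensional F L] : NormedField L where
  toField := i
  norm := nrm F
  dist x y := nrm F (-x + y)
  dist_self x := by simp [nrm_zero]
  dist_comm x y := by
    rw [← nrm_neg, neg_add, neg_neg, add_comm]
  dist_triangle x y z := by
    have h : -x + z = (-x + y) + (-y + z) := by abel
    rw [h]
    refine (nrm_add _ _).trans (max_le ?_ ?_)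
    · have := nrm_nonneg (F := F) (-y + z)
      linarith
    · have := nrm_nonneg (F := F) (-x + y)
      linarith
  eq_of_dist_eq_zero {x y} h := by
    have := nrm_eq_zero h
    rw [neg_add_eq_zero] at this
    exact this
  dist_eq x y := rfl
  norm_mul := nrm_mul

/-- the normed algebra structure. -/
noncomputable abbrev nFAlg (F L : Type*) [NontriviallyNormedField F] [IsUltrametricDist F] [CompleteSpace F]
    [i : Field L] [j : Algebra F L] [FiniteDimensional F L] :
    letI := nFd F L
    NormedAlgebra F L :=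
  letI := nFd F L
  { toAlgebra := j
    norm_smul_le := fun c x => (nrm_smul c x).le }

theorem nFUltra {F L : Type*} [NontriviallyNormedField F] [IsUltrametricDist F] [CompleteSpace F]
    [i : Field L] [Algebra F L] [FiniteDimensional F L] : letI := nFd F L; IsUltrametricDist L := by
  letI := nFd F L
  exact IsUltrametricDist.isUltrametricDist_of_forall_norm_add_le_max_norm fun x y => nrm_add x y

theorem nFComplete {F L : Type*} [NontriviallyNormedField F] [IsUltrametricDist F] [CompleteSpace F]
    [i : Field L] [Algebra F L] [FiniteDimensional F L] : letI := nFd F L; CompleteSpace L := by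
  letI := nFd F L
  letI := nFAlg F L
  exact FiniteDimensional.complete F L

end Run7.h339
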