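import Mathlib
import Pool.Agent.Run7.h339.Hensel
import Pool.Agent.Run7.h339.Albert
import Pool.Agent.Run7.h339.Ascent
import Pool.Agent.Run7.h339.Base
import Pool.Agent.Run7.h339.Cyc

/-! The tame case. -/

set_option autoImplicit false
set_option linter.all false

namespace Run7.h339

open Module Finset Polynomial

universe u

/-- an extension of prime degree with a nontrivial automorphism. -/
theorem cyc_of_endo {F L : Type*} [Field F] [Field L] [Algebra F L] {p : ℕ} (hp : p.Prime)
    (hL : finrank F L = p) (ψ : L →ₐ[F] L) {r : L} (hψ : ψ r ≠ r) : IsGalois F L ∧ IsCyclic (L ≃ₐ[F] L) := by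
  haveI : FiniteDimensional F L := Module.finite_of_finrank_pos (by rw [hL]; exact hp.pos)
  let σ : L ≃ₐ[F] L := AlgEquiv.ofBijective ψ (Algebra.IsAlgebraic.algHom_bijective ψ)
  have hσ : σ ≠ 1 := by
    intro h
    apply hψ
    have := congrArg (fun (τ : L ≃ₐ[F] L) => τ r) h
    exact this
  have h1 : finrank (IntermediateField.fixedField (⊤ : Subgroup (L ≃ₐ[F] L))) L =
      Nat.card (⊤ : Subgroup (L ≃ₐ[F] L)) := IntermediateField.finrank_fixedField_eq_card ⊤
  have h2 : Nat.card (⊤ : Subgroup (L ≃ₐ[F] L)) = Nat.card (L ≃ₐ[F] L) := Nat.card_congr Subgroup.topEquiv.toEquiv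
  have h3 := Module.finrank_mul_finrank F (IntermediateField.fixedField (⊤ : Subgroup (L ≃ₐ[F] L))) L
  rw [h1, h2, hL] at h3
  have h4 : Nat.card (L ≃ₐ[F] L) ∣ p := ⟨_, by rw [mul_comm]; exact h3.symm⟩
  have h5 : Nat.card (L ≃ₐ[F] L) ≠ 1 := by
    intro h
    haveI : Nontrivial (L ≃ₐ[F] L) := ⟨⟨σ, 1, hσ⟩⟩
    have := Finite.one_lt_card (α := L ≃ₐ[F] L)
    omega
  have h6 := ((Nat.dvd_prime hp).1 h4).resolve_left h5
  haveI : Fact p.Prime := ⟨hp⟩
  exact ⟨IsGalois.of_card_aut_eq_finrank F L (by rw [h6, hL]), isCyclic_of_prime_card h6⟩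

section

variable {F D : Type*} [NontriviallyNormedField F]
  [NormedDivisionRing D] [NormedAlgebra F D] [IsUltrametricDist D]

/-- sums of terms with independent values. -/
theorem sum_val {x : D} {p : ℕ} (hx : x ≠ 0)
    (hram : ∀ i j, i < p → j < p → i ≠ j → ∀ c : F, ‖x‖ ^ i ≠ ‖c‖ * ‖x‖ ^ j) (a : ℕ → F) (s : Finset ℕ)
    (hs : ∀ i ∈ s, i < p) : (∑ i ∈ s, a i • x ^ i) = 0 ∨ ∃ i ∈ s, a i ≠ 0 ∧ ‖∑ i ∈ s, a i • x ^ i‖ = ‖a i‖ * ‖x‖ ^ i := by
  classical
  induction s using Finset.induction_on with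
  | empty => left; simp
  | insert j s hj ih =>
    have hjp : j < p := hs j (Finset.mem_insert_self j s)
    rw [Finset.sum_insert hj]
    by_cases haj : a j = 0
    · rw [haj, zero_smul, zero_add]
      rcases ih (fun i hi => hs i (Finset.mem_insert_of_mem hi)) with h | ⟨i, hi, h1, h2⟩
      · left; exact h
      · right; exact ⟨i, Finset.mem_insert_of_mem hi, h1, h2⟩
    · right
      have hn : ‖a j • x ^ j‖ = ‖a j‖ * ‖x‖ ^ j := by rw [norm_smul, norm_pow]
      rcases ih (fun i hi => hs i (Finset.mem_insert_of_mem hi)) with h | ⟨i, hi, h1, h2⟩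
      · refine ⟨j, Finset.mem_insert_self j s, haj, ?_⟩
        rw [h, add_zero, hn]
      · have hne : ‖a j • x ^ j‖ ≠ ‖∑ i ∈ s, a i • x ^ i‖ := by
          rw [hn, h2]
          intro h
          apply hram j i hjp (hs i (Finset.mem_insert_of_mem hi)) (by rintro rfl; exact hj hi) (a i / a j)
          rw [norm_div, div_mul_eq_mul_div, eq_div_iff (norm_ne_zero_iff.2 haj), mul_comm, h]
        rw [IsUltrametricDist.norm_add_eq_max_of_norm_ne_norm hne]
        rcases le_total ‖a j • x ^ j‖ ‖∑ i ∈ s, a i • x ^ i‖ with h3 | h3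
        · exact ⟨i, Finset.mem_insert_of_mem hi, h1, by rw [max_eq_right h3, h2]⟩
        · exact ⟨j, Finset.mem_insert_self j s, haj, by rw [max_eq_left h3, hn]⟩

end

theorem nrm_map {F D L : Type*} [NontriviallyNormedField F] [DivisionRing D] [Algebra F D] [Field L] [Algebra F L]
    (φ : L →ₐ[F] D) (y : L) : nrm F (φ y) = nrm F y := by
  rw [nrm, nrm, minpoly.algHom_eq φ φ.toRingHom.injective]

/-- **Lifting a cyclic residue algebra.** -/
theorem lift_cyc {F : Type u} [NontriviallyNormedField F] [IsUltrametricDist F] [CompleteSpace F] {D : Type u}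
    [DivisionRing D] [Algebra F D] [FiniteDimensional F D] {p : ℕ}
    (hp : p.Prime) (hdeg : ∀ x : D, (minpoly F x).natDegree ≤ p) :
    letI : NormedDivisionRing D := nDR F D
    letI : NormedAlgebra F D := nAlg F D
    haveI : IsUltrametricDist D := nUltra (F := F)
    CycMax p (Kp F) (Kp D) → CycMax p F D := by
  letI : NormedDivisionRing D := nDR F D
  letI : NormedAlgebra F D := nAlg F D
  haveI : IsUltrametricDist D := nUltra (F := F)
  rintro ⟨l, _, _, hgal, hcyc, hl, ⟨φ⟩⟩
  haveI : FiniteDimensional (Kp F) l := Module.finite_of_finrank_pos (by rw [hl]; exact hp.pos)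
  have hφinj : Function.Injective φ := φ.toRingHom.injective
  have hcard : Nat.card (l ≃ₐ[Kp F] l) = p := by rw [IsGalois.card_aut_eq_finrank, hl]
  obtain ⟨σ, hσ⟩ : ∃ σ : l ≃ₐ[Kp F] l, σ ≠ 1 := by
    haveI : Nontrivial (l ≃ₐ[Kp F] l) := Finite.one_lt_card_iff_nontrivial.1 (by rw [hcard]; exact hp.one_lt)
    exact exists_ne 1
  obtain ⟨ξ, hξ⟩ : ∃ ξ, σ ξ ≠ ξ := by
    by_contra hno
    push Not at hno
    apply hσ
    ext y
    exact hno y
  have hξk : ξ ∉ Set.range (algebraMap (Kp F) l) := by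
    rintro ⟨c, rfl⟩
    exact hξ (σ.commutes c)
  have hξdeg : (minpoly (Kp F) ξ).natDegree = p := by
    have h1 : (minpoly (Kp F) ξ).natDegree ∣ p := by rw [← hl]; exact natDegree_dvd ξ
    refine ((Nat.dvd_prime hp).1 h1).resolve_left fun h2 => hξk ((mem_range_iff_deg ξ).2 h2)
  obtain ⟨q, hq⟩ : ∃ q : (Kp F)[X], aeval ξ q = σ ξ := by
    have h1 : Algebra.adjoin (Kp F) {ξ} = ⊤ := by
      rw [← Algebra.toSubmodule_eq_top]
      apply Submodule.eq_top_of_finrank_eq
      have := finrank_adjoin (F := Kp F) ξ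
      rw [hξdeg, ← hl] at this
      exact this
    have h2 : σ ξ ∈ Algebra.adjoin (Kp F) {ξ} := by rw [h1]; trivial
    rw [Algebra.adjoin_singleton_eq_range_aeval] at h2
    exact h2
  obtain ⟨θ, hθ⟩ := rs_surj (φ ξ)
  have hint : ∀ n, ‖(minpoly F (θ : D)).coeff n‖ ≤ 1 := by
    have h1 : spectralValue (minpoly F (θ : D)) ≤ 1 := θ.2
    exact (spectralValue_le_one_iff (minpoly.monic (Algebra.IsIntegral.isIntegral _))).1 h1
  have hP : (↑(minpoly F (θ : D)).coeffs : Set F) ⊆ (OO F : Set F) := by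
    intro c hc
    rw [Finset.mem_coe, Polynomial.mem_coeffs_iff] at hc
    obtain ⟨n, -, rfl⟩ := hc
    exact hint n
  set m := minpoly F (θ : D) with hm
  have hmon : m.Monic := minpoly.monic (Algebra.IsIntegral.isIntegral _)
  let P : Polynomial (OO F) := m.toSubring (OO F) hP
  have hPm : P.Monic := (Polynomial.monic_toSubring _ _ _).2 hmon
  have hPd : P.natDegree = m.natDegree := Polynomial.natDegree_toSubring _ _ _
  have hPmap : P.map (OO F).subtype = m := by
    ext n
    rw [Polynomial.coeff_map]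
    exact Polynomial.coeff_toSubring' _ _ _
  -- evaluation of integral polynomials
  have hev : ∀ (Q : (OO F)[X]) (z : OO D), ((Q.eval₂ (oMap F D) z : OO D) : D) = aeval (z : D) (Q.map (OO F).subtype) := by
    intro Q z
    change (OO D).subtype (Q.eval₂ (oMap F D) z) = _
    rw [Polynomial.hom_eval₂]
    have h1 : (OO D).subtype.comp (oMap F D) = (algebraMap F D).comp (OO F).subtype := rfl
    rw [h1, ← Polynomial.eval₂_map]
    rfl
  have hrs : ∀ (Q : (OO F)[X]) (z : OO D), rs D (Q.eval₂ (oMap F D) z) = aeval (rs D z) (Q.map (rs F)) := by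
    intro Q z
    rw [Polynomial.aeval_def, Polynomial.eval₂_map]
    have h3 : (algebraMap (Kp F) (Kp D)).comp (rs F) = (rs D).comp (oMap F D) := rfl
    rw [h3, ← Polynomial.hom_eval₂]
  have h0 : P.eval₂ (oMap F D) θ = 0 := by
    apply Subtype.ext
    rw [hev, hPmap]
    exact minpoly.aeval F (θ : D)
  have hmin : P.map (rs F) = minpoly (Kp F) ξ := by
    have h2 : aeval (φ ξ) (P.map (rs F)) = 0 := by
      rw [← hθ, ← hrs, h0, map_zero]
    have h3 : minpoly (Kp F) (φ ξ) = minpoly (Kp F) ξ := minpoly.algHom_eq φ hφinj ξ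
    have h4 := minpoly.dvd (Kp F) (φ ξ) h2
    rw [h3] at h4
    refine Polynomial.eq_of_monic_of_dvd_of_natDegree_le (minpoly.monic (Algebra.IsIntegral.isIntegral ξ))
      (hPm.map (rs F)) h4 ?_
    rw [hPm.natDegree_map, hPd, hξdeg]
    exact hdeg _
  have hmdeg : m.natDegree = p := by
    rw [← hPd, ← hPm.natDegree_map (rs F), hmin, hξdeg]
  -- the field generated by `θ`
  let L := Ad F (θ : D)
  let r : L := AdjoinRoot.root _
  letI : NormedField L := nFd F L
  letI : NormedAlgebra F L := nFAlg F L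
  haveI : IsUltrametricDist L := nFUltra (F := F)
  haveI : CompleteSpace L := nFComplete (F := F)
  let ι : L →ₐ[F] D := adHom F (θ : D)
  have hι : ∀ y : L, ‖y‖ = ‖ι y‖ := fun y => (nrm_map ι y).symm
  have hιr : ι r = θ := adHom_root _
  obtain ⟨Q, hQ⟩ := Polynomial.map_surjective (rs F) rs_surj q
  let a : L := aeval r (Q.map (OO F).subtype)
  let A : OO D := Q.eval₂ (oMap F D) θ
  have hιa : ι a = (A : D) := by
    change ι (aeval r (Q.map (OO F).subtype)) = _
    rw [← aeval_algHom_apply, hιr, hev]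
  have hrsA : rs D A = φ (σ ξ) := by
    change rs D (Q.eval₂ (oMap F D) θ) = _
    rw [hrs, hθ, hQ, aeval_algHom_apply, hq]
  let f : L[X] := m.map (algebraMap F L)
  have hf : ∀ n, ‖f.coeff n‖ ≤ 1 := by
    intro n
    rw [coeff_map, norm_algebraMap']
    exact hint n
  have ha1 : ‖a‖ ≤ 1 := by
    rw [hι, hιa]
    exact A.2
  have hιf : ∀ R : (OO F)[X], ι (((R.map (OO F).subtype).map (algebraMap F L)).eval a) =
      ((R.eval₂ (oMap F D) A : OO D) : D) := by
    intro R
    rw [hev, eval_map_algebraMap, ← aeval_algHom_apply, hιa]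
  have hσa : ∀ R : (Kp F)[X], aeval (σ ξ) R = σ (aeval ξ R) := fun R =>
    aeval_algHom_apply (σ : l →ₐ[Kp F] l) ξ R
  have hfa : ‖f.eval a‖ < 1 := by
    rw [hι]
    change ‖ι ((m.map (algebraMap F L)).eval a)‖ < 1
    rw [← hPmap, hιf, ← rs_eq_zero, hrs, hrsA, hmin, aeval_algHom_apply, hσa, minpoly.aeval,
      map_zero, map_zero]
  have hfa' : ‖f.derivative.eval a‖ = 1 := by
    have hder : f.derivative = ((P.derivative).map (OO F).subtype).map (algebraMap F L) := by
      change (m.map (algebraMap F L)).derivative = _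
      rw [← derivative_map, ← derivative_map, hPmap]
    refine le_antisymm (norm_eval_le _ (coeff_derivative_le f hf) ha1) ?_
    rw [hι, hder, hιf]
    by_contra hlt
    push Not at hlt
    rw [← rs_eq_zero, hrs, hrsA, ← derivative_map, hmin, aeval_algHom_apply, hσa] at hlt
    have h5 : aeval ξ (derivative (minpoly (Kp F) ξ)) = 0 := by
      have := (map_eq_zero φ).1 hlt
      exact (map_eq_zero σ).1 this
    exact (Algebra.IsSeparable.isSeparable (Kp F) ξ).aeval_derivative_ne_zero (minpoly.aeval _ _) h5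
  obtain ⟨b, hb0, hb1⟩ := hensel f hf ha1 hfa hfa'
  have hbr : b ≠ r := by
    rintro rfl
    rw [hι, map_sub, hιr, hιa] at hb1
    have h5 := rs_eq_iff.2 hb1
    rw [hθ, hrsA] at h5
    exact hξ (hφinj h5).symm
  have hroot : aeval b m = 0 := by
    rw [← eval_map_algebraMap]
    exact hb0
  let ψ : L →ₐ[F] L := Ideal.Quotient.liftₐ _ (aeval b) (fun g hg => by
    rw [Ideal.mem_span_singleton] at hg
    obtain ⟨g', rfl⟩ := hg
    rw [map_mul, hroot, zero_mul])
  have hψ : ψ r = b := by
    change aeval b (X : F[X]) = b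
    rw [aeval_X]
  have hL : finrank F L = p := by rw [finrank_ad, ← hm, hmdeg]
  obtain ⟨h6, h7⟩ := cyc_of_endo hp hL ψ (r := r) (by rw [hψ]; exact hbr)
  exact ⟨L, inferInstance, inferInstance, h6, h7, hL, ⟨ι⟩⟩

/-- the discreteness data of a central division algebra. -/
theorem disc_of {F : Type u} [NontriviallyNormedField F] [IsUltrametricDist F] [CompleteSpace F] {D : Type u}
    [DivisionRing D] [Algebra F D] [FiniteDimensional F D] {p : ℕ}
    (hp : p.Prime) (hdim : finrank F D = p ^ 2) (hdeg : ∀ x : D, (minpoly F x).natDegree ≤ p)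
    {ϖ : F} (hϖ : ϖ ≠ 0) (hϖ1 : ‖ϖ‖ < 1) (hbase : ∀ c : F, c ≠ 0 → ∃ n : ℤ, ‖c‖ = ‖ϖ‖ ^ n) :
    letI : NormedDivisionRing D := nDR F D
    letI : NormedAlgebra F D := nAlg F D
    Disc F D p ϖ := by
  letI : NormedDivisionRing D := nDR F D
  letI : NormedAlgebra F D := nAlg F D
  refine ⟨hϖ, hϖ1, hbase, ?_⟩
  intro x hx
  have h1 := nrm_pow_natDegree (F := F) x
  have hc0 : (minpoly F x).coeff 0 ≠ 0 := by
    intro h0
    rw [h0, norm_zero] at h1
    exact hx (nrm_eq_zero (pow_eq_zero_iff (minpoly_irred (F := F) x).natDegree_pos.ne' |>.1 h1))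
  rcases deg_cases hp hdim hdeg x with h2 | h2
  · refine ⟨(minpoly F x).coeff 0 ^ p, pow_ne_zero _ hc0, ?_⟩
    rw [norm_pow, ← h1, h2, pow_one]
    rfl
  · refine ⟨(minpoly F x).coeff 0, hc0, ?_⟩
    rw [← h1, h2]
    rfl

/-- **The tamely ramified case.** -/
theorem tame_ram {F : Type u} [NontriviallyNormedField F] [IsUltrametricDist F] [CompleteSpace F] {D : Type u}
    [DivisionRing D] [Algebra F D] [Algebra.IsCentral F D] [FiniteDimensional F D] {p : ℕ}
    (hp : p.Prime) (hdim : finrank F D = p ^ 2) (hpF : ‖(p : F)‖ = 1) {ϖ : F}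
    (hd : letI : NormedDivisionRing D := nDR F D
      letI : NormedAlgebra F D := nAlg F D
      Disc F D p ϖ) {x : D} (hx : x ≠ 0) (hram : ∀ c : F, nrm F x ≠ ‖c‖) : CycMax p F D := by
  letI : NormedDivisionRing D := nDR F D
  letI : NormedAlgebra F D := nAlg F D
  haveI : IsUltrametricDist D := nUltra (F := F)
  have hxF : x ∉ Set.range (algebraMap F D) := by
    rintro ⟨c, rfl⟩
    exact hram c (nrm_algebraMap c)
  have hmdeg := deg_p hp hdim hxF
  set m := minpoly F x with hm
  have hmon : m.Monic := minpoly.monic (Algebra.IsIntegral.isIntegral _)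
  let L := Ad F x
  let r : L := AdjoinRoot.root _
  letI : NormedField L := nFd F L
  letI : NormedAlgebra F L := nFAlg F L
  haveI : IsUltrametricDist L := nFUltra (F := F)
  haveI : CompleteSpace L := nFComplete (F := F)
  let ι : L →ₐ[F] D := adHom F x
  have hι : ∀ y : L, ‖y‖ = ‖ι y‖ := fun y => (nrm_map ι y).symm
  have hιr : ι r = x := adHom_root _
  have hrn : ‖r‖ = ‖x‖ := by rw [hι, hιr]
  have hr0 : r ≠ 0 := by
    intro h
    apply hx
    rw [← hιr, h, map_zero]
  obtain ⟨c, hc0, hc⟩ := hd.top x hx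
  have hcn : 0 < ‖c‖ := norm_pos_iff.2 hc0
  have hram' : ∀ i j, i < p → j < p → i ≠ j → ∀ e : F, ‖r‖ ^ i ≠ ‖e‖ * ‖r‖ ^ j := by
    intro i j hi hj hij e h
    apply ramj hp hd hx hram (not_dvd_sub hp hi hj hij) e
    rw [hrn] at h
    have hx' : ‖x‖ ≠ 0 := (norm_pos_iff.2 hx).ne'
    rw [zpow_sub₀ hx', zpow_natCast, zpow_natCast, h, mul_div_assoc, div_self (pow_ne_zero _ hx'), mul_one]
  let u : L := (algebraMap F L c)⁻¹ * r ^ p
  have hu : ‖u‖ = 1 := by
    change ‖(algebraMap F L c)⁻¹ * r ^ p‖ = 1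
    rw [norm_mul, norm_inv, norm_algebraMap', norm_pow, hrn, hc, inv_mul_cancel₀ hcn.ne']
  obtain ⟨g, hg⟩ := AdjoinRoot.mk_surjective u
  have hroot : aeval r m = 0 := by
    change aeval (AdjoinRoot.root m) m = 0
    rw [AdjoinRoot.aeval_eq, AdjoinRoot.mk_self]
  have hug : u = ∑ i ∈ range p, (g %ₘ m).coeff i • r ^ i := by
    rw [← hg, ← AdjoinRoot.aeval_eq]
    have h1 : aeval r g = aeval r (g %ₘ m) := by
      conv_lhs => rw [← modByMonic_add_div g m]
      rw [map_add, map_mul, hroot, zero_mul, add_zero]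
    change aeval r g = _
    rw [h1]
    apply aeval_eq_sum_range'
    have := natDegree_modByMonic_lt g hmon (by
      intro h1
      have := congrArg natDegree h1
      rw [hmdeg, natDegree_one] at this
      exact hp.ne_zero this)
    rwa [hmdeg] at this
  let a := (g %ₘ m).coeff
  let w : L := ∑ i ∈ (range p).erase 0, a i • r ^ i
  have huw : u = algebraMap F L (a 0) + w := by
    rw [hug, ← Finset.add_sum_erase _ _ (mem_range.2 hp.pos), pow_zero, Algebra.algebraMap_eq_smul_one]
  have hw : ‖w‖ < 1 := by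
    rcases sum_val hr0 hram' a ((range p).erase 0) (fun i hi => mem_range.1 (Finset.mem_of_mem_erase hi)) with
      h | ⟨i, hi, hai, h⟩
    · change ‖∑ i ∈ (range p).erase 0, a i • r ^ i‖ < 1
      rw [h, norm_zero]
      exact one_pos
    · have hi0 := Finset.ne_of_mem_erase hi
      have hip := mem_range.1 (Finset.mem_of_mem_erase hi)
      have hwn : ∀ e : F, ‖w‖ ≠ ‖e‖ := by
        intro e he
        apply hram' i 0 hip hp.pos hi0 (e / a i)
        change ‖∑ i ∈ (range p).erase 0, a i • r ^ i‖ = _ at he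
        rw [pow_zero, mul_one, norm_div, eq_div_iff (norm_ne_zero_iff.2 hai), mul_comm, ← h, he]
      have h1 : ‖algebraMap F L (a 0)‖ ≠ ‖w‖ := by
        rw [norm_algebraMap']
        exact (hwn _).symm
      have h2 := IsUltrametricDist.norm_add_eq_max_of_norm_ne_norm h1
      rw [← huw, hu] at h2
      refine lt_of_le_of_ne ?_ ?_
      · rw [h2]; exact le_max_right _ _
      · have := hwn 1
        rwa [norm_one] at this
  have ha0 : ‖algebraMap F L (a 0)‖ = 1 := by
    rw [← hu]
    apply norm_eq_of_near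
    rw [huw]
    rw [← huw, hu]
    have : algebraMap F L (a 0) - u = - w := by rw [huw]; ring
    rw [this, norm_neg]
    exact hw
  have ha0' : algebraMap F L (a 0) ≠ 0 := by rw [← norm_pos_iff, ha0]; exact one_pos
  let t : L := u / algebraMap F L (a 0)
  have htn : ‖t‖ = 1 := by
    change ‖u / algebraMap F L (a 0)‖ = 1
    rw [norm_div, hu, ha0, div_one]
  let f : L[X] := X ^ p - C t
  have hf : ∀ n, ‖f.coeff n‖ ≤ 1 := by
    intro n
    change ‖(X ^ p - C t).coeff n‖ ≤ 1
    rw [coeff_sub, coeff_X_pow, coeff_C]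
    refine (nsub_le_max _ _).trans (max_le ?_ ?_)
    · split_ifs
      · rw [norm_one]
      · rw [norm_zero]; exact zero_le_one
    · split_ifs
      · rw [htn]
      · rw [norm_zero]; exact zero_le_one
  obtain ⟨b, hb0, hb1⟩ := hensel f hf (a := 1) (by rw [norm_one]) (by
      change ‖(X ^ p - C t).eval 1‖ < 1
      rw [eval_sub, eval_pow, eval_X, eval_C, one_pow]
      have : (1 : L) - t = (-w) / algebraMap F L (a 0) := by
        change 1 - u / algebraMap F L (a 0) = _
        rw [huw]; field_simp; ring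
      rw [this, norm_div, norm_neg, ha0, div_one]
      exact hw) (by
      change ‖(derivative (X ^ p - C t)).eval 1‖ = 1
      rw [derivative_sub, derivative_C, sub_zero, derivative_X_pow, eval_mul, eval_pow, eval_X, one_pow, mul_one,
        eval_C, ← map_natCast (algebraMap F L), norm_algebraMap', hpF])
  have hbp : b ^ p = t := by
    change (X ^ p - C t).eval b = 0 at hb0
    rw [eval_sub, eval_pow, eval_X, eval_C] at hb0
    exact sub_eq_zero.1 hb0
  have hbn : ‖b‖ = 1 := by
    rw [← norm_one (α := L)]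
    apply norm_eq_of_near
    rw [norm_one]; exact hb1
  have hb0' : b ≠ 0 := by rw [← norm_pos_iff, hbn]; exact one_pos
  let v : L := r / b
  have hvn : ‖v‖ = ‖x‖ := by
    change ‖r / b‖ = ‖x‖
    rw [norm_div, hbn, div_one, hrn]
  have hvp : v ^ p = algebraMap F L (c * a 0) := by
    change (r / b) ^ p = _
    have hcL : algebraMap F L c ≠ 0 := (_root_.map_ne_zero _).2 hc0
    have hrp : r ^ p = algebraMap F L c * u := by
      change r ^ p = algebraMap F L c * ((algebraMap F L c)⁻¹ * r ^ p)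
      rw [← mul_assoc, mul_inv_cancel₀ hcL, one_mul]
    have hu0 : u ≠ 0 := by rw [← norm_pos_iff, hu]; exact one_pos
    rw [div_pow, hbp, hrp, map_mul]
    change algebraMap F L c * u / (u / algebraMap F L (a 0)) = _
    field_simp
  refine albert (F := F) (D := D) hp ?_ hdim (v := ι v) ?_ ?_
  · intro h
    rw [h, norm_zero] at hpF
    exact zero_ne_one hpF
  · rintro ⟨e, he⟩
    apply hram e
    change ‖x‖ = ‖e‖
    rw [← hvn, hι, ← he, norm_algebraMap']
  · exact ⟨c * a 0, by rw [← map_pow, hvp, AlgHom.commutes]⟩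

/-- **The tame ascent.** -/
theorem tame {F : Type u} [NontriviallyNormedField F] [IsUltrametricDist F] [CompleteSpace F] {p : ℕ}
    (hp : p.Prime) {ϖ : F} (hϖ : ϖ ≠ 0) (hϖ1 : ‖ϖ‖ < 1) (hbase : ∀ c : F, c ≠ 0 → ∃ n : ℤ, ‖c‖ = ‖ϖ‖ ^ n)
    (hpF : ‖(p : F)‖ = 1) (h : CycAll p (Kp F)) : CycAll p F := by
  intro D _ _ _ _ hdim
  letI : NormedDivisionRing D := nDR F D
  letI : NormedAlgebra F D := nAlg F D
  haveI : IsUltrametricDist D := nUltra (F := F)
  have hdeg : ∀ x : D, (minpoly F x).natDegree ≤ p := by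
    intro x
    rcases central_deg hp hdim x with h | h
    · rw [h]; exact hp.one_lt.le
    · exact h.le
  have hd : Disc F D p ϖ := disc_of hp hdim hdeg hϖ hϖ1 hbase
  have hint : ∀ x : D, ‖x‖ ≤ 1 → ∀ n, ‖(minpoly F x).coeff n‖ ≤ 1 := by
    intro x hx n
    have h1 : spectralValue (minpoly F x) ≤ 1 := hx
    exact (spectralValue_le_one_iff (minpoly.monic (Algebra.IsIntegral.isIntegral _))).1 h1 n
  by_cases hram : ∃ x : D, x ≠ 0 ∧ ∀ c : F, ‖x‖ ≠ ‖c‖
  · obtain ⟨x, hx, hx2⟩ := hram
    exact tame_ram hp hdim hpF hd hx hx2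
  · push Not at hram
    have hun : ∀ x : D, ∃ c : F, ‖x‖ = ‖c‖ := by
      intro x
      by_cases hx : x = 0
      · exact ⟨0, by rw [hx, norm_zero, norm_zero]⟩
      · exact hram x hx
    have hfr : finrank (Kp F) (Kp D) = p ^ 2 := by rw [finrank_kp hp.ne_zero hd hun, hdim]
    have hdr := deg_res hint hdeg
    have hpk : (p : Kp F) ≠ 0 := by
      intro h0
      have h1 : rs F (p : OO F) = 0 := by rw [map_natCast]; exact h0
      rw [rs_eq_zero] at h1
      have h2 : (OO F).subtype (p : OO F) = (p : F) := map_natCast (OO F).subtype p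
      change ‖(OO F).subtype (p : OO F)‖ < 1 at h1
      rw [h2, hpF] at h1
      exact lt_irrefl _ h1
    have hnc : ¬ ∀ a b : Kp D, a * b = b * a := by
      intro hcomm
      letI : Field (Kp D) := { (inferInstance : DivisionRing (Kp D)) with mul_comm := hcomm }
      haveI : FiniteDimensional (Kp F) (Kp D) := Module.finite_of_finrank_pos (by rw [hfr]; exact pow_pos hp.pos 2)
      haveI : Algebra.IsSeparable (Kp F) (Kp D) := by
        constructor
        intro α
        rw [IsSeparable, Polynomial.separable_iff_derivative_ne_zero (minpoly_irred (F := Kp F) α)]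
        intro h0
        have hm : (minpoly (Kp F) α).Monic := minpoly.monic (Algebra.IsIntegral.isIntegral _)
        have h1 := congrArg (fun q => coeff q ((minpoly (Kp F) α).natDegree - 1)) h0
        have hpos := (minpoly_irred (F := Kp F) α).natDegree_pos
        simp only [coeff_derivative, coeff_zero] at h1
        have h2 : (minpoly (Kp F) α).natDegree - 1 + 1 = (minpoly (Kp F) α).natDegree := by omega
        rw [h2, coeff_natDegree, hm.leadingCoeff, one_mul] at h1
        have h3 : (((minpoly (Kp F) α).natDegree - 1 : ℕ) : Kp F) + 1 = ((minpoly (Kp F) α).natDegree : Kp F) := by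
          rw [← Nat.cast_succ]; congr 1
        rw [h3] at h1
        rcases deg_cases hp hfr hdr α with h4 | h4
        · rw [h4, Nat.cast_one] at h1
          exact one_ne_zero h1
        · rw [h4] at h1
          exact hpk h1
      obtain ⟨α, hα⟩ := Field.exists_primitive_element (Kp F) (Kp D)
      have h1 : (minpoly (Kp F) α).natDegree = finrank (Kp F) (Kp D) := by
        rw [← IntermediateField.adjoin.finrank (Algebra.IsIntegral.isIntegral α), hα, IntermediateField.finrank_top']
      have h2 := hdr α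
      rw [h1, hfr] at h2
      have := hp.two_le
      nlinarith
    haveI := central_of_noncomm hp hfr hnc
    exact lift_cyc hp hdeg (h (Kp D) hfr)

end Run7.h339
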