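import Mathlib
import Pool.Agent.Run7.h339.Tame
import Pool.Agent.Run7.h339.Ascent
import Pool.Agent.Run7.h339.Mixed
import Pool.Agent.Run7.h339.Laurent

/-! Fraction fields of complete discrete valuation rings. -/

set_option autoImplicit false
set_option linter.all false

noncomputable section

namespace Run7.h339

open WithZero IsDedekindDomain IsDedekindDomain.HeightOneSpectrum
open scoped NNReal

universe u

section norm

variable (R K : Type u) [CommRing R] [IsDomain R] [IsDiscreteValuationRing R] [Field K] [Algebra R K]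
  [IsFractionRing R K]

/-- the valuation -/
abbrev vR : Valuation K ℤᵐ⁰ := (IsDiscreteValuationRing.maximalIdeal R).valuation K

/-- the absolute value -/
def NR (x : K) : ℝ := ((WithZeroMulInt.toNNReal (e := 2) two_ne_zero (vR R K x) : ℝ≥0) : ℝ)

variable {K}

theorem NR_mul (x y : K) : NR R K (x * y) = NR R K x * NR R K y := by
  rw [NR, NR, NR, map_mul, map_mul]; push_cast; rfl

theorem NR_zero : NR R K 0 = 0 := by
  rw [NR, map_zero, map_zero]; rfl

theorem NR_one : NR R K 1 = 1 := by
  rw [NR, map_one, map_one]; rfl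

theorem NR_nonneg (x : K) : 0 ≤ NR R K x := NNReal.coe_nonneg _

theorem NR_le_iff (x y : K) : NR R K x ≤ NR R K y ↔ vR R K x ≤ vR R K y := by
  rw [NR, NR, NNReal.coe_le_coe, nLS_strict.le_iff_le]

theorem NR_lt_iff (x y : K) : NR R K x < NR R K y ↔ vR R K x < vR R K y := by
  rw [NR, NR, NNReal.coe_lt_coe, nLS_strict.lt_iff_lt]

theorem NR_eq_zero {x : K} (h : NR R K x = 0) : x = 0 := by
  by_contra hx
  have h1 : NR R K (x * x⁻¹) = 1 := by rw [mul_inv_cancel₀ hx, NR_one]
  rw [NR_mul, h, zero_mul] at h1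
  exact zero_ne_one h1

theorem NR_neg (x : K) : NR R K (-x) = NR R K x := by
  rw [NR, NR, Valuation.map_neg]

theorem NR_add (x y : K) : NR R K (x + y) ≤ max (NR R K x) (NR R K y) := by
  have := (vR R K).map_add x y
  rcases le_max_iff.1 this with h | h
  · exact le_max_of_le_left ((NR_le_iff R _ _).2 h)
  · exact le_max_of_le_right ((NR_le_iff R _ _).2 h)

theorem NR_le_one_iff (x : K) : NR R K x ≤ 1 ↔ ∃ a : R, algebraMap R K a = x := by
  rw [← NR_one R (K := K), NR_le_iff, map_one]
  constructor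
  · intro h
    exact IsDiscreteValuationRing.exists_lift_of_le_one h
  · rintro ⟨a, rfl⟩
    exact valuation_le_one _ a

theorem NR_lt_one_iff (a : R) : NR R K (algebraMap R K a) < 1 ↔ a ∈ IsLocalRing.maximalIdeal R := by
  rw [← NR_one R (K := K), NR_lt_iff, map_one]
  exact valuation_lt_one_iff_mem _ a

theorem exists_unif : ∃ ϖ : K, vR R K ϖ = exp (-1 : ℤ) := valuation_exists_uniformizer K _

theorem NR_le_pow_iff {ϖ : K} (hϖ : vR R K ϖ = exp (-1 : ℤ)) (a : R) (n : ℕ) :
    NR R K (algebraMap R K a) ≤ NR R K ϖ ^ n ↔ a ∈ IsLocalRing.maximalIdeal R ^ n := by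
  have h1 : NR R K ϖ ^ n = NR R K (ϖ ^ n) := by
    rw [NR, NR, map_pow, map_pow]; push_cast; rfl
  rw [h1, NR_le_iff, map_pow, hϖ, ← exp_nsmul, valuation_of_algebraMap]
  have h2 : (n • (-1 : ℤ)) = -(n : ℤ) := by simp
  rw [h2]
  exact intValuation_le_pow_iff_mem _ a n

theorem NR_unif {ϖ : K} (hϖ : vR R K ϖ = exp (-1 : ℤ)) : ϖ ≠ 0 ∧ NR R K ϖ < 1 := by
  constructor
  · rintro rfl
    rw [map_zero] at hϖ
    exact exp_ne_zero hϖ.symm
  · rw [← NR_one R (K := K), NR_lt_iff, map_one, hϖ, ← exp_zero, exp_lt_exp]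
    omega

theorem NR_base {ϖ : K} (hϖ : vR R K ϖ = exp (-1 : ℤ)) (c : K) (hc : c ≠ 0) :
    ∃ n : ℤ, NR R K c = NR R K ϖ ^ n := by
  have h0 : vR R K c ≠ 0 := (Valuation.ne_zero_iff _).2 hc
  refine ⟨-(log (vR R K c)), ?_⟩
  have h1 : vR R K c = exp (-1 : ℤ) ^ (-(log (vR R K c))) := by
    rw [← exp_zsmul, smul_eq_mul, mul_neg, mul_one, neg_neg, exp_log h0]
  rw [NR, NR, hϖ]
  conv_lhs => rw [h1]
  rw [map_zpow₀]
  push_cast
  rfl

variable (K)

/-- normed field structure -/
@[instance_reducible]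
def nfR : NontriviallyNormedField K where
  toField := inferInstance
  norm := NR R K
  dist x y := NR R K (-x + y)
  dist_self x := by simp [NR_zero]
  dist_comm x y := by
    rw [← NR_neg, neg_add, neg_neg, add_comm]
  dist_triangle x y z := by
    have h : -x + z = (-x + y) + (-y + z) := by abel
    rw [h]
    refine (NR_add R _ _).trans (max_le ?_ ?_)
    · have := NR_nonneg R (-y + z)
      linarith
    · have := NR_nonneg R (-x + y)
      linarith
  eq_of_dist_eq_zero {x y} h := by
    have := NR_eq_zero R h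
    rw [neg_add_eq_zero] at this
    exact this
  dist_eq x y := rfl
  norm_mul := NR_mul R
  non_trivial := by
    obtain ⟨ϖ, hϖ⟩ := exists_unif R (K := K)
    obtain ⟨h0, h1⟩ := NR_unif R hϖ
    refine ⟨ϖ⁻¹, ?_⟩
    change 1 < NR R K ϖ⁻¹
    have h2 : NR R K ϖ * NR R K ϖ⁻¹ = 1 := by rw [← NR_mul, mul_inv_cancel₀ h0, NR_one]
    have h3 := NR_nonneg R ϖ
    by_contra h
    push Not at h
    have h4 := NR_nonneg R (ϖ⁻¹)
    nlinarith

theorem ultraR : letI := nfR R K; IsUltrametricDist K := by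
  letI := nfR R K
  exact IsUltrametricDist.isUltrametricDist_of_forall_norm_add_le_max_norm fun x y => NR_add R x y

theorem completeR [IsAdicComplete (IsLocalRing.maximalIdeal R) R] : letI := nfR R K; CompleteSpace K := by
  letI := nfR R K
  obtain ⟨ϖ, hϖ⟩ := exists_unif R (K := K)
  obtain ⟨h0, h1⟩ := NR_unif R hϖ
  have hϖpos : 0 < NR R K ϖ := lt_of_le_of_ne (NR_nonneg R _) fun h => h0 (NR_eq_zero R h.symm)
  refine Metric.complete_of_convergent_controlled_sequences (fun n => NR R K ϖ ^ n) (fun n => pow_pos hϖpos n) ?_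
  intro u hu
  have hu' : ∀ N n m, N ≤ n → N ≤ m → NR R K (u m - u n) < NR R K ϖ ^ N := by
    intro N n m hn hm
    have := hu N n m hn hm
    change NR R K (-u n + u m) < _ at this
    rwa [neg_add_eq_sub] at this
  have hr : ∀ n, ∃ r : R, algebraMap R K r = u n - u 0 := by
    intro n
    rw [← NR_le_one_iff]
    have := hu' 0 0 n le_rfl (Nat.zero_le n)
    rw [pow_zero] at this
    exact this.le
  choose r hr using hr
  have hcau : ∀ {m n}, m ≤ n → r m ≡ r n [SMOD ((IsLocalRing.maximalIdeal R) ^ m • ⊤ : Submodule R R)] := by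
    intro m n hmn
    rw [SModEq.sub_mem, smul_eq_mul, Ideal.mul_top, ← NR_le_pow_iff R hϖ, map_sub, hr, hr]
    have : u m - u 0 - (u n - u 0) = u m - u n := by ring
    rw [this]
    exact (hu' m n m hmn le_rfl).le
  obtain ⟨L, hL⟩ := IsPrecomplete.prec inferInstance hcau
  refine ⟨u 0 + algebraMap R K L, ?_⟩
  rw [tendsto_iff_norm_sub_tendsto_zero]
  have hb : ∀ n, ‖u n - (u 0 + algebraMap R K L)‖ ≤ NR R K ϖ ^ n := by
    intro n
    have h2 := hL n
    rw [SModEq.sub_mem, smul_eq_mul, Ideal.mul_top, ← NR_le_pow_iff R hϖ, map_sub, hr] at h2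
    rw [← sub_sub]
    exact h2
  exact squeeze_zero (fun n => norm_nonneg _) hb
    (tendsto_pow_atTop_nhds_zero_of_lt_one hϖpos.le h1)

/-- the ring inside the valuation ring. -/
def cR : letI := nfR R K; haveI := ultraR R K; R →+* OO K :=
  letI := nfR R K
  haveI := ultraR R K
  (algebraMap R K).codRestrict (OO K) (fun c => by
    change NR R K _ ≤ 1
    rw [NR_le_one_iff]
    exact ⟨c, rfl⟩)

/-- the residue field. -/
def resR : letI := nfR R K; haveI := ultraR R K; IsLocalRing.ResidueField R ≃+* Kp K :=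
  letI := nfR R K
  haveI := ultraR R K
  letI f : R →+* Kp K := (rs K).comp (cR R K)
  haveI hloc : IsLocalHom f := by
    constructor
    intro a ha
    by_contra hu
    have h1 : a ∈ IsLocalRing.maximalIdeal R := hu
    rw [← NR_lt_one_iff R (K := K)] at h1
    have h2 : f a = 0 := rs_eq_zero.2 h1
    rw [h2] at ha
    exact not_isUnit_zero ha
  RingEquiv.ofBijective (IsLocalRing.ResidueField.lift f) (by
    refine ⟨RingHom.injective _, ?_⟩
    intro y
    obtain ⟨x, rfl⟩ := rs_surj y
    obtain ⟨a, ha⟩ := (NR_le_one_iff R (x : K)).1 x.2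
    refine ⟨IsLocalRing.residue R a, ?_⟩
    rw [IsLocalRing.ResidueField.lift_residue_apply]
    change rs K (cR R K a) = rs K x
    congr 1
    exact Subtype.ext ha)

theorem norm_natCast_R {j : ℕ} (hj : (j : IsLocalRing.ResidueField R) ≠ 0) : (nfR R K).norm (j : K) = 1 := by
  change NR R K (j : K) = 1
  have h1 : (j : K) = algebraMap R K (j : R) := by rw [map_natCast]
  rw [h1]
  refine le_antisymm ((NR_le_one_iff R _).2 ⟨_, rfl⟩) ?_
  by_contra h
  push Not at h
  rw [NR_lt_one_iff] at h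
  apply hj
  rw [← map_natCast (IsLocalRing.residue R), IsLocalRing.residue_eq_zero_iff]
  exact h

end norm

end Run7.h339
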