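import Mathlib
import Pool.Agent.Run7.h339.Base2
import Pool.Agent.V11179.Springer

/-! The commutative (purely inseparable) case for `p = 5`. -/

set_option autoImplicit false
set_option linter.all false

namespace Run7.h339

open Module Finset Polynomial

universe u

section Phi

variable {K B : Type*} [Field K] [CommRing B] [Algebra K B]

/-- apply a functional to the coefficients of a polynomial. -/
noncomputable def Phi (φ : B →ₗ[K] K) (V : B[X]) : K[X] := V.sum fun n b => monomial n (φ b)

theorem Phi_coeff (φ : B →ₗ[K] K) (V : B[X]) (n : ℕ) : (Phi φ V).coeff n = φ (V.coeff n) := by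
  classical
  unfold Phi
  rw [Polynomial.sum_def, finset_sum_coeff]
  simp only [coeff_monomial]
  rw [Finset.sum_ite_eq']
  split_ifs with h
  · rfl
  · rw [notMem_support_iff.1 h, map_zero]

theorem Phi_add (φ : B →ₗ[K] K) (V W : B[X]) : Phi φ (V + W) = Phi φ V + Phi φ W := by
  ext n; simp [Phi_coeff]

theorem Phi_zero (φ : B →ₗ[K] K) : Phi φ 0 = 0 := by
  ext n; simp [Phi_coeff]

theorem Phi_sum (φ : B →ₗ[K] K) {ι : Type*} (s : Finset ι) (V : ι → B[X]) :
    Phi φ (∑ i ∈ s, V i) = ∑ i ∈ s, Phi φ (V i) := by
  classical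
  induction s using Finset.induction_on with
  | empty => simp [Phi_zero]
  | insert a s ha ih => rw [sum_insert ha, sum_insert ha, Phi_add, ih]

theorem Phi_mul (φ : B →ₗ[K] K) (P : K[X]) (V : B[X]) :
    Phi φ (P.map (algebraMap K B) * V) = P * Phi φ V := by
  ext n
  rw [Phi_coeff, coeff_mul, coeff_mul, map_sum]
  refine sum_congr rfl fun x _ => ?_
  rw [coeff_map, Phi_coeff, ← Algebra.smul_def, LinearMap.map_smul, smul_eq_mul]

theorem Phi_C (φ : B →ₗ[K] K) (b : B) : Phi φ (C b) = C (φ b) := by
  ext n
  rw [Phi_coeff, coeff_C, coeff_C]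
  split_ifs <;> simp

/-- **Springer descent for functionals on an algebra.** -/
theorem springer_alg [FiniteDimensional K B] (L M : B →ₗ[K] K) {F : K[X]} (hF : Irreducible F)
    (hodd : Odd F.natDegree) (V : B[X]) (hL : Phi L V = 0) (hM : F ∣ Phi M (V * V))
    (hV : ¬ F.map (algebraMap K B) ∣ V) : ∃ v : B, v ≠ 0 ∧ L v = 0 ∧ M (v * v) = 0 := by
  classical
  let b := Module.finBasis K B
  have hdec : V = ∑ j, (Phi (b.coord j) V).map (algebraMap K B) * C (b j) := by
    ext n
    rw [finset_sum_coeff]
    simp only [coeff_mul_C, coeff_map, Phi_coeff]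
    rw [← b.sum_repr (V.coeff n)]
    refine sum_congr rfl fun j _ => ?_
    rw [Algebra.smul_def]
    simp
  have hlin : ∀ φ : B →ₗ[K] K, Phi φ V = ∑ j, C (φ (b j)) * Phi (b.coord j) V := by
    intro φ
    conv_lhs => rw [hdec]
    rw [Phi_sum]
    refine sum_congr rfl fun j _ => ?_
    rw [Phi_mul, Phi_C, mul_comm]
  have hquad : ∀ φ : B →ₗ[K] K, Phi φ (V * V) =
      ∑ i, ∑ j, C (φ (b i * b j)) * (Phi (b.coord i) V * Phi (b.coord j) V) := by
    intro φ
    conv_lhs => rw [hdec]
    rw [sum_mul_sum, Phi_sum]
    refine sum_congr rfl fun i _ => ?_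
    rw [Phi_sum]
    refine sum_congr rfl fun j _ => ?_
    have : (Phi (b.coord i) V).map (algebraMap K B) * C (b i) *
        ((Phi (b.coord j) V).map (algebraMap K B) * C (b j)) =
        (Phi (b.coord i) V * Phi (b.coord j) V).map (algebraMap K B) * C (b i * b j) := by
      rw [Polynomial.map_mul, C_mul]; ring
    rw [this, Phi_mul, Phi_C, mul_comm]
  obtain ⟨v, hv0, hv1, hv2⟩ := Pool.Agent.V11179.Psi.springer (fun i j => M (b i * b j)) (fun j => L (b j)) _ F le_rfl hodd
    (fun j => Phi (b.coord j) V) (by rw [← hlin, hL]) (by rw [← hquad]; exact hM) (by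
      intro P hP hPF
      by_contra hno
      push Not at hno
      apply hV
      have hFP : F ∣ P := by
        obtain ⟨Q, hQ⟩ := hPF
        rcases hF.isUnit_or_isUnit hQ with h | h
        · exact absurd h hP.not_isUnit
        · rw [hQ]
          exact (IsUnit.mul_right_dvd h).2 dvd_rfl
      rw [hdec]
      refine dvd_sum fun j _ => dvd_mul_of_dvd_left ?_ _
      exact Polynomial.map_dvd _ (hFP.trans (hno j)))
  refine ⟨∑ j, v j • b j, ?_, ?_, ?_⟩
  · intro h
    apply hv0
    funext j
    have := b.linearIndependent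
    rw [Fintype.linearIndependent_iff] at this
    exact this v h j
  · rw [map_sum, ← hv1]
    refine sum_congr rfl fun j _ => ?_
    rw [LinearMap.map_smul, smul_eq_mul, mul_comm]
  · rw [sum_mul_sum, map_sum, ← hv2]
    refine sum_congr rfl fun i _ => ?_
    rw [map_sum]
    refine sum_congr rfl fun j _ => ?_
    rw [smul_mul_smul_comm, LinearMap.map_smul, smul_eq_mul, mul_comm]

end Phi

/-- **Lemma S.** -/
theorem lemmaS {K B : Type*} [Field K] [Field B] [Algebra K B] [CharP K 5] (hdim : finrank K B = 5)
    {x : B} {a : K} (hx : x ^ 5 = algebraMap K B a) (hxK : x ∉ Set.range (algebraMap K B)) (L M : B →ₗ[K] K) :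
    ∃ γ : B, γ ≠ 0 ∧ L γ = 0 ∧ M (γ * γ) = 0 := by
  haveI : Fact (Nat.Prime 5) := ⟨by norm_num⟩
  haveI : FiniteDimensional K B := Module.finite_of_finrank_pos (by rw [hdim]; norm_num)
  haveI : CharP B 5 := charP_of_injective_algebraMap (algebraMap K B).injective 5
  have ha : ∀ b : K, b ^ 5 ≠ a := by
    intro b hb
    apply hxK
    refine ⟨b, ?_⟩
    have h1 : (x - algebraMap K B b) ^ 5 = 0 := by
      rw [sub_pow_char, hx, ← map_pow, hb, sub_self]
    have h2 := pow_eq_zero_iff (by norm_num : (5 : ℕ) ≠ 0) |>.1 h1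
    exact (sub_eq_zero.1 h2).symm
  have hF : Irreducible (X ^ 5 - C a : K[X]) := X_pow_sub_C_irreducible_of_prime (by norm_num) ha
  have hFd : (X ^ 5 - C a : K[X]).natDegree = 5 := natDegree_X_pow_sub_C
  have hFm : (X ^ 5 - C a : K[X]).map (algebraMap K B) = (X - C x) ^ 5 := by
    haveI : CharP B[X] 5 := inferInstance
    rw [sub_pow_char, ← C_pow, hx, Polynomial.map_sub, Polynomial.map_pow, map_X, map_C]
  have hxX : (X - C x : B[X]) ≠ 0 := X_sub_C_ne_zero x
  have hcomm : ∀ (i : ℕ), Phi M ((X - C x) ^ (5 + i)) = (X ^ 5 - C a) * Phi M ((X - C x) ^ i) := by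
    intro i
    rw [pow_add, ← hFm, Phi_mul]
  by_cases hL : L = 0
  · refine springer_alg L M hF (by rw [hFd]; decide) ((X - C x) ^ 3) ?_ ?_ ?_
    · rw [hL]; ext n; rw [Phi_coeff]; simp
    · rw [← pow_add]
      change _ ∣ Phi M ((X - C x) ^ (5 + 1))
      rw [hcomm]
      exact dvd_mul_right _ _
    · rw [hFm]
      intro h
      have h1 := (pow_dvd_pow_iff hxX (by
        intro hu
        have := natDegree_eq_zero_of_isUnit hu
        rw [natDegree_X_sub_C] at this
        omega)).1 h
      omega
  · -- the general case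
    have hc0 : Phi L ((X - C x) ^ 4) ≠ 0 := by
      intro h
      apply hL
      have hcoef : ∀ i, i ≤ 4 → L (x ^ i) = 0 := by
        intro i hi
        have h1 := congrArg (fun q => coeff q (4 - i)) h
        simp only [Phi_coeff, coeff_zero] at h1
        rw [sub_eq_add_neg, ← C_neg, coeff_X_add_C_pow] at h1
        have h2 : 4 - (4 - i) = i := by omega
        rw [h2] at h1
        have h3 : (-x) ^ i * ((Nat.choose 4 (4 - i) : ℕ) : B) =
            ((-1 : K) ^ i * ((Nat.choose 4 (4 - i) : ℕ) : K)) • x ^ i := by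
          rw [Algebra.smul_def, map_mul, map_pow, map_neg, map_one, map_natCast, neg_pow]
          ring
        rw [h3, LinearMap.map_smul, smul_eq_mul] at h1
        refine (mul_eq_zero.1 h1).resolve_left ?_
        refine mul_ne_zero (pow_ne_zero _ (by simp)) ?_
        rw [Ne, CharP.cast_eq_zero_iff K 5]
        interval_cases i <;> decide
      -- powers of `x` span
      have hmin : minpoly K x = X ^ 5 - C a := by
        refine (minpoly.eq_of_irreducible_of_monic hF ?_ (monic_X_pow_sub_C a (by norm_num))).symm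
        rw [map_sub, map_pow, aeval_X, aeval_C, hx, sub_self]
      have htop : IntermediateField.adjoin K {x} = ⊤ := by
        apply IntermediateField.eq_of_le_of_finrank_eq le_top
        rw [IntermediateField.adjoin.finrank (Algebra.IsIntegral.isIntegral x), hmin, hFd,
          IntermediateField.finrank_top', hdim]
      ext v
      have hv : v ∈ IntermediateField.adjoin K {x} := by rw [htop]; trivial
      have hv' : v ∈ Algebra.adjoin K {x} := by
        rw [← IntermediateField.adjoin_simple_toSubalgebra_of_isAlgebraic (Algebra.IsAlgebraic.isAlgebraic x)]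
        exact hv
      rw [Algebra.adjoin_singleton_eq_range_aeval] at hv'
      obtain ⟨q, rfl⟩ := hv'
      have hq : (aeval x) q = (aeval x) (q %ₘ (X ^ 5 - C a)) := by
        rw [← modByMonic_add_div q (X ^ 5 - C a)]
        conv_lhs => rw [map_add, map_mul]
        have : (aeval x) (X ^ 5 - C a : K[X]) = 0 := by
          rw [map_sub, map_pow, aeval_X, aeval_C, hx, sub_self]
        rw [this, zero_mul, add_zero, modByMonic_add_div]
      change L ((aeval x) q) = (0 : B →ₗ[K] K) ((aeval x) q)
      rw [hq, aeval_eq_sum_range' (n := 5), map_sum]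
      · rw [LinearMap.zero_apply]
        refine sum_eq_zero fun i hi => ?_
        rw [LinearMap.map_smul, hcoef i (by have := mem_range.1 hi; omega), smul_zero]
      · have := natDegree_modByMonic_lt q (monic_X_pow_sub_C a (by norm_num : (5 : ℕ) ≠ 0)) (by
          intro h1
          have := congrArg natDegree h1
          rw [hFd, natDegree_one] at this
          omega)
        rwa [hFd] at this
    set c0 : K[X] := Phi L ((X - C x) ^ 4) with hc0def
    set c1 : K[X] := - Phi L ((X - C x) ^ 3) with hc1def
    set m := algebraMap K B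
    refine springer_alg L M hF (by rw [hFd]; decide)
      (c0.map m * (X - C x) ^ 3 + c1.map m * (X - C x) ^ 4) ?_ ?_ ?_
    · rw [Phi_add, Phi_mul, Phi_mul, hc1def, ← hc0def]
      ring
    · have h1 : (c0.map m * (X - C x) ^ 3 + c1.map m * (X - C x) ^ 4) *
          (c0.map m * (X - C x) ^ 3 + c1.map m * (X - C x) ^ 4) =
          (c0 * c0).map m * (X - C x) ^ (5 + 1) + ((2 * c0 * c1).map m * (X - C x) ^ (5 + 2) +
            (c1 * c1).map m * (X - C x) ^ (5 + 3)) := by
        simp only [Polynomial.map_mul, Polynomial.map_ofNat]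
        ring
      rw [h1, Phi_add, Phi_add, Phi_mul, Phi_mul, Phi_mul, hcomm, hcomm, hcomm]
      refine dvd_add ?_ (dvd_add ?_ ?_) <;> exact dvd_mul_of_dvd_right (dvd_mul_right _ _) _
    · rw [hFm]
      intro h
      have h1 : (X - C x) ^ 3 * (X - C x) ^ 2 ∣ (X - C x) ^ 3 * (c0.map m + c1.map m * (X - C x)) := by
        have e1 : (X - C x) ^ 3 * (X - C x) ^ 2 = ((X - C x) ^ 5 : B[X]) := by ring
        have e2 : (X - C x) ^ 3 * (c0.map m + c1.map m * (X - C x)) =
          c0.map m * (X - C x) ^ 3 + c1.map m * (X - C x) ^ 4 := by ring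
        rw [e1, e2]
        exact h
      have h2 := (mul_dvd_mul_iff_left (pow_ne_zero 3 hxX)).1 h1
      have h3 : (X - C x) ∣ c0.map m := by
        have h4 : (X - C x) ∣ c0.map m + c1.map m * (X - C x) :=
          (dvd_pow_self _ (by norm_num)).trans h2
        exact (dvd_add_left (dvd_mul_left _ _)).1 h4
      rw [dvd_iff_isRoot, IsRoot.def, eval_map] at h3
      have h5 : minpoly K x ∣ c0 := minpoly.dvd K x h3
      have hmin : minpoly K x = X ^ 5 - C a := by
        refine (minpoly.eq_of_irreducible_of_monic hF ?_ (monic_X_pow_sub_C a (by norm_num))).symm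
        rw [map_sub, map_pow, aeval_X, aeval_C, hx, sub_self]
      rw [hmin] at h5
      have h6 := natDegree_le_of_dvd h5 hc0
      rw [hFd] at h6
      have h7 : c0.natDegree ≤ 4 := by
        rw [natDegree_le_iff_coeff_eq_zero]
        intro n hn
        rw [hc0def, Phi_coeff, coeff_eq_zero_of_natDegree_lt, map_zero]
        rw [natDegree_pow, natDegree_X_sub_C]
        omega
      omega


/-- **Transfer of functionals to an intermediate field.** -/
theorem exists_transfer {k B A : Type*} [Field k] [Field B] [Field A] [Algebra k B] [Algebra k A] [Algebra B A]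
    [IsScalarTower k B A] [FiniteDimensional k B] (T : A →ₗ[k] k) :
    ∃ T1 : A →ₗ[B] B, ∀ a : A, T1 a = 0 ↔ ∀ β : B, T (algebraMap B A β * a) = 0 := by
  classical
  -- a nonzero functional on `B`
  obtain ⟨t, ht⟩ : ∃ t : B →ₗ[k] k, t 1 ≠ 0 := by
    by_contra hno
    push Not at hno
    exact one_ne_zero ((Module.forall_dual_apply_eq_zero_iff k (1 : B)).1 hno)
  let Ψ : B →ₗ[k] (B →ₗ[k] k) := LinearMap.mk₂ k (fun c β => t (β * c)) (by
      intro a b c; rw [mul_add, map_add]) (by
      intro r a b; rw [mul_smul_comm, map_smul]) (by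
      intro a b c; rw [add_mul, map_add]) (by
      intro r a b; rw [smul_mul_assoc, map_smul])
  have hΨ : ∀ c β, Ψ c β = t (β * c) := fun c β => rfl
  have hinj : Function.Injective Ψ := by
    rw [← LinearMap.ker_eq_bot, LinearMap.ker_eq_bot']
    intro c hc
    by_contra hc0
    apply ht
    have := congrArg (fun f => f c⁻¹) hc
    simp only [hΨ, LinearMap.zero_apply] at this
    rwa [inv_mul_cancel₀ hc0] at this
  have hsurj : Function.Surjective Ψ :=
    (LinearMap.injective_iff_surjective_of_finrank_eq_finrank (by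
      rw [Module.finrank_linearMap, Module.finrank_self, mul_one])).1 hinj
  choose S hS using hsurj
  let G : A → (B →ₗ[k] k) := fun a =>
    { toFun := fun β => T (algebraMap B A β * a)
      map_add' := by intro x y; rw [map_add, add_mul, map_add]
      map_smul' := by
        intro r x
        rw [Algebra.smul_def, (algebraMap B A).map_mul, ← IsScalarTower.algebraMap_apply, mul_assoc, ← Algebra.smul_def, map_smul]
        rfl }
  have hG : ∀ a β, t (β * S (G a)) = T (algebraMap B A β * a) := by
    intro a β
    rw [← hΨ, hS]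
    rfl
  refine ⟨{ toFun := fun a => S (G a), map_add' := ?_, map_smul' := ?_ }, ?_⟩
  · intro a b
    apply hinj
    ext β
    rw [hΨ, hΨ, mul_add, map_add, hG, hG, hG, mul_add, map_add]
  · intro r a
    apply hinj
    ext β
    rw [hΨ, hΨ, hG, RingHom.id_apply, smul_eq_mul, ← mul_assoc, hG, (algebraMap B A).map_mul, Algebra.smul_def, mul_assoc]
  · intro a
    change S (G a) = 0 ↔ _
    constructor
    · intro h β
      rw [← hG, h, mul_zero, map_zero]
    · intro h
      apply hinj
      ext β
      rw [hΨ, hG, h β, map_zero]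
      rfl

/-- **The commutative case for `p = 5`.** -/
theorem PP.five {k : Type u} [Field k] [CharP k 5] : PP 5 k := by
  intro A _ _ hdim hA T hT
  haveI : Fact (Nat.Prime 5) := ⟨by norm_num⟩
  haveI : FiniteDimensional k A := Module.finite_of_finrank_pos (by rw [hdim]; norm_num)
  haveI : CharP A 5 := charP_of_injective_algebraMap (algebraMap k A).injective 5
  -- the intermediate field
  obtain ⟨x, hx⟩ : ∃ x : A, x ∉ Set.range (algebraMap k A) := by
    by_contra h
    push Not at h
    have h1 : finrank k A = 1 := by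
      rw [finrank_eq_one_iff_of_nonzero' (1 : A) one_ne_zero]
      intro w
      obtain ⟨c, hc⟩ := h w
      exact ⟨c, by rw [← hc, Algebra.algebraMap_eq_smul_one]⟩
    rw [hdim] at h1
    norm_num at h1
  let B := IntermediateField.adjoin k {x}
  have hdegx : ∀ y : A, y ∉ Set.range (algebraMap k A) → (minpoly k y).natDegree = 5 := by
    intro y hy
    obtain ⟨a, ha⟩ := hA y
    have ha' : ∀ b : k, b ^ 5 ≠ a := by
      intro b hb
      apply hy
      refine ⟨b, ?_⟩
      have h1 : (y - algebraMap k A b) ^ 5 = 0 := by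
        rw [sub_pow_char, ← ha, ← map_pow, hb, sub_self]
      have h2 := pow_eq_zero_iff (by norm_num : (5 : ℕ) ≠ 0) |>.1 h1
      exact (sub_eq_zero.1 h2).symm
    have hF : Irreducible (X ^ 5 - C a : k[X]) := X_pow_sub_C_irreducible_of_prime (by norm_num) ha'
    rw [← minpoly.eq_of_irreducible_of_monic hF (x := y) (by
      rw [map_sub, map_pow, aeval_X, aeval_C, ha, sub_self]) (monic_X_pow_sub_C a (by norm_num)),
      natDegree_X_pow_sub_C]
  have hB : finrank k B = 5 := by
    rw [IntermediateField.adjoin.finrank (Algebra.IsIntegral.isIntegral x), hdegx x hx]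
  have hBA : finrank B A = 5 := by
    have := Module.finrank_mul_finrank k B A
    rw [hB, hdim] at this
    omega
  obtain ⟨T1, hT1⟩ := exists_transfer (k := k) (B := B) (A := A) T
  -- step 1
  obtain ⟨y, hy⟩ : ∃ y : A, y ∉ Set.range (algebraMap B A) := by
    by_contra h
    push Not at h
    have h1 : finrank B A = 1 := by
      rw [finrank_eq_one_iff_of_nonzero' (1 : A) one_ne_zero]
      intro w
      obtain ⟨c, hc⟩ := h w
      exact ⟨c, by rw [← hc, Algebra.algebraMap_eq_smul_one]⟩
    omega
  haveI : CharP B 5 := charP_of_injective_algebraMap (algebraMap k B).injective 5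
  obtain ⟨b, hb⟩ := hA y
  obtain ⟨h, hh0, hh1, hh2⟩ := lemmaS (K := B) (B := A) hBA (x := y) (a := algebraMap k B b)
    (by rw [← hb]; rfl) hy T1 T1
  rw [hT1] at hh1 hh2
  by_cases hhB : h ∈ Set.range (algebraMap B A)
  · -- `T` vanishes on `B`
    obtain ⟨h', rfl⟩ := hhB
    have hh'0 : h' ≠ 0 := by
      rintro rfl
      exact hh0 (map_zero _)
    have hTB : ∀ β : B, T (algebraMap B A β) = 0 := by
      intro β
      have := hh1 (β * h'⁻¹)
      rw [← map_mul, mul_assoc, inv_mul_cancel₀ hh'0, mul_one] at this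
      exact this
    refine ⟨x, hx, fun j _ _ => ?_⟩
    have := hTB ((⟨x, IntermediateField.mem_adjoin_simple_self k x⟩ : B) ^ j)
    rw [map_pow] at this
    exact this
  · -- step 2
    let L : B →ₗ[k] k :=
      { toFun := fun β => T (algebraMap B A β * h ^ 4)
        map_add' := by intro x y; rw [map_add, add_mul, map_add]
        map_smul' := by
          intro r x
          rw [Algebra.smul_def, (algebraMap B A).map_mul, ← IsScalarTower.algebraMap_apply, mul_assoc, ← Algebra.smul_def, map_smul]
          rfl }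
    let M : B →ₗ[k] k :=
      { toFun := fun β => T (algebraMap B A β * h ^ 3)
        map_add' := by intro x y; rw [map_add, add_mul, map_add]
        map_smul' := by
          intro r x
          rw [Algebra.smul_def, (algebraMap B A).map_mul, ← IsScalarTower.algebraMap_apply, mul_assoc, ← Algebra.smul_def, map_smul]
          rfl }
    obtain ⟨a, ha⟩ := hA x
    obtain ⟨γ, hγ0, hγ1, hγ2⟩ := lemmaS (K := k) (B := B) hB
      (x := ⟨x, IntermediateField.mem_adjoin_simple_self k x⟩) (a := a)
      (by apply Subtype.ext; exact ha.symm) (by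
        rintro ⟨c, hc⟩
        apply hx
        exact ⟨c, congrArg Subtype.val hc⟩) L M
    change T (algebraMap B A γ * h ^ 4) = 0 at hγ1
    change T (algebraMap B A (γ * γ) * h ^ 3) = 0 at hγ2
    set g : A := algebraMap B A γ with hg
    have hg0 : g ≠ 0 := by
      rw [hg]
      exact (_root_.map_ne_zero _).2 hγ0
    obtain ⟨c, hc⟩ := hA g
    have hc0 : c ≠ 0 := by
      rintro rfl
      rw [map_zero] at hc
      exact pow_ne_zero 5 hg0 hc.symm
    refine ⟨g⁻¹ * h, ?_, ?_⟩
    · rintro ⟨e, he⟩
      apply hhB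
      refine ⟨algebraMap k B e * γ, ?_⟩
      rw [map_mul, ← IsScalarTower.algebraMap_apply, he, ← hg]
      field_simp
    · intro j hj1 hj5
      interval_cases j
      · have := hh1 γ⁻¹
        rw [map_inv₀ (algebraMap B A)] at this
        rw [pow_one]
        exact this
      · have := hh2 (γ⁻¹ * γ⁻¹)
        rw [(algebraMap B A).map_mul, map_inv₀ (algebraMap B A)] at this
        rw [mul_pow, pow_two, pow_two]
        exact this
      · have h1 : (g⁻¹ * h) ^ 3 = c⁻¹ • (g * g * h ^ 3) := by
          rw [Algebra.smul_def, map_inv₀, hc, mul_pow]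
          field_simp
        rw [h1, map_smul, hg, ← map_mul, hγ2, smul_zero]
      · have h1 : (g⁻¹ * h) ^ 4 = c⁻¹ • (g * h ^ 4) := by
          rw [Algebra.smul_def, map_inv₀, hc, mul_pow]
          field_simp
        rw [h1, map_smul, hg, hγ1, smul_zero]

/-- **`PC` in characteristic `5`.** -/
theorem PC.five {k : Type u} [Field k] [CharP k 5] (h : CycAll 5 k) : PC 5 k :=
  PC.of (by norm_num) h PP.five

end Run7.h339
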