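import Mathlib
import Pool.Agent.Run7.h339.DVR
import Pool.Agent.Run7.h339.PPFive

/-! Passing from the residue field to a complete discretely valued field. -/

set_option autoImplicit false
set_option linter.all false

namespace Run7.h339

open Module

universe u

/-- invariance of `CycAll` under field isomorphisms. -/
theorem CycAll.congr {k k' : Type u} [Field k] [Field k'] (e : k ≃+* k') {p : ℕ} (hp : p.Prime) (h : CycAll p k) :
    CycAll p k' := by
  intro D _ alg _ _ hdim
  letI algk : Algebra k D := ((algebraMap k' D).comp (e : k →+* k')).toAlgebra' (fun c x => Algebra.commutes _ _)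
  have hsm : ∀ (c : k) (x : D), c • x = e c • x := fun c x => by
    rw [Algebra.smul_def, Algebra.smul_def]; rfl
  have halg : algebraMap k D = (algebraMap k' D).comp (e : k →+* k') := rfl
  have hdim' : finrank k D = p ^ 2 := by
    rw [← hdim]
    have := rank_eq_of_equiv_equiv e (AddEquiv.refl D) e.bijective (fun r m => hsm r m)
    rw [Module.finrank, Module.finrank, this]
  haveI : FiniteDimensional k D := Module.finite_of_finrank_pos (by rw [hdim']; exact pow_pos hp.pos 2)
  haveI : Algebra.IsCentral k D := by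
    constructor
    intro x hx
    rw [Subalgebra.mem_center_iff] at hx
    obtain ⟨c, hc⟩ := (mem_center_iff' (F := k') x).2 hx
    rw [Algebra.mem_bot]
    refine ⟨e.symm c, ?_⟩
    rw [halg, ← hc]
    simp
  obtain ⟨L, _, _, hgal, hcyc, hL, ⟨φ⟩⟩ := h D hdim'
  letI algL : Algebra k' L := ((algebraMap k L).comp (e.symm : k' →+* k)).toAlgebra
  have hL' : finrank k' L = p := by
    rw [← hL]
    have := rank_eq_of_equiv_equiv e.symm (AddEquiv.refl L) e.symm.bijective (fun r m => by
      change r • m = (e.symm r) • m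
      rw [Algebra.smul_def, Algebra.smul_def]; rfl)
    rw [Module.finrank, Module.finrank, this]
  have hgal' : IsGalois k' L := by
    refine IsGalois.of_equiv_equiv (F := k) (E := L) (f := e) (g := RingEquiv.refl L) ?_
    ext x
    change algebraMap k L (e.symm (e x)) = algebraMap k L x
    rw [RingEquiv.symm_apply_apply]
  refine ⟨L, inferInstance, algL, hgal', ?_, hL', ⟨{ φ.toRingHom with commutes' := ?_ }⟩⟩
  · haveI : FiniteDimensional k' L := Module.finite_of_finrank_pos (by rw [hL']; exact hp.pos)
    haveI : Fact p.Prime := ⟨hp⟩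
    exact isCyclic_of_prime_card (p := p) (by rw [IsGalois.card_aut_eq_finrank, hL'])
  · intro c
    change φ (algebraMap k L (e.symm c)) = algebraMap k' D c
    rw [AlgHom.commutes, halg]
    simp

section

variable (R K : Type u) [CommRing R] [IsDomain R] [IsDiscreteValuationRing R] [Field K] [Algebra R K]
  [IsFractionRing R K] [IsAdicComplete (IsLocalRing.maximalIdeal R) R] {p : ℕ}

theorem PC.dvr (hp : p.Prime) (hj : ∀ j, 1 ≤ j → j < p → (j : IsLocalRing.ResidueField R) ≠ 0)
    (h : PC p (IsLocalRing.ResidueField R)) : PC p K := by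
  letI := nfR R K
  haveI := ultraR R K
  haveI := completeR R K
  obtain ⟨ϖ, hϖ⟩ := exists_unif R (K := K)
  obtain ⟨h0, h1⟩ := NR_unif R hϖ
  exact ascend hp (ϖ := ϖ) h0 h1 (NR_base R hϖ)
    (fun j hj1 hjp => norm_natCast_R R K (hj j hj1 hjp)) (h.congr (resR R K) hp.ne_zero)

theorem CycAll.dvr (hp : p.Prime) (hpk : (p : IsLocalRing.ResidueField R) ≠ 0)
    (h : CycAll p (IsLocalRing.ResidueField R)) : CycAll p K := by
  letI := nfR R K
  haveI := ultraR R K
  haveI := completeR R K
  obtain ⟨ϖ, hϖ⟩ := exists_unif R (K := K)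
  obtain ⟨h0, h1⟩ := NR_unif R hϖ
  exact tame hp (ϖ := ϖ) h0 h1 (NR_base R hϖ) (norm_natCast_R R K hpk) (h.congr (resR R K) hp)

/-- the wild case. -/
theorem cyc_wild (hp : p.Prime) (hpk : (p : IsLocalRing.ResidueField R) = 0)
    (h : PC p (IsLocalRing.ResidueField R)) : CycAll p K := by
  haveI : CharP (IsLocalRing.ResidueField R) p := (CharP.charP_iff_prime_eq_zero hp).2 hpk
  have hj : ∀ j, 1 ≤ j → j < p → (j : IsLocalRing.ResidueField R) ≠ 0 := by
    intro j hj1 hj2 h0
    rw [CharP.cast_eq_zero_iff _ p] at h0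
    exact absurd (Nat.le_of_dvd hj1 h0) (by omega)
  have h1 := PC.dvr R K hp hj h
  by_cases hpK : (p : K) = 0
  · haveI : CharP K p := (CharP.charP_iff_prime_eq_zero hp).2 hpK
    exact PC.cycAll hp h1
  · refine PC.cycAll' hp hpK ?_ h1
    intro j hj1 hj2 h0
    letI := nfR R K
    have h2 := norm_natCast_R R K (hj j hj1 hj2)
    rw [h0] at h2
    change ‖(0 : K)‖ = 1 at h2
    rw [norm_zero] at h2
    exact zero_ne_one h2

/-- **Degree five.** -/
theorem CycAll.dvr_five (h : CycAll 5 (IsLocalRing.ResidueField R)) : CycAll 5 K := by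
  by_cases h5 : ((5 : ℕ) : IsLocalRing.ResidueField R) = 0
  · haveI : CharP (IsLocalRing.ResidueField R) 5 := (CharP.charP_iff_prime_eq_zero (by norm_num)).2 h5
    exact cyc_wild R K (by norm_num) h5 (PC.five h)
  · exact CycAll.dvr R K (by norm_num) h5 h

end

end Run7.h339
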