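import Mathlib
import Pool.Agent.Run7.h339.SolvT
import Pool.Agent.Run7.h339.Desc
import Pool.Agent.Run7.h339.Base2

/-! Fields of characteristic `p` with `[k : k ^ p] ≤ p`. -/

set_option autoImplicit false
set_option linter.all false

namespace Run7.h339

open Module Finset Polynomial TensorProduct

universe u

/-- a solvable noncentral element gives a `p`-central element. -/
theorem pcentral_of_solvable {F D : Type*} [Field F] [DivisionRing D] [Algebra F D]
    [Algebra.IsCentral F D] [FiniteDimensional F D] {p : ℕ} (hp : p.Prime) [CharP F p] (hD : finrank F D = p ^ 2)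
    {x : D} (hx : x ∉ Set.range (algebraMap F D)) (hs : IsSolvable (minpoly F x).Gal) :
    ∃ v : D, v ∉ Set.range (algebraMap F D) ∧ v ^ p ∈ Set.range (algebraMap F D) := by
  have hirr := minpoly_irred (F := F) x
  have hdeg := deg_p hp hD hx
  by_cases hder : derivative (minpoly F x) = 0
  · exact ⟨x, hx, pow_mem_of_deriv hp hD hx hder⟩
  · have hsep : (minpoly F x).Separable := (separable_iff_derivative_ne_zero hirr).2 hder
    obtain ⟨g, a, c, hg1, hg2⟩ := exists_poly hp hirr hsep hdeg hs
    have hz : aeval x g ∉ Set.range (algebraMap F D) := by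
      rintro ⟨e, he⟩
      apply hg2 e
      rw [minpoly.dvd_iff, map_sub, aeval_C, he, sub_self]
    exact pcentral_of_solv hp hD hz (a := a) (c := c) (by
      rw [minpoly.dvd_iff, map_sub, map_sub, map_mul, map_pow, aeval_C, aeval_C, sub_sub, sub_eq_zero] at hg1
      exact hg1)

/-- **a prime-to-`p` extension over which there is a `p`-central element.** -/
theorem exists_prime_to_p {F D : Type u} [Field F] [DivisionRing D] [Algebra F D]
    [Algebra.IsCentral F D] [FiniteDimensional F D] {p : ℕ} (hp : p.Prime) [CharP F p] (hD : finrank F D = p ^ 2) :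
    ∃ (E : Type u) (_ : Field E) (_ : Algebra F E) (_ : FiniteDimensional F E), (finrank F E).Coprime p ∧
      ∃ v : E ⊗[F] D, v ∉ Set.range (algebraMap E (E ⊗[F] D)) ∧ v ^ p ∈ Set.range (algebraMap E (E ⊗[F] D)) := by
  classical
  haveI : Fact p.Prime := ⟨hp⟩
  -- a noncentral element
  obtain ⟨z, hz⟩ : ∃ z : D, z ∉ Set.range (algebraMap F D) := by
    by_contra hno
    push Not at hno
    have h1 : finrank F D = 1 := by
      rw [finrank_eq_one_iff_of_nonzero' (1 : D) one_ne_zero]
      intro w
      obtain ⟨c, hc⟩ := hno w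
      exact ⟨c, by rw [← hc, Algebra.algebraMap_eq_smul_one]⟩
    rw [hD] at h1
    have := hp.two_le
    nlinarith
  have hirr := minpoly_irred (F := F) z
  have hdeg := deg_p hp hD hz
  have hinc : ∀ (E : Type u) [Field E] [Algebra F E] (y : D), y ∉ Set.range (algebraMap F D) →
      (1 : E) ⊗ₜ[F] y ∉ Set.range (algebraMap E (E ⊗[F] D)) := by
    intro E _ _ y hy
    rintro ⟨e, he⟩
    apply hy
    rw [mem_center_iff']
    intro u
    have h1 : ((1 : E) ⊗ₜ[F] u) * ((1 : E) ⊗ₜ[F] y) = ((1 : E) ⊗ₜ[F] y) * ((1 : E) ⊗ₜ[F] u) := by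
      rw [← he, Algebra.commutes]
    rw [Algebra.TensorProduct.tmul_mul_tmul, Algebra.TensorProduct.tmul_mul_tmul, one_mul] at h1
    exact (Algebra.TensorProduct.includeRight_injective (A := E) (B := D) (algebraMap F E).injective) h1
  by_cases hder : derivative (minpoly F z) = 0
  · obtain ⟨c, hc⟩ := pow_mem_of_deriv hp hD hz hder
    refine ⟨F, inferInstance, inferInstance, inferInstance, by rw [finrank_self]; exact Nat.coprime_one_left p,
      (1 : F) ⊗ₜ[F] z, hinc F z hz, c, ?_⟩
    rw [Algebra.TensorProduct.tmul_pow, one_pow, ← hc]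
    rw [Algebra.TensorProduct.algebraMap_apply, Algebra.algebraMap_self_apply]
    rw [Algebra.algebraMap_eq_smul_one (A := D), TensorProduct.tmul_smul, TensorProduct.smul_tmul', smul_eq_mul,
      mul_one]
  · have hsep : (minpoly F z).Separable := (separable_iff_derivative_ne_zero hirr).2 hder
    let N := (minpoly F z).SplittingField
    haveI : IsGalois F N := IsGalois.of_separable_splitting_field hsep
    obtain ⟨P⟩ : Nonempty (Sylow p (N ≃ₐ[F] N)) := inferInstance
    let E := IntermediateField.fixedField (P : Subgroup (N ≃ₐ[F] N))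
    have hEN : finrank E N = Nat.card P := IntermediateField.finrank_fixedField_eq_card _
    have hE : (finrank F E).Coprime p := by
      have h1 := Module.finrank_mul_finrank F E N
      have h2 := (P : Subgroup (N ≃ₐ[F] N)).index_mul_card
      rw [hEN, ← IsGalois.card_aut_eq_finrank F N, ← h2] at h1
      have h3 : 0 < Nat.card P := Nat.card_pos
      have h4 := Nat.eq_of_mul_eq_mul_right h3 h1
      rw [h4]
      have h5 := P.not_dvd_index
      exact ((Nat.Prime.coprime_iff_not_dvd hp).2 h5).symm
    refine ⟨E, inferInstance, inferInstance, inferInstance, hE, ?_⟩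
    have hdiv := tens_division (F := F) (E := E) (D := D) (by
      rw [hD]; exact Nat.Coprime.pow_right 2 hE)
    haveI := simple_tens (F := F) (E := E) (D := D)
    haveI hnt : Nontrivial (E ⊗[F] D) := IsSimpleRing.instNontrivial
    haveI hcen : Algebra.IsCentral E (E ⊗[F] D) := central_tens
    haveI hfd : FiniteDimensional E (E ⊗[F] D) := inferInstance
    have hdimE : finrank E (E ⊗[F] D) = p ^ 2 := by rw [Module.finrank_baseChange, hD]
    letI hDR : DivisionRing (E ⊗[F] D) := DivisionRing.ofIsUnitOrEqZero (fun a => by
      by_cases ha : a = 0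
      · exact Or.inr ha
      · exact Or.inl (hdiv a ha))
    haveI : CharP E p := charP_of_injective_algebraMap (algebraMap F E).injective p
    have hzE := hinc E z hz
    refine pcentral_of_solvable (F := E) (D := E ⊗[F] D) hp hdimE hzE ?_
    have hm : minpoly E ((1 : E) ⊗ₜ[F] z) = (minpoly F z).map (algebraMap F E) := by
      have hmon : (minpoly F z).Monic := minpoly.monic (Algebra.IsIntegral.isIntegral _)
      have h1 : aeval ((1 : E) ⊗ₜ[F] z) ((minpoly F z).map (algebraMap F E)) = 0 := by
        rw [aeval_map_algebraMap]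
        have h2 := aeval_algHom_apply (Algebra.TensorProduct.includeRight : D →ₐ[F] E ⊗[F] D) z (minpoly F z)
        rw [minpoly.aeval, map_zero] at h2
        exact h2
      refine (Polynomial.eq_of_monic_of_dvd_of_natDegree_le
        (minpoly.monic (Algebra.IsIntegral.isIntegral _)) (hmon.map _)
        (minpoly.dvd E _ h1) ?_).symm
      rw [hmon.natDegree_map, hdeg]
      exact (deg_p hp hdimE hzE).ge
    rw [hm]
    haveI : Fact ((((minpoly F z).map (algebraMap F E)).map (algebraMap E N)).Splits) := ⟨by
      rw [Polynomial.map_map, ← IsScalarTower.algebraMap_eq]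
      exact SplittingField.splits _⟩
    haveI : Group.IsSolvable (N ≃ₐ[E] N) := by
      haveI : Group.IsSolvable P := by
        haveI := P.isPGroup'.isNilpotent
        infer_instance
      exact solvable_of_solvable_injective (f := (IntermediateField.subgroupEquivAlgEquiv
        (P : Subgroup (N ≃ₐ[F] N))).symm.toMonoidHom) (MulEquiv.injective _)
    exact solvable_of_surjective (Polynomial.Gal.restrict_surjective ((minpoly F z).map (algebraMap F E)) N)

end Run7.h339
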