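import Mathlib
import Pool.Agent.Run7.h339.PRank

/-! Fields of characteristic `p` with `[k : k ^ p] ≤ p`, II. -/

set_option autoImplicit false
set_option linter.all false

namespace Run7.h339

open Module Finset Polynomial TensorProduct

universe u

/-- the field `K`, acting on `K` through the Frobenius. -/
def Fr (p : ℕ) (K : Type u) : Type u := K

instance {p : ℕ} {K : Type u} [Field K] : Field (Fr p K) := inferInstanceAs (Field K)

/-- the underlying element. -/
def unF {p : ℕ} {K : Type u} (c : Fr p K) : K := c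

/-- the Frobenius algebra structure. -/
@[instance_reducible]
noncomputable def frAlg (p : ℕ) (K : Type u) [Field K] [ExpChar K p] : Algebra (Fr p K) K :=
  (frobenius K p : K →+* K).toAlgebra

/-- `[K : K ^ p] ≤ p`. -/
def PR1 (p : ℕ) (K : Type u) [Field K] [ExpChar K p] : Prop :=
  letI := frAlg p K
  Module.Finite (Fr p K) K ∧ finrank (Fr p K) K ≤ p

theorem fr_smul {p : ℕ} {K : Type u} [Field K] [ExpChar K p] (c : Fr p K) (x : K) :
    letI := frAlg p K
    c • x = (show K from c) ^ p * x := rfl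

theorem PR1.of_gen {p : ℕ} {K : Type u} [Field K] [ExpChar K p] {x : K}
    (h : ∀ y : K, ∃ c : Fin p → K, y = ∑ i, c i ^ p * x ^ (i : ℕ)) : PR1 p K := by
  letI := frAlg p K
  have hspan : Submodule.span (Fr p K) (Set.range fun i : Fin p => x ^ (i : ℕ)) = ⊤ := by
    rw [eq_top_iff]
    rintro y -
    rw [Submodule.mem_span_range_iff_exists_fun]
    obtain ⟨c, hc⟩ := h y
    exact ⟨c, hc.symm⟩
  haveI : Module.Finite (Fr p K) K := by
    classical
    refine ⟨⟨Finset.univ.image fun i : Fin p => x ^ (i : ℕ), ?_⟩⟩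
    rw [Finset.coe_image, Finset.coe_univ, Set.image_univ, hspan]
  refine ⟨inferInstance, ?_⟩
  have h1 := finrank_range_le_card (R := Fr p K) (fun i : Fin p => x ^ (i : ℕ))
  rw [Set.finrank, hspan, finrank_top, Fintype.card_fin] at h1
  exact h1

theorem PR1.ext {p : ℕ} {k E : Type u} [Field k] [Field E] [Algebra k E] [ExpChar k p] [ExpChar E p]
    [FiniteDimensional k E] (h : PR1 p k) : PR1 p E ∧
      (letI := frAlg p k; finrank (Fr p k) k) = (letI := frAlg p E; finrank (Fr p E) E) := by
  letI := frAlg p k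
  letI := frAlg p E
  obtain ⟨h1, h2⟩ := h
  letI a1 : Algebra (Fr p k) E := ((algebraMap k E).comp (frobenius k p : k →+* k)).toAlgebra
  letI a2 : Algebra (Fr p k) (Fr p E) := (algebraMap k E).toAlgebra
  haveI t1 : IsScalarTower (Fr p k) k E := IsScalarTower.of_algebraMap_eq fun c => rfl
  haveI t2 : IsScalarTower (Fr p k) (Fr p E) E := IsScalarTower.of_algebraMap_eq fun c => by
    change algebraMap k E (frobenius k p c) = frobenius E p (algebraMap k E c)
    rw [frobenius_def, frobenius_def, map_pow]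
  haveI f1 : Module.Finite (Fr p k) E := Module.Finite.trans k E
  haveI f2 : Module.Finite (Fr p E) E := Module.Finite.of_restrictScalars_finite (Fr p k) (Fr p E) E
  have e1 : finrank (Fr p k) k * finrank k E = finrank (Fr p k) E := Module.finrank_mul_finrank _ _ _
  have e2 : finrank (Fr p k) (Fr p E) * finrank (Fr p E) E = finrank (Fr p k) E := Module.finrank_mul_finrank _ _ _
  have e3 : finrank (Fr p k) (Fr p E) = finrank k E := by
    have := rank_eq_of_equiv_equiv (R := Fr p k) (M := Fr p E) (R' := k) (M₁ := E) id (AddEquiv.refl E)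
      Function.bijective_id (fun r m => (Algebra.smul_def (R := k) (A := E) r m).symm)
    rw [Module.finrank, Module.finrank, this]
  have hpos : 0 < finrank k E := Module.finrank_pos
  rw [e3, ← e1, mul_comm (finrank k E)] at e2
  have e4 := Nat.eq_of_mul_eq_mul_right hpos e2
  exact ⟨⟨f2, by rw [e4]; exact h2⟩, e4.symm⟩

/-- independence of `p`-th powers. -/
theorem indep_pow {p : ℕ} [Fact p.Prime] {E W : Type u} [Field E] [Field W] [Algebra E W] [CharP E p] [ExpChar E p]
    [CharP W p] {ι : Type*} [Fintype ι] {w : ι → W} (hw : LinearIndependent E w) {b : ι → E}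
    (hb : ∀ i, w i ^ p = algebraMap E W (b i)) :
    letI := frAlg p E
    LinearIndependent (Fr p E) b := by
  letI := frAlg p E
  rw [Fintype.linearIndependent_iff] at hw ⊢
  intro g hg
  have h1 : (∑ i, (unF (g i)) • w i) ^ p = 0 := by
    rw [sum_pow_char]
    have h2 : ∀ i, ((unF (g i)) • w i) ^ p = algebraMap E W ((unF (g i)) ^ p * b i) := by
      intro i
      rw [Algebra.smul_def, mul_pow, hb, map_mul, map_pow]
    rw [sum_congr rfl fun i _ => h2 i, ← map_sum]
    have h3 : ∑ i, (unF (g i)) ^ p * b i = 0 := hg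
    rw [h3, map_zero]
  have h2 := pow_eq_zero_iff (Fact.out : p.Prime).ne_zero |>.1 h1
  exact hw g h2

/-- no large purely inseparable extensions of exponent one. -/
theorem PP.of_pr {p : ℕ} (hp : p.Prime) {k : Type u} [Field k] [CharP k p] [ExpChar k p] (h : PR1 p k) : PP p k := by
  intro A _ _ hdim hA τ hτ
  exfalso
  haveI : Fact p.Prime := ⟨hp⟩
  haveI : FiniteDimensional k A := Module.finite_of_finrank_pos (by rw [hdim]; exact pow_pos hp.pos 2)
  haveI : CharP A p := charP_of_injective_algebraMap (algebraMap k A).injective p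
  letI := frAlg p k
  obtain ⟨h1, h2⟩ := h
  let B := Module.finBasis k A
  choose b hb using fun i => hA (B i)
  have h3 := indep_pow (p := p) B.linearIndependent (b := b) (fun i => (hb i).symm)
  have h4 := h3.fintype_card_le_finrank
  rw [Fintype.card_fin, hdim] at h4
  have := hp.two_le
  nlinarith

/-- extraction of `p`-th roots. -/
theorem exists_root_pr {p : ℕ} (hp : p.Prime) {E W : Type u} [Field E] [Field W] [Algebra E W]
    [CharP E p] [ExpChar E p] (h : PR1 p E) {r : W} (hr : (minpoly E r).natDegree = p) {b : E}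
    (hb : r ^ p = algebraMap E W b) :
    (∀ y : E, ∃ ξ : W, ξ ^ p = algebraMap E W y) ∧ (letI := frAlg p E; finrank (Fr p E) E) = p := by
  haveI : Fact p.Prime := ⟨hp⟩
  haveI : CharP W p := charP_of_injective_algebraMap (algebraMap E W).injective p
  letI := frAlg p E
  obtain ⟨h1, h2⟩ := h
  have hli : LinearIndependent E (fun i : Fin p => r ^ (i : ℕ)) := by
    have h3 := linearIndependent_pow (K := E) r
    rw [hr] at h3
    exact h3
  have h3 := indep_pow (p := p) hli (b := fun i : Fin p => b ^ (i : ℕ)) (fun i => by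
    rw [← pow_mul, mul_comm, pow_mul, hb, map_pow])
  have h4 := h3.fintype_card_le_finrank
  rw [Fintype.card_fin] at h4
  have h5 : finrank (Fr p E) E = p := le_antisymm h2 h4
  refine ⟨fun y => ?_, h5⟩
  have h6 := h3.span_eq_top_of_card_eq_finrank' (by rw [h5, Fintype.card_fin])
  have h7 : y ∈ Submodule.span (Fr p E) (Set.range fun i : Fin p => b ^ (i : ℕ)) := by rw [h6]; trivial
  rw [Submodule.mem_span_range_iff_exists_fun] at h7
  obtain ⟨c, hc⟩ := h7
  refine ⟨∑ i, (unF (c i)) • r ^ (i : ℕ), ?_⟩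
  rw [sum_pow_char]
  have h8 : ∀ i : Fin p, ((unF (c i)) • r ^ (i : ℕ)) ^ p = algebraMap E W ((unF (c i)) ^ p * b ^ (i : ℕ)) := by
    intro i
    rw [Algebra.smul_def, mul_pow, ← pow_mul, mul_comm (i : ℕ) p, pow_mul, hb, map_mul, map_pow, map_pow]
  rw [sum_congr rfl fun i _ => h8 i, ← map_sum]
  congr 1

/-- **All division algebras of degree `p` are cyclic when `[k : k ^ p] ≤ p`.** -/
theorem CycAll.of_pr {p : ℕ} (hp : p.Prime) {k : Type u} [Field k] [CharP k p] [ExpChar k p] (h : PR1 p k) :
    CycAll p k := by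
  intro D _ _ _ _ hD
  haveI : Fact p.Prime := ⟨hp⟩
  obtain ⟨E, _, _, _, hE, v, hv, b, hb⟩ := exists_prime_to_p (F := k) (D := D) hp hD
  haveI : CharP E p := charP_of_injective_algebraMap (algebraMap k E).injective p
  haveI : ExpChar E p := ExpChar.prime hp
  have hdiv := tens_division (F := k) (E := E) (D := D) (by
    rw [hD]; exact Nat.Coprime.pow_right 2 hE)
  haveI := simple_tens (F := k) (E := E) (D := D)
  haveI hnt : Nontrivial (E ⊗[k] D) := IsSimpleRing.instNontrivial
  haveI hcen : Algebra.IsCentral E (E ⊗[k] D) := central_tens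
  haveI hfd : FiniteDimensional E (E ⊗[k] D) := inferInstance
  have hdimE : finrank E (E ⊗[k] D) = p ^ 2 := by rw [Module.finrank_baseChange, hD]
  letI hDR : DivisionRing (E ⊗[k] D) := DivisionRing.ofIsUnitOrEqZero (fun a => by
    by_cases ha : a = 0
    · exact Or.inr ha
    · exact Or.inl (hdiv a ha))
  obtain ⟨hPE, hfr⟩ := PR1.ext (E := E) h
  have hdeg := deg_p (F := E) (D := E ⊗[k] D) hp hdimE hv
  have hι := adHom_injective (F := E) v
  have hroot : (AdjoinRoot.root (minpoly E v)) ^ p = algebraMap E (Ad E v) b := by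
    apply hι
    rw [map_pow, adHom_root, AlgHom.commutes, hb]
  obtain ⟨h1, h2⟩ := exists_root_pr (W := Ad E v) hp hPE (r := AdjoinRoot.root (minpoly E v))
    (by rw [minpoly_root_ad, hdeg]) hroot
  rw [← hfr] at h2
  obtain ⟨y, hy⟩ : ∃ y : k, ∀ c : k, c ^ p ≠ y := by
    by_contra hno
    push Not at hno
    letI := frAlg p k
    have h3 : finrank (Fr p k) k = 1 := by
      rw [finrank_eq_one_iff_of_nonzero' (1 : k) one_ne_zero]
      intro w
      obtain ⟨c, hc⟩ := hno w
      refine ⟨c, ?_⟩
      change c ^ p * 1 = w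
      rw [mul_one, hc]
    rw [h3] at h2
    exact hp.one_lt.ne h2
  obtain ⟨ξ, hξ⟩ := h1 (algebraMap k E y)
  have hirr : Irreducible (X ^ p - C y : k[X]) := X_pow_sub_C_irreducible_of_prime hp hy
  haveI : Fact (Irreducible (X ^ p - C y : k[X])) := ⟨hirr⟩
  let L := AdjoinRoot (X ^ p - C y : k[X])
  have hL : finrank k L = p := by
    rw [(AdjoinRoot.powerBasis hirr.ne_zero).finrank, AdjoinRoot.powerBasis_dim, natDegree_X_pow_sub_C]
  haveI : FiniteDimensional k L := Module.finite_of_finrank_pos (by rw [hL]; exact hp.pos)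
  let ζ : E ⊗[k] D := adHom E v ξ
  have hζ : ζ ^ p = algebraMap k (E ⊗[k] D) y := by
    change (adHom E v ξ) ^ p = _
    rw [← map_pow, hξ, AlgHom.commutes, ← IsScalarTower.algebraMap_apply]
  have hζ0 : aeval ζ (X ^ p - C y : k[X]) = 0 := by
    rw [map_sub, map_pow, aeval_X, aeval_C, hζ, sub_self]
  let φ : L →ₐ[k] E ⊗[k] D := Ideal.Quotient.liftₐ _ (aeval ζ) (fun a ha => by
    rw [Ideal.mem_span_singleton] at ha
    obtain ⟨b, rfl⟩ := ha
    rw [map_mul, hζ0, zero_mul])
  obtain ⟨ψ⟩ := descend_embed hp hD hL hE φ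
  have hrL : (AdjoinRoot.root (X ^ p - C y : k[X])) ^ p = algebraMap k L y := by
    have h3 : aeval (AdjoinRoot.root (X ^ p - C y : k[X])) (X ^ p - C y : k[X]) = 0 := by
      rw [AdjoinRoot.aeval_eq, AdjoinRoot.mk_self]
    rw [map_sub, map_pow, aeval_X, aeval_C, sub_eq_zero] at h3
    exact h3
  refine cyc_of_pcentral hp hD (v := ψ (AdjoinRoot.root (X ^ p - C y : k[X]))) ?_ ⟨y, ?_⟩
  · rintro ⟨c, hc⟩
    apply hy c
    apply (algebraMap k D).injective
    rw [map_pow, hc, ← map_pow, hrL, AlgHom.commutes]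
  · rw [← map_pow, hrL, AlgHom.commutes]

theorem PC.of_pr {p : ℕ} (hp : p.Prime) {k : Type u} [Field k] [CharP k p] [ExpChar k p] (h : PR1 p k) : PC p k :=
  PC.of hp (CycAll.of_pr hp h) (PP.of_pr hp h)

end Run7.h339
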