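import Pool.Agent.R614.GE.Many

/-!
# Valuations of algebraic extensions of the rational numbers, not necessarily Galois
-/

set_option autoImplicit false
set_option linter.unusedSectionVars false

namespace Run7.h339.AE

open NNReal NumberField IsDedekindDomain WithZero Pool.Agent.R614.GE

variable (κ : Type) [Field κ] [CharZero κ]

/-- the finite subextensions -/
abbrev FS : Type := {L : IntermediateField ℚ κ // FiniteDimensional ℚ L}

variable {κ}

instance fsFin (L : FS κ) : FiniteDimensional ℚ L.1 := L.2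

instance fsNum (L : FS κ) : NumberField L.1 := NumberField.of_module_finite ℚ L.1

/-- the sum -/
def fsSup (L₁ L₂ : FS κ) : FS κ := ⟨L₁.1 ⊔ L₂.1, inferInstance⟩

variable [Algebra.IsAlgebraic ℚ κ]

instance fsAlg (L : FS κ) : Algebra.IsAlgebraic L.1 κ :=
  Algebra.IsAlgebraic.tower_top (K := ℚ) L.1

/-- the subextension generated by an element -/
noncomputable def fsAdj (a : κ) : FS κ :=
  ⟨IntermediateField.adjoin ℚ {a},
    IntermediateField.adjoin.finiteDimensional (Algebra.IsIntegral.isIntegral a)⟩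

theorem mem_fsAdj (a : κ) : a ∈ (fsAdj a).1 := IntermediateField.mem_adjoin_simple_self ℚ a

variable (v : Valuation κ ℝ≥0) (hv : ∃ a, 1 < v a)

/-- the residue field of `v` as a union of finite fields -/
noncomputable def finUnion : FinUnion (RF v) where
  ι := FS κ
  nonempty := ⟨fsAdj 0⟩
  Fd L := resField v L.1 hv
  q := (center v ℚ).cardQuot
  one_lt := by
    have h1 := center_isMaximal v ℚ hv
    have : Nontrivial (𝓞 ℚ ⧸ center v ℚ) := Ideal.Quotient.nontrivial_iff.2 h1.ne_top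
    have : Finite (𝓞 ℚ ⧸ center v ℚ) :=
      Ideal.finiteQuotientOfFreeOfNeBot (center v ℚ) (center_ne_bot v ℚ hv)
    show 1 < Nat.card (𝓞 ℚ ⧸ center v ℚ)
    exact Finite.one_lt_card
  f L := fdeg v ℚ L.1
  f_pos L := fdeg_pos v ℚ L.1
  card L := by rw [card_resField, card_pow v ℚ L.1 hv]
  dir L₁ L₂ := by
    have key : ∀ L L' : FS κ, L.1 ≤ L'.1 →
        resField v L.1 hv ≤ resField v L'.1 hv := by
      intro L L' h
      let a : Algebra L.1 L'.1 := (IntermediateField.inclusion h).toAlgebra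
      have : IsScalarTower L.1 L'.1 κ := IsScalarTower.of_algebraMap_eq (fun x => rfl)
      exact resField_le v L.1 L'.1 hv
    exact ⟨fsSup L₁ L₂, key _ _ le_sup_left, key _ _ le_sup_right⟩
  cover x := by
    obtain ⟨⟨a, ha⟩, rfl⟩ := IsLocalRing.residue_surjective x
    exact ⟨fsAdj a, residue_mem v (fsAdj a).1 hv ⟨a, mem_fsAdj a⟩ ha⟩

include hv in
theorem exists_ext_of_bounded {ℓ : ℕ} (hℓ : ℓ.Prime) {M : ℕ}
    (hM : ∀ L : FS κ, ¬ ℓ ^ M ∣ fdeg v ℚ L.1) : HasExt v ℓ :=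
  (finUnion v hv).exists_ext hℓ hM

include hv in
theorem not_div_of_bounded {ℓ : ℕ} (hℓ : ℓ.Prime) {M : ℕ}
    (hM : ∀ L : FS κ, ¬ ℓ ^ M ∣ edeg v ℚ L.1) : ¬ Div v ℓ := by
  intro h
  obtain ⟨π, hπ0, hπ, -, -⟩ := exists_unif v ℚ hv
  have h1 : ∀ m : ℕ, ∃ c : κ, v (algebraMap ℚ κ π) = v c ^ ℓ ^ m := by
    intro m
    induction m with
    | zero => exact ⟨algebraMap ℚ κ π, by simp⟩
    | succ m ih =>
      obtain ⟨c, hc⟩ := ih
      obtain ⟨d, hd⟩ := h c
      exact ⟨d, by rw [hc, hd, ← pow_mul, pow_succ, mul_comm]⟩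
  obtain ⟨c, hc⟩ := h1 M
  have hp0 : v (algebraMap ℚ κ π) ≠ 0 := ne_zero_of_ne v ((map_ne_zero _).2 hπ0)
  have hc0 : c ≠ 0 := by
    rintro rfl
    rw [map_zero, zero_pow (pow_ne_zero _ hℓ.ne_zero)] at hc
    exact hp0 hc
  let L := fsAdj c
  have h2 : c ∈ L.1 := mem_fsAdj c
  obtain ⟨u, hu0, -, hu1, hu⟩ := exists_unif v L.1 hv
  have hA : v (algebraMap L.1 κ u) ≠ 0 := ne_zero_of_ne v ((map_ne_zero _).2 hu0)
  obtain ⟨n, -, hn⟩ := hu ⟨c, h2⟩ (fun h0 => hc0 (congrArg Subtype.val h0))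
  have hn' : v c = v (algebraMap L.1 κ u) ^ n := hn
  have h3 := val_unif v ℚ L.1 hv hπ hu
  rw [hc, hn', ← zpow_natCast, ← zpow_mul] at h3
  have h4 := zpow_right_injective₀ (pos_iff_ne_zero.2 hA) hu1.ne h3
  apply hM L
  have h5 : ((ℓ ^ M : ℕ) : ℤ) ∣ (edeg v ℚ L.1 : ℤ) := ⟨n, by rw [← h4, mul_comm]⟩
  exact_mod_cast h5

end Run7.h339.AE
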