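import Pool.Agent.Run7.h339.AE1

/-!
# Local degrees in towers of number fields
-/

set_option autoImplicit false
set_option linter.unusedSectionVars false

namespace Run7.h339.AE

open NNReal NumberField IsDedekindDomain WithZero Pool.Agent.R614.GE

/-- the local degree `e f` over the rational numbers -/
noncomputable def ld {M : Type} [Field M] [NumberField M] (q : Ideal (𝓞 M)) : ℕ :=
  q.ramificationIdx (𝓞 ℚ) * q.inertiaDeg (𝓞 ℚ)

theorem ld_pos {M : Type} [Field M] [NumberField M] (q : Ideal (𝓞 M)) [q.IsPrime] : 0 < ld q :=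
  Nat.mul_pos (Ideal.ramificationIdx_pos _ _) (Ideal.inertiaDeg_pos _ _)

section tower

variable {M N : Type} [Field M] [NumberField M] [Field N] [NumberField N] [Algebra M N]

theorem ld_tower (q : Ideal (𝓞 M)) (r : Ideal (𝓞 N)) [r.LiesOver q] :
    ld r = ld q * (r.ramificationIdx (𝓞 M) * r.inertiaDeg (𝓞 M)) := by
  have : IsScalarTower ℚ M N := IsScalarTower.rat
  unfold ld
  rw [Ideal.ramificationIdx_tower (R := 𝓞 ℚ) q r, Ideal.inertiaDeg_tower (R := 𝓞 ℚ) q r]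
  ring

theorem ld_dvd (q : Ideal (𝓞 M)) (r : Ideal (𝓞 N)) [r.LiesOver q] : ld q ∣ ld r :=
  ⟨_, ld_tower q r⟩

/-- some local degree is not divisible by `m` -/
theorem exists_prime (p : Ideal (𝓞 M)) [p.IsPrime]
    (hp : p ≠ ⊥) {m : ℕ} (hm : ¬ m ∣ Module.finrank M N) :
    ∃ q : Ideal (𝓞 N), q ∈ p.primesOver (𝓞 N) ∧
      ¬ m ∣ q.ramificationIdx (𝓞 M) * q.inertiaDeg (𝓞 M) := by
  classical
  have hfin : Finite (p.primesOver (𝓞 N)) := by
    have : p.IsMaximal := Ideal.IsPrime.isMaximal inferInstance hp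
    exact (IsDedekindDomain.primesOver_finite p (𝓞 N))
  have : Fintype (p.primesOver (𝓞 N)) := Fintype.ofFinite _
  by_contra hcon
  push Not at hcon
  apply hm
  have h1 := Ideal.sum_ramification_inertia_eq_finrank p (𝓞 N)
  have h2 : Module.finrank (𝓞 M) (𝓞 N) = Module.finrank M N := by
    exact (IsFractionRing.finrank_eq (𝓞 M) M (𝓞 N) N).symm
  rw [← h2, ← h1]
  exact Finset.dvd_sum fun q _ => hcon q.1 q.2

end tower

theorem not_pow_dvd_mul {ℓ : ℕ} (hℓ : ℓ.Prime) {a b M₁ M₂ : ℕ} (ha : 0 < a) (hb : 0 < b)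
    (h1 : ¬ ℓ ^ M₁ ∣ a) (h2 : ¬ ℓ ^ M₂ ∣ b) : ¬ ℓ ^ (M₁ + M₂) ∣ a * b := by
  rw [hℓ.pow_dvd_iff_le_factorization ha.ne'] at h1
  rw [hℓ.pow_dvd_iff_le_factorization hb.ne'] at h2
  rw [hℓ.pow_dvd_iff_le_factorization (Nat.mul_pos ha hb).ne', Nat.factorization_mul ha.ne' hb.ne',
    Finsupp.add_apply]
  omega

theorem exists_prime_ld {M N : Type} [Field M] [NumberField M] [Field N] [NumberField N]
    [Algebra M N] (p : Ideal (𝓞 M)) [p.IsPrime] (hp : p ≠ ⊥) {ℓ M₁ M₂ : ℕ} (hℓ : ℓ.Prime)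
    (h1 : ¬ ℓ ^ M₁ ∣ ld p) (h2 : ¬ ℓ ^ M₂ ∣ Module.finrank M N) :
    ∃ q : Ideal (𝓞 N), q ∈ p.primesOver (𝓞 N) ∧ ¬ ℓ ^ (M₁ + M₂) ∣ ld q := by
  obtain ⟨q, hq, hq2⟩ := exists_prime (N := N) p hp h2
  refine ⟨q, hq, ?_⟩
  have := hq.1
  have := hq.2
  rw [ld_tower p q]
  exact not_pow_dvd_mul hℓ (ld_pos p)
    (Nat.mul_pos (Ideal.ramificationIdx_pos _ _) (Ideal.inertiaDeg_pos _ _)) h1 hq2

section rat

variable {κ κ' : Type} [Field κ] [CharZero κ] [Field κ'] [CharZero κ']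

theorem center_rat (u : Valuation κ ℝ≥0) (p : ℕ) (hp : p.Prime) (hu : u p < 1) (n : ℤ) :
    u (n : κ) < 1 ↔ (p : ℤ) ∣ n := by
  constructor
  · intro h
    by_contra hcon
    have h1 : IsCoprime (p : ℤ) n :=
      (Prime.coprime_iff_not_dvd (Nat.prime_iff_prime_int.1 hp)).2 hcon
    obtain ⟨a, b, hab⟩ := h1
    have h2 : u ((a : κ) * (p : κ) + (b : κ) * (n : κ)) = 1 := by
      have h3 : ((a : κ) * (p : κ) + (b : κ) * (n : κ)) = 1 := by exact_mod_cast congrArg (Int.cast : ℤ → κ) hab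
      rw [h3, map_one]
    have h4 : ∀ m : ℤ, u (m : κ) ≤ 1 := fun m => le_one_of_isIntegral u (isIntegral_algebraMap (x := m))
    have h5 : u ((a : κ) * (p : κ) + (b : κ) * (n : κ)) < 1 := by
      refine (u.map_add _ _).trans_lt (max_lt ?_ ?_)
      · rw [map_mul]
        exact mul_lt_one_of_nonneg_of_lt_one_right (h4 a) zero_le hu
      · rw [map_mul]
        exact mul_lt_one_of_nonneg_of_lt_one_right (h4 b) zero_le h
    exact h5.ne h2
  · rintro ⟨m, rfl⟩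
    push_cast
    rw [map_mul]
    exact mul_lt_one_of_lt_of_le hu (le_one_of_isIntegral u (isIntegral_algebraMap (x := m)))

theorem center_rat_eq (u : Valuation κ ℝ≥0) (v : Valuation κ' ℝ≥0) (p : ℕ) (hp : p.Prime)
    (hu : u p < 1) (hv : v p < 1) : center u ℚ = center v ℚ := by
  ext b
  obtain ⟨n, rfl⟩ : ∃ n : ℤ, (n : 𝓞 ℚ) = b := ⟨Rat.ringOfIntegersEquiv b, by
    apply Rat.ringOfIntegersEquiv.injective
    rw [map_intCast]
    simp⟩
  rw [mem_center, mem_center]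
  have h1 : io (κ := κ) ℚ (n : 𝓞 ℚ) = (n : κ) := map_intCast _ _
  have h2 : io (κ := κ') ℚ (n : 𝓞 ℚ) = (n : κ') := map_intCast _ _
  rw [h1, h2, center_rat u p hp hu, center_rat v p hp hv]

/-- the residue characteristic -/
theorem exists_char (u : Valuation κ ℝ≥0) [Algebra.IsAlgebraic ℚ κ] (hu : ∃ a, 1 < u a) :
    ∃ p : ℕ, p.Prime ∧ u (p : κ) < 1 := by
  classical
  have h1 := center_ne_bot u ℚ hu
  obtain ⟨b, hb, hb0⟩ := Submodule.exists_mem_ne_zero_of_ne_bot h1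
  obtain ⟨n, rfl⟩ : ∃ n : ℤ, (n : 𝓞 ℚ) = b := ⟨Rat.ringOfIntegersEquiv b, by
    apply Rat.ringOfIntegersEquiv.injective
    rw [map_intCast]
    simp⟩
  have h2 : io (κ := κ) ℚ (n : 𝓞 ℚ) = (n : κ) := map_intCast _ _
  have h3 : u (n : κ) < 1 := by
    have := (mem_center u ℚ).1 hb
    rwa [h2] at this
  have h4 : n ≠ 0 := by
    rintro rfl
    exact hb0 (by simp)
  have hex : ∃ m : ℕ, 0 < m ∧ u (m : κ) < 1 := by
    refine ⟨n.natAbs, Int.natAbs_pos.2 h4, ?_⟩
    rcases Int.natAbs_eq n with h | h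
    · have h5 : (((n.natAbs : ℕ) : ℤ) : κ) = (n : κ) := by rw [← h]
      rw [Int.cast_natCast] at h5
      rw [h5]
      exact h3
    · have h5 : (n : κ) = -(((n.natAbs : ℕ) : ℤ) : κ) := by
        conv_lhs => rw [h]
        rw [Int.cast_neg]
      rw [Int.cast_natCast] at h5
      rw [h5, Valuation.map_neg] at h3
      exact h3
  have h5 := Nat.find_spec hex
  set m := Nat.find hex with hm
  have hm1 : m ≠ 1 := by
    intro h
    rw [h] at h5
    simp at h5
  have hpp := Nat.minFac_prime hm1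
  refine ⟨m.minFac, hpp, ?_⟩
  obtain ⟨k, hk⟩ := Nat.minFac_dvd m
  have hk0 : 0 < k := by
    rcases Nat.eq_zero_or_pos k with h | h
    · rw [h, mul_zero] at hk
      omega
    · exact h
  have hkm : k < m := by
    have h6 := hpp.two_le
    calc k < 2 * k := by omega
      _ ≤ m.minFac * k := Nat.mul_le_mul_right k h6
      _ = m := hk.symm
  have h6 := Nat.find_min hex hkm
  push Not at h6
  have h7 := h6 hk0
  have h8 : u (m : κ) = u (m.minFac : κ) * u (k : κ) := by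
    rw [← map_mul]
    congr 1
    exact_mod_cast hk
  have h9 : u (m.minFac : κ) ≤ u (m.minFac : κ) * u (k : κ) := le_mul_of_one_le_right zero_le h7
  calc u (m.minFac : κ) ≤ u (m.minFac : κ) * u (k : κ) := h9
    _ = u (m : κ) := h8.symm
    _ < 1 := h5.2

end rat

end Run7.h339.AE
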