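import Pool.Agent.Run7.h339.AE2

/-!
# The action of the absolute Galois group on the places
-/

set_option autoImplicit false
set_option linter.unusedSectionVars false

namespace Run7.h339.AE

open NNReal NumberField IsDedekindDomain WithZero Pool.Agent.R614.GE

variable {Ω : Type} [Field Ω] [CharZero Ω] [IsGalois ℚ Ω] (v : Valuation Ω ℝ≥0)

/-- a finite Galois extension of the rational numbers which contains `M` -/
theorem exists_galois (M : Type) [Field M] [NumberField M] [Algebra M Ω] :
    ∃ L : FiniteGaloisIntermediateField ℚ Ω, ∀ x : M, algebraMap M Ω x ∈ L.toIntermediateField := by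
  have h1 : FiniteDimensional ℚ (IntermediateField.normalClosure ℚ M Ω) :=
    normalClosure.is_finiteDimensional ℚ M Ω
  have h2 : Normal ℚ (IntermediateField.normalClosure ℚ M Ω) := normalClosure.normal ℚ M Ω
  have h3 : IsGalois ℚ (IntermediateField.normalClosure ℚ M Ω) := ⟨⟩
  refine ⟨{ toIntermediateField := IntermediateField.normalClosure ℚ M Ω
            finiteDimensional := h1
            isGalois := h3 }, fun x => ?_⟩
  exact AlgHom.fieldRange_le_normalClosure (algebraMap M Ω).toRatAlgHom ⟨x, rfl⟩

/-- Every prime ideal over the residue characteristic is the centre of a conjugate valuation. -/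
theorem exists_conj_center (M : Type) [Field M] [NumberField M] [Algebra M Ω] (q : Ideal (𝓞 M))
    (hq : q ∈ (center v ℚ).primesOver (𝓞 M)) :
    ∃ g : Gal(Ω/ℚ), center (conj v g) M = q := by
  have hq1 : q.IsPrime := hq.1
  have hq2 : q.LiesOver (center v ℚ) := hq.2
  obtain ⟨L, hL⟩ := exists_galois (Ω := Ω) M
  let a : Algebra M L := ((algebraMap M Ω).codRestrict L.toIntermediateField hL).toAlgebra
  have hs : IsScalarTower M L Ω := IsScalarTower.of_algebraMap_eq (fun x => rfl)
  have hs' : IsScalarTower ℚ M L := IsScalarTower.rat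
  obtain ⟨⟨Q, hQ1, hQ2⟩⟩ := Ideal.nonempty_primesOver (S := 𝓞 L) q
  have hQ3 : Q.LiesOver (center v ℚ) := Ideal.LiesOver.trans Q q (center v ℚ)
  obtain ⟨g, hg⟩ := exists_conj v L Q ⟨hQ1, hQ3⟩
  refine ⟨g, ?_⟩
  have h1 : (center (conj v g) L).LiesOver (center (conj v g) M) := liesOver (conj v g) M L
  rw [← hg] at h1
  exact h1.over.trans hQ2.over.symm

/-- The centre of a conjugate valuation on a number field is locally constant. -/
theorem isLocallyConstant_center (M : Type) [Field M] [NumberField M] [Algebra M Ω] :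
    IsLocallyConstant fun g : Gal(Ω/ℚ) => center (conj v g) M := by
  rw [IsLocallyConstant.iff_exists_open]
  intro g
  let f : M →ₐ[ℚ] Ω := (algebraMap M Ω).toRatAlgHom
  let E : IntermediateField ℚ Ω := f.fieldRange
  have hE : FiniteDimensional ℚ E := by
    exact (LinearMap.finiteDimensional_range f.toLinearMap)
  refine ⟨{h | g⁻¹ * h ∈ E.fixingSubgroup}, ?_, ?_, ?_⟩
  · exact (IntermediateField.fixingSubgroup_isOpen E).preimage (continuous_const_mul g⁻¹)
  · show g⁻¹ * g ∈ E.fixingSubgroup
    rw [inv_mul_cancel]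
    exact one_mem _
  · intro h hh
    have h1 : ∀ x : M, h (algebraMap M Ω x) = g (algebraMap M Ω x) := by
      intro x
      have h2 := (IntermediateField.mem_fixingSubgroup_iff E (g⁻¹ * h)).1 hh (algebraMap M Ω x)
        ⟨x, rfl⟩
      have h3 : g ((g⁻¹ * h) (algebraMap M Ω x)) = h (algebraMap M Ω x) := by
        rw [← AlgEquiv.mul_apply, mul_inv_cancel_left]
      rw [← h3, h2]
    ext b
    rw [mem_center, mem_center, conj_apply, conj_apply]
    show v (h (algebraMap M Ω _)) < 1 ↔ v (g (algebraMap M Ω _)) < 1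
    rw [h1]

end Run7.h339.AE
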