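import Pool.Agent.Run7.h339.AE3

/-!
# Extensions of valuations with bounded local degrees
-/

set_option autoImplicit false
set_option linter.unusedSectionVars false

namespace Run7.h339.AE

open NNReal NumberField IsDedekindDomain WithZero Pool.Agent.R614.GE

theorem center_comap {κ Ω : Type} [Field κ] [Field Ω] [Algebra κ Ω] (w : Valuation Ω ℝ≥0)
    (M : Type) [Field M] [NumberField M] [Algebra M κ] [Algebra M Ω] [IsScalarTower M κ Ω] :
    center (w.comap (algebraMap κ Ω)) M = center w M := by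
  ext b
  rw [mem_center, mem_center, Valuation.comap_apply]
  have : algebraMap κ Ω (io (κ := κ) M b) = io M b :=
    (IsScalarTower.algebraMap_apply M κ Ω _).symm
  rw [this]

theorem exists_adjoin {κ : Type} [Field κ] [CharZero κ] (L : FS κ) :
    ∃ a : κ, L.1 ≤ IntermediateField.adjoin ℚ {a} := by
  have hf : @FiniteDimensional ℚ L.1 _ _ L.1.algebra'.toModule := L.2
  have hsep : @Algebra.IsSeparable ℚ L.1 _ _ L.1.algebra' := inferInstance
  obtain ⟨α, hα⟩ := @Field.exists_primitive_element ℚ L.1 _ _ L.1.algebra' hf hsep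
  refine ⟨α, fun x hx => ?_⟩
  have h3 : (⟨x, hx⟩ : L.1) ∈ @IntermediateField.adjoin ℚ _ L.1 _ L.1.algebra' {α} := by
    rw [hα]
    trivial
  have h4 : L.1.val ⟨x, hx⟩ ∈
      (@IntermediateField.adjoin ℚ _ L.1 _ L.1.algebra' {α}).map L.1.val := ⟨_, h3, rfl⟩
  rw [IntermediateField.adjoin_map, Set.image_singleton] at h4
  exact h4

theorem exists_coeffs {F : Type} [Field F] [CharZero F] [Algebra.IsAlgebraic ℚ F] (E : FS F)
    (s : Set F) (hs : s.Finite) : ∃ E₀ : FS F, E.1 ≤ E₀.1 ∧ ∀ x ∈ s, x ∈ E₀.1 := by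
  have := hs.to_subtype
  have h1 : FiniteDimensional ℚ (IntermediateField.adjoin ℚ s) :=
    IntermediateField.finiteDimensional_adjoin fun x _ => Algebra.IsIntegral.isIntegral x
  exact ⟨fsSup E ⟨IntermediateField.adjoin ℚ s, h1⟩, le_sup_left,
    fun x hx => (le_sup_right : _ ≤ E.1 ⊔ _) (IntermediateField.subset_adjoin ℚ s hx)⟩

theorem center_mono {F : Type} [Field F] [CharZero F] {E E₀ : FS F} (h : E.1 ≤ E₀.1)
    {u u' : Valuation F ℝ≥0} (hu : center u E₀.1 = center u' E₀.1) :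
    center u E.1 = center u' E.1 := by
  let a : Algebra E.1 E₀.1 := (IntermediateField.inclusion h).toAlgebra
  have : IsScalarTower E.1 E₀.1 F := IsScalarTower.of_algebraMap_eq (fun x => rfl)
  have h1 : (center u E₀.1).LiesOver (center u E.1) := liesOver u E.1 E₀.1
  have h2 : (center u' E₀.1).LiesOver (center u' E.1) := liesOver u' E.1 E₀.1
  rw [hu] at h1
  exact h1.over.trans h2.over.symm

theorem ld_mono {F : Type} [Field F] [CharZero F] {E E₀ : FS F} (h : E.1 ≤ E₀.1)
    (u : Valuation F ℝ≥0) : ld (center u E.1) ∣ ld (center u E₀.1) := by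
  let a : Algebra E.1 E₀.1 := (IntermediateField.inclusion h).toAlgebra
  have : IsScalarTower E.1 E₀.1 F := IsScalarTower.of_algebraMap_eq (fun x => rfl)
  have h1 : (center u E₀.1).LiesOver (center u E.1) := liesOver u E.1 E₀.1
  exact ld_dvd _ _

variable {F κ Ω : Type} [Field F] [CharZero F] [Algebra.IsAlgebraic ℚ F] [Field κ] [CharZero κ]
  [Algebra.IsAlgebraic ℚ κ] [Field Ω] [CharZero Ω] [IsGalois ℚ Ω] [Algebra F κ] [Algebra κ Ω]
  (v : Valuation Ω ℝ≥0)

theorem exists_g (u : Valuation F ℝ≥0) (hu : ∃ a, 1 < u a) (hc : center u ℚ = center v ℚ)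
    {ℓ M₁ M₂ : ℕ} (hℓ : ℓ.Prime) (h1 : ∀ E : FS F, ¬ ℓ ^ M₁ ∣ ld (center u E.1))
    (h2 : ∀ a : κ, ¬ ℓ ^ M₂ ∣ (minpoly F a).natDegree) (E : FS F) (L : FS κ) :
    ∃ g : Gal(Ω/ℚ), center (((conj v g).comap (algebraMap κ Ω)).comap (algebraMap F κ)) E.1 =
      center u E.1 ∧ ¬ ℓ ^ (M₁ + M₂) ∣ ld (center ((conj v g).comap (algebraMap κ Ω)) L.1) := by
  classical
  obtain ⟨a, ha⟩ := exists_adjoin L
  have hFκ : Algebra.IsAlgebraic F κ := Algebra.IsAlgebraic.tower_top (K := ℚ) F
  have hint : IsIntegral F a := Algebra.IsIntegral.isIntegral a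
  obtain ⟨E₀, hE, hS'⟩ := exists_coeffs E ((minpoly F a).coeffs : Set F) (Finset.finite_toSet _)
  have hS : ∀ n, (minpoly F a).coeff n ∈ E₀.1.toSubfield := by
    intro n
    by_cases h : (minpoly F a).coeff n = 0
    · rw [h]
      exact zero_mem _
    · exact hS' _ (Polynomial.coeff_mem_coeffs h)
  obtain ⟨hint₀, hdeg⟩ := natDegree_eq (k := F) E₀.1.toSubfield hint hS
  have hint₁ : IsIntegral E₀.1 a := hint₀
  have hdeg₁ : (minpoly E₀.1 a).natDegree = (minpoly F a).natDegree := hdeg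
  obtain ⟨L₁, hL₁⟩ : ∃ L₁ : IntermediateField E₀.1 κ, L₁ = IntermediateField.adjoin E₀.1 {a} :=
    ⟨_, rfl⟩
  have hfd : FiniteDimensional E₀.1 L₁ := by
    rw [hL₁]
    exact IntermediateField.adjoin.finiteDimensional hint₁
  have hnum : NumberField L₁ := NumberField.of_module_finite E₀.1 L₁
  have hfin : Module.finrank E₀.1 L₁ = (minpoly F a).natDegree := by
    rw [hL₁, IntermediateField.adjoin.finrank hint₁, hdeg₁]
  have hmem : ∀ x ∈ L.1, x ∈ L₁ := by
    intro x hx
    have h3 : IntermediateField.adjoin ℚ {a} ≤ L₁.restrictScalars ℚ := by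
      rw [IntermediateField.adjoin_le_iff, Set.singleton_subset_iff, hL₁]
      exact IntermediateField.mem_adjoin_simple_self E₀.1 a
    exact h3 (ha hx)
  obtain ⟨q, hq, hq2⟩ := exists_prime_ld (M := E₀.1) (N := L₁) (center u E₀.1)
    (center_ne_bot u E₀.1 hu) hℓ (h1 E₀) (by rw [hfin]; exact h2 a)
  have hq1 : q.IsPrime := hq.1
  have hq3 : q.LiesOver (center u E₀.1) := hq.2
  have hq4 : (center u E₀.1).LiesOver (center v ℚ) := by
    rw [← hc]
    exact liesOver u ℚ E₀.1
  have hs : IsScalarTower ℚ E₀.1 L₁ := IsScalarTower.rat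
  have hq5 : q.LiesOver (center v ℚ) := Ideal.LiesOver.trans q (center u E₀.1) (center v ℚ)
  obtain ⟨g, hg⟩ := exists_conj_center v L₁ q ⟨hq1, hq5⟩
  have hw : center ((conj v g).comap (algebraMap κ Ω)) L₁ = q := by
    rw [center_comap]
    exact hg
  refine ⟨g, ?_, ?_⟩
  · have h4 : (center ((conj v g).comap (algebraMap κ Ω)) L₁).LiesOver
        (center ((conj v g).comap (algebraMap κ Ω)) E₀.1) :=
      liesOver ((conj v g).comap (algebraMap κ Ω)) E₀.1 L₁
    rw [hw] at h4
    have h5 : center (((conj v g).comap (algebraMap κ Ω)).comap (algebraMap F κ)) E₀.1 =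
        center u E₀.1 := by
      rw [center_comap]
      exact h4.over.trans hq3.over.symm
    exact center_mono hE h5
  · let b : Algebra L.1 L₁ :=
      ((algebraMap L.1 κ).codRestrict L₁ (fun x => hmem _ x.2)).toAlgebra
    have hb : IsScalarTower L.1 L₁ κ := IsScalarTower.of_algebraMap_eq (fun x => rfl)
    have h4 : (center ((conj v g).comap (algebraMap κ Ω)) L₁).LiesOver
        (center ((conj v g).comap (algebraMap κ Ω)) L.1) :=
      liesOver ((conj v g).comap (algebraMap κ Ω)) L.1 L₁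
    intro h5
    apply hq2
    rw [← hw]
    exact h5.trans (ld_dvd _ _)

end Run7.h339.AE
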