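import Pool.Agent.Run7.h339.AE4

/-!
# Extensions of valuations with bounded local degrees: compactness
-/

set_option autoImplicit false
set_option linter.unusedSectionVars false

namespace Run7.h339.AE

open NNReal NumberField IsDedekindDomain WithZero Pool.Agent.R614.GE

variable {F κ Ω : Type} [Field F] [CharZero F] [Algebra.IsAlgebraic ℚ F] [Field κ] [CharZero κ]
  [Algebra.IsAlgebraic ℚ κ] [Field Ω] [CharZero Ω] [IsGalois ℚ Ω] [Algebra F κ] [Algebra κ Ω]
  (v : Valuation Ω ℝ≥0)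

theorem isLocallyConstant_center' (M : Type) [Field M] [NumberField M] [Algebra M κ] :
    IsLocallyConstant fun g : Gal(Ω/ℚ) => center ((conj v g).comap (algebraMap κ Ω)) M := by
  let a : Algebra M Ω := ((algebraMap κ Ω).comp (algebraMap M κ)).toAlgebra
  have : IsScalarTower M κ Ω := IsScalarTower.of_algebraMap_eq (fun x => rfl)
  have h1 := isLocallyConstant_center v M
  have h2 : (fun g : Gal(Ω/ℚ) => center ((conj v g).comap (algebraMap κ Ω)) M) =
      fun g : Gal(Ω/ℚ) => center (conj v g) M := by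
    funext g
    exact center_comap (conj v g) M
  rw [h2]
  exact h1

theorem isClosed_of_locConst {X Y : Type} [TopologicalSpace X] {f : X → Y}
    (hf : IsLocallyConstant f) (P : Y → Prop) : IsClosed {x | P (f x)} :=
  isOpen_compl_iff.1 (hf {y | P y}ᶜ)

/-- the set of automorphisms which are good for a pair of finite subextensions -/
def T (u : Valuation F ℝ≥0) (ℓ m : ℕ) (x : FS F × FS κ) : Set Gal(Ω/ℚ) :=
  {g | center (((conj v g).comap (algebraMap κ Ω)).comap (algebraMap F κ)) x.1.1 =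
      center u x.1.1} ∩
    {g | ¬ ℓ ^ m ∣ ld (center ((conj v g).comap (algebraMap κ Ω)) x.2.1)}

theorem isClosed_T (u : Valuation F ℝ≥0) (ℓ m : ℕ) (x : FS F × FS κ) :
    IsClosed (T v u ℓ m x) := by
  refine IsClosed.inter ?_ ?_
  · have h1 := isClosed_of_locConst (isLocallyConstant_center' (κ := κ) v x.1.1)
      (fun q => q = center u x.1.1)
    have h2 : ∀ g : Gal(Ω/ℚ),
        center (((conj v g).comap (algebraMap κ Ω)).comap (algebraMap F κ)) x.1.1 =
        center ((conj v g).comap (algebraMap κ Ω)) x.1.1 := fun g => center_comap _ _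
    simp only [h2]
    exact h1
  · exact isClosed_of_locConst (isLocallyConstant_center' (κ := κ) v x.2.1)
      (fun q => ¬ ℓ ^ m ∣ ld q)

theorem directed_T (u : Valuation F ℝ≥0) (ℓ m : ℕ) :
    Directed (· ⊇ ·) (T (κ := κ) (Ω := Ω) v u ℓ m) := by
  have key : ∀ x y : FS F × FS κ, x.1.1 ≤ y.1.1 → x.2.1 ≤ y.2.1 →
      T v u ℓ m y ⊆ T (κ := κ) (Ω := Ω) v u ℓ m x := by
    rintro x y h1 h2 g ⟨hg1, hg2⟩
    refine ⟨center_mono h1 hg1, fun h => hg2 (h.trans (ld_mono h2 _))⟩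
  intro x y
  exact ⟨(fsSup x.1 y.1, fsSup x.2 y.2), key _ _ le_sup_left le_sup_left,
    key _ _ le_sup_right le_sup_right⟩

theorem exists_all_g (u : Valuation F ℝ≥0) (hu : ∃ a, 1 < u a) (hc : center u ℚ = center v ℚ)
    {ℓ M₁ M₂ : ℕ} (hℓ : ℓ.Prime) (h1 : ∀ E : FS F, ¬ ℓ ^ M₁ ∣ ld (center u E.1))
    (h2 : ∀ a : κ, ¬ ℓ ^ M₂ ∣ (minpoly F a).natDegree) :
    ∃ g : Gal(Ω/ℚ), (∀ E : FS F,
      center (((conj v g).comap (algebraMap κ Ω)).comap (algebraMap F κ)) E.1 =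
      center u E.1) ∧
      ∀ L : FS κ, ¬ ℓ ^ (M₁ + M₂) ∣ ld (center ((conj v g).comap (algebraMap κ Ω)) L.1) := by
  have hne : ∀ x : FS F × FS κ, (T (Ω := Ω) v u ℓ (M₁ + M₂) x).Nonempty := by
    rintro ⟨E, L⟩
    obtain ⟨g, hg1, hg2⟩ := exists_g v u hu hc hℓ h1 h2 E L
    exact ⟨g, hg1, hg2⟩
  have : Nonempty (FS F × FS κ) := ⟨(fsAdj 0, fsAdj 0)⟩
  obtain ⟨g, hg⟩ := IsCompact.nonempty_iInter_of_directed_nonempty_isCompact_isClosed
    (T (Ω := Ω) v u ℓ (M₁ + M₂)) (directed_T v u ℓ (M₁ + M₂)) hne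
    (fun x => (isClosed_T v u ℓ (M₁ + M₂) x).isCompact)
    (fun x => isClosed_T v u ℓ (M₁ + M₂) x)
  rw [Set.mem_iInter] at hg
  exact ⟨g, fun E => (hg (E, fsAdj 0)).1, fun L => (hg (fsAdj 0, L)).2⟩

theorem isEquiv_of_center {u w : Valuation F ℝ≥0} (hu : ∃ a, 1 < u a) (hw : ∃ a, 1 < w a)
    (h : ∀ E : FS F, center w E.1 = center u E.1) : u.IsEquiv w := by
  rw [Valuation.isEquiv_iff_valuationSubring]
  ext x
  rw [Valuation.mem_valuationSubring_iff, Valuation.mem_valuationSubring_iff]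
  have h1 := val_le_one_iff u (fsAdj x).1 hu ⟨x, mem_fsAdj x⟩
  have h2 := val_le_one_iff w (fsAdj x).1 hw ⟨x, mem_fsAdj x⟩
  have h3 : spec u (fsAdj x).1 hu = spec w (fsAdj x).1 hw := HeightOneSpectrum.ext (h _).symm
  rw [h3] at h1
  exact h1.symm.trans h2

/-- A valuation of `F` with `ℓ`-bounded local degrees extends to a valuation of `κ` with
`ℓ`-bounded local degrees if the degrees of the elements of `κ` over `F` are `ℓ`-bounded. -/
theorem exists_val (u : Valuation F ℝ≥0) (hu : ∃ a, 1 < u a)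
    {ℓ M₁ M₂ : ℕ} (hℓ : ℓ.Prime) (h1 : ∀ E : FS F, ¬ ℓ ^ M₁ ∣ ld (center u E.1))
    (h2 : ∀ a : κ, ¬ ℓ ^ M₂ ∣ (minpoly F a).natDegree) :
    ∃ w : Valuation κ ℝ≥0, (∃ a, 1 < w a) ∧ u.IsEquiv (w.comap (algebraMap F κ)) ∧
      ∀ L : FS κ, ¬ ℓ ^ (M₁ + M₂) ∣ ld (center w L.1) := by
  have hchar : CharZero (AlgebraicClosure κ) :=
    charZero_of_injective_algebraMap (algebraMap κ (AlgebraicClosure κ)).injective
  have halg : Algebra.IsAlgebraic ℚ (AlgebraicClosure κ) := Algebra.IsAlgebraic.trans ℚ κ _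
  have hcl : IsAlgClosure ℚ (AlgebraicClosure κ) := ⟨inferInstance, halg⟩
  have hgal : IsGalois ℚ (AlgebraicClosure κ) := inferInstance
  obtain ⟨p, hp, hup⟩ := exists_char u hu
  obtain ⟨v, hv, -⟩ := exists_padic ℚ (κ := AlgebraicClosure κ) p hp
  have hc : center u ℚ = center v ℚ := center_rat_eq u v p hp hup hv
  obtain ⟨g, hg1, hg2⟩ := exists_all_g v u hu hc hℓ h1 h2
  have hw : ∀ n : ℕ, (conj v g).comap (algebraMap κ (AlgebraicClosure κ)) (n : κ) = v n := by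
    intro n
    rw [Valuation.comap_apply, conj_apply, map_natCast, map_natCast]
  have hp0 : v (p : AlgebraicClosure κ) ≠ 0 :=
    (Valuation.ne_zero_iff _).2 (Nat.cast_ne_zero.2 hp.ne_zero)
  have hinv : 1 < (v (p : AlgebraicClosure κ))⁻¹ :=
    (one_lt_inv₀ (pos_iff_ne_zero.2 hp0)).2 hv
  refine ⟨(conj v g).comap (algebraMap κ (AlgebraicClosure κ)), ⟨(p : κ)⁻¹, ?_⟩, ?_, hg2⟩
  · rw [map_inv₀, hw]
    exact hinv
  · refine isEquiv_of_center hu ⟨(p : F)⁻¹, ?_⟩ hg1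
    rw [map_inv₀, Valuation.comap_apply, map_natCast, hw]
    exact hinv

end Run7.h339.AE
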