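import Pool.Agent.Run7.h339.CS4

/-!
# The main construction
-/

set_option autoImplicit false

namespace Run7.h339.CS

open Matrix Polynomial Complex Filter Topology Module
open Pool.Agent.W305.NC (Coords finrank_add_one exists_cpx)
open Pool.Agent.W305.LC (coords_gen even_of_sq)

/-- the subspace spanned by the `T ^ n a` and the `T ^ n b` -/
def cyc {V : Type} [AddCommGroup V] [Module ℝ V] (T : V →ₗ[ℝ] V) (a b : V) : Submodule ℝ V :=
  Submodule.span ℝ {v | ∃ n : ℕ, v = (T ^ n) a ∨ v = (T ^ n) b}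

theorem coords_four {V : Type} [NormedAddCommGroup V] [NormedSpace ℝ V] [FiniteDimensional ℝ V]
    (β : V →ₗ[ℝ] V →ₗ[ℝ] V) (halt : ∀ x, β x x = 0) (hst : ∀ x y z, β (β x y) z = 0)
    {k : ℕ} (hk : finrank ℝ V = 2 * k)
    (hD : finrank ℝ (Submodule.span ℝ {v | ∃ x y, β x y = v}) ≤ 4)
    (φ ψ : V →ₗ[ℝ] ℝ) (hφ : ∀ x, (∀ y, φ (β x y) = 0) → β x = 0)
    (hind : ∀ s t : ℝ, (∀ x y, s * φ (β x y) + t * ψ (β x y) = 0) → s = 0 ∧ t = 0)
    (T : V →ₗ[ℝ] V) (hT : ∀ x y, φ (β (T x) y) = ψ (β x y))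
    (ι : Type) [Fintype ι] (a b : ι → V)
    (hcomm : ∀ i j, i ≠ j → ∀ x ∈ cyc T (a i) (b i), ∀ y ∈ cyc T (a j) (b j), β x y = 0)
    (hgen : LinearMap.ker β ⊔ ⨆ i, cyc T (a i) (b i) = ⊤) : Coords β k := by
  classical
  have ha : ∀ p q, β p q = - β q p := fun p q => by
    have h1 := halt (p + q)
    simp only [map_add, LinearMap.add_apply, halt, zero_add, add_zero] at h1
    exact eq_neg_of_add_eq_zero_right h1
  have hZ1 : ∀ x y, β x y ∈ LinearMap.ker β := fun x y =>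
    LinearMap.mem_ker.2 (LinearMap.ext fun z => hst x y z)
  have h1 : ∀ (z : LinearMap.ker β) (x : V), β (z : V) x = 0 := fun z x => by
    rw [LinearMap.mem_ker.1 z.2]
    rfl
  have h2 : ∀ (x : V) (z : LinearMap.ker β), β x (z : V) = 0 := fun x z => by
    rw [ha, h1, neg_zero]
  -- a complement of the centre
  obtain ⟨U, hU⟩ := Submodule.exists_isCompl (LinearMap.ker β)
  set n := finrank ℝ U with hn
  let eU : U ≃ₗ[ℝ] (Fin n → ℝ) := (finBasis ℝ U).equivFun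
  let E0 : (U × LinearMap.ker β) ≃ₗ[ℝ] V := Submodule.prodEquivOfIsCompl U (LinearMap.ker β) hU.symm
  have hE0 : ∀ p, E0 p = (p.1 : V) + (p.2 : V) := fun p => rfl
  -- the coordinates of the `U`-component
  let π : V →ₗ[ℝ] (Fin n → ℝ) :=
    (eU : U →ₗ[ℝ] (Fin n → ℝ)) ∘ₗ LinearMap.fst ℝ U (LinearMap.ker β) ∘ₗ
      (E0.symm : V →ₗ[ℝ] (U × LinearMap.ker β))
  have hπ : ∀ v, β v = β ((eU.symm (π v) : U) : V) := fun v => by
    obtain ⟨p, rfl⟩ := E0.surjective v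
    have h3 : π (E0 p) = eU p.1 := by
      change eU (E0.symm (E0 p)).1 = _
      rw [E0.symm_apply_apply]
    rw [h3, eU.symm_apply_apply, hE0, map_add, LinearMap.mem_ker.1 p.2.2, add_zero]
  have hπU : ∀ x : Fin n → ℝ, π ((eU.symm x : U) : V) = x := fun x => by
    have h3 : ((eU.symm x : U) : V) = E0 (eU.symm x, 0) := by
      rw [hE0]
      simp
    change eU (E0.symm ((eU.symm x : U) : V)).1 = x
    rw [h3, E0.symm_apply_apply, eU.apply_symm_apply]
  have hππ : ∀ v w, β v w = β ((eU.symm (π v) : U) : V) ((eU.symm (π w) : U) : V) := fun v w => by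
    rw [hπ v, ha, hπ w, ← ha]
  -- the matrix of a functional
  let S : (V →ₗ[ℝ] ℝ) → Matrix (Fin n) (Fin n) ℝ := fun χ =>
    Matrix.of fun i j => χ (β ((eU.symm (Pi.single i 1) : U) : V) ((eU.symm (Pi.single j 1) : U) : V))
  have hS : ∀ χ : V →ₗ[ℝ] ℝ, ∀ x y : Fin n → ℝ,
      x ⬝ᵥ (S χ *ᵥ y) = χ (β ((eU.symm x : U) : V) ((eU.symm y : U) : V)) := by
    intro χ x y
    have h3 : ∀ x : Fin n → ℝ, ((eU.symm x : U) : V) =
        ∑ i, x i • ((eU.symm (Pi.single i 1) : U) : V) := fun x => by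
      conv_lhs => rw [← Finset.univ_sum_single x]
      rw [map_sum, Submodule.coe_sum]
      refine Finset.sum_congr rfl fun i _ => ?_
      have h4 : (Pi.single i (x i) : Fin n → ℝ) = x i • Pi.single i 1 := by
        rw [← Pi.single_smul, smul_eq_mul, mul_one]
      rw [h4, map_smul, Submodule.coe_smul]
    rw [h3 x, h3 y]
    simp only [dotProduct, Matrix.mulVec, map_smul, LinearMap.smul_apply, map_sum,
      LinearMap.sum_apply, smul_eq_mul, Finset.mul_sum, S, Matrix.of_apply]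
    rw [Finset.sum_comm]
    refine Finset.sum_congr rfl fun i _ => Finset.sum_congr rfl fun j _ => ?_
    ring
  have hSπ : ∀ χ : V →ₗ[ℝ] ℝ, ∀ v w : V, π v ⬝ᵥ (S χ *ᵥ π w) = χ (β v w) := fun χ v w => by
    rw [hS, ← hππ]
  have hskew : ∀ χ, (S χ)ᵀ = -(S χ) := fun χ => by
    ext i j
    rw [Matrix.transpose_apply, Matrix.neg_apply]
    change χ (β _ _) = -χ (β _ _)
    rw [ha, map_neg]
  have hdot : ∀ v w : Fin n → ℝ, (∀ x, x ⬝ᵥ v = x ⬝ᵥ w) → v = w := fun v w h => by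
    ext i
    have h3 := h (Pi.single i 1)
    rwa [single_dotProduct, single_dotProduct, one_mul, one_mul] at h3
  have hdet : (S φ).det ≠ 0 := by
    intro h0
    obtain ⟨y, hy0, hy⟩ := Matrix.exists_mulVec_eq_zero_iff.2 h0
    apply hy0
    have h3 : β ((eU.symm y : U) : V) = 0 := by
      refine hφ _ fun v => ?_
      rw [ha, map_neg, neg_eq_zero, ← hSπ, hπU, hy, dotProduct_zero]
    have h4 : ((eU.symm y : U) : V) ∈ LinearMap.ker β ⊓ U :=
      ⟨LinearMap.mem_ker.2 h3, (eU.symm y).2⟩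
    rw [hU.inf_eq_bot] at h4
    have h5 : eU.symm y = 0 := Subtype.ext ((Submodule.mem_bot ℝ).1 h4)
    rw [← eU.apply_symm_apply y, h5, map_zero]
  -- the operator
  have hT0 : ∀ v, ((S φ)⁻¹ * S ψ) *ᵥ π v = π (T v) := fun v => by
    have h3 : S φ *ᵥ π (T v) = S ψ *ᵥ π v := by
      refine hdot _ _ fun x => ?_
      rw [← hπU x, hSπ, hSπ, ha, map_neg, hT, ← map_neg, ← ha]
    rw [← Matrix.mulVec_mulVec, ← h3, Matrix.mulVec_mulVec,
      Matrix.nonsing_inv_mul _ (isUnit_iff_ne_zero.2 hdet), Matrix.one_mulVec]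
  have hTk : ∀ (m : ℕ) v, (((S φ)⁻¹ * S ψ) ^ m) *ᵥ π v = π ((T ^ m) v) := fun m v => by
    induction m with
    | zero => simp
    | succ m ih =>
      rw [pow_succ', ← Matrix.mulVec_mulVec, ih, hT0, pow_succ', Module.End.mul_apply]
  have hcyc : ∀ u w : V, ∀ x ∈ cy ((S φ)⁻¹ * S ψ) (π u) (π w), ∃ v ∈ cyc T u w, π v = x := by
    intro u w x hx
    refine Submodule.span_induction ?_ ?_ ?_ ?_ hx
    · rintro _ ⟨m, rfl | rfl⟩
      · exact ⟨(T ^ m) u, Submodule.subset_span ⟨m, Or.inl rfl⟩, (hTk m u).symm⟩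
      · exact ⟨(T ^ m) w, Submodule.subset_span ⟨m, Or.inr rfl⟩, (hTk m w).symm⟩
    · exact ⟨0, Submodule.zero_mem _, map_zero _⟩
    · rintro _ _ _ _ ⟨v, hv, rfl⟩ ⟨v', hv', rfl⟩
      exact ⟨v + v', Submodule.add_mem _ hv hv', map_add _ _ _⟩
    · rintro c _ _ ⟨v, hv, rfl⟩
      exact ⟨c • v, Submodule.smul_mem _ _ hv, map_smul _ _ _⟩
  have hcyc' : ∀ u w : V, ∀ v ∈ cyc T u w, π v ∈ cy ((S φ)⁻¹ * S ψ) (π u) (π w) := by
    intro u w v hv
    refine Submodule.span_induction ?_ ?_ ?_ ?_ hv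
    · rintro _ ⟨m, rfl | rfl⟩
      · exact Submodule.subset_span ⟨m, Or.inl (hTk m u).symm⟩
      · exact Submodule.subset_span ⟨m, Or.inr (hTk m w).symm⟩
    · rw [map_zero]
      exact Submodule.zero_mem _
    · intro v v' _ _ h3 h4
      rw [map_add]
      exact Submodule.add_mem _ h3 h4
    · intro c v _ h3
      rw [map_smul]
      exact Submodule.smul_mem _ _ h3
  have horth : ∀ χ : V →ₗ[ℝ] ℝ, ∀ i j, i ≠ j →
      ∀ x ∈ cy ((S φ)⁻¹ * S ψ) (π (a i)) (π (b i)),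
      ∀ y ∈ cy ((S φ)⁻¹ * S ψ) (π (a j)) (π (b j)), x ⬝ᵥ (S χ *ᵥ y) = 0 := by
    intro χ i j hij x hx y hy
    obtain ⟨v, hv, rfl⟩ := hcyc _ _ x hx
    obtain ⟨w, hw, rfl⟩ := hcyc _ _ y hy
    rw [hSπ, hcomm i j hij v hv w hw, map_zero]
  have hgen' : ∀ x : Fin n → ℝ, ∃ w : ι → (Fin n → ℝ),
      (∀ i, w i ∈ cy ((S φ)⁻¹ * S ψ) (π (a i)) (π (b i))) ∧ x = ∑ i, w i := by
    intro x
    have h3 : ((eU.symm x : U) : V) ∈ LinearMap.ker β ⊔ ⨆ i, cyc T (a i) (b i) := by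
      rw [hgen]
      trivial
    obtain ⟨c, hc, d, hd, hcd⟩ := Submodule.mem_sup.1 h3
    have h4 : π c = 0 := by
      have h5 : c = E0 (0, ⟨c, hc⟩) := by
        rw [hE0]
        simp
      change eU (E0.symm c).1 = 0
      rw [h5, E0.symm_apply_apply, map_zero]
    have h6 : x = π d := by
      rw [← hπU x, ← hcd, map_add, h4, zero_add]
    rw [h6]
    refine Submodule.iSup_induction (fun i => cyc T (a i) (b i))
      (motive := fun d => ∃ w : ι → (Fin n → ℝ),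
        (∀ i, w i ∈ cy ((S φ)⁻¹ * S ψ) (π (a i)) (π (b i))) ∧ π d = ∑ i, w i) hd ?_ ?_ ?_
    · intro i v hv
      refine ⟨Pi.single i (π v), fun j => ?_, ?_⟩
      · by_cases hij : j = i
        · subst hij
          rw [Pi.single_eq_same]
          exact hcyc' _ _ v hv
        · rw [Pi.single_eq_of_ne hij]
          exact Submodule.zero_mem _
      · rw [Finset.sum_eq_single i (fun j _ hj => Pi.single_eq_of_ne hj _)
          (fun h => absurd (Finset.mem_univ _) h), Pi.single_eq_same]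
    · exact ⟨0, fun i => Submodule.zero_mem _, by simp⟩
    · rintro v v' ⟨w, hw, hws⟩ ⟨w', hw', hws'⟩
      exact ⟨w + w', fun i => Submodule.add_mem _ (hw i) (hw' i), by
        rw [map_add, hws, hws', ← Finset.sum_add_distrib]
        rfl⟩
  -- the dimension
  have hbl := fun C D : V →ₗ[ℝ] ℝ => blocks (A := S φ) (B := S ψ) (C := S C) (D := S D)
    (hskew φ) (hskew ψ) (hskew C) (hskew D) hdet (fun i => π (a i)) (fun i => π (b i))
    (horth φ) (horth ψ) (horth C) (horth D) hgen'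
  have hfr := Submodule.finrank_add_eq_of_isCompl hU
  rw [hk] at hfr
  have hneven : Even n := by
    obtain ⟨ε, J, hJ, -⟩ := (hbl 0 0).exists
    have := even_of_sq J hJ
    simpa using this
  -- the commutators
  set D := Submodule.span ℝ {v | ∃ x y, β x y = v} with hDd
  have hDm : ∀ x y, β x y ∈ D := fun x y => Submodule.subset_span ⟨x, y, rfl⟩
  have hDC : D ≤ LinearMap.ker β := by
    rw [hDd, Submodule.span_le]
    rintro _ ⟨x, y, rfl⟩
    exact hZ1 x y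
  by_cases hsmall : finrank ℝ (LinearMap.ker β) ≤ 3
  · have h3 : Even (finrank ℝ (LinearMap.ker β)) := by
      have h4 : Even (2 * k) := even_two_mul k
      rw [← hfr, Nat.even_add] at h4
      exact h4.2 hneven
    have h5 := Submodule.finrank_mono hDC
    obtain ⟨r, hr⟩ := h3
    exact Pool.Agent.W305.NC.coords β halt hst hk (by
      rw [← hDd]
      omega)
  push Not at hsmall
  -- a subspace of dimension four
  obtain ⟨W, hDW, hWC, hW⟩ : ∃ W : Submodule ℝ V, D ≤ W ∧ W ≤ LinearMap.ker β ∧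
      finrank ℝ W = 4 := by
    have key : ∀ m : ℕ, ∀ D' : Submodule ℝ V, D' ≤ LinearMap.ker β → finrank ℝ D' + m = 4 →
        ∃ W : Submodule ℝ V, D' ≤ W ∧ W ≤ LinearMap.ker β ∧ finrank ℝ W = 4 := by
      intro m
      induction m with
      | zero => exact fun D' h3 h4 => ⟨D', le_rfl, h3, h4⟩
      | succ m ih =>
        intro D' h3 h4
        obtain ⟨D2, h5, h6, h7⟩ := finrank_add_one h3 (by omega)
        obtain ⟨W, h8, h9, h10⟩ := ih D2 h6 (by omega)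
        exact ⟨W, h5.trans h8, h9, h10⟩
    exact key (4 - finrank ℝ D) D hDC (by omega)
  have hβW : ∀ x y, β x y ∈ W := fun x y => hDW (hDm x y)
  -- the complement of `W` in the centre
  obtain ⟨C, hC⟩ := Submodule.exists_isCompl (W.comap (LinearMap.ker β).subtype)
  let W' : Submodule ℝ (LinearMap.ker β) := W.comap (LinearMap.ker β).subtype
  have hW' : finrank ℝ W' = 4 := by
    rw [← hW]
    exact (Submodule.comapSubtypeEquivOfLe hWC).finrank_eq
  have hfC := Submodule.finrank_add_eq_of_isCompl hC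
  have hCe : ∃ c, finrank ℝ C = 2 * c := by
    obtain ⟨r, hr⟩ := hneven
    refine ⟨k - r - 2, ?_⟩
    change finrank ℝ W' + _ = _ at hfC
    omega
  obtain ⟨c, hc⟩ := hCe
  obtain ⟨K', hK'⟩ := exists_cpx hc
  -- the functionals
  let inc : W' →ₗ[ℝ] V := (LinearMap.ker β).subtype ∘ₗ W'.subtype
  have hind' : ∀ s t : ℝ, (∀ w, s * (φ ∘ₗ inc) w + t * (ψ ∘ₗ inc) w = 0) → s = 0 ∧ t = 0 := by
    intro s t h3
    refine hind s t fun x y => ?_
    exact h3 ⟨⟨β x y, hZ1 x y⟩, hβW x y⟩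
  obtain ⟨χ₁', χ₂', hχ⟩ := exists_chi hW' (φ ∘ₗ inc) (ψ ∘ₗ inc) hind'
  have hincj : Function.Injective inc :=
    (Submodule.injective_subtype _).comp (Submodule.injective_subtype _)
  obtain ⟨ρ, hρ⟩ := LinearMap.exists_leftInverse_of_injective inc
    (LinearMap.ker_eq_bot.2 hincj)
  have hρ' : ∀ w, ρ (inc w) = w := fun w => LinearMap.congr_fun hρ w
  let χ₁ : V →ₗ[ℝ] ℝ := χ₁' ∘ₗ ρ
  let χ₂ : V →ₗ[ℝ] ℝ := χ₂' ∘ₗ ρ
  have hχ₁ : ∀ w, χ₁ (inc w) = χ₁' w := fun w => by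
    change χ₁' (ρ (inc w)) = _
    rw [hρ']
  have hχ₂ : ∀ w, χ₂ (inc w) = χ₂' w := fun w => by
    change χ₂' (ρ (inc w)) = _
    rw [hρ']
  obtain ⟨ε, ⟨J0, hJ0, hN⟩, hε⟩ :=
    (((hbl χ₁ χ₂).filter_mono nhdsWithin_le_nhds).and
      (self_mem_nhdsWithin : {0}ᶜ ∈ 𝓝[≠] (0 : ℝ))).exists
  obtain ⟨K4, hK4, hK4'⟩ := exists_K hW' (φ ∘ₗ inc) (ψ ∘ₗ inc) χ₁' χ₂' hχ (ε := ε) hε
  -- the bracket
  let σ4 : U →ₗ[ℝ] U →ₗ[ℝ] W' := LinearMap.mk₂ ℝ (fun u w => ⟨⟨β u w, hZ1 _ _⟩, hβW _ _⟩)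
    (fun u u' w => by
      ext
      simp)
    (fun r u w => by
      ext
      simp)
    (fun u w w' => by
      ext
      simp)
    (fun r u w => by
      ext
      simp)
  have hσ4 : ∀ u w, inc (σ4 u w) = β u w := fun u w => rfl
  let σ : U →ₗ[ℝ] U →ₗ[ℝ] (W' × C) :=
    LinearMap.mk₂ ℝ (fun u w => (σ4 u w, 0))
      (fun u u' w => by simp)
      (fun r u w => by simp)
      (fun u w w' => by simp)
      (fun r u w => by simp)
  have hσd : ∀ u w, σ u w = (σ4 u w, 0) := fun u w => rfl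
  let J : U →ₗ[ℝ] U := (eU.symm : (Fin n → ℝ) →ₗ[ℝ] U) ∘ₗ J0 ∘ₗ (eU : U →ₗ[ℝ] (Fin n → ℝ))
  have hJd : ∀ u, J u = eU.symm (J0 (eU u)) := fun u => rfl
  have hJJ : ∀ u, J (J u) = -u := fun u => by
    rw [hJd, hJd, eU.apply_symm_apply, hJ0, map_neg, eU.symm_apply_apply]
  -- the values of the forms
  have hF : ∀ (A' C' : V →ₗ[ℝ] ℝ) (u w : U), cx (eU u) ⬝ᵥ (mc (S A') (S C') ε *ᵥ cx (eU w)) =
      ((A' (β u w) : ℝ) : ℂ) + ((ε : ℂ) * I) * ((C' (β u w) : ℝ) : ℂ) := by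
    intro A' C' u w
    rw [mc_dot, cx_dot, cx_dot, hS, hS, eU.symm_apply_apply, eU.symm_apply_apply]
  have hexp : ∀ (A' C' : V →ₗ[ℝ] ℝ) (u w : U),
      (cx (eU u) + I • cx (J0 (eU u))) ⬝ᵥ
        (mc (S A') (S C') ε *ᵥ (cx (eU w) + I • cx (J0 (eU w)))) = 0 →
      ((A' (β (J u) (J w) - β u w) : ℝ) : ℂ) +
          ((ε : ℂ) * I) * ((C' (β (J u) (J w) - β u w) : ℝ) : ℂ) =
        I * (((A' (β (J u) w + β u (J w)) : ℝ) : ℂ) +
          ((ε : ℂ) * I) * ((C' (β (J u) w + β u (J w)) : ℝ) : ℂ)) := by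
    intro A' C' u w h3
    have h4 : ∀ u, J0 (eU u) = eU (J u) := fun u => by rw [hJd, eU.apply_symm_apply]
    rw [h4, h4, Matrix.mulVec_add, dotProduct_add, add_dotProduct, add_dotProduct,
      Matrix.mulVec_smul, dotProduct_smul, dotProduct_smul, smul_dotProduct, smul_dotProduct,
      hF, hF, hF, hF] at h3
    simp only [map_sub, map_add, smul_eq_mul] at h3 ⊢
    push_cast
    linear_combination (-1 : ℂ) * h3 + (((A' (β (J u) (J w)) : ℝ) : ℂ) +
      ((ε : ℂ) * I) * ((C' (β (J u) (J w)) : ℝ) : ℂ)) * I_mul_I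
  let K : (W' × C) →ₗ[ℝ] (W' × C) := LinearMap.prodMap K4 K'
  have hK : ∀ z, K z = (K4 z.1, K' z.2) := fun z => rfl
  let E : (U × (W' × C)) ≃ₗ[ℝ] V :=
    (LinearEquiv.prodCongr (LinearEquiv.refl ℝ U) (Submodule.prodEquivOfIsCompl W' C hC)).trans E0
  have hE : ∀ p, E p = (p.1 : V) + (((p.2.1 : LinearMap.ker β) : V) + ((p.2.2 : LinearMap.ker β) : V)) :=
    fun p => rfl
  refine coords_gen β hk σ J K (fun u => ?_) hJJ (fun z => ?_) (fun u w => ?_) E fun p q => ?_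
  · rw [hσd]
    have h3 : σ4 u u = 0 := by
      apply hincj
      rw [hσ4, map_zero, halt]
    rw [h3]
    rfl
  · rw [hK, hK, hK4, hK']
    rfl
  · obtain ⟨h3, h4⟩ := hN (eU u) (eU w)
    have h5 := hexp φ χ₁ u w h3
    have h6 := hexp ψ χ₂ u w h4
    have h7 : K4 (σ4 (J u) w + σ4 u (J w)) = σ4 (J u) (J w) - σ4 u w := by
      apply hK4'
      · simp only [LinearMap.comp_apply]
        rw [← hχ₁, ← hχ₁, map_add, map_sub, hσ4, hσ4, hσ4, hσ4]
        exact h5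
      · simp only [LinearMap.comp_apply]
        rw [← hχ₂, ← hχ₂, map_add, map_sub, hσ4, hσ4, hσ4, hσ4]
        exact h6
    rw [hK, hσd, hσd, hσd, hσd]
    refine Prod.ext ?_ ?_
    · exact h7
    · simp
  · rw [hE, hE, hE, hσd]
    simp only [map_add, LinearMap.add_apply, h1, h2, add_zero, Submodule.coe_zero, zero_add]
    rfl

end Run7.h339.CS
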